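import Pool.Agent.Run7.h772.MM.Zz

set_option autoImplicit false

/-!
# Moments of moments near the critical line: one formula in the subcritical case
-/

namespace Run7.h772.MM

open Finset Filter MeasureTheory Topology Complex
open Pool.Agent.N748.MG Pool.Agent.N748.MJ

/-- the limit for the windows of length `r` -/
noncomputable def Fs (n : ℕ) (k r : ℝ) : ℝ := ∫ u : Fin (n + 1) → ℝ, Ar k (fun j => r * u j) *
  ∏ j, ∏ i : Fin n, Z 0 (r * (u j - u (j.succAbove i))) ^ (k * k) ∂(pn (n + 1) 1)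

/-- the integral for the short windows -/
noncomputable def Sg (n : ℕ) (c : ℝ) : ℝ :=
  ∫ u : Fin (n + 1) → ℝ, ∏ j, ∏ i : Fin n, |u j - u (j.succAbove i)| ^ (-c) ∂(pn (n + 1) 1)

/-- the normalized main term -/
noncomputable def NJ (k δ : ℝ) (n : ℕ) (H : ℝ) : ℝ :=
  (2 * δ) ^ (k * k * (n + 1)) * ((1 / H) ^ (n + 1) * JJ k δ (n + 1) H)

lemma Sg_pos (n : ℕ) {k : ℝ} (hκ : k * k * (n + 1) < 1) : 0 < Sg n (k * k) := by
  have hkk : 0 ≤ k * k := mul_self_nonneg k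
  have hae := (ae_ne n).and (pn_ae (n + 1) 1)
  have hint : Integrable (fun u : Fin (n + 1) → ℝ => ∏ j, ∏ i : Fin n, |u j - u (j.succAbove i)| ^ (-(k * k)))
      (pn (n + 1) 1) := by
    refine (integrable_finsetSum univ fun j _ => ker_int hκ n j).mono' ?_ ?_
    · have : Measurable fun u : Fin (n + 1) → ℝ => ∏ j, ∏ i : Fin n, |u j - u (j.succAbove i)| ^ (-(k * k)) := by
        fun_prop
      exact this.aestronglyMeasurable
    · refine Eventually.of_forall fun u => ?_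
      have hn0 : ∀ j, 0 ≤ ∏ i : Fin n, |u j - u (j.succAbove i)| ^ (-(k * k)) := fun j =>
        Finset.prod_nonneg fun i _ => Real.rpow_nonneg (abs_nonneg _) _
      rw [Real.norm_of_nonneg (Finset.prod_nonneg fun j _ => hn0 j)]
      refine (prod_le_sum_pow _ hn0).trans (le_of_eq ?_)
      refine Finset.sum_congr rfl fun j _ => ?_
      rw [← Finset.prod_pow]
      refine Finset.prod_congr rfl fun i _ => ?_
      rw [← Real.rpow_natCast, ← Real.rpow_mul (abs_nonneg _)]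
      congr 1
      push_cast
      ring
  have h1 : ∫ _u : Fin (n + 1) → ℝ, (1:ℝ) ∂(pn (n + 1) 1) ≤ Sg n (k * k) := by
    refine integral_mono_ae (integrable_const 1) hint ?_
    filter_upwards [hae] with u hu
    show (1:ℝ) ≤ ∏ j, ∏ i : Fin n, |u j - u (j.succAbove i)| ^ (-(k * k))
    have h2 : ∀ j (i : Fin n), 1 ≤ |u j - u (j.succAbove i)| ^ (-(k * k)) := by
      intro j i
      have h3 : 0 < |u j - u (j.succAbove i)| := abs_pos.2 (sub_ne_zero.2 (hu.1 j i))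
      have h4 : |u j - u (j.succAbove i)| ≤ 1 := by
        rw [abs_le]
        constructor <;> linarith [(hu.2 j).1, (hu.2 j).2, (hu.2 (j.succAbove i)).1, (hu.2 (j.succAbove i)).2]
      exact Real.one_le_rpow_of_pos_of_le_one_of_nonpos h3 h4 (by linarith)
    calc (1:ℝ) = ∏ _j : Fin (n + 1), ∏ _i : Fin n, (1:ℝ) := by simp
      _ ≤ _ := Finset.prod_le_prod (fun _ _ => Finset.prod_nonneg fun _ _ => zero_le_one) fun j _ =>
          Finset.prod_le_prod (fun _ _ => zero_le_one) fun i _ => h2 j i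
  rw [integral_const, pn_mass (n + 1) zero_le_one, one_pow, smul_eq_mul, mul_one] at h1
  linarith

/-- approximation of the limit -/
lemma approx (hP : S_POSV) (hC : S_CONV) {n : ℕ} {k : ℝ} (hκ : k * k * (n + 1) < 1) {r : ℝ} (hr : 0 < r) {b e : ℝ}
    (hb : 0 < b) (he : 0 < e) : ∃ δ : ℝ, 0 < δ ∧ δ ≤ b ∧ |NJ k δ n r - Fs n k r| ≤ e := by
  have hd0 : Tendsto (fun S : ℝ => 1 / S) atTop (𝓝 0) := tendsto_const_nhds.div_atTop tendsto_id
  have hdp : ∀ᶠ S : ℝ in atTop, 0 < 1 / S := by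
    filter_upwards [eventually_gt_atTop 0] with S hS
    positivity
  have h1 := JJ_sub_fixed hP hC hdp hd0 hr (tendsto_const_nhds (x := r)) n k hκ
  have h2 := (Metric.tendsto_nhds.1 h1) e he
  obtain ⟨S, a1, a2, a3⟩ := (hdp.and ((hd0.eventually_le_const hb).and h2)).exists
  refine ⟨1 / S, a1, a2, ?_⟩
  rw [Real.dist_eq] at a3
  exact a3.le

/-- positivity of the limit -/
lemma Fs_pos (hP : S_POSV) (hC : S_CONV) {n : ℕ} {k : ℝ} (hκ : k * k * (n + 1) < 1) {r : ℝ} (hr : 0 < r) : 0 < Fs n k r := by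
  have hkk : 0 ≤ k * k := mul_self_nonneg k
  obtain ⟨c2, C2, hc2, hC2, h2⟩ := aV_bd hP (n + 1) k
  obtain ⟨c3, C3, hc3, hC3, h3⟩ := Z_near r
  obtain ⟨c4, hc4, h4⟩ := Z_ge r
  set m : ℝ := c2 * (c3 ^ (k * k * (n + 1)) * ∏ _j : Fin (n + 1), ∏ _i : Fin n, c4 ^ (k * k)) with hm
  have hm0 : 0 < m := by
    have : 0 < ∏ _j : Fin (n + 1), ∏ _i : Fin n, c4 ^ (k * k) :=
      Finset.prod_pos fun _ _ => Finset.prod_pos fun _ _ => Real.rpow_pos_of_pos hc4 _
    positivity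
  obtain ⟨δ, g0, g1, g2⟩ := approx hP hC hκ hr (by norm_num : (0:ℝ) < 1 / 16) (by positivity : 0 < m / 2)
  have hlow : m ≤ NJ k δ n r := by
    unfold NJ JJ
    have h5 : ∫ _h : Fin (n + 1) → ℝ, (2 * δ) ^ (-(k * k * (n + 1))) * m ∂(pn (n + 1) r) ≤
        ∫ h : Fin (n + 1) → ℝ, WW k δ h ∂(pn (n + 1) r) := by
      refine integral_mono_ae (integrable_const _) (WW_int hC g0 (n + 1) r) ?_
      filter_upwards [pn_ae (n + 1) r] with h hh
      show (2 * δ) ^ (-(k * k * (n + 1))) * m ≤ WW k δ h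
      have h2δ : (0:ℝ) < 2 * δ := by linarith
      have e1 : c3 / (2 * δ) ≤ Z δ 0 := by
        have h6 := (h3 δ g0.le g1 0 (by rw [abs_zero]; exact hr.le) (Or.inl g0)).1
        have h7 : nr δ 0 = 2 * δ := by
          unfold nr
          rw [zero_pow two_ne_zero, add_zero, Real.sqrt_sq h2δ.le]
        rwa [h7] at h6
      have e2 : ∏ _j : Fin (n + 1), ∏ _i : Fin n, c4 ^ (k * k) ≤
          ∏ j, ∏ i : Fin n, Z δ (h j - h (j.succAbove i)) ^ (k * k) := by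
        refine Finset.prod_le_prod (fun _ _ => Finset.prod_nonneg fun _ _ => Real.rpow_nonneg hc4.le _) fun j _ =>
          Finset.prod_le_prod (fun _ _ => Real.rpow_nonneg hc4.le _) fun i _ => ?_
        refine Real.rpow_le_rpow hc4.le (h4 δ g0 g1 _ ?_) hkk
        rw [abs_le]
        constructor <;> linarith [(hh j).1, (hh j).2, (hh (j.succAbove i)).1, (hh (j.succAbove i)).2]
      have e3 : (c3 / (2 * δ)) ^ (k * k * (n + 1)) ≤ Z δ 0 ^ (k * k * (n + 1)) :=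
        Real.rpow_le_rpow (by positivity) e1 (by positivity)
      have e4 : (2 * δ) ^ (-(k * k * (n + 1))) * m = c2 * ((c3 / (2 * δ)) ^ (k * k * (n + 1)) *
          ∏ _j : Fin (n + 1), ∏ _i : Fin n, c4 ^ (k * k)) := by
        rw [hm, Real.div_rpow hc3.le h2δ.le, Real.rpow_neg h2δ.le]
        ring
      rw [e4, WW_eq, PZ_split]
      have e5 : 0 ≤ ∏ _j : Fin (n + 1), ∏ _i : Fin n, c4 ^ (k * k) :=
        Finset.prod_nonneg fun _ _ => Finset.prod_nonneg fun _ _ => Real.rpow_nonneg hc4.le _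
      refine mul_le_mul (h2 h).1 (mul_le_mul e3 e2 e5 (Zp_nn _ _ _)) (by positivity) (hc2.le.trans (h2 h).1)
    rw [integral_const, pn_mass (n + 1) hr.le, smul_eq_mul] at h5
    have h2δ : (0:ℝ) < 2 * δ := by linarith
    calc m = (2 * δ) ^ (k * k * (n + 1)) * ((1 / r) ^ (n + 1) * (r ^ (n + 1) * ((2 * δ) ^ (-(k * k * (n + 1))) * m))) := by
          rw [Real.rpow_neg h2δ.le, one_div, inv_pow]
          field_simp
      _ ≤ _ := by
          refine mul_le_mul_of_nonneg_left (mul_le_mul_of_nonneg_left h5 (by positivity)) (by positivity)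
  have := (abs_le.1 g2).2
  linarith

/-- a function `D` with small values and the approximation -/
lemma diag (hP : S_POSV) (hC : S_CONV) {n : ℕ} {k : ℝ} (hκ : k * k * (n + 1) < 1) {H : ℝ → ℝ}
    (hHp : ∀ᶠ T : ℝ in atTop, 0 < H T) : ∃ D : ℝ → ℝ, (∀ᶠ T : ℝ in atTop, 0 < D T) ∧ Tendsto D atTop (𝓝 0) ∧
      Tendsto (fun T => H T / D T) atTop atTop ∧ Tendsto (fun T => NJ k (D T) n (H T) - Fs n k (H T)) atTop (𝓝 0) := by
  have h1 : ∀ T : ℝ, ∃ δ : ℝ, (0 < H T ∧ 0 < T) → (0 < δ ∧ δ ≤ min (1 / T) (H T / T) ∧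
      |NJ k δ n (H T) - Fs n k (H T)| ≤ 1 / T) := by
    intro T
    by_cases h2 : 0 < H T ∧ 0 < T
    · have h3 : 0 < min (1 / T) (H T / T) := lt_min (one_div_pos.2 h2.2) (div_pos h2.1 h2.2)
      obtain ⟨δ, a1, a2, a3⟩ := approx hP hC hκ h2.1 h3 (one_div_pos.2 h2.2)
      exact ⟨δ, fun _ => ⟨a1, a2, a3⟩⟩
    · exact ⟨0, fun h => absurd h h2⟩
  choose D hD using h1
  have hT : Tendsto (fun T : ℝ => 1 / T) atTop (𝓝 0) := tendsto_const_nhds.div_atTop tendsto_id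
  have hDp : ∀ᶠ T : ℝ in atTop, 0 < D T := by
    filter_upwards [hHp, eventually_gt_atTop 0] with T g1 g2
    exact (hD T ⟨g1, g2⟩).1
  refine ⟨D, hDp, ?_, ?_, ?_⟩
  · refine tendsto_of_tendsto_of_tendsto_of_le_of_le' tendsto_const_nhds hT (hDp.mono fun T h => h.le) ?_
    filter_upwards [hHp, eventually_gt_atTop 0] with T g1 g2
    exact (hD T ⟨g1, g2⟩).2.1.trans (min_le_left _ _)
  · refine tendsto_atTop_mono' atTop ?_ tendsto_id
    filter_upwards [hHp, eventually_gt_atTop 0] with T g1 g2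
    obtain ⟨a1, a2, -⟩ := hD T ⟨g1, g2⟩
    have a3 : D T ≤ H T / T := a2.trans (min_le_right _ _)
    show T ≤ H T / D T
    rw [le_div_iff₀ a1]
    rw [le_div_iff₀ g2] at a3
    linarith
  · refine squeeze_zero_norm' ?_ hT
    filter_upwards [hHp, eventually_gt_atTop 0] with T g1 g2
    exact (hD T ⟨g1, g2⟩).2.2

lemma Fs_long (hP : S_POSV) (hC : S_CONV) {n : ℕ} {k : ℝ} (hk : 0 < k) (hκ : k * k * (n + 1) < 1) {H : ℝ → ℝ}
    (hH : Tendsto H atTop atTop) : Tendsto (fun T => Fs n k (H T)) atTop (𝓝 ((aC (k:ℂ)).re ^ (n + 1))) := by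
  obtain ⟨D, h1, h2, -, h4⟩ := diag hP hC hκ (hH.eventually_gt_atTop 0)
  have h5 := (JJ_sub_long hP hC h1 h2 hH n k hk hκ).sub h4
  rw [sub_zero] at h5
  refine h5.congr fun T => ?_
  unfold NJ
  ring

lemma Fs_fixed (hP : S_POSV) (hC : S_CONV) {n : ℕ} {k : ℝ} (hκ : k * k * (n + 1) < 1) {H : ℝ → ℝ} {r : ℝ} (hr : 0 < r)
    (hH : Tendsto H atTop (𝓝 r)) : Tendsto (fun T => Fs n k (H T)) atTop (𝓝 (Fs n k r)) := by
  obtain ⟨D, h1, h2, -, h4⟩ := diag hP hC hκ (hH.eventually (lt_mem_nhds hr))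
  have h5 := (JJ_sub_fixed hP hC h1 h2 hr hH n k hκ).sub h4
  rw [sub_zero] at h5
  refine h5.congr fun T => ?_
  unfold NJ
  ring

lemma Fs_meso (hP : S_POSV) (hC : S_CONV) (hA : S_AV0) {n : ℕ} {k : ℝ} (hκ : k * k * (n + 1) < 1) {H : ℝ → ℝ}
    (hHp : ∀ᶠ T : ℝ in atTop, 0 < H T) (hH : Tendsto H atTop (𝓝 0)) :
    Tendsto (fun T => H T ^ (k * k * (n * (n + 1))) * Fs n k (H T)) atTop
      (𝓝 ((aC (((n + 1 : ℕ) * k : ℝ) : ℂ)).re * Sg n (k * k))) := by
  have hkk : 0 ≤ k * k := mul_self_nonneg k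
  obtain ⟨D, h1, h2, h3, h4⟩ := diag hP hC hκ hHp
  have h5 := JJ_sub_meso hP hC hA h1 h2 hH h3 n k hκ
  have h6 : Tendsto (fun T => H T ^ (k * k * (n * (n + 1))) * (NJ k (D T) n (H T) - Fs n k (H T))) atTop (𝓝 0) := by
    refine squeeze_zero_norm' ?_ (tendsto_zero_iff_norm_tendsto_zero.1 h4)
    filter_upwards [hHp, hH.eventually_le_const one_pos] with T g1 g2
    rw [norm_mul, Real.norm_of_nonneg (Real.rpow_nonneg g1.le _)]
    exact mul_le_of_le_one_left (norm_nonneg _) (Real.rpow_le_one g1.le g2 (by positivity))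
  have h7 := h5.sub h6
  rw [sub_zero] at h7
  refine h7.congr fun T => ?_
  unfold NJ
  ring

/-- the ratio, when the window has a limit -/
lemma ratio_lim (hP : S_POSV) (hC : S_CONV) (hA : S_AV0) {d H : ℝ → ℝ} (hdp : ∀ᶠ T : ℝ in atTop, 0 < d T)
    (hd0 : Tendsto d atTop (𝓝 0)) (hHp : ∀ᶠ T : ℝ in atTop, 0 < H T) (hHd : Tendsto (fun T => H T / d T) atTop atTop)
    {n : ℕ} {k : ℝ} (hk : 0 < k) (hκ : k * k * (n + 1) < 1)
    (hlim : Tendsto H atTop atTop ∨ ∃ r : ℝ, Tendsto H atTop (𝓝 r)) :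
    Tendsto (fun T => NJ k (d T) n (H T) / Fs n k (H T)) atTop (𝓝 1) := by
  rcases hlim with h1 | ⟨r, h1⟩
  · have ha : (0:ℝ) < (aC (k:ℂ)).re ^ (n + 1) := pow_pos (Run7.h42.WN.aC_pos k) _
    have h2 := (JJ_sub_long hP hC hdp hd0 h1 n k hk hκ).div (Fs_long hP hC hk hκ h1) ha.ne'
    rw [div_self ha.ne'] at h2
    exact h2
  · have hr0 : 0 ≤ r := ge_of_tendsto h1 (hHp.mono fun T h => h.le)
    rcases hr0.lt_or_eq with hr | hr
    · have hF := Fs_pos hP hC hκ hr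
      have h2 := (JJ_sub_fixed hP hC hdp hd0 hr h1 n k hκ).div (Fs_fixed hP hC hκ hr h1) hF.ne'
      rw [show (∫ u : Fin (n + 1) → ℝ, Ar k (fun j => r * u j) *
        ∏ j, ∏ i : Fin n, Z 0 (r * (u j - u (j.succAbove i))) ^ (k * k) ∂(pn (n + 1) 1)) = Fs n k r from rfl,
        div_self hF.ne'] at h2
      exact h2
    · rw [← hr] at h1
      have hF : 0 < (aC (((n + 1 : ℕ) * k : ℝ) : ℂ)).re * Sg n (k * k) :=
        mul_pos (Run7.h42.WN.aC_pos _) (Sg_pos n hκ)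
      have h2 := (JJ_sub_meso hP hC hA hdp hd0 h1 hHd n k hκ).div (Fs_meso hP hC hA hκ hHp h1) hF.ne'
      rw [show (aC (((n + 1 : ℕ) * k : ℝ) : ℂ)).re *
        ∫ u : Fin (n + 1) → ℝ, ∏ j, ∏ i : Fin n, |u j - u (j.succAbove i)| ^ (-(k * k)) ∂(pn (n + 1) 1) =
          (aC (((n + 1 : ℕ) * k : ℝ) : ℂ)).re * Sg n (k * k) from rfl, div_self hF.ne'] at h2
      refine h2.congr' ?_
      filter_upwards [hHp] with T g1
      have g2 := (Real.rpow_pos_of_pos g1 (k * k * (n * (n + 1)))).ne'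
      unfold NJ
      have e1 : (2 * d T) ^ (k * k * (n + 1)) * H T ^ (k * k * (n * (n + 1))) * ((1 / H T) ^ (n + 1) * JJ k (d T) (n + 1) (H T)) =
          H T ^ (k * k * (n * (n + 1))) * ((2 * d T) ^ (k * k * (n + 1)) * ((1 / H T) ^ (n + 1) * JJ k (d T) (n + 1) (H T))) := by
        ring
      rw [Pi.div_apply, e1, mul_div_mul_left _ _ g2]

/-- the ratio for all windows -/
lemma ratio_all (hP : S_POSV) (hC : S_CONV) (hA : S_AV0) {d H : ℝ → ℝ} (hdp : ∀ᶠ T : ℝ in atTop, 0 < d T)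
    (hd0 : Tendsto d atTop (𝓝 0)) (hHp : ∀ᶠ T : ℝ in atTop, 0 < H T) (hHd : Tendsto (fun T => H T / d T) atTop atTop)
    {n : ℕ} {k : ℝ} (hk : 0 < k) (hκ : k * k * (n + 1) < 1) :
    Tendsto (fun T => NJ k (d T) n (H T) / Fs n k (H T)) atTop (𝓝 1) := by
  refine tendsto_of_subseq_tendsto fun ns hns => ?_
  obtain ⟨x, -, φ, hφ, hx⟩ := isCompact_univ.tendsto_subseq (x := fun i : ℕ => ENNReal.ofReal (H (ns i)))
    fun _ => Set.mem_univ _
  refine ⟨φ, ?_⟩
  set θ : ℝ → ℝ := fun S => ns (φ ⌊S⌋₊) with hθ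
  have hθt : Tendsto θ atTop atTop := hns.comp (hφ.tendsto_atTop.comp tendsto_nat_floor_atTop)
  have hHp' : ∀ᶠ S : ℝ in atTop, 0 < H (θ S) := hθt.eventually hHp
  have hx' : Tendsto (fun S : ℝ => ENNReal.ofReal (H (θ S))) atTop (𝓝 x) := hx.comp tendsto_nat_floor_atTop
  have hlim : Tendsto (fun S => H (θ S)) atTop atTop ∨ ∃ r : ℝ, Tendsto (fun S => H (θ S)) atTop (𝓝 r) := by
    by_cases hxt : x = ⊤
    · left
      rw [hxt] at hx'
      exact ENNReal.tendsto_ofReal_nhds_top.1 hx'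
    · right
      refine ⟨x.toReal, ?_⟩
      have h1 := (ENNReal.tendsto_toReal hxt).comp hx'
      refine h1.congr' ?_
      filter_upwards [hHp'] with S g1
      exact ENNReal.toReal_ofReal g1.le
  have h2 := ratio_lim hP hC hA (d := fun S => d (θ S)) (H := fun S => H (θ S)) (hθt.eventually hdp) (hd0.comp hθt) hHp'
    (hHd.comp hθt) hk hκ hlim
  have h3 := h2.comp tendsto_natCast_atTop_atTop
  refine h3.congr fun i => ?_
  simp only [Function.comp_apply, hθ, Nat.floor_natCast]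

/-- the subcritical case, all windows -/
theorem suball (hS : S_SM) (hP : S_POSV) (hC : S_CONV) (hA : S_AV0) {d H : ℝ → ℝ} (hd : Ad d)
    (hHd : Tendsto (fun T => H T / d T) atTop atTop) (hH1 : ∀ᶠ T : ℝ in atTop, H T ≤ T ^ ((1:ℝ) / 2)) (n : ℕ)
    (k V : ℝ) (hk : 0 < k) (hV : (n + 1) * k < V) (hκ : k * k * (n + 1) < 1) :
    Tendsto (fun T : ℝ => (2 * d T) ^ (k * k * (n + 1)) * MoM k V (n + 1) (d T) (H T) T / Fs n k (H T)) atTop (𝓝 1) := by
  have hdp := hd.pos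
  have hHp : ∀ᶠ T : ℝ in atTop, 0 < H T := by
    filter_upwards [hHd.eventually_gt_atTop 0, hdp] with T g1 g2
    have := mul_pos g1 g2
    rwa [div_mul_cancel₀ _ g2.ne'] at this
  have h1 := ratio_all hP hC hA hdp hd.t0 hHp hHd hk hκ
  have h2 := transfer hS hP hC hd hHp hH1 n k V hk hV (b := fun T => (2 * d T) ^ (k * k * (n + 1)) / Fs n k (H T)) (L := 1) (by
    filter_upwards [hHp, hdp] with T g1 g2
    exact div_nonneg (Real.rpow_nonneg (by linarith) _) (Fs_pos hP hC hκ g1).le) (by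
    refine h1.congr fun T => ?_
    unfold NJ
    ring)
  refine h2.congr fun T => ?_
  ring

end Run7.h772.MM
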