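import Pool.Agent.N748.MJ.SM
import Pool.Agent.N748.MJ.LZB

set_option autoImplicit false

/-!
# Moments of moments near the critical line: zeta near the line `1`

`Z δ y = |ζ(1 + 2δ + iy)|`.  The function `Z1` and its bounds are as in `Run7/h291/WN/A1.lean` (helper291).
-/

namespace Run7.h772.MM

open Finset Filter MeasureTheory Topology Complex
open Pool.Agent.N748.MG Pool.Agent.N748.MJ

/-- the modulus of zeta at the distance `2δ` from the line `1` -/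
noncomputable def Z (δ y : ℝ) : ℝ := ‖riemannZeta (((1 + 2 * δ : ℝ) : ℂ) + ((y : ℝ) : ℂ) * I)‖

/-- `(s - 1) ζ(s)`, with the value `1` at `1` -/
noncomputable def Z1 : ℂ → ℂ := Function.update (fun s => (s - 1) * riemannZeta s) 1 1

lemma Z1_cont : Continuous Z1 := by
  rw [continuous_iff_continuousAt]
  intro s
  by_cases hs : s = 1
  · subst hs
    unfold Z1
    rw [continuousAt_update_same]
    exact riemannZeta_residue_one
  · unfold Z1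
    rw [continuousAt_update_of_ne hs]
    exact ((continuous_id.sub continuous_const).continuousAt).mul (differentiableAt_riemannZeta hs).continuousAt

lemma Z1_one : Z1 1 = 1 := by
  unfold Z1
  rw [Function.update_self]

lemma Z1_ne {s : ℂ} (hs : 1 ≤ s.re) : Z1 s ≠ 0 := by
  unfold Z1
  by_cases h1 : s = 1
  · subst h1
    rw [Function.update_self]
    exact one_ne_zero
  · rw [Function.update_of_ne h1]
    exact mul_ne_zero (sub_ne_zero.2 h1) (riemannZeta_ne_zero_of_one_le_re hs)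

lemma Z1_bd (U : ℝ) : ∃ c C : ℝ, 0 < c ∧ 0 < C ∧ ∀ δ : ℝ, 0 ≤ δ → δ ≤ 1 / 16 → ∀ u : ℝ, |u| ≤ U →
    c ≤ ‖Z1 (((1 + 2 * δ : ℝ) : ℂ) + (u : ℂ) * I)‖ ∧ ‖Z1 (((1 + 2 * δ : ℝ) : ℂ) + (u : ℂ) * I)‖ ≤ C := by
  set K : Set (ℝ × ℝ) := Set.Icc 0 (1 / 16) ×ˢ Set.Icc (-U) U with hK
  have hKc : IsCompact K := isCompact_Icc.prod isCompact_Icc
  have hf : Continuous fun q : ℝ × ℝ => ‖Z1 (((1 + 2 * q.1 : ℝ) : ℂ) + (q.2 : ℂ) * I)‖ := by
    refine (Z1_cont.comp ?_).norm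
    fun_prop
  rcases K.eq_empty_or_nonempty with he | hne
  · refine ⟨1, 1, one_pos, one_pos, fun δ h0 h1 u hu => ?_⟩
    have : (δ, u) ∈ K := ⟨⟨h0, h1⟩, abs_le.1 hu⟩
    rw [he] at this
    exact absurd this (Set.notMem_empty _)
  · obtain ⟨a, ha, ha2⟩ := hKc.exists_isMinOn hne hf.continuousOn
    obtain ⟨b, hb, hb2⟩ := hKc.exists_isMaxOn hne hf.continuousOn
    have hpos : ∀ q ∈ K, 0 < ‖Z1 (((1 + 2 * q.1 : ℝ) : ℂ) + (q.2 : ℂ) * I)‖ := by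
      intro q hq
      rw [norm_pos_iff]
      refine Z1_ne ?_
      have h1 := hq.1.1
      simp
      linarith
    refine ⟨_, _, hpos a ha, hpos b hb, fun δ h0 h1 u hu => ?_⟩
    have hm : (δ, u) ∈ K := ⟨⟨h0, h1⟩, abs_le.1 hu⟩
    exact ⟨ha2 hm, hb2 hm⟩

lemma Z_pos {δ : ℝ} (h0 : 0 ≤ δ) (y : ℝ) : 0 < Z δ y := by
  unfold Z
  rw [norm_pos_iff]
  refine riemannZeta_ne_zero_of_one_le_re ?_
  simp
  linarith

lemma Z_nn (δ y : ℝ) : 0 ≤ Z δ y := norm_nonneg _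

lemma Z_ne_one {δ y : ℝ} (h : 0 < δ ∨ y ≠ 0) : ((1 + 2 * δ : ℝ) : ℂ) + (y : ℂ) * I ≠ 1 := by
  intro h1
  have hre := congrArg Complex.re h1
  have him := congrArg Complex.im h1
  simp at hre him
  rcases h with h | h
  · linarith
  · exact h him

lemma Z_cont {δ : ℝ} (h0 : 0 < δ) : Continuous fun y => Z δ y := by
  rw [continuous_iff_continuousAt]
  intro y
  unfold Z
  have h1 : ContinuousAt riemannZeta (((1 + 2 * δ : ℝ) : ℂ) + (y : ℂ) * I) :=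
    (differentiableAt_riemannZeta (Z_ne_one (Or.inl h0))).continuousAt
  have h2 : ContinuousAt (fun y : ℝ => ((1 + 2 * δ : ℝ) : ℂ) + (y : ℂ) * I) y := by fun_prop
  exact (ContinuousAt.comp (f := fun y : ℝ => ((1 + 2 * δ : ℝ) : ℂ) + (y : ℂ) * I) h1 h2).norm

lemma Z_even (δ y : ℝ) : Z δ (-y) = Z δ y := by
  unfold Z
  have h : ((1 + 2 * δ : ℝ) : ℂ) + (((-y : ℝ)) : ℂ) * I =
      (starRingEnd ℂ) (((1 + 2 * δ : ℝ) : ℂ) + (y : ℂ) * I) := by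
    apply Complex.ext <;> simp
  rw [h, riemannZeta_conj, Complex.norm_conj]

lemma Z_le_inv {δ : ℝ} (h0 : 0 < δ) (h1 : δ ≤ 1 / 16) (y : ℝ) : Z δ y ≤ 1 / δ := by
  obtain ⟨g1, g2⟩ := LZB.main δ h0 h1 y
  unfold Z
  rw [← g2, Complex.norm_exp]
  calc Real.exp (LZ (1 + 2 * δ) y).re ≤ Real.exp (Real.log (1 / δ)) :=
        Real.exp_le_exp.2 ((Complex.re_le_norm _).trans g1)
    _ = 1 / δ := Real.exp_log (by positivity)

/-- the distance of `1 + 2δ + iy` to `1` -/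
noncomputable def nr (δ y : ℝ) : ℝ := Real.sqrt ((2 * δ) ^ 2 + y ^ 2)

lemma nr_eq (δ y : ℝ) : ‖((2 * δ : ℝ) : ℂ) + (y : ℂ) * I‖ = nr δ y := by
  unfold nr
  rw [Complex.norm_def, Complex.normSq_apply]
  congr 1
  simp
  ring

lemma nr_pos {δ y : ℝ} (h : 0 < δ ∨ y ≠ 0) : 0 < nr δ y := by
  unfold nr
  refine Real.sqrt_pos.2 ?_
  rcases h with h | h
  · have : 0 < (2 * δ) ^ 2 := by positivity
    nlinarith [sq_nonneg y]
  · have : 0 < y ^ 2 := by positivity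
    nlinarith [sq_nonneg (2 * δ)]

lemma nr_ge_left (δ y : ℝ) : 2 * δ ≤ nr δ y := by
  unfold nr
  refine Real.le_sqrt_of_sq_le ?_
  nlinarith [sq_nonneg y]

lemma nr_ge_right (δ y : ℝ) : |y| ≤ nr δ y := by
  unfold nr
  refine Real.le_sqrt_of_sq_le ?_
  rw [sq_abs]
  nlinarith [sq_nonneg (2 * δ)]

lemma Z_eq {δ y : ℝ} (h : 0 < δ ∨ y ≠ 0) : Z δ y = ‖Z1 (((1 + 2 * δ : ℝ) : ℂ) + (y : ℂ) * I)‖ / nr δ y := by
  have hne := Z_ne_one h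
  have h1 : ((1 + 2 * δ : ℝ) : ℂ) + (y : ℂ) * I - 1 = ((2 * δ : ℝ) : ℂ) + (y : ℂ) * I := by
    push_cast
    ring
  have h2 : Z1 (((1 + 2 * δ : ℝ) : ℂ) + (y : ℂ) * I) =
      (((2 * δ : ℝ) : ℂ) + (y : ℂ) * I) * riemannZeta (((1 + 2 * δ : ℝ) : ℂ) + (y : ℂ) * I) := by
    unfold Z1
    rw [Function.update_of_ne hne, h1]
  rw [h2, norm_mul, nr_eq, mul_comm, mul_div_assoc, div_self (nr_pos h).ne', mul_one]
  rfl

/-- upper and lower bounds near the pole -/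
lemma Z_near (U : ℝ) : ∃ c C : ℝ, 0 < c ∧ 0 < C ∧ ∀ δ : ℝ, 0 ≤ δ → δ ≤ 1 / 16 → ∀ y : ℝ, |y| ≤ U → (0 < δ ∨ y ≠ 0) →
    c / nr δ y ≤ Z δ y ∧ Z δ y ≤ C / nr δ y := by
  obtain ⟨c, C, hc, hC, h⟩ := Z1_bd U
  refine ⟨c, C, hc, hC, fun δ h0 h1 y hy hne => ?_⟩
  obtain ⟨g1, g2⟩ := h δ h0 h1 y hy
  have hp := nr_pos hne
  rw [Z_eq hne]
  exact ⟨div_le_div_of_nonneg_right g1 hp.le, div_le_div_of_nonneg_right g2 hp.le⟩

/-- a positive lower bound near the pole -/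
lemma Z_ge (U : ℝ) : ∃ c : ℝ, 0 < c ∧ ∀ δ : ℝ, 0 < δ → δ ≤ 1 / 16 → ∀ y : ℝ, |y| ≤ U → c ≤ Z δ y := by
  obtain ⟨c, C, hc, hC, h⟩ := Z_near U
  refine ⟨c / (1 + |U|), by positivity, fun δ h0 h1 y hy => ?_⟩
  obtain ⟨g1, -⟩ := h δ h0.le h1 y hy (Or.inl h0)
  refine le_trans ?_ g1
  have hp := nr_pos (δ := δ) (y := y) (Or.inl h0)
  have h2 : nr δ y ≤ 1 + |U| := by
    unfold nr
    rw [Real.sqrt_le_left (by positivity)]
    have h3 : |y| ≤ |U| := hy.trans (le_abs_self U)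
    have h4 : y ^ 2 ≤ |U| ^ 2 := by
      rw [← sq_abs y]
      exact pow_le_pow_left₀ (abs_nonneg _) h3 2
    have h5 : (2 * δ) ^ 2 ≤ 1 := by
      have : 2 * δ ≤ 1 := by linarith
      nlinarith
    nlinarith [abs_nonneg U]
  exact div_le_div_of_nonneg_left hc.le hp h2

/-- the scaling limit at the pole -/
lemma Z_scale (x : ℝ) : Tendsto (fun δ : ℝ => 2 * δ * Z δ (2 * δ * x)) (𝓝[>] 0) (𝓝 ((1 + x ^ 2) ^ (-(1 / 2 : ℝ)))) := by
  have h1 : Tendsto (fun δ : ℝ => ‖Z1 (((1 + 2 * δ : ℝ) : ℂ) + ((2 * δ * x : ℝ) : ℂ) * I)‖) (𝓝[>] 0) (𝓝 1) := by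
    have hc : Continuous fun δ : ℝ => ‖Z1 (((1 + 2 * δ : ℝ) : ℂ) + ((2 * δ * x : ℝ) : ℂ) * I)‖ := by
      refine (Z1_cont.comp ?_).norm
      fun_prop
    have h2 := (hc.tendsto 0).mono_left (nhdsWithin_le_nhds (s := Set.Ioi (0:ℝ)))
    simpa [Z1_one] using h2
  have h2 : (fun δ : ℝ => ‖Z1 (((1 + 2 * δ : ℝ) : ℂ) + ((2 * δ * x : ℝ) : ℂ) * I)‖ * (1 + x ^ 2) ^ (-(1 / 2 : ℝ))) =ᶠ[𝓝[>] 0]
      fun δ : ℝ => 2 * δ * Z δ (2 * δ * x) := by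
    filter_upwards [self_mem_nhdsWithin] with δ hδ
    have hδ0 : 0 < δ := hδ
    rw [Z_eq (Or.inl hδ0)]
    have h3 : nr δ (2 * δ * x) = 2 * δ * Real.sqrt (1 + x ^ 2) := by
      unfold nr
      rw [show (2 * δ) ^ 2 + (2 * δ * x) ^ 2 = (2 * δ) ^ 2 * (1 + x ^ 2) by ring, Real.sqrt_mul (sq_nonneg _),
        Real.sqrt_sq (by linarith)]
    have h4 : (1 + x ^ 2) ^ (-(1 / 2 : ℝ)) = (Real.sqrt (1 + x ^ 2))⁻¹ := by
      rw [Real.rpow_neg (by positivity), Real.sqrt_eq_rpow]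
    have h5 : 0 < Real.sqrt (1 + x ^ 2) := Real.sqrt_pos.2 (by positivity)
    rw [h3, h4]
    field_simp
  have h6 := (h1.mul_const ((1 + x ^ 2) ^ (-(1 / 2 : ℝ)))).congr' h2
  simpa using h6

/-- away from the pole -/
lemma Z_lim {y : ℝ} (hy : y ≠ 0) : Tendsto (fun δ : ℝ => Z δ y) (𝓝[>] 0) (𝓝 (Z 0 y)) := by
  have h1 : ContinuousAt (fun δ : ℝ => Z δ y) 0 := by
    unfold Z
    have h1 : ContinuousAt riemannZeta (((1 + 2 * (0:ℝ) : ℝ) : ℂ) + (y : ℂ) * I) :=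
      (differentiableAt_riemannZeta (Z_ne_one (Or.inr hy))).continuousAt
    have h2 : ContinuousAt (fun δ : ℝ => ((1 + 2 * δ : ℝ) : ℂ) + (y : ℂ) * I) 0 := by fun_prop
    exact (ContinuousAt.comp (f := fun δ : ℝ => ((1 + 2 * δ : ℝ) : ℂ) + (y : ℂ) * I) h1 h2).norm
  exact h1.tendsto.mono_left nhdsWithin_le_nhds

end Run7.h772.MM
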