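import Pool.Agent.Run7.h772.MM.Za
import Pool.Agent.Run7.h772.WN_ZML

set_option autoImplicit false

/-!
# Moments of moments near the critical line: integrals of powers of zeta near the line `1`
-/

namespace Run7.h772.MM

open Finset Filter MeasureTheory Topology Complex
open Pool.Agent.N748.MG Pool.Agent.N748.MJ

lemma Zp_cont {δ κ : ℝ} (h0 : 0 < δ) : Continuous fun y => Z δ y ^ κ :=
  (Z_cont h0).rpow_const fun y => Or.inl (Z_pos h0.le y).ne'

lemma Zp_nn (δ κ y : ℝ) : 0 ≤ Z δ y ^ κ := Real.rpow_nonneg (Z_nn _ _) _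

/-- powers of zeta over long intervals -/
lemma far (κ : ℝ) (hκ : 0 ≤ κ) : ∃ C : ℝ, 0 < C ∧ ∀ δ : ℝ, 0 < δ → δ ≤ 1 / 16 → ∀ H : ℝ, 1 ≤ H →
    ∫ y in (1:ℝ)..H, Z δ y ^ κ ≤ C * H := by
  obtain ⟨c, C, hc, hC, h⟩ := Run7.h772.WN.zml κ hκ
  obtain ⟨H0, hH0, hm⟩ := h 2 le_rfl
  have hzz : ∀ δ y : ℝ, ‖Run7.h291.WN.zz 2 δ y‖ = Z δ y := by
    intro δ y
    unfold Run7.h291.WN.zz Z
    have he : (range 2).filter Nat.Prime = ∅ := by decide
    rw [he, Finset.prod_empty, mul_one]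
    congr 2
    push_cast
    ring
  have hbig : ∀ H : ℝ, H0 ≤ H → ∀ δ : ℝ, 0 < δ → δ ≤ 1 / 16 → ∫ y in (1:ℝ)..H, Z δ y ^ κ ≤ (1 + C) * H := by
    intro H hH δ h0 h1
    have h2 := hm H hH δ h0 h1 κ hκ le_rfl
    simp_rw [hzz] at h2
    have h1H : (1:ℝ) ≤ H := hH0.trans hH
    have hcz := Zp_cont (κ := κ) h0
    have hcm : Continuous fun y => max (Z δ y ^ κ - 1) 0 := by fun_prop
    have h3 : ∫ y in (1:ℝ)..H, Z δ y ^ κ ≤ ∫ y in (1:ℝ)..H, (1 + max (Z δ y ^ κ - 1) 0) := by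
      refine intervalIntegral.integral_mono_on h1H (hcz.intervalIntegrable _ _)
        ((continuous_const.add hcm).intervalIntegrable _ _) fun y _ => ?_
      have := le_max_left (Z δ y ^ κ - 1) 0
      linarith
    rw [intervalIntegral.integral_add (continuous_const.intervalIntegrable _ _) (hcm.intervalIntegrable _ _)] at h3
    simp only [intervalIntegral.integral_const, smul_eq_mul, mul_one] at h3
    have h4 : C * ((2:ℕ):ℝ) ^ (-c) * H ≤ C * H := by
      have h5 : ((2:ℕ):ℝ) ^ (-c) ≤ 1 := by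
        refine Real.rpow_le_one_of_one_le_of_nonpos (by norm_num) (by linarith)
      have h6 : 0 ≤ C * H := by positivity
      nlinarith
    linarith
  refine ⟨(1 + C) * H0, by positivity, fun δ h0 h1 H hH => ?_⟩
  rcases le_total H0 H with h2 | h2
  · refine (hbig H h2 δ h0 h1).trans ?_
    have h3 : 0 ≤ (1 + C) * H := by positivity
    nlinarith
  · have h3 : ∫ y in (1:ℝ)..H, Z δ y ^ κ ≤ ∫ y in (1:ℝ)..H0, Z δ y ^ κ := by
      refine intervalIntegral.integral_mono_interval le_rfl hH h2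
        (Eventually.of_forall fun y => Zp_nn _ _ _) ((Zp_cont h0).intervalIntegrable _ _)
    refine h3.trans ((hbig H0 le_rfl δ h0 h1).trans ?_)
    have h4 : 0 ≤ (1 + C) * H0 := by positivity
    nlinarith

/-- powers larger than one, near the pole -/
lemma near_s (s : ℝ) (hs : 1 < s) : ∃ C : ℝ, 0 < C ∧ ∀ δ : ℝ, 0 < δ → δ ≤ 1 / 16 →
    ∫ y in (0:ℝ)..1, Z δ y ^ s ≤ C * δ ^ (1 - s) := by
  obtain ⟨c, C, hc, hC, h⟩ := Z_near 1
  refine ⟨C ^ s * (1 + 1 / (s - 1)), ?_, fun δ h0 h1 => ?_⟩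
  · have : 0 < 1 / (s - 1) := by
      have : 0 < s - 1 := by linarith
      positivity
    positivity
  have hint : ∀ a b : ℝ, IntervalIntegrable (fun y => Z δ y ^ s) volume a b := fun a b =>
    (Zp_cont h0).intervalIntegrable _ _
  have hδ1 : δ ≤ 1 := by linarith
  rw [← intervalIntegral.integral_add_adjacent_intervals (hint 0 δ) (hint δ 1)]
  have hle : ∀ y : ℝ, 0 ≤ y → y ≤ 1 → ∀ m : ℝ, 0 < m → m ≤ nr δ y → Z δ y ^ s ≤ C ^ s * m ^ (-s) := by
    intro y y0 y1 m hm hmn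
    obtain ⟨-, g2⟩ := h δ h0.le h1 y (by rw [abs_of_nonneg y0]; exact y1) (Or.inl h0)
    have h2 : Z δ y ≤ C / m := g2.trans (div_le_div_of_nonneg_left hC.le hm hmn)
    calc Z δ y ^ s ≤ (C / m) ^ s := Real.rpow_le_rpow (Z_nn _ _) h2 (by linarith)
      _ = C ^ s * m ^ (-s) := by
          rw [Real.div_rpow hC.le hm.le, Real.rpow_neg hm.le]
          rfl
  have hCs : 0 < C ^ s := Real.rpow_pos_of_pos hC _
  have e1 : ∫ y in (0:ℝ)..δ, Z δ y ^ s ≤ C ^ s * δ ^ (1 - s) := by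
    have h3 : ∫ y in (0:ℝ)..δ, Z δ y ^ s ≤ ∫ _y in (0:ℝ)..δ, C ^ s * δ ^ (-s) := by
      refine intervalIntegral.integral_mono_on h0.le (hint 0 δ) (by simp) fun y hy => ?_
      refine hle y hy.1 (hy.2.trans hδ1) δ h0 ?_
      have := nr_ge_left δ y
      linarith
    rw [intervalIntegral.integral_const, smul_eq_mul, sub_zero] at h3
    have h4 : δ * (C ^ s * δ ^ (-s)) = C ^ s * δ ^ (1 - s) := by
      rw [show (1 - s) = 1 + (-s) by ring, Real.rpow_add h0, Real.rpow_one]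
      ring
    linarith
  have e2 : ∫ y in δ..1, Z δ y ^ s ≤ C ^ s * (1 / (s - 1) * δ ^ (1 - s)) := by
    have hi2 : IntervalIntegrable (fun y : ℝ => C ^ s * y ^ (-s)) volume δ 1 := by
      refine (ContinuousOn.intervalIntegrable ?_)
      refine continuousOn_const.mul (ContinuousOn.rpow_const continuousOn_id fun y hy => Or.inl ?_)
      rw [Set.uIcc_of_le hδ1] at hy
      exact (lt_of_lt_of_le h0 hy.1).ne'
    have h3 : ∫ y in δ..1, Z δ y ^ s ≤ ∫ y in δ..1, C ^ s * y ^ (-s) := by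
      refine intervalIntegral.integral_mono_on hδ1 (hint δ 1) hi2 fun y hy => ?_
      have hy0 : 0 < y := lt_of_lt_of_le h0 hy.1
      refine hle y hy0.le hy.2 y hy0 ?_
      have := nr_ge_right δ y
      rwa [abs_of_pos hy0] at this
    rw [intervalIntegral.integral_const_mul, integral_rpow (Or.inr ⟨by linarith, by
      rw [Set.uIcc_of_le hδ1]
      exact fun h5 => absurd h5.1 (not_le.2 h0)⟩)] at h3
    refine h3.trans (mul_le_mul_of_nonneg_left ?_ hCs.le)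
    rw [Real.one_rpow, show -s + 1 = 1 - s by ring]
    have h6 : 0 < s - 1 := by linarith
    have h7 : (1 - δ ^ (1 - s)) / (1 - s) = 1 / (s - 1) * δ ^ (1 - s) - 1 / (s - 1) := by
      have h8 : (1 - s) ≠ 0 := by linarith
      have h9 : (s - 1) ≠ 0 := h6.ne'
      field_simp
      ring
    rw [h7]
    have h8 : 0 < 1 / (s - 1) := by positivity
    linarith
  calc (∫ y in (0:ℝ)..δ, Z δ y ^ s) + ∫ y in δ..1, Z δ y ^ s
      ≤ C ^ s * δ ^ (1 - s) + C ^ s * (1 / (s - 1) * δ ^ (1 - s)) := add_le_add e1 e2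
    _ = C ^ s * (1 + 1 / (s - 1)) * δ ^ (1 - s) := by ring

/-- arbitrary powers near the pole -/
lemma near_k (κ s : ℝ) (hs : 1 < s) (hκ : κ ≤ s) : ∃ C : ℝ, 0 < C ∧ ∀ δ : ℝ, 0 < δ → δ ≤ 1 / 16 →
    ∫ y in (0:ℝ)..1, Z δ y ^ κ ≤ C * δ ^ (1 - s) := by
  obtain ⟨c, hc, hl⟩ := Z_ge 1
  obtain ⟨C, hC, h⟩ := near_s s hs
  refine ⟨c ^ (κ - s) * C, by positivity, fun δ h0 h1 => ?_⟩
  have h2 : ∫ y in (0:ℝ)..1, Z δ y ^ κ ≤ ∫ y in (0:ℝ)..1, c ^ (κ - s) * Z δ y ^ s := by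
    refine intervalIntegral.integral_mono_on zero_le_one ((Zp_cont h0).intervalIntegrable _ _)
      ((continuous_const.mul (Zp_cont h0)).intervalIntegrable _ _) fun y hy => ?_
    have hz := hl δ h0 h1 y (by rw [abs_of_nonneg hy.1]; exact hy.2)
    have hp := Z_pos h0.le y
    calc Z δ y ^ κ = Z δ y ^ (κ - s) * Z δ y ^ s := by
          rw [← Real.rpow_add hp]
          congr 1
          ring
      _ ≤ c ^ (κ - s) * Z δ y ^ s := by
          refine mul_le_mul_of_nonneg_right ?_ (Zp_nn _ _ _)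
          exact Real.rpow_le_rpow_of_nonpos hc hz (by linarith)
  rw [intervalIntegral.integral_const_mul] at h2
  refine h2.trans ?_
  rw [mul_assoc]
  exact mul_le_mul_of_nonneg_left (h δ h0 h1) (Real.rpow_nonneg hc.le _)

/-- the integral over `[-H, H]` -/
lemma J0_bd (κ s : ℝ) (hκ0 : 0 ≤ κ) (hs : 1 < s) (hκ : κ ≤ s) : ∃ C : ℝ, 0 < C ∧ ∀ δ : ℝ, 0 < δ → δ ≤ 1 / 16 →
    ∀ H : ℝ, 0 ≤ H → ∫ y in (-H)..H, Z δ y ^ κ ≤ C * (δ ^ (1 - s) + H) := by
  obtain ⟨C1, hC1, h1⟩ := near_k κ s hs hκ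
  obtain ⟨C2, hC2, h2⟩ := far κ hκ0
  refine ⟨2 * (C1 + C2), by positivity, fun δ g0 g1 H hH => ?_⟩
  have hint : ∀ a b : ℝ, IntervalIntegrable (fun y => Z δ y ^ κ) volume a b := fun a b =>
    (Zp_cont g0).intervalIntegrable _ _
  have hsym : ∫ y in (-H)..0, Z δ y ^ κ = ∫ y in (0:ℝ)..H, Z δ y ^ κ := by
    have h3 := intervalIntegral.integral_comp_neg (f := fun y => Z δ y ^ κ) (a := 0) (b := H)
    rw [neg_zero] at h3
    rw [← h3]
    refine intervalIntegral.integral_congr fun y _ => ?_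
    show Z δ (-y) ^ κ = Z δ y ^ κ
    rw [Z_even]
  rw [← intervalIntegral.integral_add_adjacent_intervals (hint (-H) 0) (hint 0 H), hsym]
  have hd : 0 ≤ δ ^ (1 - s) := Real.rpow_nonneg g0.le _
  have h4 : ∫ y in (0:ℝ)..H, Z δ y ^ κ ≤ C1 * δ ^ (1 - s) + C2 * H := by
    rcases le_total H 1 with h5 | h5
    · have h6 : ∫ y in (0:ℝ)..H, Z δ y ^ κ ≤ ∫ y in (0:ℝ)..1, Z δ y ^ κ :=
        intervalIntegral.integral_mono_interval le_rfl hH h5 (Eventually.of_forall fun y => Zp_nn _ _ _) (hint 0 1)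
      have := h1 δ g0 g1
      nlinarith [mul_nonneg hC2.le hH]
    · rw [← intervalIntegral.integral_add_adjacent_intervals (hint 0 1) (hint 1 H)]
      exact add_le_add (h1 δ g0 g1) (h2 δ g0 g1 H h5)
  nlinarith [mul_nonneg hC1.le hH, mul_nonneg hC2.le hd]

/-- the power of zeta away from the pole -/
noncomputable def g1 (δ κ y : ℝ) : ℝ := if 1 / 2 < |y| then Z δ y ^ κ else 0

lemma g1_nn (δ κ y : ℝ) : 0 ≤ g1 δ κ y := by
  unfold g1
  split_ifs
  · exact Zp_nn _ _ _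
  · exact le_rfl

lemma g1_le (δ κ y : ℝ) : g1 δ κ y ≤ Z δ y ^ κ := by
  unfold g1
  split_ifs
  · exact le_rfl
  · exact Zp_nn _ _ _

lemma g1_meas {δ κ : ℝ} (h0 : 0 < δ) : Measurable fun y => g1 δ κ y := by
  unfold g1
  exact Measurable.ite (measurableSet_lt measurable_const (by fun_prop)) (Zp_cont h0).measurable measurable_const

lemma J1_bd (κ : ℝ) (hκ0 : 0 ≤ κ) : ∃ C : ℝ, 0 < C ∧ ∀ δ : ℝ, 0 < δ → δ ≤ 1 / 16 →
    ∀ H : ℝ, 0 ≤ H → ∫ y in (-H)..H, g1 δ κ y ≤ C * (1 + H) := by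
  obtain ⟨c1, C1, hc1, hC1, h1⟩ := Z_near 1
  obtain ⟨C2, hC2, h2⟩ := far κ hκ0
  set B : ℝ := (2 * C1) ^ κ with hB
  have hB0 : 0 ≤ B := Real.rpow_nonneg (by positivity) _
  refine ⟨2 * (B + C2), by positivity, fun δ g0 g1' H hH => ?_⟩
  have hint : ∀ a b : ℝ, IntervalIntegrable (fun y => Z δ y ^ κ) volume a b := fun a b =>
    (Zp_cont g0).intervalIntegrable _ _
  have hgi : ∀ a b : ℝ, IntervalIntegrable (fun y => g1 δ κ y) volume a b := fun a b =>
    (hint a b).mono_fun' (g1_meas g0).aestronglyMeasurable (Eventually.of_forall fun y => by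
      simp only []
      rw [Real.norm_of_nonneg (g1_nn _ _ _)]
      exact g1_le _ _ _)
  have hsym : ∫ y in (-H)..0, g1 δ κ y = ∫ y in (0:ℝ)..H, g1 δ κ y := by
    have h3 := intervalIntegral.integral_comp_neg (f := fun y => g1 δ κ y) (a := 0) (b := H)
    rw [neg_zero] at h3
    rw [← h3]
    refine intervalIntegral.integral_congr fun y _ => ?_
    show g1 δ κ (-y) = g1 δ κ y
    unfold g1
    rw [Z_even, abs_neg]
  rw [← intervalIntegral.integral_add_adjacent_intervals (hgi (-H) 0) (hgi 0 H), hsym]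
  have hn : ∀ y : ℝ, 0 ≤ y → y ≤ 1 → g1 δ κ y ≤ B := by
    intro y y0 y1
    unfold g1
    split_ifs with h3
    · obtain ⟨-, g2⟩ := h1 δ g0.le g1' y (by rw [abs_of_nonneg y0]; exact y1) (Or.inl g0)
      have h4 : 1 / 2 ≤ nr δ y := h3.le.trans (nr_ge_right δ y)
      have h5 : C1 / nr δ y ≤ 2 * C1 := by
        rw [div_le_iff₀ (by linarith)]
        nlinarith
      exact Real.rpow_le_rpow (Z_nn _ _) (g2.trans h5) hκ0
    · exact hB0
  have h4 : ∫ y in (0:ℝ)..H, g1 δ κ y ≤ B + C2 * H := by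
    rcases le_total H 1 with h5 | h5
    · have h6 : ∫ y in (0:ℝ)..H, g1 δ κ y ≤ ∫ _y in (0:ℝ)..H, B :=
        intervalIntegral.integral_mono_on hH (hgi 0 H) (by simp) fun y hy => hn y hy.1 (hy.2.trans h5)
      rw [intervalIntegral.integral_const, smul_eq_mul, sub_zero] at h6
      nlinarith [mul_nonneg hC2.le hH]
    · rw [← intervalIntegral.integral_add_adjacent_intervals (hgi 0 1) (hgi 1 H)]
      refine add_le_add ?_ ?_
      · have h6 : ∫ y in (0:ℝ)..1, g1 δ κ y ≤ ∫ _y in (0:ℝ)..1, B :=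
          intervalIntegral.integral_mono_on zero_le_one (hgi 0 1) (by simp) fun y hy => hn y hy.1 hy.2
        rw [intervalIntegral.integral_const, smul_eq_mul, sub_zero, one_mul] at h6
        exact h6
      · refine le_trans ?_ (h2 δ g0 g1' H h5)
        exact intervalIntegral.integral_mono_on h5 (hgi 1 H) (hint 1 H) fun y _ => g1_le _ _ _
  nlinarith [mul_nonneg hC2.le hH, mul_nonneg hB0 hH]

end Run7.h772.MM
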