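import Pool.Agent.Run7.h772.MM.Zb

set_option autoImplicit false

/-!
# Moments of moments near the critical line: products of zeta values over all pairs of points
-/

namespace Run7.h772.MM

open Finset Filter MeasureTheory Topology Complex
open Pool.Agent.N748.MG Pool.Agent.N748.MJ

/-- Lebesgue measure on `[0, H]` -/
noncomputable def nu (H : ℝ) : Measure ℝ := volume.restrict (Set.Icc 0 H)

instance (H : ℝ) : IsFiniteMeasure (nu H) := by
  unfold nu
  infer_instance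

/-- Lebesgue measure on the cube `[0, H]^n` -/
noncomputable def pn (n : ℕ) (H : ℝ) : Measure (Fin n → ℝ) := Measure.pi fun _ => nu H

instance (n : ℕ) (H : ℝ) : IsFiniteMeasure (pn n H) := by
  unfold pn
  infer_instance

lemma nu_univ {H : ℝ} (hH : 0 ≤ H) : (nu H).real Set.univ = H := by
  unfold nu
  rw [measureReal_restrict_apply MeasurableSet.univ, Set.univ_inter, Real.volume_real_Icc_of_le hH, sub_zero]

lemma pn_eq (n : ℕ) (H : ℝ) : pn n H = volume.restrict (Set.univ.pi fun _ : Fin n => Set.Icc 0 H) := by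
  unfold pn nu
  rw [volume_pi, Measure.restrict_pi_pi]

lemma pn_ae (n : ℕ) (H : ℝ) : ∀ᵐ h ∂(pn n H), ∀ j, h j ∈ Set.Icc 0 H := by
  rw [pn_eq]
  filter_upwards [ae_restrict_mem (MeasurableSet.univ_pi fun _ : Fin n => measurableSet_Icc)] with h hh j
  exact hh j (Set.mem_univ _)

/-- Tonelli: products of functions of the differences to one coordinate -/
lemma ton (n : ℕ) (j : Fin (n + 1)) (g : Fin n → ℝ → ℝ) (hm : ∀ i, Measurable (g i)) (h0 : ∀ i y, 0 ≤ g i y) (B : ℝ)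
    (hB : ∀ i y, g i y ≤ B) {H : ℝ} (hH : 0 ≤ H) :
    ∫ h, ∏ i, g i (h j - h (j.succAbove i)) ∂(pn (n + 1) H) ≤ H * ∏ i, ∫ y in (-H)..H, g i y := by
  have mp := measurePreserving_piFinSuccAbove (fun _ : Fin (n + 1) => nu H) j
  unfold pn
  rw [← mp.symm.integral_comp']
  have he : ∀ z : ℝ × (Fin n → ℝ), ∏ i, g i (((MeasurableEquiv.piFinSuccAbove (fun _ : Fin (n + 1) => ℝ) j).symm z) j -
      ((MeasurableEquiv.piFinSuccAbove (fun _ : Fin (n + 1) => ℝ) j).symm z) (j.succAbove i)) =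
      ∏ i, g i (z.1 - z.2 i) := by
    intro z
    refine Finset.prod_congr rfl fun i _ => ?_
    simp [MeasurableEquiv.piFinSuccAbove_symm_apply, Fin.insertNthEquiv]
  simp_rw [he]
  have hmeas : Measurable fun z : ℝ × (Fin n → ℝ) => ∏ i, g i (z.1 - z.2 i) := by
    refine Finset.measurable_prod _ fun i _ => ?_
    exact (hm i).comp (measurable_fst.sub ((measurable_pi_apply i).comp measurable_snd))
  have hint : Integrable (fun z : ℝ × (Fin n → ℝ) => ∏ i, g i (z.1 - z.2 i))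
      ((nu H).prod (Measure.pi fun _ : Fin n => nu H)) := by
    refine Integrable.of_bound hmeas.aestronglyMeasurable (B ^ n) (Eventually.of_forall fun z => ?_)
    rw [Real.norm_of_nonneg (Finset.prod_nonneg fun i _ => h0 i _)]
    calc ∏ i, g i (z.1 - z.2 i) ≤ ∏ _i : Fin n, B := Finset.prod_le_prod (fun i _ => h0 i _) fun i _ => hB i _
      _ = B ^ n := by simp
  rw [integral_prod _ hint]
  have hin : ∀ x : ℝ, ∫ y : Fin n → ℝ, ∏ i, g i (x - y i) ∂(Measure.pi fun _ : Fin n => nu H) =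
      ∏ i, ∫ t, g i (x - t) ∂(nu H) := fun x =>
    integral_fintype_prod_eq_prod (μ := fun _ : Fin n => nu H) (fun i t => g i (x - t))
  simp_rw [hin]
  have hone : ∀ x : ℝ, x ∈ Set.Icc 0 H → ∀ i, ∫ t, g i (x - t) ∂(nu H) ≤ ∫ y in (-H)..H, g i y := by
    intro x hx i
    unfold nu
    rw [integral_Icc_eq_integral_Ioc, ← intervalIntegral.integral_of_le hH,
      intervalIntegral.integral_comp_sub_left (fun y => g i y) x, sub_zero]
    have hii : IntervalIntegrable (g i) volume (-H) H := by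
      rw [intervalIntegrable_iff_integrableOn_Ioc_of_le (by linarith)]
      refine Measure.integrableOn_of_bounded (M := B) (by simp) (hm i).aestronglyMeasurable (Eventually.of_forall fun y => ?_)
      rw [Real.norm_of_nonneg (h0 i y)]
      exact hB i y
    exact intervalIntegral.integral_mono_interval (by linarith [hx.1]) (by linarith) hx.2
      (Eventually.of_forall fun y => h0 i y) hii
  have hnn : ∀ x i, 0 ≤ ∫ t, g i (x - t) ∂(nu H) := fun x i => integral_nonneg fun t => h0 i _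
  calc ∫ x, ∏ i, ∫ t, g i (x - t) ∂(nu H) ∂(nu H)
      ≤ ∫ _x, (∏ i, ∫ y in (-H)..H, g i y) ∂(nu H) := by
        refine integral_mono_of_nonneg (Eventually.of_forall fun x => Finset.prod_nonneg fun i _ => hnn x i)
          (integrable_const _) ?_
        have hae : ∀ᵐ x ∂(nu H), x ∈ Set.Icc 0 H := by
          unfold nu
          exact ae_restrict_mem measurableSet_Icc
        filter_upwards [hae] with x hx
        exact Finset.prod_le_prod (fun i _ => hnn x i) fun i _ => hone x hx i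
    _ = H * ∏ i, ∫ y in (-H)..H, g i y := by
        rw [integral_const, nu_univ hH, smul_eq_mul]

lemma prod_le_sum_pow {n : ℕ} (b : Fin (n + 1) → ℝ) (hb : ∀ j, 0 ≤ b j) : ∏ j, b j ≤ ∑ j, b j ^ (n + 1) := by
  obtain ⟨j0, -, hj⟩ := Finset.exists_max_image Finset.univ b ⟨0, Finset.mem_univ _⟩
  calc ∏ j, b j ≤ ∏ _j : Fin (n + 1), b j0 := Finset.prod_le_prod (fun j _ => hb j) fun j _ => hj j (Finset.mem_univ _)
    _ = b j0 ^ (n + 1) := by simp
    _ ≤ ∑ j, b j ^ (n + 1) :=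
        Finset.single_le_sum (f := fun j => b j ^ (n + 1)) (fun j _ => pow_nonneg (hb j) _) (Finset.mem_univ j0)

/-- the product over all pairs -/
noncomputable def PZ (δ c : ℝ) {m : ℕ} (h : Fin m → ℝ) : ℝ := ∏ j, ∏ l, Z δ (h j - h l) ^ c

lemma PZ_pos {δ c : ℝ} (h0 : 0 ≤ δ) {m : ℕ} (h : Fin m → ℝ) : 0 < PZ δ c h :=
  Finset.prod_pos fun _ _ => Finset.prod_pos fun _ _ => Real.rpow_pos_of_pos (Z_pos h0 _) _

lemma PZ_cont {δ c : ℝ} (h0 : 0 < δ) (m : ℕ) : Continuous fun h : Fin m → ℝ => PZ δ c h := by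
  unfold PZ
  refine continuous_finsetProd _ fun j _ => continuous_finsetProd _ fun l _ => ?_
  exact (Zp_cont h0).comp (by fun_prop)

lemma PZ_split {δ c : ℝ} (n : ℕ) (h : Fin (n + 1) → ℝ) :
    PZ δ c h = Z δ 0 ^ (c * (n + 1)) * ∏ j, ∏ i : Fin n, Z δ (h j - h (j.succAbove i)) ^ c := by
  unfold PZ
  have h1 : ∀ j : Fin (n + 1), ∏ l, Z δ (h j - h l) ^ c =
      Z δ 0 ^ c * ∏ i : Fin n, Z δ (h j - h (j.succAbove i)) ^ c := by
    intro j
    rw [Fin.prod_univ_succAbove _ j, sub_self]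
  simp_rw [h1]
  rw [Finset.prod_mul_distrib, Finset.prod_const, Finset.card_univ, Fintype.card_fin, Real.rpow_mul (Z_nn _ _),
    ← Real.rpow_natCast (Z δ 0 ^ c) (n + 1)]
  push_cast
  rfl

lemma PZ_le {δ c : ℝ} (n : ℕ) (h : Fin (n + 1) → ℝ) :
    PZ δ c h ≤ Z δ 0 ^ (c * (n + 1)) * ∑ j, ∏ i : Fin n, Z δ (h j - h (j.succAbove i)) ^ (c * (n + 1)) := by
  rw [PZ_split]
  refine mul_le_mul_of_nonneg_left ?_ (Real.rpow_nonneg (Z_nn _ _) _)
  refine (prod_le_sum_pow _ fun j => Finset.prod_nonneg fun i _ => Zp_nn _ _ _).trans (le_of_eq ?_)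
  refine Finset.sum_congr rfl fun j _ => ?_
  rw [← Finset.prod_pow]
  refine Finset.prod_congr rfl fun i _ => ?_
  rw [← Real.rpow_natCast, ← Real.rpow_mul (Z_nn _ _)]
  push_cast
  rfl

lemma Zp_le {δ κ : ℝ} (h0 : 0 < δ) (h1 : δ ≤ 1 / 16) (hκ : 0 ≤ κ) (y : ℝ) : Z δ y ^ κ ≤ (1 / δ) ^ κ :=
  Real.rpow_le_rpow (Z_nn _ _) (Z_le_inv h0 h1 y) hκ

/-- measurable bounded functions on the cube -/
lemma int_bdd {n : ℕ} {H : ℝ} {f : (Fin n → ℝ) → ℝ} (hm : Measurable f) (B : ℝ) (hB : ∀ h, |f h| ≤ B) :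
    Integrable f (pn n H) :=
  Integrable.of_bound hm.aestronglyMeasurable B (Eventually.of_forall hB)

/-- the whole cube -/
lemma all_le {n : ℕ} {δ c H : ℝ} (h0 : 0 < δ) (h1 : δ ≤ 1 / 16) (hc : 0 ≤ c) (hH : 0 ≤ H) :
    ∫ h, PZ δ c h ∂(pn (n + 1) H) ≤
      Z δ 0 ^ (c * (n + 1)) * ((n + 1) * (H * (∫ y in (-H)..H, Z δ y ^ (c * (n + 1))) ^ n)) := by
  have hκ : 0 ≤ c * ((n:ℝ) + 1) := by positivity
  set κ : ℝ := c * (n + 1) with hκd
  have hm : ∀ j : Fin (n + 1), Measurable fun h : Fin (n + 1) → ℝ => ∏ i : Fin n, Z δ (h j - h (j.succAbove i)) ^ κ := by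
    intro j
    refine Finset.measurable_prod _ fun i _ => ?_
    exact (Zp_cont h0).measurable.comp ((measurable_pi_apply _).sub (measurable_pi_apply _))
  have hb : ∀ j : Fin (n + 1), ∀ h : Fin (n + 1) → ℝ, |∏ i : Fin n, Z δ (h j - h (j.succAbove i)) ^ κ| ≤
      ((1 / δ) ^ κ) ^ n := by
    intro j h
    rw [abs_of_nonneg (Finset.prod_nonneg fun i _ => Zp_nn _ _ _)]
    calc ∏ i : Fin n, Z δ (h j - h (j.succAbove i)) ^ κ ≤ ∏ _i : Fin n, (1 / δ) ^ κ :=
          Finset.prod_le_prod (fun i _ => Zp_nn _ _ _) fun i _ => Zp_le h0 h1 hκ _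
      _ = ((1 / δ) ^ κ) ^ n := by simp
  have hi : ∀ j : Fin (n + 1), Integrable (fun h : Fin (n + 1) → ℝ => ∏ i : Fin n, Z δ (h j - h (j.succAbove i)) ^ κ)
      (pn (n + 1) H) := fun j => int_bdd (hm j) _ (hb j)
  calc ∫ h, PZ δ c h ∂(pn (n + 1) H)
      ≤ ∫ h, Z δ 0 ^ κ * ∑ j, ∏ i : Fin n, Z δ (h j - h (j.succAbove i)) ^ κ ∂(pn (n + 1) H) := by
        refine integral_mono_of_nonneg (Eventually.of_forall fun h => (PZ_pos h0.le h).le)
          ((integrable_finsetSum _ fun j _ => hi j).const_mul _) (Eventually.of_forall fun h => PZ_le n h)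
    _ = Z δ 0 ^ κ * ∑ j, ∫ h, ∏ i : Fin n, Z δ (h j - h (j.succAbove i)) ^ κ ∂(pn (n + 1) H) := by
        rw [integral_const_mul, integral_finsetSum _ fun j _ => hi j]
    _ ≤ Z δ 0 ^ κ * ∑ _j : Fin (n + 1), H * (∫ y in (-H)..H, Z δ y ^ κ) ^ n := by
        refine mul_le_mul_of_nonneg_left (Finset.sum_le_sum fun j _ => ?_) (Real.rpow_nonneg (Z_nn _ _) _)
        have h2 := ton n j (fun _ y => Z δ y ^ κ) (fun _ => (Zp_cont h0).measurable) (fun _ y => Zp_nn _ _ _)
          ((1 / δ) ^ κ) (fun _ y => Zp_le h0 h1 hκ y) hH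
        simpa using h2
    _ = Z δ 0 ^ κ * ((n + 1) * (H * (∫ y in (-H)..H, Z δ y ^ κ) ^ n)) := by simp

open Classical in
/-- far from the diagonal -/
noncomputable def Fr {n : ℕ} (h : Fin (n + 1) → ℝ) : ℝ := if ∃ l, 1 < |h l - h 0| then 1 else 0

lemma Fr_nn {n : ℕ} (h : Fin (n + 1) → ℝ) : 0 ≤ Fr h := by
  unfold Fr
  split_ifs <;> norm_num

lemma Fr_le {n : ℕ} (h : Fin (n + 1) → ℝ) : Fr h ≤ 1 := by
  unfold Fr
  split_ifs <;> norm_num

lemma Fr_set {n : ℕ} : MeasurableSet {h : Fin (n + 1) → ℝ | ∃ l, 1 < |h l - h 0|} := by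
  have : {h : Fin (n + 1) → ℝ | ∃ l, 1 < |h l - h 0|} = ⋃ l, {h | 1 < |h l - h 0|} := by
    ext h
    simp
  rw [this]
  refine MeasurableSet.iUnion fun l => ?_
  exact measurableSet_lt measurable_const (by fun_prop)

lemma Fr_meas {n : ℕ} : Measurable fun h : Fin (n + 1) → ℝ => Fr h := by
  classical
  unfold Fr
  exact Measurable.ite Fr_set measurable_const measurable_const

lemma far_idx {n : ℕ} {h : Fin (n + 1) → ℝ} (hF : ∃ l, 1 < |h l - h 0|) (j : Fin (n + 1)) :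
    ∃ i : Fin n, 1 / 2 < |h j - h (j.succAbove i)| := by
  obtain ⟨l, hl⟩ := hF
  by_cases h1 : 1 / 2 < |h j - h l|
  · have hne : l ≠ j := by
      rintro rfl
      rw [sub_self, abs_zero] at h1
      norm_num at h1
    obtain ⟨i, hi⟩ := Fin.exists_succAbove_eq hne
    exact ⟨i, by rw [hi]; exact h1⟩
  · have h2 : 1 / 2 < |h j - h 0| := by
      have h3 : |h l - h 0| ≤ |h j - h l| + |h j - h 0| := by
        have h4 : h l - h 0 = -(h j - h l) + (h j - h 0) := by ring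
        rw [h4]
        refine (abs_add_le _ _).trans ?_
        rw [abs_neg]
      linarith [not_lt.1 h1]
    have hne : (0 : Fin (n + 1)) ≠ j := by
      rintro rfl
      rw [sub_self, abs_zero] at h2
      norm_num at h2
    obtain ⟨i, hi⟩ := Fin.exists_succAbove_eq hne
    exact ⟨i, by rw [hi]; exact h2⟩

/-- the far part of the cube -/
lemma far_le {n : ℕ} {δ c H : ℝ} (h0 : 0 < δ) (h1 : δ ≤ 1 / 16) (hc : 0 ≤ c) (hH : 0 ≤ H) :
    ∫ h, Fr h * PZ δ c h ∂(pn (n + 1) H) ≤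
      Z δ 0 ^ (c * (n + 1)) * ((n + 1) * (n * (H * ((∫ y in (-H)..H, g1 δ (c * (n + 1)) y) *
        (∫ y in (-H)..H, Z δ y ^ (c * (n + 1))) ^ (n - 1))))) := by
  classical
  have hκ : 0 ≤ c * ((n:ℝ) + 1) := by positivity
  set κ : ℝ := c * (n + 1) with hκd
  set G : Fin n → Fin n → ℝ → ℝ := fun i i' y => if i' = i then g1 δ κ y else Z δ y ^ κ with hG
  have hGn : ∀ i i' y, 0 ≤ G i i' y := by
    intro i i' y
    simp only [hG]
    split_ifs
    · exact g1_nn _ _ _
    · exact Zp_nn _ _ _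
  have hGb : ∀ i i' y, G i i' y ≤ (1 / δ) ^ κ := by
    intro i i' y
    simp only [hG]
    split_ifs
    · exact (g1_le _ _ _).trans (Zp_le h0 h1 hκ y)
    · exact Zp_le h0 h1 hκ y
  have hGm : ∀ i i', Measurable (G i i') := by
    intro i i'
    simp only [hG]
    split_ifs
    · exact g1_meas h0
    · exact (Zp_cont h0).measurable
  have hm : ∀ (j : Fin (n + 1)) (i : Fin n), Measurable fun h : Fin (n + 1) → ℝ =>
      ∏ i' : Fin n, G i i' (h j - h (j.succAbove i')) := by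
    intro j i
    refine Finset.measurable_prod _ fun i' _ => ?_
    exact (hGm i i').comp ((measurable_pi_apply _).sub (measurable_pi_apply _))
  have hi : ∀ (j : Fin (n + 1)) (i : Fin n), Integrable (fun h : Fin (n + 1) → ℝ =>
      ∏ i' : Fin n, G i i' (h j - h (j.succAbove i'))) (pn (n + 1) H) := by
    intro j i
    refine int_bdd (hm j i) (((1 / δ) ^ κ) ^ n) fun h => ?_
    rw [abs_of_nonneg (Finset.prod_nonneg fun i _ => hGn _ _ _)]
    calc ∏ i' : Fin n, G i i' (h j - h (j.succAbove i')) ≤ ∏ _i : Fin n, (1 / δ) ^ κ :=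
          Finset.prod_le_prod (fun i _ => hGn _ _ _) fun i _ => hGb _ _ _
      _ = ((1 / δ) ^ κ) ^ n := by simp
  have hpt : ∀ h : Fin (n + 1) → ℝ, Fr h * PZ δ c h ≤
      Z δ 0 ^ κ * ∑ j, ∑ i, ∏ i' : Fin n, G i i' (h j - h (j.succAbove i')) := by
    intro h
    have hz : 0 ≤ Z δ 0 ^ κ := Real.rpow_nonneg (Z_nn _ _) _
    have hs : ∀ j : Fin (n + 1), 0 ≤ ∑ i, ∏ i' : Fin n, G i i' (h j - h (j.succAbove i')) := fun j =>
      Finset.sum_nonneg fun i _ => Finset.prod_nonneg fun i' _ => hGn _ _ _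
    unfold Fr
    split_ifs with hF
    · rw [one_mul]
      refine (PZ_le n h).trans (mul_le_mul_of_nonneg_left (Finset.sum_le_sum fun j _ => ?_) hz)
      obtain ⟨i, hi⟩ := far_idx hF j
      refine le_trans (le_of_eq ?_) (Finset.single_le_sum (f := fun i => ∏ i' : Fin n, G i i' (h j - h (j.succAbove i')))
        (fun i _ => Finset.prod_nonneg fun i' _ => hGn _ _ _) (Finset.mem_univ i))
      refine Finset.prod_congr rfl fun i' _ => ?_
      simp only [hG]
      split_ifs with h3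
      · unfold g1
        rw [h3, if_pos hi]
      · rfl
    · rw [zero_mul]
      exact mul_nonneg hz (Finset.sum_nonneg fun j _ => hs j)
  have hJ1 : 0 ≤ ∫ y in (-H)..H, g1 δ κ y :=
    intervalIntegral.integral_nonneg (by linarith) fun y _ => g1_nn _ _ _
  have hJ0 : 0 ≤ ∫ y in (-H)..H, Z δ y ^ κ :=
    intervalIntegral.integral_nonneg (by linarith) fun y _ => Zp_nn _ _ _
  have hprod : ∀ i : Fin n, ∏ i', ∫ y in (-H)..H, G i i' y =
      (∫ y in (-H)..H, g1 δ κ y) * (∫ y in (-H)..H, Z δ y ^ κ) ^ (n - 1) := by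
    intro i
    rw [← Finset.mul_prod_erase Finset.univ _ (Finset.mem_univ i)]
    congr 1
    · simp only [hG, if_true]
    · have : ∀ i' ∈ Finset.univ.erase i, ∫ y in (-H)..H, G i i' y = ∫ y in (-H)..H, Z δ y ^ κ := by
        intro i' hi'
        simp only [hG, if_neg (Finset.ne_of_mem_erase hi')]
      rw [Finset.prod_congr rfl this, Finset.prod_const, Finset.card_erase_of_mem (Finset.mem_univ i),
        Finset.card_univ, Fintype.card_fin]
  calc ∫ h, Fr h * PZ δ c h ∂(pn (n + 1) H)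
      ≤ ∫ h, Z δ 0 ^ κ * ∑ j, ∑ i, ∏ i' : Fin n, G i i' (h j - h (j.succAbove i')) ∂(pn (n + 1) H) := by
        refine integral_mono_of_nonneg (Eventually.of_forall fun h => mul_nonneg (Fr_nn h) (PZ_pos h0.le h).le)
          ((integrable_finsetSum _ fun j _ => integrable_finsetSum _ fun i _ => hi j i).const_mul _)
          (Eventually.of_forall hpt)
    _ = Z δ 0 ^ κ * ∑ j, ∑ i, ∫ h, ∏ i' : Fin n, G i i' (h j - h (j.succAbove i')) ∂(pn (n + 1) H) := by
        rw [integral_const_mul, integral_finsetSum _ fun j _ => integrable_finsetSum _ fun i _ => hi j i]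
        congr 1
        refine Finset.sum_congr rfl fun j _ => ?_
        rw [integral_finsetSum _ fun i _ => hi j i]
    _ ≤ Z δ 0 ^ κ * ∑ _j : Fin (n + 1), ∑ _i : Fin n, H * ((∫ y in (-H)..H, g1 δ κ y) *
          (∫ y in (-H)..H, Z δ y ^ κ) ^ (n - 1)) := by
        refine mul_le_mul_of_nonneg_left (Finset.sum_le_sum fun j _ => Finset.sum_le_sum fun i _ => ?_)
          (Real.rpow_nonneg (Z_nn _ _) _)
        rw [← hprod i]
        exact ton n j (G i) (hGm i) (hGn i) ((1 / δ) ^ κ) (hGb i) hH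
    _ = Z δ 0 ^ κ * ((n + 1) * (n * (H * ((∫ y in (-H)..H, g1 δ κ y) *
          (∫ y in (-H)..H, Z δ y ^ κ) ^ (n - 1))))) := by simp

end Run7.h772.MM
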