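import Pool.Agent.Run7.h772.MM.Zc

set_option autoImplicit false

/-!
# Moments of moments near the critical line: from the moments of the local moments to integrals over cubes
-/

namespace Run7.h772.MM

open Finset Filter MeasureTheory Topology Complex
open Pool.Agent.N748.MG Pool.Agent.N748.MJ

/-- the truncated power of zeta -/
noncomputable def fz (k c δ u : ℝ) : ℝ := if mz δ u ≤ c then mz δ u ^ (2 * k) else 0

/-- the moments of the local moments: the mean over `t ∈ [0, T]` of the `q`-th power of the mean over the window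
`[t, t + H]` of `|ζ(1/2 + δ + iu)|^(2k)`, truncated at the level `(2δ)^(-V)` -/
noncomputable def MoM (k V : ℝ) (q : ℕ) (δ H T : ℝ) : ℝ :=
  (1 / T) * ∫ t in (0:ℝ)..T, ((1 / H) * ∫ u in t..(t + H),
    if mz δ u ≤ (2 * δ) ^ (-V) then mz δ u ^ (2 * k) else 0) ^ q

/-- the truncated joint moment -/
noncomputable def QT (k V : ℝ) (m : ℕ) (δ T : ℝ) (h : Fin m → ℝ) : ℝ :=
  (1 / T) * ∫ t in {t : ℝ | t ∈ Set.Icc 0 T ∧ ∀ j, mz δ (t + h j) ≤ (2 * δ) ^ (-V)}, ∏ j, mz δ (t + h j) ^ (2 * k)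

/-- the main term -/
noncomputable def WW (k δ : ℝ) {m : ℕ} (h : Fin m → ℝ) : ℝ :=
  (aV (fun _ => (k : ℂ)) (fun _ => (k : ℂ)) h).re * PZ δ (k * k) h

lemma fz_nn (k c δ u : ℝ) : 0 ≤ fz k c δ u := by
  unfold fz
  split_ifs
  · exact Real.rpow_nonneg (norm_nonneg _) _
  · exact le_rfl

lemma fz_le {k c δ u : ℝ} (hk : 0 ≤ k) (hc : 0 ≤ c) : fz k c δ u ≤ c ^ (2 * k) := by
  unfold fz
  split_ifs with h
  · exact Real.rpow_le_rpow (norm_nonneg _) h (by linarith)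
  · exact Real.rpow_nonneg hc _

lemma fz_meas {k c δ : ℝ} (h1 : δ ≤ 1 / 16) : Measurable fun u => fz k c δ u := by
  have hm : Measurable fun u => mz δ u := (TMA.cont h1).measurable
  unfold fz
  exact Measurable.ite (measurableSet_le hm measurable_const) (hm.pow_const _) measurable_const

/-- Fubini -/
lemma mom_eq {q : ℕ} {f : ℝ → ℝ} (hm : Measurable f) (h0 : ∀ u, 0 ≤ f u) {B : ℝ} (hB : ∀ u, f u ≤ B) {H T : ℝ}
    (hH : 0 < H) (hT : 0 < T) :
    ∫ t in (0:ℝ)..T, ((1 / H) * ∫ u in t..(t + H), f u) ^ q =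
      (1 / H) ^ q * ∫ h, (∫ t in Set.Icc 0 T, ∏ j : Fin q, f (t + h j)) ∂(pn q H) := by
  have h1 : ∀ t : ℝ, ((1 / H) * ∫ u in t..(t + H), f u) ^ q =
      (1 / H) ^ q * ∫ h : Fin q → ℝ, ∏ j, f (t + h j) ∂(pn q H) := by
    intro t
    rw [mul_pow]
    congr 1
    have h2 : ∫ u in t..(t + H), f u = ∫ x, f (t + x) ∂(nu H) := by
      unfold nu
      rw [integral_Icc_eq_integral_Ioc, ← intervalIntegral.integral_of_le hH.le,
        intervalIntegral.integral_comp_add_left (fun u => f u) t, add_zero]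
    rw [h2]
    have h3 := integral_fintype_prod_eq_pow (ι := Fin q) (μ := nu H) (fun x => f (t + x))
    rw [Fintype.card_fin] at h3
    rw [← h3]
    rfl
  simp_rw [h1]
  rw [intervalIntegral.integral_const_mul, intervalIntegral.integral_of_le hT.le, ← integral_Icc_eq_integral_Ioc]
  congr 1
  have hmeas : Measurable fun z : ℝ × (Fin q → ℝ) => ∏ j, f (z.1 + z.2 j) := by
    refine Finset.measurable_prod _ fun i _ => ?_
    exact hm.comp (measurable_fst.add ((measurable_pi_apply i).comp measurable_snd))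
  have hint : Integrable (fun z : ℝ × (Fin q → ℝ) => ∏ j, f (z.1 + z.2 j))
      ((volume.restrict (Set.Icc 0 T)).prod (pn q H)) := by
    refine Integrable.of_bound hmeas.aestronglyMeasurable (B ^ q) (Eventually.of_forall fun z => ?_)
    rw [Real.norm_of_nonneg (Finset.prod_nonneg fun i _ => h0 _)]
    calc ∏ j, f (z.1 + z.2 j) ≤ ∏ _j : Fin q, B := Finset.prod_le_prod (fun i _ => h0 _) fun i _ => hB _
      _ = B ^ q := by simp
  exact integral_integral_swap hint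

lemma QT_eq {k V : ℝ} {m : ℕ} {δ T : ℝ} (h1 : δ ≤ 1 / 16) (h : Fin m → ℝ) :
    QT k V m δ T h = (1 / T) * ∫ t in Set.Icc 0 T, ∏ j : Fin m, fz k ((2 * δ) ^ (-V)) δ (t + h j) := by
  unfold QT
  congr 1
  have hs : {t : ℝ | t ∈ Set.Icc 0 T ∧ ∀ j, mz δ (t + h j) ≤ (2 * δ) ^ (-V)} =
      Set.Icc 0 T ∩ {t : ℝ | ∀ j, mz δ (t + h j) ≤ (2 * δ) ^ (-V)} := rfl
  have hmS : MeasurableSet {t : ℝ | ∀ j, mz δ (t + h j) ≤ (2 * δ) ^ (-V)} := by
    have : {t : ℝ | ∀ j, mz δ (t + h j) ≤ (2 * δ) ^ (-V)} = ⋂ j, {t : ℝ | mz δ (t + h j) ≤ (2 * δ) ^ (-V)} := by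
      ext t
      simp
    rw [this]
    refine MeasurableSet.iInter fun j => ?_
    exact measurableSet_le ((TMA.cont h1).measurable.comp (measurable_id.add_const _)) measurable_const
  rw [hs, ← setIntegral_indicator hmS]
  refine setIntegral_congr_fun measurableSet_Icc fun t _ => ?_
  show Set.indicator _ _ t = _
  by_cases ht : ∀ j, mz δ (t + h j) ≤ (2 * δ) ^ (-V)
  · rw [Set.indicator_of_mem (show t ∈ {t : ℝ | ∀ j, mz δ (t + h j) ≤ (2 * δ) ^ (-V)} from ht)]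
    refine Finset.prod_congr rfl fun j _ => ?_
    unfold fz
    rw [if_pos (ht j)]
  · rw [Set.indicator_of_notMem (show t ∉ {t : ℝ | ∀ j, mz δ (t + h j) ≤ (2 * δ) ^ (-V)} from ht)]
    push Not at ht
    obtain ⟨j, hj⟩ := ht
    symm
    refine Finset.prod_eq_zero (Finset.mem_univ j) ?_
    unfold fz
    rw [if_neg (not_le.2 hj)]

/-- the moments of moments as a mean of the joint moments over the cube -/
lemma MoM_eq {k V : ℝ} {q : ℕ} {δ H T : ℝ} (hk : 0 ≤ k) (h0 : 0 < δ) (h1 : δ ≤ 1 / 16) (hH : 0 < H) (hT : 0 < T) :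
    H ^ q * MoM k V q δ H T = ∫ h, QT k V q δ T h ∂(pn q H) := by
  unfold MoM
  have hc : 0 ≤ (2 * δ) ^ (-V) := Real.rpow_nonneg (by linarith) _
  have h2 := mom_eq (q := q) (f := fz k ((2 * δ) ^ (-V)) δ) (fz_meas h1) (fz_nn _ _ _) (fun u => fz_le hk hc) hH hT
  unfold fz at h2
  rw [h2]
  simp_rw [QT_eq h1]
  rw [integral_const_mul]
  unfold fz
  have h3 : H ^ q * ((1 / T) * ((1 / H) ^ q * ∫ h, (∫ t in Set.Icc 0 T, ∏ j : Fin q,
      if mz δ (t + h j) ≤ (2 * δ) ^ (-V) then mz δ (t + h j) ^ (2 * k) else 0) ∂(pn q H))) =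
      (H ^ q * (1 / H) ^ q) * ((1 / T) * ∫ h, (∫ t in Set.Icc 0 T, ∏ j : Fin q,
      if mz δ (t + h j) ≤ (2 * δ) ^ (-V) then mz δ (t + h j) ^ (2 * k) else 0) ∂(pn q H)) := by ring
  rw [h3, ← mul_pow, mul_one_div_cancel hH.ne', one_pow, one_mul]

lemma QT_meas {k V : ℝ} {m : ℕ} {δ T : ℝ} (h1 : δ ≤ 1 / 16) : StronglyMeasurable fun h : Fin m → ℝ => QT k V m δ T h := by
  simp_rw [QT_eq h1]
  refine StronglyMeasurable.const_mul ?_ _
  have hmeas : Measurable fun z : (Fin m → ℝ) × ℝ => ∏ j : Fin m, fz k ((2 * δ) ^ (-V)) δ (z.2 + z.1 j) := by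
    refine Finset.measurable_prod _ fun i _ => ?_
    exact (fz_meas h1).comp (measurable_snd.add ((measurable_pi_apply i).comp measurable_fst))
  exact hmeas.stronglyMeasurable.integral_prod_right' (ν := volume.restrict (Set.Icc 0 T))

/-- the arithmetic factor of the moments with equal exponents -/
noncomputable def Ar (k : ℝ) {m : ℕ} (h : Fin m → ℝ) : ℝ := (aV (fun _ => (k : ℂ)) (fun _ => (k : ℂ)) h).re

lemma Ar_cont (hC : S_CONV) (k : ℝ) (m : ℕ) : Continuous fun h : Fin m → ℝ => Ar k h := by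
  have h2 : Continuous fun h : Fin m → ℝ =>
      (((fun _ => (k : ℂ)), (fun _ => (k : ℂ)), h) : (Fin m → ℂ) × (Fin m → ℂ) × (Fin m → ℝ)) :=
    continuous_const.prodMk (continuous_const.prodMk continuous_id)
  have h3 := Complex.continuous_re.comp ((hC m).comp h2)
  exact h3

lemma WW_cont (hC : S_CONV) {k δ : ℝ} (h0 : 0 < δ) (m : ℕ) : Continuous fun h : Fin m → ℝ => WW k δ h :=
  (Ar_cont hC k m).mul (PZ_cont h0 m)

/-- the arithmetic factor is between two positive constants -/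
lemma aV_bd (hP : S_POSV) (m : ℕ) (k : ℝ) : ∃ c C : ℝ, 0 < c ∧ 0 < C ∧ ∀ h : Fin m → ℝ,
    c ≤ (aV (fun _ => (k : ℂ)) (fun _ => (k : ℂ)) h).re ∧ (aV (fun _ => (k : ℂ)) (fun _ => (k : ℂ)) h).re ≤ C := by
  obtain ⟨c, C, hc, hC, h⟩ := hP m |k| (abs_nonneg k)
  refine ⟨c, C, hc, hC, fun g => ?_⟩
  obtain ⟨h1, h2⟩ := h g
  obtain ⟨a, ha, hae⟩ := h2 (fun _ => k) fun _ => le_rfl
  have hn : ∀ _j : Fin m, ‖((k : ℝ) : ℂ)‖ ≤ |k| := fun _ => by
    rw [Complex.norm_real]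
    exact le_rfl
  have h3 := h1 (fun _ => (k : ℂ)) (fun _ => (k : ℂ)) hn hn
  rw [hae] at h3 ⊢
  rw [Complex.ofReal_re]
  rw [Complex.norm_real, Real.norm_of_nonneg (hc.le.trans ha)] at h3
  exact ⟨ha, h3⟩

lemma WW_pos (hP : S_POSV) {k δ : ℝ} (h0 : 0 ≤ δ) {m : ℕ} (h : Fin m → ℝ) : 0 < WW k δ h := by
  obtain ⟨c, C, hc, hC, hb⟩ := aV_bd hP m k
  unfold WW
  exact mul_pos (hc.trans_le (hb h).1) (PZ_pos h0 h)

/-- the uniform form of the theorem on the shifted moments -/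
lemma unif (hS : S_SM) (hP : S_POSV) {d : ℝ → ℝ} (hd : Ad d) (m : ℕ) (k V : ℝ) (hk : 0 < k) (hV : m * k < V) (ε : ℝ)
    (hε : 0 < ε) : ∀ᶠ T : ℝ in atTop, ∀ h : Fin m → ℝ, (∀ j, |h j| ≤ T ^ ((1:ℝ) / 2)) →
      |QT k V m (d T) T h - WW k (d T) h| ≤ ε * WW k (d T) h := by
  classical
  by_contra hcon
  rw [Filter.not_eventually] at hcon
  set bad : ℝ → (Fin m → ℝ) → Prop := fun T h => (∀ j, |h j| ≤ T ^ ((1:ℝ) / 2)) ∧
    ε * WW k (d T) h < |QT k V m (d T) T h - WW k (d T) h| with hbad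
  set h : ℝ → Fin m → ℝ := fun T => if H : ∃ g, bad T g then H.choose else fun _ => 0 with hh
  have hsum : ∑ _j : Fin m, k < V := by simpa using hV
  have hle : ∀ᶠ T : ℝ in atTop, ∀ j, |h T j| ≤ T ^ ((1:ℝ) / 2) := by
    filter_upwards [eventually_ge_atTop 0] with T hT j
    simp only [hh]
    split_ifs with H
    · exact H.choose_spec.1 j
    · rw [abs_zero]
      exact Real.rpow_nonneg hT _
  have hlim := hS d hd m (fun _ => k) V (fun _ => hk) hsum h hle
  have h1 : ∀ᶠ T : ℝ in atTop, |QT k V m (d T) T (h T) / WW k (d T) (h T) - 1| < ε := by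
    have h2 := (Metric.tendsto_nhds.1 hlim) ε hε
    filter_upwards [h2] with T hT
    rw [Real.dist_eq] at hT
    exact hT
  have h2 : ∃ᶠ T : ℝ in atTop, bad T (h T) := by
    refine hcon.mono fun T hT => ?_
    push Not at hT
    obtain ⟨g, hg1, hg2⟩ := hT
    have H : ∃ g, bad T g := ⟨g, hg1, hg2⟩
    simp only [hh]
    rw [dif_pos H]
    exact H.choose_spec
  obtain ⟨T, hT1, hT2, hT3⟩ := (h2.and_eventually (h1.and hd.pos)).exists
  have hW := WW_pos hP (k := k) hT3.le (h T)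
  have h3 := hT1.2
  have h4 : |QT k V m (d T) T (h T) - WW k (d T) (h T)| =
      |QT k V m (d T) T (h T) / WW k (d T) (h T) - 1| * WW k (d T) (h T) := by
    rw [← abs_of_pos hW, ← abs_mul, abs_of_pos hW]
    congr 1
    field_simp
  rw [h4] at h3
  nlinarith

/-- the integral of the main term over the cube -/
noncomputable def JJ (k δ : ℝ) (m : ℕ) (H : ℝ) : ℝ := ∫ h, WW k δ h ∂(pn m H)

lemma WW_int (hC : S_CONV) {k δ : ℝ} (h0 : 0 < δ) (m : ℕ) (H : ℝ) : Integrable (fun h : Fin m → ℝ => WW k δ h) (pn m H) := by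
  rw [pn_eq]
  exact (WW_cont hC h0 m).continuousOn.integrableOn_compact (isCompact_univ_pi fun _ => isCompact_Icc)

/-- the master formula -/
lemma master (hS : S_SM) (hP : S_POSV) (hC : S_CONV) {d : ℝ → ℝ} (hd : Ad d) (m : ℕ) (k V : ℝ) (hk : 0 < k)
    (hV : m * k < V) {H : ℝ → ℝ} (hH0 : ∀ᶠ T : ℝ in atTop, 0 < H T) (hH1 : ∀ᶠ T : ℝ in atTop, H T ≤ T ^ ((1:ℝ) / 2))
    (ε : ℝ) (hε : 0 < ε) : ∀ᶠ T : ℝ in atTop,
      |H T ^ m * MoM k V m (d T) (H T) T - JJ k (d T) m (H T)| ≤ ε * JJ k (d T) m (H T) := by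
  have hd1 : ∀ᶠ T : ℝ in atTop, d T ≤ 1 / 16 := hd.t0.eventually_le_const (by norm_num)
  filter_upwards [unif hS hP hd m k V hk hV ε hε, hH0, hH1, hd.pos, hd1, eventually_gt_atTop 0]
    with T h1 h2 h3 h4 h5 h6
  rw [MoM_eq hk.le h4 h5 h2 h6]
  have hWi := WW_int hC (k := k) h4 m (H T)
  have hae : ∀ᵐ h ∂(pn m (H T)), |QT k V m (d T) T h - WW k (d T) h| ≤ ε * WW k (d T) h := by
    filter_upwards [pn_ae m (H T)] with h hh
    refine h1 h fun j => ?_
    rw [abs_of_nonneg (hh j).1]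
    exact (hh j).2.trans h3
  have hQi : Integrable (fun h : Fin m → ℝ => QT k V m (d T) T h) (pn m (H T)) := by
    refine (hWi.const_mul (1 + ε)).mono' (QT_meas h5).aestronglyMeasurable ?_
    filter_upwards [hae] with h hh
    have hW := WW_pos hP (k := k) h4.le h
    rw [Real.norm_eq_abs]
    calc |QT k V m (d T) T h| = |(QT k V m (d T) T h - WW k (d T) h) + WW k (d T) h| := by ring_nf
      _ ≤ |QT k V m (d T) T h - WW k (d T) h| + |WW k (d T) h| := abs_add_le _ _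
      _ ≤ ε * WW k (d T) h + WW k (d T) h := add_le_add hh (abs_of_pos hW).le
      _ = (1 + ε) * WW k (d T) h := by ring
  unfold JJ
  rw [← integral_sub hQi hWi, ← integral_const_mul]
  refine (abs_integral_le_integral_abs).trans ?_
  exact integral_mono_ae (hQi.sub hWi).abs (hWi.const_mul ε) hae

end Run7.h772.MM
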