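import Pool.Agent.Run7.h772.MM.Zd

set_option autoImplicit false

/-!
# Moments of moments near the critical line: translation invariance, change of variables, the limiting density
-/

namespace Run7.h772.MM

open Finset Filter MeasureTheory Topology Complex
open Pool.Agent.N748.MG Pool.Agent.N748.MJ

lemma lV_shift {m : ℕ} (s : Fin m → ℂ) (h : Fin m → ℝ) (c : ℝ) {q : ℕ} (hq : q ≠ 0) (k : ℕ) :
    lV s (fun j => h j + c) q k = (q : ℂ) ^ (-((k * c : ℝ) * I)) * lV s h q k := by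
  unfold lV
  rw [Finset.mul_sum]
  refine Finset.sum_congr rfl fun μ hμ => ?_
  have hsum : ∑ j, μ j = k := (Finset.mem_piAntidiag.1 hμ).1
  have hq' : (q : ℂ) ≠ 0 := by exact_mod_cast hq
  have h1 : ∏ j, lC (s j) (μ j) * (q : ℂ) ^ (-((μ j * (h j + c) : ℝ) * I)) =
      (∏ j, (q : ℂ) ^ (-((μ j * c : ℝ) * I))) * ∏ j, lC (s j) (μ j) * (q : ℂ) ^ (-((μ j * h j : ℝ) * I)) := by
    rw [← Finset.prod_mul_distrib]
    refine Finset.prod_congr rfl fun j _ => ?_
    have h2 : (-(((μ j * (h j + c) : ℝ) : ℂ) * I)) = -(((μ j * c : ℝ) : ℂ) * I) + -(((μ j * h j : ℝ) : ℂ) * I) := by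
      push_cast
      ring
    rw [h2, Complex.cpow_add _ _ hq']
    ring
  rw [h1]
  congr 1
  have h3 : ∀ (S : Finset (Fin m)), ∏ j ∈ S, (q : ℂ) ^ (-((μ j * c : ℝ) * I)) =
      (q : ℂ) ^ (-(((∑ j ∈ S, μ j : ℕ) * c : ℝ) * I)) := by
    intro S
    classical
    induction S using Finset.induction_on with
    | empty => simp
    | insert a S ha ih =>
      rw [Finset.prod_insert ha, ih, ← Complex.cpow_add _ _ hq', Finset.sum_insert ha]
      congr 1
      push_cast
      ring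
  rw [h3 Finset.univ, hsum]

lemma unit_mul_conj {q : ℕ} (hq : q ≠ 0) (x : ℝ) :
    (q : ℂ) ^ (-((x : ℝ) * I)) * (starRingEnd ℂ) ((q : ℂ) ^ (-((x : ℝ) * I))) = 1 := by
  rw [Complex.mul_conj, Complex.normSq_eq_norm_sq]
  have h1 : ‖(q : ℂ) ^ (-((x : ℝ) * I))‖ = 1 := by
    have h2 : (0:ℝ) < q := by
      have := Nat.pos_of_ne_zero hq
      exact_mod_cast this
    have h3 := Complex.norm_cpow_eq_rpow_re_of_pos h2 (-((x : ℂ) * I))
    rw [Complex.ofReal_natCast] at h3
    rw [h3]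
    simp
  rw [h1]
  simp

lemma aV_shift {m : ℕ} (s r : Fin m → ℂ) (h : Fin m → ℝ) (c : ℝ) : aV s r (fun j => h j + c) = aV s r h := by
  unfold aV
  refine tprod_congr fun p => ?_
  unfold gV
  have hp : ((p : ℕ)) ≠ 0 := p.2.ne_zero
  congr 1
  · refine Finset.prod_congr rfl fun j _ => Finset.prod_congr rfl fun l _ => ?_
    rw [add_sub_add_right_eq_sub]
  · refine tsum_congr fun k => ?_
    rw [lV_shift s h c hp k, lV_shift (cj r) h c hp k, map_mul]
    congr 1
    have h1 := unit_mul_conj hp (k * c)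
    calc (((p : ℕ) : ℂ) ^ (-((k * c : ℝ) * I)) * lV s h p k) *
          ((starRingEnd ℂ) (((p : ℕ) : ℂ) ^ (-((k * c : ℝ) * I))) * (starRingEnd ℂ) (lV (cj r) h p k))
        = (((p : ℕ) : ℂ) ^ (-((k * c : ℝ) * I)) * (starRingEnd ℂ) (((p : ℕ) : ℂ) ^ (-((k * c : ℝ) * I)))) *
          (lV s h p k * (starRingEnd ℂ) (lV (cj r) h p k)) := by ring
      _ = lV s h p k * (starRingEnd ℂ) (lV (cj r) h p k) := by rw [h1, one_mul]

lemma Ar_shift (k : ℝ) {m : ℕ} (h : Fin m → ℝ) (c : ℝ) : Ar k (fun j => h j + c) = Ar k h := by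
  unfold Ar
  rw [aV_shift]

lemma PZ_shift (δ e : ℝ) {m : ℕ} (h : Fin m → ℝ) (c : ℝ) : PZ δ e (fun j => h j + c) = PZ δ e h := by
  unfold PZ
  refine Finset.prod_congr rfl fun j _ => Finset.prod_congr rfl fun l _ => ?_
  rw [add_sub_add_right_eq_sub]

lemma WW_eq (k δ : ℝ) {m : ℕ} (h : Fin m → ℝ) : WW k δ h = Ar k h * PZ δ (k * k) h := rfl

lemma WW_shift (k δ : ℝ) {m : ℕ} (h : Fin m → ℝ) (c : ℝ) : WW k δ (fun j => h j + c) = WW k δ h := by
  rw [WW_eq, WW_eq, Ar_shift, PZ_shift]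

lemma Ar_zero (hA : S_AV0) (k : ℝ) (m : ℕ) : Ar k (fun _ : Fin m => (0:ℝ)) = (aC ((m * k : ℝ) : ℂ)).re := by
  unfold Ar
  rw [hA m _ _ rfl]
  congr 2
  simp

/-- change of variables: the first coordinate, and the scaled differences to it -/
lemma cov (n : ℕ) {F : (Fin (n + 1) → ℝ) → ℝ} (hm : Measurable F) (B : ℝ) (hB : ∀ h, |F h| ≤ B) {H R : ℝ} (hH : 0 < H)
    (hR : 0 < R) : ∫ h, F h ∂(pn (n + 1) H) = H * R ^ n * ∫ s in (0:ℝ)..1, ∫ x : Fin n → ℝ,
      (Set.univ.pi fun _ : Fin n => Set.Icc 0 H).indicator (fun y => F (Fin.cons (H * s) y))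
        (fun j => H * s + R * x j) := by
  have mp := measurePreserving_piFinSuccAbove (fun _ : Fin (n + 1) => nu H) 0
  unfold pn
  rw [← mp.symm.integral_comp']
  have he : ∀ z : ℝ × (Fin n → ℝ), F ((MeasurableEquiv.piFinSuccAbove (fun _ : Fin (n + 1) => ℝ) 0).symm z) =
      F (Fin.cons z.1 z.2) := by
    intro z
    congr 1
    funext j
    refine Fin.cases ?_ (fun i => ?_) j
    · simp [MeasurableEquiv.piFinSuccAbove_symm_apply, Fin.insertNthEquiv]
    · simp [MeasurableEquiv.piFinSuccAbove_symm_apply, Fin.insertNthEquiv]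
  simp_rw [he]
  have hmc : Measurable fun z : ℝ × (Fin n → ℝ) => (Fin.cons z.1 z.2 : Fin (n + 1) → ℝ) := by
    rw [measurable_pi_iff]
    intro j
    refine Fin.cases ?_ (fun i => ?_) j
    · simpa using measurable_fst
    · simp only [Fin.cons_succ]
      exact (measurable_pi_apply i).comp measurable_snd
  have hint : Integrable (fun z : ℝ × (Fin n → ℝ) => F (Fin.cons z.1 z.2))
      ((nu H).prod (Measure.pi fun _ : Fin n => nu H)) :=
    Integrable.of_bound (hm.comp hmc).aestronglyMeasurable B (Eventually.of_forall fun z => hB _)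
  rw [integral_prod _ hint]
  have hin : ∀ s : ℝ, ∫ y : Fin n → ℝ, F (Fin.cons s y) ∂(Measure.pi fun _ : Fin n => nu H) =
      R ^ n * ∫ x : Fin n → ℝ, (Set.univ.pi fun _ : Fin n => Set.Icc 0 H).indicator (fun y => F (Fin.cons s y))
        (fun j => s + R * x j) := by
    intro s
    have hbox : MeasurableSet (Set.univ.pi fun _ : Fin n => Set.Icc (0:ℝ) H) :=
      MeasurableSet.univ_pi fun _ => measurableSet_Icc
    have h1 := pn_eq n H
    unfold pn at h1
    rw [h1, ← integral_indicator hbox]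
    set φ : (Fin n → ℝ) → ℝ := (Set.univ.pi fun _ : Fin n => Set.Icc 0 H).indicator (fun y => F (Fin.cons s y)) with hφ
    have h2 : ∫ x : Fin n → ℝ, φ ((fun _ => s) + R • x) = |(R ^ Module.finrank ℝ (Fin n → ℝ))⁻¹| • ∫ x, φ ((fun _ => s) + x) :=
      Measure.integral_comp_smul volume (fun x => φ ((fun _ => s) + x)) R
    rw [integral_add_left_eq_self, Module.finrank_fin_fun, abs_of_pos (by positivity), smul_eq_mul] at h2
    have h3 : ∀ x : Fin n → ℝ, φ (fun j => s + R * x j) = φ ((fun _ => s) + R • x) := fun x => rfl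
    simp_rw [h3]
    rw [h2, ← mul_assoc, mul_inv_cancel₀ (by positivity), one_mul]
  simp_rw [hin]
  have h4 : ∀ f : ℝ → ℝ, ∫ s, f s ∂(nu H) = H * ∫ s in (0:ℝ)..1, f (H * s) := by
    intro f
    unfold nu
    rw [integral_Icc_eq_integral_Ioc, ← intervalIntegral.integral_of_le hH.le]
    have h5 := intervalIntegral.mul_integral_comp_mul_left (f := f) (a := 0) (b := 1) H
    rw [mul_zero, mul_one] at h5
    exact h5.symm
  rw [h4, intervalIntegral.integral_const_mul]
  ring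

/-- the limiting density -/
noncomputable def DD (c : ℝ) {n : ℕ} (x : Fin n → ℝ) : ℝ :=
  ∏ j : Fin (n + 1), ∏ l : Fin (n + 1), (1 + ((Fin.cons 0 x : Fin (n + 1) → ℝ) j - (Fin.cons 0 x : Fin (n + 1) → ℝ) l) ^ 2) ^ (-(c / 2))

lemma one_sq_pos (u : ℝ) : 0 < 1 + u ^ 2 := by positivity

lemma DD_pos (c : ℝ) {n : ℕ} (x : Fin n → ℝ) : 0 < DD c x :=
  Finset.prod_pos fun _ _ => Finset.prod_pos fun _ _ => Real.rpow_pos_of_pos (one_sq_pos _) _

lemma cons_cont {n : ℕ} (j : Fin (n + 1)) : Continuous fun x : Fin n → ℝ => (Fin.cons 0 x : Fin (n + 1) → ℝ) j := by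
  refine Fin.cases ?_ (fun i => ?_) j
  · simp only [Fin.cons_zero]
    exact continuous_const
  · simp only [Fin.cons_succ]
    exact continuous_apply i

lemma DD_cont (c : ℝ) (n : ℕ) : Continuous fun x : Fin n → ℝ => DD c x := by
  unfold DD
  refine continuous_finsetProd _ fun j _ => continuous_finsetProd _ fun l _ => ?_
  refine Continuous.rpow_const ?_ fun x => Or.inl (one_sq_pos _).ne'
  exact continuous_const.add (((cons_cont j).sub (cons_cont l)).pow 2)

lemma integrable_ker {κ : ℝ} (hκ : 1 < κ) : Integrable fun u : ℝ => (1 + u ^ 2) ^ (-(κ / 2)) := by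
  have h1 := integrable_rpow_neg_one_add_norm_sq (E := ℝ) (μ := volume) (r := κ) (by simpa using hκ)
  refine h1.congr (Eventually.of_forall fun u => ?_)
  simp only [Real.norm_eq_abs, sq_abs]
  congr 1
  ring

/-- one of the dominating functions -/
noncomputable def Dj (κ : ℝ) {n : ℕ} (j : Fin (n + 1)) (x : Fin n → ℝ) : ℝ :=
  ∏ i : Fin n, (1 + ((Fin.cons 0 x : Fin (n + 1) → ℝ) j - (Fin.cons 0 x : Fin (n + 1) → ℝ) (j.succAbove i)) ^ 2) ^ (-(κ / 2))

lemma DD_le {c : ℝ} {n : ℕ} (x : Fin n → ℝ) : DD c x ≤ ∑ j, Dj (c * (n + 1)) j x := by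
  have h1 : DD c x = ∏ j : Fin (n + 1), Dj c j x := by
    unfold DD Dj
    refine Finset.prod_congr rfl fun j _ => ?_
    rw [Fin.prod_univ_succAbove _ j, sub_self]
    simp
  rw [h1]
  refine (prod_le_sum_pow _ fun j => ?_).trans (le_of_eq ?_)
  · exact Finset.prod_nonneg fun i _ => Real.rpow_nonneg (one_sq_pos _).le _
  · refine Finset.sum_congr rfl fun j _ => ?_
    unfold Dj
    rw [← Finset.prod_pow]
    refine Finset.prod_congr rfl fun i _ => ?_
    rw [← Real.rpow_natCast, ← Real.rpow_mul (one_sq_pos _).le]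
    congr 1
    push_cast
    ring

lemma Dj_int {κ : ℝ} (hκ : 1 < κ) {n : ℕ} (j : Fin (n + 1)) : Integrable fun x : Fin n → ℝ => Dj κ j x := by
  have hk := integrable_ker hκ
  refine Fin.cases ?_ (fun j' => ?_) j
  · have h1 : Integrable (fun x : Fin n → ℝ => ∏ i : Fin n, (1 + (x i) ^ 2) ^ (-(κ / 2))) volume := by
      rw [volume_pi]
      exact Integrable.fintype_prod (f := fun _ (u : ℝ) => (1 + u ^ 2) ^ (-(κ / 2))) fun _ => hk
    refine h1.congr (Eventually.of_forall fun x => ?_)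
    unfold Dj
    refine Finset.prod_congr rfl fun i _ => ?_
    simp
  · obtain ⟨m, rfl⟩ : ∃ m, n = m + 1 := ⟨n - 1, by have := j'.pos; omega⟩
    have mp := (volume_preserving_piFinSuccAbove (fun _ : Fin (m + 1) => ℝ) j').symm
    rw [← mp.integrable_comp_emb (MeasurableEquiv.measurableEmbedding _)]
    have he : ((fun x : Fin (m + 1) → ℝ => Dj κ j'.succ x) ∘
        (MeasurableEquiv.piFinSuccAbove (fun _ : Fin (m + 1) => ℝ) j').symm) =
        fun z : ℝ × (Fin m → ℝ) => (1 + z.1 ^ 2) ^ (-(κ / 2)) * ∏ i : Fin m, (1 + (z.1 - z.2 i) ^ 2) ^ (-(κ / 2)) := by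
      funext z
      simp only [Function.comp_apply]
      unfold Dj
      rw [Fin.prod_univ_succ]
      congr 1
      · simp [MeasurableEquiv.piFinSuccAbove_symm_apply, Fin.insertNthEquiv]
      · refine Finset.prod_congr rfl fun i _ => ?_
        simp [MeasurableEquiv.piFinSuccAbove_symm_apply, Fin.insertNthEquiv]
    rw [he]
    have hmeas : Measurable fun z : ℝ × (Fin m → ℝ) =>
        (1 + z.1 ^ 2) ^ (-(κ / 2)) * ∏ i : Fin m, (1 + (z.1 - z.2 i) ^ 2) ^ (-(κ / 2)) := by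
      fun_prop
    have hfix : ∀ u : ℝ, ∀ _i : Fin m, Integrable (fun v : ℝ => (1 + (u - v) ^ 2) ^ (-(κ / 2))) volume := fun u _ =>
      hk.comp_sub_left u
    have hval : ∀ u : ℝ, ∫ y : Fin m → ℝ, ‖(1 + u ^ 2) ^ (-(κ / 2)) * ∏ i : Fin m, (1 + (u - y i) ^ 2) ^ (-(κ / 2))‖ =
        (1 + u ^ 2) ^ (-(κ / 2)) * (∫ v : ℝ, (1 + v ^ 2) ^ (-(κ / 2))) ^ m := by
      intro u
      have h2 : ∀ y : Fin m → ℝ, ‖(1 + u ^ 2) ^ (-(κ / 2)) * ∏ i : Fin m, (1 + (u - y i) ^ 2) ^ (-(κ / 2))‖ =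
          (1 + u ^ 2) ^ (-(κ / 2)) * ∏ i : Fin m, (1 + (u - y i) ^ 2) ^ (-(κ / 2)) := by
        intro y
        rw [Real.norm_of_nonneg]
        exact mul_nonneg (Real.rpow_nonneg (one_sq_pos _).le _)
          (Finset.prod_nonneg fun i _ => Real.rpow_nonneg (one_sq_pos _).le _)
      simp_rw [h2]
      rw [integral_const_mul, integral_fintype_prod_volume_eq_prod (fun (_ : Fin m) (v : ℝ) => (1 + (u - v) ^ 2) ^ (-(κ / 2)))]
      congr 1
      rw [Finset.prod_const, Finset.card_univ, Fintype.card_fin]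
      congr 1
      exact integral_sub_left_eq_self (fun v : ℝ => (1 + v ^ 2) ^ (-(κ / 2))) volume u
    have hfin : Integrable (fun z : ℝ × (Fin m → ℝ) =>
        (1 + z.1 ^ 2) ^ (-(κ / 2)) * ∏ i : Fin m, (1 + (z.1 - z.2 i) ^ 2) ^ (-(κ / 2)))
        ((volume : Measure ℝ).prod (volume : Measure (Fin m → ℝ))) := by
      rw [integrable_prod_iff hmeas.aestronglyMeasurable]
      refine ⟨Eventually.of_forall fun u => ?_, ?_⟩
      · have h5 : Integrable (fun y : Fin m → ℝ => ∏ i : Fin m, (1 + (u - y i) ^ 2) ^ (-(κ / 2))) volume := by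
          rw [volume_pi]
          exact Integrable.fintype_prod (f := fun (_ : Fin m) (v : ℝ) => ((1 + (u - v) ^ 2) ^ (-(κ / 2)) : ℝ)) (hfix u)
        exact h5.const_mul ((1 + u ^ 2) ^ (-(κ / 2)))
      · simp only [hval]
        exact hk.mul_const _
    exact hfin

lemma DD_int {c : ℝ} {n : ℕ} (hc : 1 < c * (n + 1)) : Integrable fun x : Fin n → ℝ => DD c x := by
  refine (integrable_finsetSum Finset.univ fun j _ => Dj_int hc j).mono' (DD_cont c n).aestronglyMeasurable ?_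
  refine Eventually.of_forall fun x => ?_
  rw [Real.norm_of_nonneg (DD_pos c x).le]
  exact DD_le x

end Run7.h772.MM
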