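import Pool.Agent.Run7.h772.MM.Ze

set_option autoImplicit false

/-!
# Moments of moments near the critical line: the supercritical case
-/

namespace Run7.h772.MM

open Finset Filter MeasureTheory Topology Complex
open Pool.Agent.N748.MG Pool.Agent.N748.MJ

/-- `0, x_1, ..., x_n` -/
noncomputable def hat {n : ℕ} (x : Fin n → ℝ) : Fin (n + 1) → ℝ := Fin.cons 0 x

lemma nr_scale {δ : ℝ} (h0 : 0 < δ) (u : ℝ) : nr δ (2 * δ * u) = 2 * δ * Real.sqrt (1 + u ^ 2) := by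
  unfold nr
  rw [show (2 * δ) ^ 2 + (2 * δ * u) ^ 2 = (2 * δ) ^ 2 * (1 + u ^ 2) by ring, Real.sqrt_mul (sq_nonneg _),
    Real.sqrt_sq (by linarith)]

lemma half_pow (u c : ℝ) : ((1 + u ^ 2) ^ (-(1 / 2 : ℝ))) ^ c = (1 + u ^ 2) ^ (-(c / 2)) := by
  rw [← Real.rpow_mul (one_sq_pos u).le]
  congr 1
  ring

/-- the scaled product as a product -/
lemma PZ_scaled {δ k : ℝ} (h0 : 0 < δ) {n : ℕ} (x : Fin n → ℝ) :
    (2 * δ) ^ (((n + 1) * k) ^ 2) * PZ δ (k * k) (fun j => 2 * δ * hat x j) =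
      ∏ j, ∏ l, (2 * δ * Z δ (2 * δ * (hat x j - hat x l))) ^ (k * k) := by
  have h2 : (0:ℝ) < 2 * δ := by linarith
  unfold PZ
  have h3 : (2 * δ) ^ (((n + 1) * k) ^ 2) = ∏ _j : Fin (n + 1), ∏ _l : Fin (n + 1), (2 * δ) ^ (k * k) := by
    simp only [Finset.prod_const, Finset.card_univ, Fintype.card_fin]
    have e : (((2 * δ) ^ (k * k)) ^ (n + 1)) ^ (n + 1) = (2 * δ) ^ ((k * k) * (((n + 1) * (n + 1) : ℕ) : ℝ)) := by
      rw [← pow_mul, ← Real.rpow_natCast ((2 * δ) ^ (k * k)), ← Real.rpow_mul h2.le]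
    rw [e]
    congr 1
    push_cast
    ring
  rw [h3, ← Finset.prod_mul_distrib]
  refine Finset.prod_congr rfl fun j _ => ?_
  rw [← Finset.prod_mul_distrib]
  refine Finset.prod_congr rfl fun l _ => ?_
  rw [Real.mul_rpow h2.le (Z_nn _ _)]
  congr 3
  ring

/-- domination of the scaled product -/
lemma PZ_dom (n : ℕ) (k : ℝ) : ∃ C : ℝ, 0 < C ∧ ∀ δ : ℝ, 0 < δ → δ ≤ 1 / 16 → ∀ x : Fin n → ℝ,
    (∀ j l, |2 * δ * (hat x j - hat x l)| ≤ 2) →
    (2 * δ) ^ (((n + 1) * k) ^ 2) * PZ δ (k * k) (fun j => 2 * δ * hat x j) ≤ C * DD (k * k) x := by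
  obtain ⟨c, C, hc, hC, h⟩ := Z_near 2
  refine ⟨(C ^ (k * k)) ^ ((n + 1) * (n + 1)), by positivity, fun δ h0 h1 x hx => ?_⟩
  rw [PZ_scaled h0]
  have hkk : 0 ≤ k * k := mul_self_nonneg k
  have h2 : ∀ j l : Fin (n + 1), (2 * δ * Z δ (2 * δ * (hat x j - hat x l))) ^ (k * k) ≤
      C ^ (k * k) * (1 + (hat x j - hat x l) ^ 2) ^ (-((k * k) / 2)) := by
    intro j l
    obtain ⟨-, g2⟩ := h δ h0.le h1 (2 * δ * (hat x j - hat x l)) (hx j l) (Or.inl h0)
    have h3 : 2 * δ * Z δ (2 * δ * (hat x j - hat x l)) ≤ C * (1 + (hat x j - hat x l) ^ 2) ^ (-(1 / 2 : ℝ)) := by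
      rw [nr_scale h0] at g2
      have h4 : (1 + (hat x j - hat x l) ^ 2) ^ (-(1 / 2 : ℝ)) = (Real.sqrt (1 + (hat x j - hat x l) ^ 2))⁻¹ := by
        rw [Real.rpow_neg (one_sq_pos _).le, Real.sqrt_eq_rpow]
      have h5 : 0 < Real.sqrt (1 + (hat x j - hat x l) ^ 2) := Real.sqrt_pos.2 (one_sq_pos _)
      rw [h4]
      calc 2 * δ * Z δ (2 * δ * (hat x j - hat x l)) ≤ 2 * δ * (C / (2 * δ * Real.sqrt (1 + (hat x j - hat x l) ^ 2))) :=
            mul_le_mul_of_nonneg_left g2 (by linarith)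
        _ = C * (Real.sqrt (1 + (hat x j - hat x l) ^ 2))⁻¹ := by
            field_simp
    calc (2 * δ * Z δ (2 * δ * (hat x j - hat x l))) ^ (k * k)
        ≤ (C * (1 + (hat x j - hat x l) ^ 2) ^ (-(1 / 2 : ℝ))) ^ (k * k) :=
          Real.rpow_le_rpow (mul_nonneg (by linarith) (Z_nn _ _)) h3 hkk
      _ = C ^ (k * k) * (1 + (hat x j - hat x l) ^ 2) ^ (-((k * k) / 2)) := by
          rw [Real.mul_rpow hC.le (Real.rpow_nonneg (one_sq_pos _).le _), half_pow]
  have hnn : ∀ j l : Fin (n + 1), 0 ≤ (2 * δ * Z δ (2 * δ * (hat x j - hat x l))) ^ (k * k) := fun j l =>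
    Real.rpow_nonneg (mul_nonneg (by linarith) (Z_nn _ _)) _
  calc ∏ j, ∏ l, (2 * δ * Z δ (2 * δ * (hat x j - hat x l))) ^ (k * k)
      ≤ ∏ j : Fin (n + 1), ∏ l : Fin (n + 1), C ^ (k * k) * (1 + (hat x j - hat x l) ^ 2) ^ (-((k * k) / 2)) :=
        Finset.prod_le_prod (fun j _ => Finset.prod_nonneg fun l _ => hnn j l)
          fun j _ => Finset.prod_le_prod (fun l _ => hnn j l) fun l _ => h2 j l
    _ = (C ^ (k * k)) ^ ((n + 1) * (n + 1)) * DD (k * k) x := by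
        simp only [Finset.prod_mul_distrib, Finset.prod_const, Finset.card_univ, Fintype.card_fin]
        rw [← pow_mul]
        rfl

/-- the near part of the main term -/
noncomputable def FN (k δ : ℝ) {n : ℕ} (h : Fin (n + 1) → ℝ) : ℝ := (1 - Fr h) * WW k δ h

lemma PZ_le_const {δ c : ℝ} (h0 : 0 < δ) (h1 : δ ≤ 1 / 16) (hc : 0 ≤ c) {m : ℕ} (h : Fin m → ℝ) :
    PZ δ c h ≤ (((1 / δ) ^ c) ^ m) ^ m := by
  unfold PZ
  calc ∏ j, ∏ l, Z δ (h j - h l) ^ c ≤ ∏ _j : Fin m, ∏ _l : Fin m, (1 / δ) ^ c :=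
        Finset.prod_le_prod (fun j _ => Finset.prod_nonneg fun l _ => Zp_nn _ _ _)
          fun j _ => Finset.prod_le_prod (fun l _ => Zp_nn _ _ _) fun l _ => Zp_le h0 h1 hc _
    _ = (((1 / δ) ^ c) ^ m) ^ m := by simp

lemma FN_nn (hP : S_POSV) {k δ : ℝ} (h0 : 0 ≤ δ) {n : ℕ} (h : Fin (n + 1) → ℝ) : 0 ≤ FN k δ h :=
  mul_nonneg (by linarith [Fr_le h]) (WW_pos hP h0 h).le

lemma FN_meas (hC : S_CONV) {k δ : ℝ} (h0 : 0 < δ) {n : ℕ} : Measurable fun h : Fin (n + 1) → ℝ => FN k δ h :=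
  (measurable_const.sub Fr_meas).mul (WW_cont hC h0 _).measurable

/-- the scaled integrand -/
noncomputable def PS (k δ H : ℝ) {n : ℕ} (s : ℝ) (x : Fin n → ℝ) : ℝ :=
  (2 * δ) ^ (((n + 1) * k) ^ 2) * (Set.univ.pi fun _ : Fin n => Set.Icc 0 H).indicator
    (fun y => FN k δ (Fin.cons (H * s) y)) (fun j => H * s + 2 * δ * x j)

lemma cons_shift {n : ℕ} (a b : ℝ) (x : Fin n → ℝ) :
    (Fin.cons a (fun j => a + b * x j) : Fin (n + 1) → ℝ) = fun j => b * hat x j + a := by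
  funext j
  unfold hat
  refine Fin.cases ?_ (fun i => ?_) j
  · simp
  · simp only [Fin.cons_succ]
    ring

lemma hat_diff {n : ℕ} (x : Fin n → ℝ) (b a : ℝ) (l : Fin (n + 1)) :
    (b * hat x l + a) - (b * hat x 0 + a) = b * hat x l := by
  unfold hat
  simp

/-- no far point -/
lemma Fr_zero {n : ℕ} {h : Fin (n + 1) → ℝ} (hh : ∀ l, |h l - h 0| ≤ 1) : Fr h = 0 := by
  unfold Fr
  rw [if_neg]
  rintro ⟨l, hl⟩
  linarith [hh l]

lemma PS_dom (hP : S_POSV) (n : ℕ) (k : ℝ) : ∃ C : ℝ, 0 < C ∧ ∀ δ : ℝ, 0 < δ → δ ≤ 1 / 16 → ∀ (H s : ℝ) (x : Fin n → ℝ),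
    0 ≤ PS k δ H s x ∧ PS k δ H s x ≤ C * DD (k * k) x := by
  classical
  obtain ⟨C1, hC1, h1⟩ := PZ_dom n k
  obtain ⟨c2, C2, hc2, hC2, h2⟩ := aV_bd hP (n + 1) k
  refine ⟨C2 * C1, by positivity, fun δ g0 g1 H s x => ?_⟩
  have hd : 0 ≤ (2 * δ) ^ (((n + 1) * k) ^ 2) := Real.rpow_nonneg (by linarith) _
  have hD := (DD_pos (k * k) x).le
  unfold PS
  rw [Set.indicator_apply]
  split_ifs with hb
  · rw [cons_shift]
    refine ⟨mul_nonneg hd (FN_nn hP g0.le _), ?_⟩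
    unfold FN
    by_cases hf : ∀ l, |(2 * δ * hat x l + H * s) - (2 * δ * hat x 0 + H * s)| ≤ 1
    · rw [Fr_zero hf, sub_zero, one_mul, WW_shift k δ (fun j => 2 * δ * hat x j) (H * s), WW_eq]
      have hx : ∀ j l, |2 * δ * (hat x j - hat x l)| ≤ 2 := by
        intro j l
        have e1 := hf j
        have e2 := hf l
        rw [hat_diff] at e1 e2
        calc |2 * δ * (hat x j - hat x l)| = |2 * δ * hat x j - 2 * δ * hat x l| := by ring_nf
          _ ≤ |2 * δ * hat x j| + |2 * δ * hat x l| := abs_sub _ _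
          _ ≤ 2 := by linarith
      have h3 := h1 δ g0 g1 x hx
      have h4 := (h2 (fun j => 2 * δ * hat x j)).2
      have h5 : 0 ≤ (2 * δ) ^ (((n + 1) * k) ^ 2) * PZ δ (k * k) (fun j => 2 * δ * hat x j) :=
        mul_nonneg hd (PZ_pos g0.le _).le
      calc (2 * δ) ^ (((n + 1) * k) ^ 2) * (Ar k (fun j => 2 * δ * hat x j) * PZ δ (k * k) (fun j => 2 * δ * hat x j))
          = Ar k (fun j => 2 * δ * hat x j) *
            ((2 * δ) ^ (((n + 1) * k) ^ 2) * PZ δ (k * k) (fun j => 2 * δ * hat x j)) := by ring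
        _ ≤ C2 * ((2 * δ) ^ (((n + 1) * k) ^ 2) * PZ δ (k * k) (fun j => 2 * δ * hat x j)) :=
            mul_le_mul_of_nonneg_right h4 h5
        _ ≤ C2 * (C1 * DD (k * k) x) := mul_le_mul_of_nonneg_left h3 hC2.le
        _ = C2 * C1 * DD (k * k) x := by ring
    · have h6 : Fr (fun j => 2 * δ * hat x j + H * s) = 1 := by
        unfold Fr
        rw [if_pos]
        push Not at hf
        exact hf
      rw [h6, sub_self, zero_mul, mul_zero]
      positivity
  · rw [mul_zero]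
    exact ⟨le_rfl, by positivity⟩

lemma hat_cont {n : ℕ} : Continuous fun x : Fin n → ℝ => hat x := by
  rw [continuous_pi_iff]
  intro j
  exact cons_cont j

lemma PS_meas (hC : S_CONV) {k δ : ℝ} (h0 : 0 < δ) (H : ℝ) (n : ℕ) :
    Measurable fun z : ℝ × (Fin n → ℝ) => PS k δ H z.1 z.2 := by
  classical
  have h1 : (fun z : ℝ × (Fin n → ℝ) => PS k δ H z.1 z.2) = fun z : ℝ × (Fin n → ℝ) =>
      (2 * δ) ^ (((n + 1) * k) ^ 2) * ({z : ℝ × (Fin n → ℝ) | ∀ j, H * z.1 + 2 * δ * z.2 j ∈ Set.Icc 0 H}.indicator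
        (fun z => FN k δ (fun j => 2 * δ * hat z.2 j + H * z.1))) z := by
    funext z
    unfold PS
    congr 1
    rw [Set.indicator_apply, Set.indicator_apply, ← cons_shift (H * z.1) (2 * δ) z.2]
    simp only [Set.mem_univ_pi, Set.mem_ofPred_eq]
  rw [h1]
  refine Measurable.const_mul (Measurable.indicator ?_ ?_) _
  · refine (FN_meas hC h0).comp ?_
    rw [measurable_pi_iff]
    intro j
    have h2 : Measurable fun z : ℝ × (Fin n → ℝ) => hat z.2 j :=
      ((continuous_apply j).comp (hat_cont.comp continuous_snd)).measurable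
    exact (h2.const_mul _).add (measurable_fst.const_mul _)
  · have h3 : {z : ℝ × (Fin n → ℝ) | ∀ j, H * z.1 + 2 * δ * z.2 j ∈ Set.Icc 0 H} =
        ⋂ j, {z : ℝ × (Fin n → ℝ) | H * z.1 + 2 * δ * z.2 j ∈ Set.Icc 0 H} := by
      ext z
      simp
    rw [h3]
    refine MeasurableSet.iInter fun j => ?_
    have h4 : Measurable fun z : ℝ × (Fin n → ℝ) => H * z.1 + 2 * δ * z.2 j :=
      (measurable_fst.const_mul _).add (((measurable_pi_apply j).comp measurable_snd).const_mul _)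
    exact h4 measurableSet_Icc

/-- the near part in the scaled variables -/
lemma near_eq (hP : S_POSV) (hC : S_CONV) {k δ : ℝ} (h0 : 0 < δ) (h1 : δ ≤ 1 / 16) (n : ℕ) {H : ℝ} (hH : 0 < H) :
    (2 * δ) ^ (((n + 1) * k) ^ 2 - n) * (1 / H) * ∫ h, FN k δ h ∂(pn (n + 1) H) =
      ∫ s in (0:ℝ)..1, ∫ x : Fin n → ℝ, PS k δ H s x := by
  obtain ⟨c2, C2, hc2, hC2, h2⟩ := aV_bd hP (n + 1) k
  have hb : ∀ h : Fin (n + 1) → ℝ, |FN k δ h| ≤ C2 * (((1 / δ) ^ (k * k)) ^ (n + 1)) ^ (n + 1) := by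
    intro h
    rw [abs_of_nonneg (FN_nn hP h0.le h)]
    unfold FN
    have h3 : WW k δ h ≤ C2 * (((1 / δ) ^ (k * k)) ^ (n + 1)) ^ (n + 1) := by
      rw [WW_eq]
      exact mul_le_mul (h2 h).2 (PZ_le_const h0 h1 (mul_self_nonneg k) h) (PZ_pos h0.le h).le hC2.le
    have h4 := WW_pos hP (k := k) h0.le h
    nlinarith [Fr_nn h, Fr_le h]
  have h2δ : (0:ℝ) < 2 * δ := by linarith
  rw [cov n (FN_meas hC h0) _ hb hH h2δ]
  unfold PS
  simp_rw [integral_const_mul]
  rw [intervalIntegral.integral_const_mul, Real.rpow_sub h2δ, Real.rpow_natCast]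
  have h5 : (2 * δ) ^ n ≠ 0 := by positivity
  field_simp

/-- the limit of the near part -/
lemma near_lim (hP : S_POSV) (hC : S_CONV) (hA : S_AV0) {d H : ℝ → ℝ} (hdp : ∀ᶠ T : ℝ in atTop, 0 < d T)
    (hd0 : Tendsto d atTop (𝓝 0)) (hHp : ∀ᶠ T : ℝ in atTop, 0 < H T)
    (hHd : Tendsto (fun T => H T / d T) atTop atTop) (n : ℕ) (k : ℝ) (hk : 1 < k * k * (n + 1)) :
    Tendsto (fun T : ℝ => (2 * d T) ^ (((n + 1) * k) ^ 2 - n) * (1 / H T) * ∫ h, FN k (d T) h ∂(pn (n + 1) (H T))) atTop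
      (𝓝 ((aC (((n + 1 : ℕ) * k : ℝ) : ℂ)).re * ∫ x : Fin n → ℝ, DD (k * k) x)) := by
  have hd1 : ∀ᶠ T : ℝ in atTop, d T ≤ 1 / 16 := hd0.eventually_le_const (by norm_num)
  obtain ⟨C, hC0, hdom⟩ := PS_dom hP n k
  set A : ℝ := (aC (((n + 1 : ℕ) * k : ℝ) : ℂ)).re with hAd
  have hDi := DD_int (n := n) hk
  have heq : (fun T : ℝ => ∫ s in (0:ℝ)..1, ∫ x : Fin n → ℝ, PS k (d T) (H T) s x) =ᶠ[atTop]
      fun T : ℝ => (2 * d T) ^ (((n + 1) * k) ^ 2 - n) * (1 / H T) * ∫ h, FN k (d T) h ∂(pn (n + 1) (H T)) := by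
    filter_upwards [hdp, hd1, hHp] with T h1 h2 h3
    exact (near_eq hP hC h1 h2 n h3).symm
  refine Tendsto.congr' heq ?_
  -- the pointwise limit
  have hd0' : Tendsto d atTop (𝓝[>] 0) := tendsto_nhdsWithin_iff.2 ⟨hd0, hdp⟩
  have hdH : Tendsto (fun T => d T / H T) atTop (𝓝 0) := by
    have h1 := hHd.inv_tendsto_atTop
    refine h1.congr fun T => ?_
    simp
  have hpt : ∀ s : ℝ, 0 < s → s < 1 → ∀ x : Fin n → ℝ, Tendsto (fun T => PS k (d T) (H T) s x) atTop
      (𝓝 (A * DD (k * k) x)) := by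
    intro s hs0 hs1 x
    have e1 : ∀ᶠ T : ℝ in atTop, ∀ j, H T * s + 2 * d T * x j ∈ Set.Icc 0 (H T) := by
      rw [Filter.eventually_all]
      intro j
      have l1 : Tendsto (fun T => s + 2 * (d T / H T) * x j) atTop (𝓝 s) := by
        have := ((hdH.const_mul 2).mul_const (x j)).const_add s
        simpa using this
      filter_upwards [l1.eventually_const_lt hs0, l1.eventually_lt_const hs1, hHp] with T a1 a2 a3
      have a4 : H T * s + 2 * d T * x j = H T * (s + 2 * (d T / H T) * x j) := by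
        field_simp
      rw [a4]
      exact ⟨by positivity, by nlinarith⟩
    have e2 : ∀ᶠ T : ℝ in atTop, ∀ l : Fin (n + 1), |2 * d T * hat x l| ≤ 1 := by
      rw [Filter.eventually_all]
      intro l
      have l1 : Tendsto (fun T => |2 * d T * hat x l|) atTop (𝓝 0) := by
        have := ((hd0.const_mul 2).mul_const (hat x l)).abs
        simpa using this
      exact l1.eventually_le_const one_pos
    have e3 : (fun T : ℝ => Ar k (fun j => 2 * d T * hat x j) *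
        ∏ j, ∏ l, (2 * d T * Z (d T) (2 * d T * (hat x j - hat x l))) ^ (k * k)) =ᶠ[atTop]
        fun T => PS k (d T) (H T) s x := by
      filter_upwards [e1, e2, hdp] with T a1 a2 a3
      unfold PS
      rw [Set.indicator_of_mem (show (fun j => H T * s + 2 * d T * x j) ∈ Set.univ.pi fun _ : Fin n => Set.Icc 0 (H T) from
        fun j _ => a1 j)]
      show _ = (2 * d T) ^ (((n + 1) * k) ^ 2) * FN k (d T) (Fin.cons (H T * s) fun j => H T * s + 2 * d T * x j)
      rw [cons_shift]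
      unfold FN
      rw [Fr_zero (fun l => by rw [hat_diff]; exact a2 l), sub_zero, one_mul,
        WW_shift k (d T) (fun j => 2 * d T * hat x j) (H T * s), WW_eq, ← PZ_scaled a3]
      ring
    refine Tendsto.congr' e3 ?_
    have l2 : Tendsto (fun T => Ar k (fun j => 2 * d T * hat x j)) atTop (𝓝 A) := by
      have c1 : Continuous fun r : ℝ => Ar k (fun j => 2 * r * hat x j) :=
        (Ar_cont hC k (n + 1)).comp (by fun_prop)
      have c2 := (c1.tendsto 0).comp hd0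
      have c3 : Ar k (fun j : Fin (n + 1) => 2 * (0:ℝ) * hat x j) = A := by
        simp only [mul_zero, zero_mul]
        exact Ar_zero hA k (n + 1)
      rw [c3] at c2
      exact c2
    refine l2.mul ?_
    unfold DD
    refine tendsto_finsetProd _ fun j _ => tendsto_finsetProd _ fun l _ => ?_
    have l3 := (Z_scale (hat x j - hat x l)).comp hd0'
    have l4 := l3.rpow_const (p := k * k) (Or.inl (Real.rpow_pos_of_pos (one_sq_pos _) _).ne')
    rw [half_pow] at l4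
    exact l4
  -- inner integrals
  have hin : ∀ s : ℝ, 0 < s → s < 1 → Tendsto (fun T => ∫ x : Fin n → ℝ, PS k (d T) (H T) s x) atTop
      (𝓝 (A * ∫ x : Fin n → ℝ, DD (k * k) x)) := by
    intro s hs0 hs1
    rw [← integral_const_mul]
    refine tendsto_integral_filter_of_dominated_convergence (fun x => C * DD (k * k) x) ?_ ?_ (hDi.const_mul C)
      (Eventually.of_forall fun x => hpt s hs0 hs1 x)
    · filter_upwards [hdp] with T h1
      exact ((PS_meas hC h1 (H T) n).comp (measurable_const.prodMk measurable_id)).aestronglyMeasurable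
    · filter_upwards [hdp, hd1] with T h1 h2
      refine Eventually.of_forall fun x => ?_
      obtain ⟨a1, a2⟩ := hdom (d T) h1 h2 (H T) s x
      rw [Real.norm_of_nonneg a1]
      exact a2
  have hres : ∫ _s in (0:ℝ)..1, (A * ∫ x : Fin n → ℝ, DD (k * k) x) = A * ∫ x : Fin n → ℝ, DD (k * k) x := by
    simp
  rw [← hres]
  refine intervalIntegral.tendsto_integral_filter_of_dominated_convergence (fun _ => C * ∫ x : Fin n → ℝ, DD (k * k) x)
    ?_ ?_ (by simp) ?_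
  · filter_upwards [hdp] with T h1
    have h2 := (PS_meas hC (k := k) h1 (H T) n).stronglyMeasurable.integral_prod_right'
      (ν := (volume : Measure (Fin n → ℝ)))
    exact h2.aestronglyMeasurable
  · filter_upwards [hdp, hd1] with T h1 h2
    refine Eventually.of_forall fun s _ => ?_
    have hn : 0 ≤ ∫ x : Fin n → ℝ, PS k (d T) (H T) s x := integral_nonneg fun x => (hdom (d T) h1 h2 (H T) s x).1
    rw [Real.norm_of_nonneg hn, ← integral_const_mul]
    exact integral_mono_of_nonneg (Eventually.of_forall fun x => (hdom (d T) h1 h2 (H T) s x).1) (hDi.const_mul C)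
      (Eventually.of_forall fun x => (hdom (d T) h1 h2 (H T) s x).2)
  · have h1 : ∀ᵐ s : ℝ, s ≠ 1 := by
      simp [ae_iff, measure_singleton]
    filter_upwards [h1] with s hs hs2
    rw [Set.uIoc_of_le zero_le_one] at hs2
    exact hin s hs2.1 (lt_of_le_of_ne hs2.2 hs)

end Run7.h772.MM
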