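import Pool.Agent.Run7.h772.MM.Zf

set_option autoImplicit false

/-!
# Moments of moments near the critical line: the theorem in the supercritical case
-/

namespace Run7.h772.MM

open Finset Filter MeasureTheory Topology Complex
open Pool.Agent.N748.MG Pool.Agent.N748.MJ

lemma close {X J a : ℝ → ℝ} {L : ℝ} (ha : ∀ᶠ T : ℝ in atTop, 0 ≤ a T) (hJ : Tendsto (fun T => a T * J T) atTop (𝓝 L))
    (h : ∀ ε : ℝ, 0 < ε → ∀ᶠ T : ℝ in atTop, |X T - J T| ≤ ε * J T) : Tendsto (fun T => a T * X T) atTop (𝓝 L) := by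
  have h1 : Tendsto (fun T => a T * (X T - J T)) atTop (𝓝 0) := by
    rw [Metric.tendsto_nhds]
    intro η hη
    have hb : ∀ᶠ T : ℝ in atTop, a T * J T < |L| + 1 := by
      refine hJ.eventually_lt_const ?_
      have := le_abs_self L
      linarith
    have hp : 0 < |L| + 1 := by positivity
    filter_upwards [h (η / (2 * (|L| + 1))) (by positivity), hb, ha] with T g1 g2 g3
    rw [Real.dist_eq, sub_zero, abs_mul, abs_of_nonneg g3]
    calc a T * |X T - J T| ≤ a T * (η / (2 * (|L| + 1)) * J T) := mul_le_mul_of_nonneg_left g1 g3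
      _ = η / (2 * (|L| + 1)) * (a T * J T) := by ring
      _ ≤ η / (2 * (|L| + 1)) * (|L| + 1) := mul_le_mul_of_nonneg_left g2.le (by positivity)
      _ = η / 2 := by field_simp
      _ < η := by linarith
  have h2 := hJ.add h1
  rw [add_zero] at h2
  refine h2.congr fun T => ?_
  ring

lemma Fr_WW_nn (hP : S_POSV) {k δ : ℝ} (h0 : 0 ≤ δ) {n : ℕ} (h : Fin (n + 1) → ℝ) : 0 ≤ Fr h * WW k δ h :=
  mul_nonneg (Fr_nn h) (WW_pos hP h0 h).le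

lemma FrPZ_int {δ c : ℝ} (h0 : 0 < δ) (h1 : δ ≤ 1 / 16) (hc : 0 ≤ c) (n : ℕ) (H : ℝ) :
    Integrable (fun h : Fin (n + 1) → ℝ => Fr h * PZ δ c h) (pn (n + 1) H) := by
  refine int_bdd (Fr_meas.mul (PZ_cont h0 _).measurable) ((((1 / δ) ^ c) ^ (n + 1)) ^ (n + 1)) fun h => ?_
  have h2 := PZ_pos h0.le (c := c) h
  have h3 := PZ_le_const h0 h1 hc h
  rw [abs_of_nonneg (mul_nonneg (Fr_nn h) h2.le)]
  nlinarith [Fr_nn h, Fr_le h]

lemma FrWW_int (hP : S_POSV) (hC : S_CONV) {k δ : ℝ} (h0 : 0 < δ) (h1 : δ ≤ 1 / 16) (n : ℕ) (H : ℝ) :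
    Integrable (fun h : Fin (n + 1) → ℝ => Fr h * WW k δ h) (pn (n + 1) H) := by
  obtain ⟨c2, C2, hc2, hC2, h2⟩ := aV_bd hP (n + 1) k
  refine ((FrPZ_int h0 h1 (mul_self_nonneg k) n H).const_mul C2).mono'
    (Fr_meas.mul (WW_cont hC h0 _).measurable).aestronglyMeasurable (Eventually.of_forall fun h => ?_)
  rw [Real.norm_of_nonneg (Fr_WW_nn hP h0.le h), WW_eq]
  have h3 := PZ_pos h0.le (c := k * k) h
  calc Fr h * (Ar k h * PZ δ (k * k) h) = Ar k h * (Fr h * PZ δ (k * k) h) := by ring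
    _ ≤ C2 * (Fr h * PZ δ (k * k) h) :=
        mul_le_mul_of_nonneg_right (h2 h).2 (mul_nonneg (Fr_nn h) h3.le)

/-- splitting into the near and the far part -/
lemma JJ_split (hP : S_POSV) (hC : S_CONV) {k δ : ℝ} (h0 : 0 < δ) (h1 : δ ≤ 1 / 16) (n : ℕ) (H : ℝ) :
    JJ k δ (n + 1) H = (∫ h, FN k δ h ∂(pn (n + 1) H)) + ∫ h, Fr h * WW k δ h ∂(pn (n + 1) H) := by
  have h2 := FrWW_int hP hC (k := k) h0 h1 n H
  have h3 : Integrable (fun h : Fin (n + 1) → ℝ => FN k δ h) (pn (n + 1) H) := by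
    have h4 := (WW_int hC (k := k) h0 (n + 1) H).sub h2
    refine h4.congr (Eventually.of_forall fun h => ?_)
    show WW k δ h - Fr h * WW k δ h = FN k δ h
    unfold FN
    ring
  unfold JJ
  rw [← integral_add h3 h2]
  refine integral_congr_ae (Eventually.of_forall fun h => ?_)
  show WW k δ h = FN k δ h + Fr h * WW k δ h
  unfold FN
  ring

/-- the far part is negligible -/
lemma far_bd (hP : S_POSV) (hC : S_CONV) (n : ℕ) (k θ : ℝ) (hθ0 : 0 ≤ θ) (hθ : θ < k * k * (n + 1) - 1) :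
    ∃ C : ℝ, 0 < C ∧ ∀ δ : ℝ, 0 < δ → δ ≤ 1 / 16 → ∀ H : ℝ, 0 < H → H ≤ δ ^ (-θ) →
      (2 * δ) ^ (((n + 1) * k) ^ 2 - n) * (1 / H) * ∫ h, Fr h * WW k δ h ∂(pn (n + 1) H) ≤
        C * δ ^ (k * k * (n + 1) - 1 - θ) := by
  set κ : ℝ := k * k * (n + 1) with hκd
  have hκ1 : 1 < κ := by linarith
  obtain ⟨c2, C2, hc2, hC2, h2⟩ := aV_bd hP (n + 1) k
  obtain ⟨Ca, hCa, hJ1⟩ := J1_bd κ (by linarith)
  obtain ⟨Cb, hCb, hJ0⟩ := J0_bd κ κ (by linarith) hκ1 le_rfl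
  have hpow : 0 < (2:ℝ) ^ (((n + 1) * k) ^ 2 - n) := Real.rpow_pos_of_pos (by norm_num) _
  refine ⟨(2:ℝ) ^ (((n + 1) * k) ^ 2 - n) * (C2 * ((n + 1) * ((n + 1) * (2 * Ca * (2 * Cb) ^ (n - 1))))),
    by positivity, fun δ h0 h1 H hH hHθ => ?_⟩
  have hδ1 : δ ≤ 1 := by linarith
  have hkk : 0 ≤ k * k := mul_self_nonneg k
  have e1 : ∫ h, Fr h * WW k δ h ∂(pn (n + 1) H) ≤ C2 * ∫ h, Fr h * PZ δ (k * k) h ∂(pn (n + 1) H) := by
    rw [← integral_const_mul]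
    refine integral_mono (FrWW_int hP hC h0 h1 n H) ((FrPZ_int h0 h1 hkk n H).const_mul C2) fun h => ?_
    show Fr h * WW k δ h ≤ C2 * (Fr h * PZ δ (k * k) h)
    rw [WW_eq]
    have h3 := PZ_pos h0.le (c := k * k) h
    calc Fr h * (Ar k h * PZ δ (k * k) h) = Ar k h * (Fr h * PZ δ (k * k) h) := by ring
      _ ≤ C2 * (Fr h * PZ δ (k * k) h) :=
          mul_le_mul_of_nonneg_right (h2 h).2 (mul_nonneg (Fr_nn h) h3.le)
  have e2 := far_le (n := n) h0 h1 hkk hH.le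
  rw [← hκd] at e2
  have ht : 1 ≤ δ ^ (-θ) := Real.one_le_rpow_of_pos_of_le_one_of_nonpos h0 hδ1 (by linarith)
  have b1 : ∫ y in (-H)..H, g1 δ κ y ≤ 2 * Ca * δ ^ (-θ) := by
    refine (hJ1 δ h0 h1 H hH.le).trans ?_
    nlinarith
  have b0 : ∫ y in (-H)..H, Z δ y ^ κ ≤ 2 * Cb * δ ^ (1 - κ) := by
    refine (hJ0 δ h0 h1 H hH.le).trans ?_
    have h3 : δ ^ (-θ) ≤ δ ^ (1 - κ) := Real.rpow_le_rpow_of_exponent_ge h0 hδ1 (by linarith)
    nlinarith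
  have n1 : 0 ≤ ∫ y in (-H)..H, g1 δ κ y := intervalIntegral.integral_nonneg (by linarith) fun y _ => g1_nn _ _ _
  have n0 : 0 ≤ ∫ y in (-H)..H, Z δ y ^ κ := intervalIntegral.integral_nonneg (by linarith) fun y _ => Zp_nn _ _ _
  have z0 : Z δ 0 ^ κ ≤ δ ^ (-κ) := by
    refine (Zp_le h0 h1 (by linarith) 0).trans (le_of_eq ?_)
    rw [one_div, Real.inv_rpow h0.le, Real.rpow_neg h0.le]
  have zn : 0 ≤ Z δ 0 ^ κ := Zp_nn _ _ _
  have e3 : (∫ y in (-H)..H, Z δ y ^ κ) ^ (n - 1) ≤ (2 * Cb * δ ^ (1 - κ)) ^ (n - 1) := pow_le_pow_left₀ n0 b0 _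
  have hn0 : (0:ℝ) ≤ n := Nat.cast_nonneg n
  have hd1 : 0 < δ ^ (1 - κ) := Real.rpow_pos_of_pos h0 _
  have hdt : 0 < δ ^ (-θ) := Real.rpow_pos_of_pos h0 _
  have hdk : 0 < δ ^ (-κ) := Real.rpow_pos_of_pos h0 _
  have e4 : ∫ h, Fr h * PZ δ (k * k) h ∂(pn (n + 1) H) ≤
      δ ^ (-κ) * ((n + 1) * (n * (H * ((2 * Ca * δ ^ (-θ)) * (2 * Cb * δ ^ (1 - κ)) ^ (n - 1))))) := by
    refine e2.trans ?_
    gcongr
  have hpre : 0 ≤ (2 * δ) ^ (((n + 1) * k) ^ 2 - n) * (1 / H) :=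
    mul_nonneg (Real.rpow_nonneg (by linarith) _) (by positivity)
  have e5 : (2 * δ) ^ (((n + 1) * k) ^ 2 - n) * (1 / H) * ∫ h, Fr h * WW k δ h ∂(pn (n + 1) H) ≤
      (2 * δ) ^ (((n + 1) * k) ^ 2 - n) * (1 / H) * (C2 *
        (δ ^ (-κ) * ((n + 1) * (n * (H * ((2 * Ca * δ ^ (-θ)) * (2 * Cb * δ ^ (1 - κ)) ^ (n - 1))))))) :=
    mul_le_mul_of_nonneg_left (e1.trans (mul_le_mul_of_nonneg_left e4 hC2.le)) hpre
  refine e5.trans ?_
  rcases Nat.eq_zero_or_pos n with hn | hn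
  · subst hn
    have hr : 0 ≤ δ ^ (κ - 1 - θ) := Real.rpow_nonneg h0.le _
    simp only [Nat.cast_zero, zero_mul, mul_zero]
    positivity
  · have hsplit : (2 * δ) ^ (((n + 1) * k) ^ 2 - n) = (2:ℝ) ^ (((n + 1) * k) ^ 2 - n) * δ ^ ((n + 1) * κ - n) := by
      rw [Real.mul_rpow (by norm_num) h0.le]
      congr 2
      rw [hκd]
      ring
    have hpw : (2 * Cb * δ ^ (1 - κ)) ^ (n - 1) = (2 * Cb) ^ (n - 1) * δ ^ ((1 - κ) * ((n:ℝ) - 1)) := by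
      rw [mul_pow]
      congr 1
      rw [← Real.rpow_natCast, ← Real.rpow_mul h0.le]
      congr 2
      rw [Nat.cast_sub hn]
      simp
    have hexp : δ ^ ((n + 1) * κ - n) * δ ^ (-κ) * δ ^ (-θ) * δ ^ ((1 - κ) * ((n:ℝ) - 1)) = δ ^ (κ - 1 - θ) := by
      rw [← Real.rpow_add h0, ← Real.rpow_add h0, ← Real.rpow_add h0]
      congr 1
      ring
    rw [hsplit, hpw]
    have hfin : (2:ℝ) ^ (((n + 1) * k) ^ 2 - n) * δ ^ ((n + 1) * κ - n) * (1 / H) * (C2 *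
        (δ ^ (-κ) * ((n + 1) * (n * (H * ((2 * Ca * δ ^ (-θ)) * ((2 * Cb) ^ (n - 1) * δ ^ ((1 - κ) * ((n:ℝ) - 1))))))))) =
        (2:ℝ) ^ (((n + 1) * k) ^ 2 - n) * (C2 * ((n + 1) * (n * (2 * Ca * (2 * Cb) ^ (n - 1))))) *
          (δ ^ ((n + 1) * κ - n) * δ ^ (-κ) * δ ^ (-θ) * δ ^ ((1 - κ) * ((n:ℝ) - 1))) := by
      field_simp
    rw [hfin, hexp]
    gcongr
    linarith

/-- the main terms in the supercritical case -/
lemma JJ_super (hP : S_POSV) (hC : S_CONV) (hA : S_AV0) {d H : ℝ → ℝ} (hdp : ∀ᶠ T : ℝ in atTop, 0 < d T)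
    (hd0 : Tendsto d atTop (𝓝 0)) (hHp : ∀ᶠ T : ℝ in atTop, 0 < H T)
    (hHd : Tendsto (fun T => H T / d T) atTop atTop) (n : ℕ) (k θ : ℝ) (hθ0 : 0 ≤ θ) (hθ : θ < k * k * (n + 1) - 1)
    (hHθ : ∀ᶠ T : ℝ in atTop, H T ≤ d T ^ (-θ)) :
    Tendsto (fun T : ℝ => (2 * d T) ^ (((n + 1) * k) ^ 2 - n) * (1 / H T) * JJ k (d T) (n + 1) (H T)) atTop
      (𝓝 ((aC (((n + 1 : ℕ) * k : ℝ) : ℂ)).re * ∫ x : Fin n → ℝ, DD (k * k) x)) := by
  have hd1 : ∀ᶠ T : ℝ in atTop, d T ≤ 1 / 16 := hd0.eventually_le_const (by norm_num)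
  have h1 := near_lim hP hC hA hdp hd0 hHp hHd n k (by linarith)
  obtain ⟨C, hC0, hfar⟩ := far_bd hP hC n k θ hθ0 hθ
  have h2 : Tendsto (fun T : ℝ => (2 * d T) ^ (((n + 1) * k) ^ 2 - n) * (1 / H T) *
      ∫ h, Fr h * WW k (d T) h ∂(pn (n + 1) (H T))) atTop (𝓝 0) := by
    have h3 : Tendsto (fun T : ℝ => C * d T ^ (k * k * (n + 1) - 1 - θ)) atTop (𝓝 0) := by
      have h4 := (hd0.rpow_const (p := k * k * (n + 1) - 1 - θ) (Or.inr (by linarith))).const_mul C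
      rwa [Real.zero_rpow (by linarith), mul_zero] at h4
    refine tendsto_of_tendsto_of_tendsto_of_le_of_le' tendsto_const_nhds h3 ?_ ?_
    · filter_upwards [hdp, hHp] with T g1 g2
      refine mul_nonneg (mul_nonneg (Real.rpow_nonneg (by linarith) _) (by positivity)) ?_
      exact integral_nonneg fun h => Fr_WW_nn hP g1.le h
    · filter_upwards [hdp, hd1, hHp, hHθ] with T g1 g2 g3 g4
      exact hfar (d T) g1 g2 (H T) g3 g4
  have h5 := h1.add h2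
  rw [add_zero] at h5
  refine h5.congr' ?_
  filter_upwards [hdp, hd1] with T g1 g2
  rw [JJ_split hP hC g1 g2]
  ring

/-- the supercritical case -/
theorem super (hS : S_SM) (hP : S_POSV) (hC : S_CONV) (hA : S_AV0) {d H : ℝ → ℝ} (hd : Ad d)
    (hHd : Tendsto (fun T => H T / d T) atTop atTop) (n : ℕ) (k V θ : ℝ) (hk : 0 < k) (hV : (n + 1) * k < V)
    (hθ0 : 0 ≤ θ) (hθ : θ < k ^ 2 * (n + 1) - 1) (hHθ : ∀ᶠ T : ℝ in atTop, H T ≤ d T ^ (-θ)) :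
    Tendsto (fun T : ℝ => (2 * d T) ^ (((n + 1) * k) ^ 2 - n) * H T ^ n * MoM k V (n + 1) (d T) (H T) T) atTop
      (𝓝 ((aC (((n + 1) * k : ℝ) : ℂ)).re * ∫ x : Fin n → ℝ, DD (k ^ 2) x)) := by
  have hdp := hd.pos
  have hd0 := hd.t0
  have hHp : ∀ᶠ T : ℝ in atTop, 0 < H T := by
    filter_upwards [hHd.eventually_gt_atTop 0, hdp] with T g1 g2
    have := mul_pos g1 g2
    rwa [div_mul_cancel₀ _ g2.ne'] at this
  have hkk : k ^ 2 = k * k := sq k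
  rw [hkk] at hθ ⊢
  have hH1 : ∀ᶠ T : ℝ in atTop, H T ≤ T ^ ((1:ℝ) / 2) := by
    have h1 := (Ev.win (D := θ) (c := 1) (e := 1 / 2) one_pos (by norm_num)).app hd
    filter_upwards [h1, hHθ] with T g1 g2
    rw [one_mul] at g1
    exact g2.trans g1
  have h1 := JJ_super hP hC hA hdp hd0 hHp hHd n k θ hθ0 hθ hHθ
  have h2 := close (X := fun T => H T ^ (n + 1) * MoM k V (n + 1) (d T) (H T) T) (by
      filter_upwards [hdp, hHp] with T g1 g2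
      exact mul_nonneg (Real.rpow_nonneg (by linarith) _) (by positivity)) h1
    (fun ε hε => master hS hP hC hd (n + 1) k V hk (by push_cast; exact hV) hHp hH1 ε hε)
  have h3 : (aC (((n + 1 : ℕ) * k : ℝ) : ℂ)).re = (aC (((n + 1) * k : ℝ) : ℂ)).re := by push_cast; rfl
  rw [h3] at h2
  refine h2.congr' ?_
  filter_upwards [hHp] with T g2
  have h4 : (1 / H T) * H T ^ (n + 1) = H T ^ n := by
    rw [pow_succ]
    field_simp
  calc _ = (2 * d T) ^ (((n + 1) * k) ^ 2 - n) * ((1 / H T) * H T ^ (n + 1)) * MoM k V (n + 1) (d T) (H T) T := by ring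
    _ = _ := by rw [h4]

end Run7.h772.MM
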