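import Pool.Agent.Run7.h772.MM.Zg
import Pool.Agent.N748.GC.ERG

set_option autoImplicit false

/-!
# Moments of moments near the critical line: means of trigonometric products over cubes
-/

namespace Run7.h772.MM

open Finset Filter MeasureTheory Topology Complex

/-- the mean of a character -/
lemma mean1 (Λ : ℝ) : Tendsto (fun H : ℝ => ((1 / H : ℝ) : ℂ) * ∫ t in (0:ℝ)..H, Complex.exp ((Λ * t : ℝ) * I)) atTop
    (𝓝 (if Λ = 0 then 1 else 0)) := by
  split_ifs with h
  · subst h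
    refine tendsto_const_nhds.congr' ?_
    filter_upwards [eventually_gt_atTop 0] with H hH
    have hH' : (H : ℂ) ≠ 0 := by exact_mod_cast hH.ne'
    simp
    field_simp
  · have hc : (Λ * I : ℂ) ≠ 0 := mul_ne_zero (by exact_mod_cast h) I_ne_zero
    have h1 : ∀ H : ℝ, ∫ t in (0:ℝ)..H, Complex.exp ((Λ * t : ℝ) * I) =
        (Complex.exp ((Λ * I) * H) - 1) / (Λ * I) := by
      intro H
      have h2 := integral_exp_mul_complex (a := 0) (b := H) hc
      have h3 : ∀ t : ℝ, Complex.exp ((Λ * t : ℝ) * I) = Complex.exp (Λ * I * t) := by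
        intro t
        congr 1
        push_cast
        ring
      simp_rw [h3]
      rw [h2]
      simp
    rw [tendsto_zero_iff_norm_tendsto_zero]
    have hl : Tendsto (fun H : ℝ => (1 / H) * (2 / |Λ|)) atTop (𝓝 0) := by
      have h4 : Tendsto (fun H : ℝ => 1 / H) atTop (𝓝 0) := by
        simpa using tendsto_inv_atTop_zero (𝕜 := ℝ)
      simpa using h4.mul_const (2 / |Λ|)
    refine squeeze_zero' (Eventually.of_forall fun H => norm_nonneg _) ?_ hl
    filter_upwards [eventually_gt_atTop 0] with H hH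
    rw [h1, norm_mul, Complex.norm_real, Real.norm_of_nonneg (by positivity : (0:ℝ) ≤ 1 / H)]
    refine mul_le_mul_of_nonneg_left ?_ (by positivity)
    rw [norm_div, norm_mul, Complex.norm_real, Complex.norm_I, mul_one, Real.norm_eq_abs]
    refine div_le_div_of_nonneg_right ?_ (abs_nonneg _)
    have h5 : ‖Complex.exp (Λ * I * H)‖ = 1 := by
      have h6 : (Λ * I * H : ℂ) = ((Λ * H : ℝ) : ℂ) * I := by push_cast; ring
      rw [h6, Complex.norm_exp_ofReal_mul_I]
    calc ‖Complex.exp (Λ * I * H) - 1‖ ≤ ‖Complex.exp (Λ * I * H)‖ + ‖(1:ℂ)‖ := norm_sub_le _ _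
      _ = 2 := by rw [h5, norm_one]; norm_num

/-- the mean of a character over a cube -/
lemma meanm {m : ℕ} (Λ : Fin m → ℝ) : Tendsto (fun H : ℝ => ((1 / H : ℝ) : ℂ) ^ m *
    ∫ h : Fin m → ℝ, Complex.exp ((∑ j, Λ j * h j : ℝ) * I) ∂(pn m H)) atTop (𝓝 (if Λ = 0 then 1 else 0)) := by
  classical
  have h1 : (if Λ = 0 then (1:ℂ) else 0) = ∏ j, if Λ j = 0 then (1:ℂ) else 0 := by
    split_ifs with h
    · subst h
      simp
    · have h2 : ∃ j, Λ j ≠ 0 := by
        by_contra hc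
        push Not at hc
        exact h (funext hc)
      obtain ⟨j, hj⟩ := h2
      symm
      exact Finset.prod_eq_zero (Finset.mem_univ j) (if_neg hj)
  rw [h1]
  have h2 : (fun H : ℝ => ∏ j, (((1 / H : ℝ) : ℂ) * ∫ t in (0:ℝ)..H, Complex.exp ((Λ j * t : ℝ) * I))) =ᶠ[atTop]
      fun H : ℝ => ((1 / H : ℝ) : ℂ) ^ m * ∫ h : Fin m → ℝ, Complex.exp ((∑ j, Λ j * h j : ℝ) * I) ∂(pn m H) := by
    filter_upwards [eventually_ge_atTop 0] with H hH
    have h3 : ∀ h : Fin m → ℝ, Complex.exp ((∑ j, Λ j * h j : ℝ) * I) = ∏ j, Complex.exp ((Λ j * h j : ℝ) * I) := by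
      intro h
      rw [← Complex.exp_sum]
      congr 1
      push_cast
      rw [Finset.sum_mul]
    simp_rw [h3]
    unfold pn
    rw [integral_fintype_prod_eq_prod (μ := fun _ : Fin m => nu H) (fun j t => Complex.exp ((Λ j * t : ℝ) * I)),
      Finset.prod_mul_distrib, Finset.prod_const, Finset.card_univ, Fintype.card_fin]
    congr 1
    refine Finset.prod_congr rfl fun j _ => ?_
    unfold nu
    rw [integral_Icc_eq_integral_Ioc, ← intervalIntegral.integral_of_le hH]
  refine Tendsto.congr' h2 ?_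
  exact tendsto_finsetProd _ fun j _ => mean1 (Λ j)

lemma exp_int {m : ℕ} (Λ : Fin m → ℝ) (H : ℝ) :
    Integrable (fun h : Fin m → ℝ => Complex.exp ((∑ j, Λ j * h j : ℝ) * I)) (pn m H) := by
  refine Integrable.of_bound (C := 1) ?_ (Eventually.of_forall fun h => ?_)
  · refine Continuous.aestronglyMeasurable ?_
    fun_prop
  · rw [Complex.norm_exp_ofReal_mul_I]

/-- the mean of a product of trigonometric sums with independent frequencies -/
lemma mean_prod {m : ℕ} {ι : Type*} (S : Finset ℕ) (hS : ∀ p ∈ S, p.Prime) (I0 : Finset ι)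
    (c : ℕ → ι → ℂ) (w : ι → Fin m → ℤ) :
    Tendsto (fun H : ℝ => ((1 / H : ℝ) : ℂ) ^ m * ∫ h : Fin m → ℝ, ∏ p ∈ S, ∑ a ∈ I0,
      c p a * Complex.exp (((∑ j, (w a j : ℝ) * h j) * Real.log p : ℝ) * I) ∂(pn m H)) atTop
      (𝓝 (∏ p ∈ S, ∑ a ∈ I0, if w a = 0 then c p a else 0)) := by
  classical
  have h1 : ∀ h : Fin m → ℝ, ∏ p ∈ S, ∑ a ∈ I0,
      c p a * Complex.exp (((∑ j, (w a j : ℝ) * h j) * Real.log p : ℝ) * I) =
      ∑ φ ∈ S.pi fun _ => I0, (∏ x ∈ S.attach, c x.1 (φ x.1 x.2)) *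
        Complex.exp ((∑ j, (∑ x ∈ S.attach, (w (φ x.1 x.2) j : ℝ) * Real.log x.1) * h j : ℝ) * I) := by
    intro h
    rw [Finset.prod_sum]
    refine Finset.sum_congr rfl fun φ _ => ?_
    rw [Finset.prod_mul_distrib, ← Complex.exp_sum]
    congr 2
    rw [← Finset.sum_mul, ← Complex.ofReal_sum]
    congr 2
    simp_rw [Finset.sum_mul]
    rw [Finset.sum_comm]
    refine Finset.sum_congr rfl fun j _ => Finset.sum_congr rfl fun x _ => ?_
    ring
  simp_rw [h1]
  have h2 : ∏ p ∈ S, ∑ a ∈ I0, (if w a = 0 then c p a else 0) =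
      ∑ φ ∈ S.pi fun _ => I0, (∏ x ∈ S.attach, c x.1 (φ x.1 x.2)) *
        (if (fun j => ∑ x ∈ S.attach, (w (φ x.1 x.2) j : ℝ) * Real.log x.1) = 0 then 1 else 0) := by
    rw [Finset.prod_sum]
    refine Finset.sum_congr rfl fun φ _ => ?_
    by_cases hz : ∀ x ∈ S.attach, w (φ x.1 x.2) = 0
    · rw [if_pos, mul_one]
      · exact Finset.prod_congr rfl fun x hx => by rw [if_pos (hz x hx)]
      · funext j
        refine Finset.sum_eq_zero fun x hx => ?_
        rw [hz x hx]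
        simp
    · rw [if_neg, mul_zero]
      · push Not at hz
        obtain ⟨x, hx, hx2⟩ := hz
        exact Finset.prod_eq_zero hx (if_neg hx2)
      · intro hc
        apply hz
        intro x hx
        funext j
        have h3 := congrFun hc j
        have h4 := Pool.Agent.N748.GC.ERG.lin_ind hS (fun x : S => w (φ x.1 x.2) j) h3
        exact congrFun h4 x
  rw [h2]
  have h3 : ∀ H : ℝ, ((1 / H : ℝ) : ℂ) ^ m * ∫ h : Fin m → ℝ, ∑ φ ∈ S.pi fun _ => I0,
      (∏ x ∈ S.attach, c x.1 (φ x.1 x.2)) *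
        Complex.exp ((∑ j, (∑ x ∈ S.attach, (w (φ x.1 x.2) j : ℝ) * Real.log x.1) * h j : ℝ) * I) ∂(pn m H) =
      ∑ φ ∈ S.pi fun _ => I0, (∏ x ∈ S.attach, c x.1 (φ x.1 x.2)) * (((1 / H : ℝ) : ℂ) ^ m *
        ∫ h : Fin m → ℝ, Complex.exp ((∑ j, (∑ x ∈ S.attach, (w (φ x.1 x.2) j : ℝ) * Real.log x.1) * h j : ℝ) * I)
          ∂(pn m H)) := by
    intro H
    rw [integral_finsetSum _ fun φ _ => (exp_int _ H).const_mul _, Finset.mul_sum]
    refine Finset.sum_congr rfl fun φ _ => ?_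
    rw [integral_const_mul]
    ring
  simp_rw [h3]
  exact tendsto_finsetSum _ fun φ _ => (meanm _).const_mul _

end Run7.h772.MM
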