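import Pool.Agent.Run7.h772.MM.Zh
import Pool.Agent.N748.MJ.BND
import Pool.Agent.N748.MJ.GVB
import Pool.Agent.N748.MJ.POSV
import Pool.Agent.N748.GC.COS
import Pool.Agent.Run7.h42.WN_MNB

set_option autoImplicit false

/-!
# Moments of moments near the critical line: the local factors
-/

namespace Run7.h772.MM

open Finset Filter MeasureTheory Topology Complex
open Pool.Agent.N748.MG Pool.Agent.N748.MJ
open Pool.Agent.N748.MG.CON (lR lC_ofReal)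
open Run7.h42.WN (FR FR_sum FR_one pinv lR_nonneg lR_zero FR_bd)
open Pool.Agent.N748.MJ.POSV (bs pu)
open Pool.Agent.N748.GC (Sm)

/-- the coefficients of a power of a power series: the sums over the compositions -/
lemma pow_tsum (m : ℕ) {f : ℕ → ℝ} (h0 : ∀ n, 0 ≤ f n) (hf : Summable f) :
    Summable (fun r => (PowerSeries.mk f ^ m).coeff r) ∧ (∀ r, 0 ≤ (PowerSeries.mk f ^ m).coeff r) ∧
      ∑' r, (PowerSeries.mk f ^ m).coeff r = (∑' n, f n) ^ m := by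
  induction m with
  | zero =>
    have h1 : (fun r => (PowerSeries.mk f ^ 0).coeff r) = fun r => if r = 0 then (1:ℝ) else 0 := by
      funext r
      rw [pow_zero, PowerSeries.coeff_one]
    refine ⟨?_, fun r => ?_, ?_⟩
    · rw [h1]
      exact summable_of_ne_finset_zero (s := {0}) fun r hr => by
        rw [if_neg]
        simpa using hr
    · rw [pow_zero, PowerSeries.coeff_one]
      split_ifs <;> norm_num
    · rw [h1, tsum_ite_eq, pow_zero]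
  | succ m ih =>
    obtain ⟨h1, h2, h3⟩ := ih
    have hc : ∀ r, (PowerSeries.mk f ^ (m + 1)).coeff r =
        ∑ q ∈ antidiagonal r, (PowerSeries.mk f ^ m).coeff q.1 * f q.2 := by
      intro r
      rw [pow_succ, PowerSeries.coeff_mul]
      simp only [PowerSeries.coeff_mk]
    have n1 : Summable fun r => ‖(PowerSeries.mk f ^ m).coeff r‖ := h1.norm
    have n2 : Summable fun r => ‖f r‖ := hf.norm
    refine ⟨?_, fun r => ?_, ?_⟩
    · simp_rw [hc]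
      exact (summable_norm_sum_mul_antidiagonal_of_summable_norm n1 n2).of_norm
    · rw [hc]
      exact Finset.sum_nonneg fun q _ => mul_nonneg (h2 _) (h0 _)
    · simp_rw [hc]
      rw [← tsum_mul_tsum_eq_tsum_sum_antidiagonal_of_summable_norm n1 n2, h3, pow_succ]

lemma pow_coeff (m : ℕ) (f : ℕ → ℝ) (r : ℕ) : (PowerSeries.mk f ^ m).coeff r =
    ∑ μ ∈ piAntidiag (univ : Finset (Fin m)) r, ∏ j, f (μ j) := by
  classical
  have h1 : PowerSeries.mk f ^ m = ∏ _j : Fin m, PowerSeries.mk f := by simp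
  rw [h1, PowerSeries.coeff_prod]
  simp only [PowerSeries.coeff_mk]
  symm
  refine sum_nbij' (fun μ => Finsupp.equivFunOnFinite.symm μ) (fun l => ⇑l) ?_ ?_ ?_ ?_ ?_
  · intro μ hμ
    rw [mem_piAntidiag] at hμ
    rw [mem_finsuppAntidiag]
    exact ⟨hμ.1, subset_univ _⟩
  · intro l hl
    rw [mem_finsuppAntidiag] at hl
    rw [mem_piAntidiag]
    exact ⟨hl.1, fun i _ => mem_univ i⟩
  · intro μ _
    rfl
  · intro l _
    ext i
    rfl
  · intro μ _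
    rfl

/-! ### the sums over the powers of a prime -/

/-- the terms -/
noncomputable def tq (k : ℝ) {m : ℕ} (p : ℕ) (h : Fin m → ℝ) (r : ℕ) : ℝ :=
  ‖lV (fun _ : Fin m => (k:ℂ)) h p r‖ ^ 2 * (1 / (p:ℝ)) ^ r

/-- the sum -/
noncomputable def Sp (k : ℝ) {m : ℕ} (p : ℕ) (h : Fin m → ℝ) : ℝ := ∑' r : ℕ, tq k p h r

/-- the truncated sum -/
noncomputable def Sr (k : ℝ) {m : ℕ} (R p : ℕ) (h : Fin m → ℝ) : ℝ := ∑ r ∈ range (R + 1), tq k p h r

lemma tq_nn (k : ℝ) {m : ℕ} (p : ℕ) (h : Fin m → ℝ) (r : ℕ) : 0 ≤ tq k p h r := by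
  unfold tq
  positivity

/-- a uniform bound of the terms -/
lemma tq_bd (m : ℕ) (k : ℝ) : ∃ K : ℕ, ∀ (p : ℕ), p.Prime → ∀ (h : Fin m → ℝ) (r : ℕ),
    tq k p h r ≤ lR (K:ℝ) r ^ 2 * (1 / (p:ℝ)) ^ r := by
  obtain ⟨k0, hk0⟩ := Pool.Agent.N748.MJ.BND.main m |k| (abs_nonneg k)
  refine ⟨k0, fun p hp h r => ?_⟩
  have hn : ∀ _j : Fin m, ‖((k : ℝ) : ℂ)‖ ≤ |k| := fun _ => by
    rw [Complex.norm_real]
    exact le_rfl
  have h1 := (hk0 (fun _ => (k:ℂ)) h hn).1 p r hp.one_le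
  have h2 : ‖lC (k0 : ℂ) r‖ = lR (k0:ℝ) r := by
    have h3 := lC_ofReal (k0:ℝ) r
    rw [Complex.ofReal_natCast] at h3
    rw [h3, Complex.norm_real, Real.norm_of_nonneg (lR_nonneg (Nat.cast_nonneg k0) r)]
  rw [h2] at h1
  unfold tq
  exact mul_le_mul_of_nonneg_right (pow_le_pow_left₀ (norm_nonneg _) h1 2) (by positivity)

lemma tq_zero (k : ℝ) {m : ℕ} (p : ℕ) (h : Fin m → ℝ) : tq k p h 0 = 1 := by
  unfold tq
  rw [Pool.Agent.N748.MJ.POSV.lV_zero]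
  simp

lemma tq_sum (k : ℝ) {m : ℕ} {p : ℕ} (hp : p.Prime) (h : Fin m → ℝ) : Summable fun r => tq k p h r := by
  obtain ⟨K, hK⟩ := tq_bd m k
  exact Summable.of_nonneg_of_le (tq_nn k p h) (hK p hp h) (FR_sum (K:ℝ) hp)

lemma Sr_one (k : ℝ) {m : ℕ} (R p : ℕ) (h : Fin m → ℝ) : 1 ≤ Sr k R p h := by
  unfold Sr
  have h1 := Finset.single_le_sum (f := fun r => tq k p h r) (fun r _ => tq_nn k p h r)
    (Finset.mem_range.2 (Nat.succ_pos R))
  rw [tq_zero] at h1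
  exact h1

lemma Sr_le (k : ℝ) {m : ℕ} (R : ℕ) {p : ℕ} (hp : p.Prime) (h : Fin m → ℝ) : Sr k R p h ≤ Sp k p h :=
  (tq_sum k hp h).sum_le_tsum _ fun r _ => tq_nn k p h r

lemma Sp_one (k : ℝ) {m : ℕ} {p : ℕ} (hp : p.Prime) (h : Fin m → ℝ) : 1 ≤ Sp k p h :=
  (Sr_one k 0 p h).trans (Sr_le k 0 hp h)

/-- the truncation is uniform -/
lemma Sp_le (m : ℕ) (k : ℝ) {p : ℕ} (hp : p.Prime) (ε : ℝ) (hε : 0 < ε) : ∃ R0 : ℕ, ∀ R ≥ R0, ∀ h : Fin m → ℝ,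
    Sp k p h ≤ (1 + ε) * Sr k R p h := by
  obtain ⟨K, hK⟩ := tq_bd m k
  have h1 := FR_sum (K:ℝ) hp
  have h2 := tendsto_sum_nat_add fun r : ℕ => lR (K:ℝ) r ^ 2 * (1 / (p:ℝ)) ^ r
  obtain ⟨R0, hR0⟩ := eventually_atTop.1 (h2.eventually_lt_const hε)
  refine ⟨R0, fun R hR h => ?_⟩
  have h3 := (tq_sum k hp h).sum_add_tsum_nat_add (R + 1)
  have h4 : ∑' r, tq k p h (r + (R + 1)) ≤ ε := by
    refine le_trans ?_ (hR0 (R + 1) (by omega)).le
    exact ((summable_nat_add_iff (R + 1)).2 (tq_sum k hp h)).tsum_le_tsum (fun r => hK p hp h _)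
      ((summable_nat_add_iff (R + 1)).2 h1)
  have h5 := Sr_one k R p h
  unfold Sp
  rw [← h3]
  unfold Sr at h5 ⊢
  nlinarith

lemma Sp_bd (m : ℕ) (k : ℝ) : ∃ C : ℝ, 0 < C ∧ ∀ p : ℕ, p.Prime → ∀ h : Fin m → ℝ, Sp k p h ≤ Real.exp (C * (1 / (p:ℝ))) := by
  obtain ⟨K, hK⟩ := tq_bd m k
  obtain ⟨C, hC, hF⟩ := FR_bd (K:ℝ)
  refine ⟨C, hC, fun p hp h => le_trans ?_ (hF p hp)⟩
  exact (tq_sum k hp h).tsum_le_tsum (hK p hp h) (FR_sum (K:ℝ) hp)

/-- the product over the primes below `z` -/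
noncomputable def PS0 (k : ℝ) {m : ℕ} (z : ℕ) (h : Fin m → ℝ) : ℝ := ∏ p ∈ Sm z, Sp k p h

lemma Sm_prime {z p : ℕ} (hp : p ∈ Sm z) : p.Prime := Run7.h42.WN.Sm_prime p hp

lemma PS0_nn (k : ℝ) {m : ℕ} (z : ℕ) (h : Fin m → ℝ) : 0 ≤ PS0 k z h :=
  Finset.prod_nonneg fun _ hp => zero_le_one.trans (Sp_one k (Sm_prime hp) h)

lemma PS0_bd (m : ℕ) (k : ℝ) : ∃ A B : ℝ, 0 < A ∧ 0 < B ∧ ∀ z : ℕ, 3 ≤ z → ∀ h : Fin m → ℝ,
    PS0 k z h ≤ A * Real.log z ^ B := by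
  obtain ⟨B, hB, hF⟩ := Sp_bd m k
  obtain ⟨C, hC, hM⟩ := Run7.h42.WN.mert
  refine ⟨Real.exp (B * C), B, Real.exp_pos _, hB, fun z hz h => ?_⟩
  have hz' : (3:ℝ) ≤ z := by exact_mod_cast hz
  have hly : 0 < Real.log z := Real.log_pos (by linarith)
  calc PS0 k z h ≤ ∏ p ∈ Sm z, Real.exp (B * (1 / (p:ℝ))) :=
        prod_le_prod (fun p hp => zero_le_one.trans (Sp_one k (Sm_prime hp) h)) fun p hp => hF p (Sm_prime hp) h
    _ = Real.exp (B * ∑ p ∈ Sm z, 1 / (p:ℝ)) := by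
        rw [← Real.exp_sum, mul_sum]
    _ ≤ Real.exp (B * (Real.log (Real.log z) + C)) :=
        Real.exp_le_exp.2 (mul_le_mul_of_nonneg_left (hM z hz) hB.le)
    _ = Real.exp (B * C) * Real.log z ^ B := by
        rw [Real.rpow_def_of_pos hly, ← Real.exp_add]
        congr 1
        ring

end Run7.h772.MM
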