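import Pool.Agent.Run7.h772.MM.Zi

set_option autoImplicit false

/-!
# Moments of moments near the critical line: the mean of the product of the small primes over cubes
-/

namespace Run7.h772.MM

open Finset Filter MeasureTheory Topology Complex
open Pool.Agent.N748.MG Pool.Agent.N748.MJ
open Pool.Agent.N748.MG.CON (lR lC_ofReal)
open Run7.h42.WN (FR FR_sum FR_one pinv lR_nonneg lR_zero FR_bd)
open Pool.Agent.N748.GC (Sm)

/-- the compositions -/
noncomputable abbrev Am (m r : ℕ) : Finset (Fin m → ℕ) := piAntidiag (univ : Finset (Fin m)) r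

/-- the product of the coefficients -/
noncomputable def cl (k : ℝ) {m : ℕ} (μ : Fin m → ℕ) : ℝ := ∏ j, lR k (μ j)

lemma nat_exp {p : ℕ} (hp : 0 < p) (x : ℝ) : (p:ℂ) ^ (-((x : ℂ) * I)) = Complex.exp (((-(x * Real.log p) : ℝ)) * I) := by
  rw [Complex.cpow_def_of_ne_zero (by exact_mod_cast hp.ne'), ← Complex.natCast_log]
  congr 1
  push_cast
  ring

lemma lV_exp (k : ℝ) {m : ℕ} {p : ℕ} (hp : 0 < p) (h : Fin m → ℝ) (r : ℕ) :
    lV (fun _ : Fin m => (k:ℂ)) h p r = ∑ μ ∈ Am m r, ((cl k μ : ℝ) : ℂ) *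
      Complex.exp (((-((∑ j, (μ j : ℝ) * h j) * Real.log p) : ℝ)) * I) := by
  unfold lV
  refine Finset.sum_congr rfl fun μ _ => ?_
  rw [Finset.prod_mul_distrib]
  congr 1
  · unfold cl
    rw [Complex.ofReal_prod]
    refine Finset.prod_congr rfl fun j _ => ?_
    rw [lC_ofReal]
  · have h1 : ∀ j : Fin m, (p:ℂ) ^ (-((μ j * h j : ℝ) * I)) = Complex.exp (((-((μ j * h j) * Real.log p) : ℝ)) * I) :=
      fun j => nat_exp hp _
    simp_rw [h1]
    rw [← Complex.exp_sum]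
    congr 1
    rw [← Finset.sum_mul]
    congr 1
    rw [← Complex.ofReal_sum]
    congr 1
    rw [Finset.sum_neg_distrib, Finset.sum_mul]

/-- the index set -/
noncomputable def Ix (m R : ℕ) : Finset (Σ _r : ℕ, (Fin m → ℕ) × (Fin m → ℕ)) :=
  (range (R + 1)).sigma fun r => Am m r ×ˢ Am m r

/-- the coefficients -/
noncomputable def cx (k : ℝ) {m : ℕ} (p : ℕ) (a : Σ _r : ℕ, (Fin m → ℕ) × (Fin m → ℕ)) : ℂ :=
  ((cl k a.2.1 * cl k a.2.2 * (1 / (p:ℝ)) ^ a.1 : ℝ) : ℂ)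

/-- the frequencies -/
def wx {m : ℕ} (a : Σ _r : ℕ, (Fin m → ℕ) × (Fin m → ℕ)) : Fin m → ℤ := fun j => (a.2.2 j : ℤ) - a.2.1 j

lemma Sr_exp (k : ℝ) {m : ℕ} (R : ℕ) {p : ℕ} (hp : 0 < p) (h : Fin m → ℝ) : ((Sr k R p h : ℝ) : ℂ) =
    ∑ a ∈ Ix m R, cx k p a * Complex.exp (((∑ j, (wx a j : ℝ) * h j) * Real.log p : ℝ) * I) := by
  unfold Sr Ix
  rw [Complex.ofReal_sum, Finset.sum_sigma]
  refine Finset.sum_congr rfl fun r _ => ?_
  rw [Finset.sum_product]
  unfold tq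
  rw [Complex.ofReal_mul, Complex.ofReal_pow, ← Complex.mul_conj', lV_exp k hp, map_sum, Finset.sum_mul_sum,
    Finset.sum_mul]
  refine Finset.sum_congr rfl fun μ _ => ?_
  rw [Finset.sum_mul]
  refine Finset.sum_congr rfl fun ν _ => ?_
  rw [map_mul, Complex.conj_ofReal, ← Complex.exp_conj, map_mul, Complex.conj_ofReal, Complex.conj_I]
  unfold cx wx
  simp only
  have h1 : Complex.exp (((∑ j, (((ν j : ℤ) - (μ j : ℤ) : ℤ) : ℝ) * h j) * Real.log p : ℝ) * I) =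
      Complex.exp (((-((∑ j, (μ j : ℝ) * h j) * Real.log p) : ℝ)) * I) *
        Complex.exp (((-((∑ j, (ν j : ℝ) * h j) * Real.log p) : ℝ)) * -I) := by
    rw [← Complex.exp_add]
    congr 1
    have h2 : ∑ j, (((ν j : ℤ) - (μ j : ℤ) : ℤ) : ℝ) * h j = ∑ j, (ν j : ℝ) * h j - ∑ j, (μ j : ℝ) * h j := by
      rw [← Finset.sum_sub_distrib]
      refine Finset.sum_congr rfl fun j _ => ?_
      push_cast
      ring
    rw [h2]
    push_cast
    ring
  rw [h1]
  push_cast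
  ring

/-- the coefficients of the local density -/
noncomputable def fp (k : ℝ) (p n : ℕ) : ℝ := lR k n ^ 2 * (1 / (p:ℝ)) ^ n

/-- the truncated mean -/
noncomputable def Mr (k : ℝ) (m R p : ℕ) : ℝ := ∑ r ∈ range (R + 1), (PowerSeries.mk (fp k p) ^ m).coeff r

lemma lim_loc (k : ℝ) (m R p : ℕ) : ∑ a ∈ Ix m R, (if wx a = 0 then cx k p a else 0) = ((Mr k m R p : ℝ) : ℂ) := by
  classical
  unfold Mr Ix
  rw [Complex.ofReal_sum, Finset.sum_sigma]
  refine Finset.sum_congr rfl fun r _ => ?_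
  rw [Finset.sum_product, pow_coeff, Complex.ofReal_sum]
  refine Finset.sum_congr rfl fun μ hμ => ?_
  rw [Finset.sum_eq_single μ]
  · rw [if_pos]
    · unfold cx cl fp
      simp only
      have h1 : ∑ j, μ j = r := (Finset.mem_piAntidiag.1 hμ).1
      rw [Finset.prod_mul_distrib, Finset.prod_pow_eq_pow_sum, h1, Finset.prod_pow]
      push_cast
      ring
    · funext j
      simp [wx]
  · intro ν _ hne
    rw [if_neg]
    intro hc
    apply hne
    funext j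
    have := congrFun hc j
    simp only [wx, Pi.zero_apply] at this
    omega
  · intro hc
    exact absurd hμ hc

lemma Mr_le {k : ℝ} (m R : ℕ) {p : ℕ} (hp : p.Prime) : Mr k m R p ≤ FR k p ^ m := by
  obtain ⟨h1, h2, h3⟩ := pow_tsum m (f := fp k p) (fun n => by unfold fp; positivity) (FR_sum k hp)
  unfold Mr
  refine (h1.sum_le_tsum _ fun r _ => h2 r).trans (le_of_eq ?_)
  rw [h3]
  rfl

lemma Mr_nn {k : ℝ} (m R : ℕ) {p : ℕ} (hp : p.Prime) : 0 ≤ Mr k m R p := by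
  obtain ⟨h1, h2, h3⟩ := pow_tsum m (f := fp k p) (fun n => by unfold fp; positivity) (FR_sum k hp)
  exact Finset.sum_nonneg fun r _ => h2 r

lemma Mr_lim {k : ℝ} (m : ℕ) {p : ℕ} (hp : p.Prime) : Tendsto (fun R => Mr k m R p) atTop (𝓝 (FR k p ^ m)) := by
  obtain ⟨h1, h2, h3⟩ := pow_tsum m (f := fp k p) (fun n => by unfold fp; positivity) (FR_sum k hp)
  have h4 := (h1.hasSum.tendsto_sum_nat).comp (tendsto_add_atTop_nat 1)
  rw [h3] at h4
  exact h4

lemma Sr_cont (k : ℝ) {m : ℕ} (R : ℕ) {p : ℕ} (hp : p.Prime) : Continuous fun h : Fin m → ℝ => Sr k R p h := by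
  unfold Sr tq
  refine continuous_finsetSum _ fun r _ => ((Continuous.norm ?_).pow 2).mul continuous_const
  exact Pool.Agent.N748.MJ.POSV.lV_cont continuous_const continuous_id hp.ne_zero r

lemma Sp_cont (k : ℝ) {m : ℕ} {p : ℕ} (hp : p.Prime) : Continuous fun h : Fin m → ℝ => Sp k p h := by
  obtain ⟨K, hK⟩ := tq_bd m k
  unfold Sp
  refine continuous_tsum (u := fun r => lR (K:ℝ) r ^ 2 * (1 / (p:ℝ)) ^ r) (fun r => ?_) (FR_sum (K:ℝ) hp) fun r h => ?_
  · unfold tq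
    refine ((Continuous.norm ?_).pow 2).mul continuous_const
    exact Pool.Agent.N748.MJ.POSV.lV_cont continuous_const continuous_id hp.ne_zero r
  · rw [Real.norm_of_nonneg (tq_nn k p h r)]
    exact hK p hp h r

lemma PS0_cont (k : ℝ) {m : ℕ} (z : ℕ) : Continuous fun h : Fin m → ℝ => PS0 k z h := by
  unfold PS0
  exact continuous_finsetProd _ fun p hp => Sp_cont k (Sm_prime hp)

lemma cont_int {m : ℕ} {f : (Fin m → ℝ) → ℝ} (hf : Continuous f) (H : ℝ) : Integrable f (pn m H) := by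
  rw [pn_eq]
  exact hf.continuousOn.integrableOn_compact (isCompact_univ_pi fun _ => isCompact_Icc)

/-- the mean of the truncated product -/
lemma mean_Sr (k : ℝ) (m R z : ℕ) : Tendsto (fun H : ℝ => (1 / H) ^ m * ∫ h : Fin m → ℝ, ∏ p ∈ Sm z, Sr k R p h ∂(pn m H))
    atTop (𝓝 (∏ p ∈ Sm z, Mr k m R p)) := by
  have h1 := mean_prod (m := m) (Sm z) (fun p hp => Sm_prime hp) (Ix m R) (fun p a => cx k p a) wx
  have h2 : ∀ h : Fin m → ℝ, ∏ p ∈ Sm z, ∑ a ∈ Ix m R, cx k p a *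
      Complex.exp (((∑ j, (wx a j : ℝ) * h j) * Real.log p : ℝ) * I) = ((∏ p ∈ Sm z, Sr k R p h : ℝ) : ℂ) := by
    intro h
    rw [Complex.ofReal_prod]
    exact Finset.prod_congr rfl fun p hp => (Sr_exp k R (Sm_prime hp).pos h).symm
  have h3 : ∏ p ∈ Sm z, ∑ a ∈ Ix m R, (if wx a = 0 then cx k p a else 0) = ((∏ p ∈ Sm z, Mr k m R p : ℝ) : ℂ) := by
    rw [Complex.ofReal_prod]
    exact Finset.prod_congr rfl fun p _ => lim_loc k m R p
  simp_rw [h2] at h1
  rw [h3] at h1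
  have h4 := (Complex.continuous_re.tendsto _).comp h1
  rw [Complex.ofReal_re] at h4
  refine h4.congr fun H => ?_
  simp only [Function.comp_apply]
  have h5 : ∫ h : Fin m → ℝ, ((∏ p ∈ Sm z, Sr k R p h : ℝ) : ℂ) ∂(pn m H) =
      ((∫ h : Fin m → ℝ, ∏ p ∈ Sm z, Sr k R p h ∂(pn m H) : ℝ) : ℂ) := integral_ofReal
  rw [h5, ← Complex.ofReal_pow, ← Complex.ofReal_mul, Complex.ofReal_re]

/-- the mean of the product of the small primes -/
lemma mean_PS0 (k : ℝ) (m z : ℕ) : Tendsto (fun H : ℝ => (1 / H) ^ m * ∫ h : Fin m → ℝ, PS0 k z h ∂(pn m H))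
    atTop (𝓝 (∏ p ∈ Sm z, FR k p ^ m)) := by
  classical
  set L : ℝ := ∏ p ∈ Sm z, FR k p ^ m with hL
  have hL0 : 0 ≤ L := Finset.prod_nonneg fun p hp => pow_nonneg (zero_le_one.trans (FR_one k (Sm_prime hp))) _
  rw [Metric.tendsto_nhds]
  intro ε hε
  -- the truncation
  have hLR : Tendsto (fun R => ∏ p ∈ Sm z, Mr k m R p) atTop (𝓝 L) :=
    tendsto_finsetProd _ fun p hp => Mr_lim m (Sm_prime hp)
  set η : ℝ := min 1 (ε / (4 * (L + 1))) with hη
  have hη0 : 0 < η := lt_min one_pos (by positivity)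
  have hη1 : η ≤ 1 := min_le_left _ _
  obtain ⟨e, he0, he1⟩ : ∃ e : ℝ, 0 < e ∧ (1 + e) ^ (Sm z).card ≤ 1 + η := by
    have h1 : Tendsto (fun e : ℝ => (1 + e) ^ (Sm z).card) (𝓝[>] 0) (𝓝 ((1 + 0) ^ (Sm z).card)) := by
      have h2 : Continuous fun e : ℝ => (1 + e) ^ (Sm z).card := by fun_prop
      exact (h2.tendsto 0).mono_left nhdsWithin_le_nhds
    rw [add_zero, one_pow] at h1
    have h3 := (h1.eventually_le_const (by linarith : (1:ℝ) < 1 + η)).and self_mem_nhdsWithin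
    obtain ⟨e, he1, he2⟩ := h3.exists
    exact ⟨e, he2, he1⟩
  have hev : ∀ᶠ R : ℕ in atTop, ∀ p ∈ Sm z, ∀ h : Fin m → ℝ, Sp k p h ≤ (1 + e) * Sr k R p h := by
    rw [Filter.eventually_all_finset]
    intro p hp
    obtain ⟨R0, hR0⟩ := Sp_le m k (Sm_prime hp) e he0
    exact eventually_atTop.2 ⟨R0, hR0⟩
  have hcl : ∀ᶠ R : ℕ in atTop, L - ε / 4 < ∏ p ∈ Sm z, Mr k m R p := hLR.eventually_const_lt (by linarith)
  obtain ⟨R, hR1, hR2⟩ := (hev.and hcl).exists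
  set M : ℝ := ∏ p ∈ Sm z, Mr k m R p with hM
  have hML : M ≤ L := Finset.prod_le_prod (fun p hp => Mr_nn m R (Sm_prime hp)) fun p hp => Mr_le m R (Sm_prime hp)
  have hm := mean_Sr k m R z
  rw [← hM] at hm
  have hm1 : ∀ᶠ H : ℝ in atTop, (1 / H) ^ m * ∫ h : Fin m → ℝ, ∏ p ∈ Sm z, Sr k R p h ∂(pn m H) < M + ε / 4 ∧
      M - ε / 4 < (1 / H) ^ m * ∫ h : Fin m → ℝ, ∏ p ∈ Sm z, Sr k R p h ∂(pn m H) :=
    (hm.eventually_lt_const (by linarith)).and (hm.eventually_const_lt (by linarith))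
  have hci : ∀ H : ℝ, Integrable (fun h : Fin m → ℝ => ∏ p ∈ Sm z, Sr k R p h) (pn m H) := fun H =>
    cont_int (continuous_finsetProd _ fun p hp => Sr_cont k R (Sm_prime hp)) H
  have hci2 : ∀ H : ℝ, Integrable (fun h : Fin m → ℝ => PS0 k z h) (pn m H) := fun H => cont_int (PS0_cont k z) H
  filter_upwards [hm1, eventually_gt_atTop 0] with H hH H0
  obtain ⟨g1, g2⟩ := hH
  have hHm : 0 < (1 / H) ^ m := by positivity
  have l1 : ∫ h : Fin m → ℝ, ∏ p ∈ Sm z, Sr k R p h ∂(pn m H) ≤ ∫ h : Fin m → ℝ, PS0 k z h ∂(pn m H) := by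
    refine integral_mono (hci H) (hci2 H) fun h => ?_
    exact Finset.prod_le_prod (fun p _ => zero_le_one.trans (Sr_one k R p h)) fun p hp => Sr_le k R (Sm_prime hp) h
  have l2 : ∫ h : Fin m → ℝ, PS0 k z h ∂(pn m H) ≤ (1 + η) * ∫ h : Fin m → ℝ, ∏ p ∈ Sm z, Sr k R p h ∂(pn m H) := by
    rw [← integral_const_mul]
    refine integral_mono (hci2 H) ((hci H).const_mul _) fun h => ?_
    have h1 : PS0 k z h ≤ ∏ p ∈ Sm z, ((1 + e) * Sr k R p h) :=
      Finset.prod_le_prod (fun p hp => zero_le_one.trans (Sp_one k (Sm_prime hp) h)) fun p hp => hR1 p hp h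
    rw [Finset.prod_mul_distrib, Finset.prod_const] at h1
    refine h1.trans (mul_le_mul_of_nonneg_right he1 ?_)
    exact Finset.prod_nonneg fun p _ => zero_le_one.trans (Sr_one k R p h)
  have l3 := mul_le_mul_of_nonneg_left l1 hHm.le
  have l4 := mul_le_mul_of_nonneg_left l2 hHm.le
  set X : ℝ := (1 / H) ^ m * ∫ h : Fin m → ℝ, ∏ p ∈ Sm z, Sr k R p h ∂(pn m H) with hX
  set Y : ℝ := (1 / H) ^ m * ∫ h : Fin m → ℝ, PS0 k z h ∂(pn m H) with hY
  have l5 : Y ≤ (1 + η) * X := by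
    refine l4.trans (le_of_eq ?_)
    rw [hX]
    ring
  have l6 : (1 + η) * (M + ε / 4) ≤ L + 3 * ε / 4 := by
    have h2 : η * M ≤ ε / 4 := by
      have h3 : M ≤ L + 1 := by linarith
      calc η * M ≤ η * (L + 1) := mul_le_mul_of_nonneg_left h3 hη0.le
        _ ≤ ε / (4 * (L + 1)) * (L + 1) := mul_le_mul_of_nonneg_right (min_le_right _ _) (by linarith)
        _ = ε / 4 := by field_simp
    nlinarith
  rw [Real.dist_eq, abs_lt]
  constructor
  · linarith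
  · have l7 : (1 + η) * X < (1 + η) * (M + ε / 4) := mul_lt_mul_of_pos_left g1 (by linarith)
    linarith

end Run7.h772.MM
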