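import Pool.Agent.Run7.h772.MM.Zj
import Pool.Agent.Run7.h772.WN_ZML

set_option autoImplicit false

/-!
# Moments of moments near the critical line: zeta without the small primes near the line `1`, two-sided
-/

namespace Run7.h772.MM

open Finset Filter MeasureTheory Topology Complex
open Run7.h772.WN

/-- the mean square of the error of the powers of zeta without the small primes -/
theorem zz_sq (M : ℕ) (hM1 : 1 ≤ M) : ∃ A : ℝ, 0 < A ∧ ∀ z : ℕ, 2 ≤ z → ∃ H0 : ℝ, 1 ≤ H0 ∧ ∀ H ≥ H0, ∀ δ : ℝ, 0 < δ →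
    δ ≤ 1 / 16 → ∫ h in (1:ℝ)..H, ‖Run7.h291.WN.zz z δ h ^ M - 1‖ ^ 2 ≤ (2 * A + 1) * ((z:ℝ) ^ (-(1 / 2 : ℝ)) * H) := by
  obtain ⟨A, hA, hG⟩ := G_mean M hM1
  refine ⟨A, hA, fun z hz => ?_⟩
  obtain ⟨Cz, hCz, hsift⟩ := sifted (Pz z) (Pz_prime z)
  set D : ℝ := (2 * Cz * M) ^ 2 * (2 + 2 * Cz + 8 * M) ^ (2 * M) with hD
  have hM0 : (1:ℝ) ≤ M := by exact_mod_cast hM1
  have hD0 : 0 ≤ D := by positivity
  have hz0 : (0:ℝ) < z := by exact_mod_cast (by omega : 0 < z)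
  set K : ℝ := 4 * D + 4 * A with hK
  have hK0 : 0 ≤ K := by positivity
  refine ⟨max 1 ((K * (z:ℝ) ^ (1 / 2 : ℝ)) ^ 2), le_max_left _ _, fun H hH δ hδ hδ1 => ?_⟩
  have hH1 : 1 ≤ H := (le_max_left _ _).trans hH
  have hH0 : 0 < H := by linarith
  set sH : ℝ := H ^ (1 / 2 : ℝ) with hsH
  have hsH0 : 0 < sH := Real.rpow_pos_of_pos hH0 _
  have hsH2 : sH * sH = H := by
    rw [hsH, ← Real.rpow_add hH0]
    norm_num
  -- `K * sH ≤ z ^ (-1/2) * H`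
  have hKH : K * sH ≤ (z:ℝ) ^ (-(1 / 2 : ℝ)) * H := by
    have h1 : (K * (z:ℝ) ^ (1 / 2 : ℝ)) ^ 2 ≤ sH ^ 2 := by
      rw [sq sH, hsH2]
      exact (le_max_right _ _).trans hH
    have h2 : K * (z:ℝ) ^ (1 / 2 : ℝ) ≤ sH := (pow_le_pow_iff_left₀ (by positivity) hsH0.le (by norm_num)).1 h1
    have h3 : (z:ℝ) ^ (-(1 / 2 : ℝ)) * (z:ℝ) ^ (1 / 2 : ℝ) = 1 := by
      rw [← Real.rpow_add hz0]
      norm_num
    have h4 : 0 ≤ (z:ℝ) ^ (-(1 / 2 : ℝ)) * sH := by positivity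
    calc K * sH = (z:ℝ) ^ (-(1 / 2 : ℝ)) * sH * (K * (z:ℝ) ^ (1 / 2 : ℝ)) := by
          linear_combination (-(K * sH)) * h3
      _ ≤ (z:ℝ) ^ (-(1 / 2 : ℝ)) * sH * sH := mul_le_mul_of_nonneg_left h2 h4
      _ = (z:ℝ) ^ (-(1 / 2 : ℝ)) * H := by rw [mul_assoc, hsH2]
  -- the length of the sums
  set N : ℕ := ⌈H ^ 2⌉₊ with hN
  have hNH : H ^ 2 ≤ N := Nat.le_ceil _
  have hHsq : 1 ≤ H ^ 2 := one_le_pow₀ hH1
  have hN1 : (1:ℝ) ≤ N := hHsq.trans hNH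
  have hNn : 1 ≤ N := by exact_mod_cast hN1
  have hN2 : (N:ℝ) ≤ 2 * H ^ 2 := by
    have := Nat.ceil_lt_add_one (by positivity : 0 ≤ H ^ 2)
    rw [← hN] at this
    linarith
  have hN4 : (N:ℝ) ^ (1 / 4 : ℝ) ≤ 2 * sH := by
    calc (N:ℝ) ^ (1 / 4 : ℝ) ≤ (2 * H ^ 2) ^ (1 / 4 : ℝ) := Real.rpow_le_rpow (by linarith) hN2 (by norm_num)
      _ = (2:ℝ) ^ (1 / 4 : ℝ) * (H ^ 2) ^ (1 / 4 : ℝ) := Real.mul_rpow (by norm_num) (by positivity)
      _ ≤ 2 * sH := by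
          have h1 : (2:ℝ) ^ (1 / 4 : ℝ) ≤ 2 ^ (1:ℝ) :=
            Real.rpow_le_rpow_of_exponent_le (by norm_num) (by norm_num)
          rw [Real.rpow_one] at h1
          have h2 : (H ^ 2) ^ (1 / 4 : ℝ) = sH := by
            rw [← Real.rpow_natCast H 2, ← Real.rpow_mul hH0.le, hsH]
            norm_num
          rw [h2]
          gcongr
  -- the difference of the powers
  set x : ℝ → ℂ := fun h => Run7.h291.WN.zz z δ h with hx
  set g : ℝ → ℂ := fun h => Gs z N δ h with hg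
  have hxg : ∀ h : ℝ, 1 ≤ h → h ≤ H → ‖x h - g h‖ ≤ 2 * Cz * (1 / h) := by
    intro h h1 h2
    have h3 := hsift N δ h hδ hδ1 h1
    have h0 : 0 < h := by linarith
    have h4 : h / ((N:ℝ) + 1) ≤ 1 / h := by
      rw [div_le_div_iff₀ (by linarith) h0, one_mul]
      have : h * h ≤ H ^ 2 := by rw [sq]; exact mul_le_mul h2 h2 h0.le hH0.le
      linarith
    refine h3.trans ?_
    have h5 : Cz * (h / ((N:ℝ) + 1)) ≤ Cz * (1 / h) := mul_le_mul_of_nonneg_left h4 hCz.le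
    linarith
  set R : ℝ := 2 + Real.log N + 2 * Cz with hR
  have hlogN : 0 ≤ Real.log N := Real.log_nonneg hN1
  have hR1 : 1 ≤ R := by rw [hR]; linarith
  have hgR : ∀ h : ℝ, ‖g h‖ ≤ 1 + Real.log N := fun h => sum_le_log hδ h
  have hdiff : ∀ h : ℝ, 1 ≤ h → h ≤ H → ‖x h ^ M - g h ^ M‖ ^ 2 ≤ D * (N:ℝ) ^ (1 / 4 : ℝ) * (1 / h) ^ 2 := by
    intro h h1 h2
    have h0 : 0 < h := by linarith
    have h3 := hxg h h1 h2
    have h4 : 1 / h ≤ 1 := by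
      rw [div_le_one h0]; exact h1
    have h5 : ‖g h‖ ≤ R := (hgR h).trans (by rw [hR]; linarith)
    have h6 : ‖x h‖ ≤ R := by
      have h7 : ‖x h‖ ≤ ‖x h - g h‖ + ‖g h‖ := by
        have := norm_add_le (x h - g h) (g h)
        rwa [sub_add_cancel] at this
      have h8 : 2 * Cz * (1 / h) ≤ 2 * Cz := by nlinarith
      have := hgR h
      rw [hR]
      linarith
    have h9 := pow_sub_pow_le h6 h5 hR1 M
    have h10 : ‖x h ^ M - g h ^ M‖ ≤ 2 * Cz * (1 / h) * (M * R ^ M) :=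
      h9.trans (mul_le_mul_of_nonneg_right h3 (by positivity))
    have h11 := pow_le_pow_left₀ (norm_nonneg _) h10 2
    refine h11.trans ?_
    have h12 : (2 * Cz * (1 / h) * (M * R ^ M)) ^ 2 = (2 * Cz * M) ^ 2 * R ^ (2 * M) * (1 / h) ^ 2 := by
      rw [mul_comm 2 M, pow_mul]
      ring
    rw [h12]
    refine mul_le_mul_of_nonneg_right ?_ (by positivity)
    rw [hD, mul_assoc ((2 * Cz * (M:ℝ)) ^ 2)]
    refine mul_le_mul_of_nonneg_left ?_ (sq_nonneg (2 * Cz * (M:ℝ)))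
    -- `R ^ (2M) ≤ (2+2Cz+8M)^(2M) N^(1/4)`
    have h13 : Real.log N ≤ 8 * M * (N:ℝ) ^ (1 / (8 * M) : ℝ) := by
      have h14 : (0:ℝ) < 1 / (8 * M) := by positivity
      have := Real.log_le_rpow_div (by linarith : (0:ℝ) ≤ N) h14
      refine this.trans (le_of_eq ?_)
      field_simp
    have h15 : (1:ℝ) ≤ (N:ℝ) ^ (1 / (8 * M) : ℝ) := Real.one_le_rpow hN1 (by positivity)
    have h16 : R ≤ (2 + 2 * Cz + 8 * M) * (N:ℝ) ^ (1 / (8 * M) : ℝ) := by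
      rw [hR]
      have : 2 + 2 * Cz ≤ (2 + 2 * Cz) * (N:ℝ) ^ (1 / (8 * M) : ℝ) :=
        le_mul_of_one_le_right (by linarith) h15
      linarith
    have h17 := pow_le_pow_left₀ (by linarith : 0 ≤ R) h16 (2 * M)
    refine h17.trans (le_of_eq ?_)
    rw [mul_pow]
    congr 1
    rw [← Real.rpow_natCast ((N:ℝ) ^ (1 / (8 * M) : ℝ)), ← Real.rpow_mul (by linarith)]
    congr 1
    push_cast
    field_simp
    norm_num
  -- continuity
  have hxc : Continuous x := zz_cont z hδ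
  have hgc : Continuous g := Gs_cont z N δ
  -- the mean square of `x ^ M - 1`
  have hI : ∫ h in (1:ℝ)..H, ‖x h ^ M - 1‖ ^ 2 ≤ (2 * A + 1) * ((z:ℝ) ^ (-(1 / 2 : ℝ)) * H) := by
    have h1 : ∫ h in (1:ℝ)..H, ‖x h ^ M - 1‖ ^ 2 ≤
        ∫ h in (1:ℝ)..H, (2 * (D * (N:ℝ) ^ (1 / 4 : ℝ)) * (1 / h) ^ 2 + 2 * ‖g h ^ M - 1‖ ^ 2) := by
      refine intervalIntegral.integral_mono_on hH1 ?_ ?_ fun h hh => ?_
      · exact (((hxc.pow M).sub continuous_const).norm.pow 2).intervalIntegrable _ _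
      · refine IntervalIntegrable.add ?_ ?_
        · refine ContinuousOn.intervalIntegrable (fun h hh => ?_)
          rw [Set.uIcc_of_le hH1] at hh
          have h0 : h ≠ 0 := fun h00 => by rw [h00] at hh; linarith [hh.1]
          exact (ContinuousAt.mul continuousAt_const (((continuousAt_const (y := (1:ℝ))).div continuousAt_id h0).pow 2)).continuousWithinAt
        · exact (continuous_const.mul (((hgc.pow M).sub continuous_const).norm.pow 2)).intervalIntegrable _ _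
      · have h2 := hdiff h hh.1 hh.2
        have h3 : ‖x h ^ M - 1‖ ≤ ‖x h ^ M - g h ^ M‖ + ‖g h ^ M - 1‖ := by
          have := norm_add_le (x h ^ M - g h ^ M) (g h ^ M - 1)
          rwa [sub_add_sub_cancel] at this
        have h4 := pow_le_pow_left₀ (norm_nonneg _) h3 2
        nlinarith [sq_nonneg (‖x h ^ M - g h ^ M‖ - ‖g h ^ M - 1‖)]
    refine h1.trans ?_
    rw [intervalIntegral.integral_add, intervalIntegral.integral_const_mul,
      intervalIntegral.integral_const_mul]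
    · have h2 : ∫ h in (1:ℝ)..H, ‖g h ^ M - 1‖ ^ 2 ≤ ∫ h in (0:ℝ)..H, ‖g h ^ M - 1‖ ^ 2 := by
        have hc : Continuous fun h => ‖g h ^ M - 1‖ ^ 2 := ((hgc.pow M).sub continuous_const).norm.pow 2
        rw [← intervalIntegral.integral_add_adjacent_intervals (hc.intervalIntegrable 0 1)
          (hc.intervalIntegrable 1 H)]
        have : 0 ≤ ∫ h in (0:ℝ)..1, ‖g h ^ M - 1‖ ^ 2 :=
          intervalIntegral.integral_nonneg (by norm_num) fun _ _ => by positivity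
        linarith
      have h3 := hG z hz N hNn δ hδ H hH0.le
      have h4 := int_inv_sq hH1
      have h5 : 0 ≤ 2 * (D * (N:ℝ) ^ (1 / 4 : ℝ)) := by positivity
      have h6 := mul_le_mul_of_nonneg_left h4 h5
      have h7 : D * (N:ℝ) ^ (1 / 4 : ℝ) ≤ D * (2 * sH) := mul_le_mul_of_nonneg_left hN4 hD0
      have h8 : A * (N:ℝ) ^ (1 / 4 : ℝ) ≤ A * (2 * sH) := mul_le_mul_of_nonneg_left hN4 hA.le
      have h9 : ∫ h in (1:ℝ)..H, ‖g h ^ M - 1‖ ^ 2 ≤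
          A * ((z:ℝ) ^ (-(1 / 2 : ℝ)) * H + (N:ℝ) ^ (1 / 4 : ℝ)) := h2.trans h3
      rw [hK] at hKH
      nlinarith
    · refine ContinuousOn.intervalIntegrable (fun h hh => ?_)
      rw [Set.uIcc_of_le hH1] at hh
      have h0 : h ≠ 0 := fun h00 => by rw [h00] at hh; linarith [hh.1]
      exact (ContinuousAt.mul continuousAt_const (((continuousAt_const (y := (1:ℝ))).div continuousAt_id h0).pow 2)).continuousWithinAt
    · exact (continuous_const.mul (((hgc.pow M).sub continuous_const).norm.pow 2)).intervalIntegrable _ _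
  exact hI

/-- the elementary inequality, two-sided -/
lemma elem2 {x : ℂ} {q τ : ℝ} {m : ℕ} (hm : 1 ≤ m) (hq : 0 ≤ q) (hqm : q ≤ 2 * m) (hτ : 0 < τ) :
    |‖x‖ ^ q - 1| ≤ τ + (1 / τ + 1) * ‖x ^ m - 1‖ ^ 2 := by
  rw [abs_le]
  have h1 := elem_ineq (x := x) hq hqm hτ
  have h2 := (le_max_left _ _).trans h1
  refine ⟨?_, h2⟩
  have hw0 : 0 ≤ ‖x ^ m - 1‖ := norm_nonneg _
  set w := ‖x ^ m - 1‖ with hw
  have h2w : 2 * w ≤ τ + 1 / τ * w ^ 2 := by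
    have h1 : 0 ≤ (τ - w) ^ 2 / τ := by positivity
    have h2 : (τ - w) ^ 2 / τ = τ - 2 * w + 1 / τ * w ^ 2 := by field_simp; ring
    linarith
  have hR : τ + (1 / τ + 1) * w ^ 2 = τ + 1 / τ * w ^ 2 + w ^ 2 := by ring
  have hR0 : 0 ≤ τ + 1 / τ * w ^ 2 := by positivity
  have hm0 : (1:ℝ) ≤ m := by exact_mod_cast hm
  rcases le_or_gt 1 ‖x‖ with hx | hx
  · have := Real.one_le_rpow hx hq
    nlinarith [sq_nonneg w]
  · have h3 : ‖x‖ ^ (2 * m : ℕ) ≤ ‖x‖ ^ q := by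
      rcases (norm_nonneg x).eq_or_lt with h0 | h0
      · rw [← h0]
        rw [zero_pow (by omega)]
        exact Real.rpow_nonneg le_rfl _
      · rw [← Real.rpow_natCast]
        exact Real.rpow_le_rpow_of_exponent_ge h0 hx.le (by push_cast; exact hqm)
    have h4 : ‖x‖ ^ (2 * m : ℕ) = ‖x ^ m‖ ^ 2 := by
      rw [norm_pow, ← pow_mul, mul_comm]
    have h5 : 1 - w ≤ ‖x ^ m‖ := by
      have := norm_sub_norm_le (1:ℂ) (x ^ m)
      rw [norm_one, norm_sub_rev] at this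
      linarith
    have h6 : ‖x ^ m‖ ≤ 1 := by
      rw [norm_pow]
      exact pow_le_one₀ (norm_nonneg _) hx.le
    have h7 : 1 - 2 * w ≤ ‖x ^ m‖ ^ 2 := by
      rcases le_or_gt 1 w with h8 | h8
      · nlinarith [sq_nonneg ‖x ^ m‖]
      · have h9 := pow_le_pow_left₀ (by linarith : 0 ≤ 1 - w) h5 2
        nlinarith [sq_nonneg w]
    nlinarith [sq_nonneg w]

/-- the absolute value of the error -/
theorem zml2 (Q : ℝ) (hQ : 0 ≤ Q) : ∃ C : ℝ, 0 < C ∧ ∀ z : ℕ, 2 ≤ z → ∃ H0 : ℝ, 1 ≤ H0 ∧ ∀ H ≥ H0, ∀ δ : ℝ, 0 < δ →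
    δ ≤ 1 / 16 → ∀ q : ℝ, 0 ≤ q → q ≤ Q →
    ∫ h in (1:ℝ)..H, |‖Run7.h291.WN.zz z δ h‖ ^ q - 1| ≤ C * (z:ℝ) ^ (-(1 / 4 : ℝ)) * H := by
  obtain ⟨m, hm⟩ : ∃ m : ℕ, Q ≤ m := exists_nat_ge Q
  set M : ℕ := m + 1 with hM
  have hM1 : 1 ≤ M := by omega
  have hQM : Q ≤ 2 * (M : ℝ) := by
    rw [hM]; push_cast
    have : (0:ℝ) ≤ m := Nat.cast_nonneg m
    linarith
  obtain ⟨A, hA, hG⟩ := zz_sq M hM1
  refine ⟨4 * A + 6, by positivity, fun z hz => ?_⟩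
  obtain ⟨H0, hH0, hI⟩ := hG z hz
  refine ⟨H0, hH0, fun H hH δ hδ hδ1 q hq hqQ => ?_⟩
  have hI := hI H hH δ hδ hδ1
  have hH1 : 1 ≤ H := hH0.trans hH
  have hz0 : (0:ℝ) < z := by exact_mod_cast (by omega : 0 < z)
  set x : ℝ → ℂ := fun h => Run7.h291.WN.zz z δ h with hx
  have hxc : Continuous x := zz_cont z hδ
  set τ : ℝ := (z:ℝ) ^ (-(1 / 4 : ℝ)) with hτ
  have hτ0 : 0 < τ := Real.rpow_pos_of_pos hz0 _
  have hτ1 : τ ≤ 1 := Real.rpow_le_one_of_one_le_of_nonpos (by exact_mod_cast (by omega : 1 ≤ z)) (by norm_num)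
  have hτ2 : (z:ℝ) ^ (-(1 / 2 : ℝ)) = τ * τ := by
    rw [hτ, ← Real.rpow_add hz0]
    norm_num
  rw [hτ2] at hI
  have hqM : q ≤ 2 * (M:ℝ) := hqQ.trans hQM
  have h1 : ∫ h in (1:ℝ)..H, |‖x h‖ ^ q - 1| ≤
      ∫ h in (1:ℝ)..H, (τ + (1 / τ + 1) * ‖x h ^ M - 1‖ ^ 2) := by
    refine intervalIntegral.integral_mono_on hH1 ?_ ?_ fun h _ => elem2 hM1 hq hqM hτ0
    · refine Continuous.intervalIntegrable ?_ _ _
      exact ((hxc.norm.rpow_const fun _ => Or.inr hq).sub continuous_const).abs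
    · exact (continuous_const.add (continuous_const.mul
        (((hxc.pow M).sub continuous_const).norm.pow 2))).intervalIntegrable _ _
  refine h1.trans ?_
  have hci : Continuous fun h => (1 / τ + 1) * ‖x h ^ M - 1‖ ^ 2 :=
    continuous_const.mul (((hxc.pow M).sub continuous_const).norm.pow 2)
  rw [intervalIntegral.integral_add (intervalIntegrable_const) (hci.intervalIntegrable 1 H),
    intervalIntegral.integral_const, intervalIntegral.integral_const_mul, smul_eq_mul]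
  have h2 : 0 ≤ 1 / τ + 1 := by positivity
  have h3 := mul_le_mul_of_nonneg_left hI h2
  have h4 : (1 / τ + 1) * ((2 * A + 1) * (τ * τ * H)) = (2 * A + 1) * (τ * H) + (2 * A + 1) * (τ * τ * H) := by
    field_simp
  have h5 : τ * τ * H ≤ τ * H := by
    have : 0 < τ * H := by positivity
    nlinarith
  have h6 : (2 * A + 1) * (τ * τ * H) ≤ (2 * A + 1) * (τ * H) :=
    mul_le_mul_of_nonneg_left h5 (by positivity)
  have h7 : 0 ≤ τ * H := by positivity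
  nlinarith

end Run7.h772.MM
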