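import Pool.Agent.Run7.h772.MM.Zk

set_option autoImplicit false

/-!
# Moments of moments near the critical line: the main term in terms of the small primes
-/

namespace Run7.h772.MM

open Finset Filter MeasureTheory Topology Complex
open Pool.Agent.N748.MG Pool.Agent.N748.MJ
open Pool.Agent.N748.MG.CON (lR lC_ofReal)
open Run7.h42.WN (FR FR_sum FR_one pinv lR_nonneg lR_zero FR_bd gb vf)
open Pool.Agent.N748.MJ.POSV (bs pu)
open Pool.Agent.N748.GC (Sm)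

/-- the local factor -/
noncomputable def ga (k : ℝ) {m : ℕ} (p : ℕ) (h : Fin m → ℝ) : ℝ := (∏ j, ∏ l, ‖bs p (h j - h l)‖ ^ (k * k)) * Sp k p h

lemma bs_pos {p : ℕ} (hp : p.Prime) (u : ℝ) : 0 < ‖bs p u‖ := norm_pos_iff.2 (Pool.Agent.N748.MJ.POSV.bs_ne hp u)

lemma ga_pos (k : ℝ) {m : ℕ} {p : ℕ} (hp : p.Prime) (h : Fin m → ℝ) : 0 < ga k p h := by
  unfold ga
  refine mul_pos (Finset.prod_pos fun j _ => Finset.prod_pos fun l _ => Real.rpow_pos_of_pos (bs_pos hp _) _) ?_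
  exact lt_of_lt_of_le one_pos (Sp_one k hp h)

/-- the local factor is real -/
lemma gV_ga (k : ℝ) {m : ℕ} {p : ℕ} (hp : p.Prime) (h : Fin m → ℝ) :
    gV (fun _ : Fin m => (k:ℂ)) (fun _ : Fin m => (k:ℂ)) h 0 p = ((ga k p h : ℝ) : ℂ) := by
  set S : ℂ := ∑ j : Fin m, ∑ l : Fin m, Complex.log (bs p (h j - h l)) * ((k : ℂ) * (k : ℂ)) with hS
  have hA : ∏ j : Fin m, ∏ l : Fin m, (bs p (h j - h l)) ^ ((k : ℂ) * (k : ℂ)) = Complex.exp S := by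
    rw [hS, Complex.exp_sum]
    refine prod_congr rfl fun j _ => ?_
    rw [Complex.exp_sum]
    refine prod_congr rfl fun l _ => ?_
    rw [Complex.cpow_def_of_ne_zero (Pool.Agent.N748.MJ.POSV.bs_ne hp _)]
  have hconj : (starRingEnd ℂ) S = S := by
    rw [hS, map_sum]
    simp only [map_sum, map_mul, Pool.Agent.N748.MJ.POSV.bs_log_conj hp, Complex.conj_ofReal, neg_sub]
    rw [sum_comm]
  have hSre : S = ((S.re : ℝ) : ℂ) := (Complex.conj_eq_iff_re.1 hconj).symm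
  have hP : ∏ j : Fin m, ∏ l : Fin m, (bs p (h j - h l)) ^ ((k : ℂ) * (k : ℂ)) =
      ((∏ j, ∏ l, ‖bs p (h j - h l)‖ ^ (k * k) : ℝ) : ℂ) := by
    have h1 : ∏ j : Fin m, ∏ l : Fin m, (bs p (h j - h l)) ^ ((k : ℂ) * (k : ℂ)) =
        ((‖∏ j : Fin m, ∏ l : Fin m, (bs p (h j - h l)) ^ ((k : ℂ) * (k : ℂ))‖ : ℝ) : ℂ) := by
      rw [hA, hSre, Complex.norm_exp, Complex.ofReal_re, Complex.ofReal_exp]
    rw [h1]
    congr 1
    rw [norm_prod]
    refine prod_congr rfl fun j _ => ?_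
    rw [norm_prod]
    refine prod_congr rfl fun l _ => ?_
    rw [← Complex.ofReal_mul, Complex.norm_cpow_real]
  rw [Pool.Agent.N748.MJ.POSV.gV_eq, hP]
  unfold ga
  rw [Complex.ofReal_mul]
  congr 1
  unfold Pool.Agent.N748.MJ.POSV.SV Sp
  rw [Complex.ofReal_tsum]
  refine tsum_congr fun r => ?_
  have hcj : cj (fun _ : Fin m => (k:ℂ)) = fun _ : Fin m => (k:ℂ) := by
    funext j
    unfold cj
    exact Complex.conj_ofReal _
  unfold tq
  rw [hcj, Complex.mul_conj', Pool.Agent.N748.MJ.POSV.xp]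
  push_cast
  rfl

/-- the products over the primes, two-sided -/
lemma tail2 (C : ℝ) (hC : 0 < C) (ε : ℝ) (hε : 0 < ε) : ∃ z0 : ℕ, ∀ z : ℕ, z0 ≤ z → ∀ g : ℕ → ℝ,
    (∀ p : ℕ, p.Prime → 0 < g p ∧ |g p - 1| ≤ C / (p:ℝ) ^ 2) → ∀ a : ℂ,
    a = ∏' p : Nat.Primes, (1 + (((g p : ℝ) : ℂ) - 1)) →
    Real.exp (-ε) * ∏ p ∈ Sm z, g p ≤ a.re ∧ a.re ≤ Real.exp ε * ∏ p ∈ Sm z, g p := by
  classical
  obtain ⟨s, hs⟩ := (summable_iff_vanishing_norm.1 (Pool.Agent.N748.MJ.POSV.sum_px (2 * C))) ε hε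
  obtain ⟨N, hN⟩ := exists_nat_ge (2 * C)
  refine ⟨max (s.sup (fun p : Nat.Primes => (p:ℕ)) + 1) (N + 1), fun z hz g hg a ha => ?_⟩
  have hz1 : s.sup (fun p : Nat.Primes => (p:ℕ)) < z := (le_max_left _ _).trans hz
  have hz2 : N < z := (le_max_right _ _).trans hz
  set S : Finset Nat.Primes := (Sm z).subtype Nat.Prime with hS
  have hSm : ∏ p ∈ S, g p = ∏ p ∈ Sm z, g p := Finset.prod_subtype_of_mem (fun p : ℕ => g p) fun p hp => Sm_prime hp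
  rw [← hSm]
  have hlim := Run7.h42.WN.prodA (g := fun p : Nat.Primes => g p) (fun p => (hg p p.2).2) ha
  have hPS : 0 < ∏ p ∈ S, g p := Finset.prod_pos fun p _ => (hg p p.2).1
  have hmem : ∀ I : Finset Nat.Primes, ∀ p ∈ I \ S, z ≤ (p:ℕ) := by
    intro I p hp
    by_contra hc
    push Not at hc
    rw [Finset.mem_sdiff] at hp
    apply hp.2
    refine Finset.mem_subtype.2 ?_
    unfold Pool.Agent.N748.GC.Sm
    rw [mem_filter, mem_range]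
    exact ⟨hc, p.2⟩
  have hdis : ∀ I : Finset Nat.Primes, ∑ p ∈ I \ S, 2 * C / (p:ℝ) ^ 2 ≤ ε := by
    intro I
    have hd : Disjoint (I \ S) s := by
      rw [Finset.disjoint_left]
      intro p hp hps
      have h1 := hmem I p hp
      have h2 : (p:ℕ) ≤ s.sup (fun p : Nat.Primes => (p:ℕ)) := Finset.le_sup (f := fun p : Nat.Primes => (p:ℕ)) hps
      omega
    exact (le_abs_self _).trans (hs _ hd).le
  have hbd : ∀ I : Finset Nat.Primes, ∀ p ∈ I \ S, Real.exp (-(2 * C / (p:ℝ) ^ 2)) ≤ g p ∧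
      g p ≤ Real.exp (2 * C / (p:ℝ) ^ 2) := by
    intro I p hp
    have h1 := hmem I p hp
    have h2 : (N:ℝ) + 1 ≤ (p:ℕ) := by exact_mod_cast (Nat.succ_le_of_lt hz2).trans h1
    have hN0 : (0:ℝ) ≤ N := Nat.cast_nonneg _
    have h30 : (0:ℝ) < ((p:ℕ):ℝ) := by exact_mod_cast p.2.pos
    have h3 : (0:ℝ) < ((p:ℕ):ℝ) ^ 2 := by positivity
    have h4 := (hg p p.2).2
    rw [abs_le] at h4
    set t : ℝ := C / ((p:ℕ):ℝ) ^ 2 with ht
    have ht0 : 0 < t := by positivity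
    have ht1 : t ≤ 1 / 2 := by
      rw [ht, div_le_iff₀ h3]
      nlinarith
    have h5 : 2 * C / ((p:ℕ):ℝ) ^ 2 = 2 * t := by rw [ht]; ring
    rw [h5]
    constructor
    · have h6 := Real.one_sub_inv_le_log_of_pos (by linarith : 0 < 1 - t)
      have h7 : -(2 * t) ≤ 1 - (1 - t)⁻¹ := by
        have h8 : 0 < 1 - t := by linarith
        have h9 : (1 - t)⁻¹ ≤ 1 + 2 * t := by
          rw [inv_le_comm₀ h8 (by linarith), inv_eq_one_div, div_le_iff₀ (by linarith)]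
          nlinarith
        linarith
      have h8 : Real.exp (-(2 * t)) ≤ 1 - t := by
        rw [← Real.exp_log (by linarith : 0 < 1 - t)]
        exact Real.exp_le_exp.2 (h7.trans h6)
      linarith
    · have h6 := Real.add_one_le_exp (2 * t)
      linarith
  constructor
  · refine ge_of_tendsto hlim ((eventually_ge_atTop S).mono fun I hI => ?_)
    rw [← prod_sdiff hI]
    refine mul_le_mul_of_nonneg_right ?_ hPS.le
    calc Real.exp (-ε) ≤ Real.exp (∑ p ∈ I \ S, -(2 * C / (p:ℝ) ^ 2)) := by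
          apply Real.exp_le_exp.2
          rw [Finset.sum_neg_distrib]
          linarith [hdis I]
      _ = ∏ p ∈ I \ S, Real.exp (-(2 * C / (p:ℝ) ^ 2)) := Real.exp_sum _ _
      _ ≤ ∏ p ∈ I \ S, g p := prod_le_prod (fun _ _ => (Real.exp_pos _).le) fun p hp => (hbd I p hp).1
  · refine le_of_tendsto hlim ((eventually_ge_atTop S).mono fun I hI => ?_)
    rw [← prod_sdiff hI]
    refine mul_le_mul_of_nonneg_right ?_ hPS.le
    calc ∏ p ∈ I \ S, g p ≤ ∏ p ∈ I \ S, Real.exp (2 * C / (p:ℝ) ^ 2) :=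
          prod_le_prod (fun p _ => (hg p p.2).1.le) fun p hp => (hbd I p hp).2
      _ = Real.exp (∑ p ∈ I \ S, 2 * C / (p:ℝ) ^ 2) := (Real.exp_sum _ _).symm
      _ ≤ Real.exp ε := Real.exp_le_exp.2 (hdis I)

/-- the arithmetic factors in terms of the small primes -/
lemma Ar_tail (m : ℕ) (k ε : ℝ) (hε : 0 < ε) : ∃ z0 : ℕ, ∀ z : ℕ, z0 ≤ z →
    (∀ h : Fin m → ℝ, Real.exp (-ε) * ∏ p ∈ Sm z, ga k p h ≤ Ar k h ∧ Ar k h ≤ Real.exp ε * ∏ p ∈ Sm z, ga k p h) ∧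
    Real.exp (-ε) * ∏ p ∈ Sm z, gb k p ≤ (aC (k:ℂ)).re ∧ (aC (k:ℂ)).re ≤ Real.exp ε * ∏ p ∈ Sm z, gb k p := by
  obtain ⟨C1, hC1, h1⟩ := Pool.Agent.N748.MJ.GVB.main Pool.Agent.N748.MJ.BND.main m |k| (abs_nonneg _)
  obtain ⟨C2, hC2, h2⟩ := Run7.h42.WN.locbd k
  obtain ⟨z1, hz1⟩ := tail2 (C1 + C2) (by positivity) ε hε
  have hn : ∀ _j : Fin m, ‖((k : ℝ) : ℂ)‖ ≤ |k| := fun _ => by
    rw [Complex.norm_real]
    exact le_rfl
  refine ⟨z1, fun z hz => ⟨fun h => ?_, ?_⟩⟩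
  · refine hz1 z hz (fun p => ga k p h) (fun p hp => ⟨ga_pos k hp h, ?_⟩) _ ?_
    · have h3 := (h1 (fun _ => (k:ℂ)) (fun _ => (k:ℂ)) h hn hn p hp 0 le_rfl zero_le_one).1
      rw [gV_ga k hp, ← Complex.ofReal_one, ← Complex.ofReal_sub, Complex.norm_real, Real.norm_eq_abs] at h3
      refine h3.trans ?_
      gcongr
      linarith
    · rw [Pool.Agent.N748.MJ.POSV.aV_eq]
      refine tprod_congr fun p => ?_
      rw [gV_ga k p.2]
  · refine hz1 z hz (fun p => gb k p) (fun p hp => ⟨Run7.h42.WN.gb_pos k hp, ?_⟩) _ ?_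
    · refine (h2 p hp).1.trans ?_
      gcongr
      linarith
    · rw [Pool.Agent.N748.MG.CON.aC_eq]
      refine tprod_congr fun p => ?_
      rw [Run7.h42.WN.Gp_loc k p.2]

/-! ### comparison with zeta without the small primes -/

lemma vf_le {p : ℕ} (hp : p.Prime) {δ : ℝ} (hδ : 0 ≤ δ) (h : ℝ) : ‖vf p δ h‖ ≤ Real.exp (4 * δ) * ‖bs p h‖ := by
  have h0 : bs p h = 1 - (((p:ℝ) ^ (-(1 + 2 * (0:ℝ))) : ℝ) : ℂ) * (p:ℂ) ^ (-((h:ℂ) * I)) := by
    rw [← Run7.h42.WN.pw_eq hp]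
    unfold Pool.Agent.N748.MJ.POSV.bs Pool.Agent.N748.MJ.POSV.pu
    push_cast
    rfl
  have h1 : vf p δ h = bs p h + ((((p:ℝ) ^ (-(1 + 2 * (0:ℝ))) - (p:ℝ) ^ (-(1 + 2 * δ))) : ℝ) : ℂ) *
      (p:ℂ) ^ (-((h:ℂ) * I)) := by
    rw [h0]
    unfold Run7.h42.WN.vf
    rw [Run7.h42.WN.pw_eq hp δ h]
    push_cast
    ring
  have h2 : ‖vf p δ h‖ ≤ ‖bs p h‖ + 2 * δ := by
    rw [h1]
    refine (norm_add_le _ _).trans ?_
    rw [norm_mul, Pool.Agent.N748.MJ.GVB.norm_th p hp.one_le, mul_one, Complex.norm_real, Real.norm_eq_abs]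
    linarith [Run7.h42.WN.x_diff hp hδ]
  have h3 : 1 / 2 ≤ ‖bs p h‖ := by
    have h4 := Pool.Agent.N748.MJ.POSV.norm_pu hp h
    unfold Pool.Agent.N748.MJ.POSV.bs
    have h5 := norm_sub_norm_le (1:ℂ) (pu p h)
    rw [norm_one] at h5
    linarith
  have h4 := Real.add_one_le_exp (4 * δ)
  nlinarith

lemma card_Sm (z : ℕ) : ((Sm z).card : ℝ) ≤ z := by
  have : (Sm z).card ≤ z := by
    unfold Pool.Agent.N748.GC.Sm
    exact (card_filter_le _ _).trans (by rw [card_range])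
  exact_mod_cast this

lemma prod_vf (z : ℕ) {δ : ℝ} (hδ : 0 ≤ δ) (h : ℝ) :
    ∏ p ∈ Sm z, ‖vf p δ h‖ ≤ Real.exp (4 * δ * z) * ∏ p ∈ Sm z, ‖bs p h‖ := by
  have h1 : ∏ p ∈ Sm z, ‖vf p δ h‖ ≤ ∏ p ∈ Sm z, (Real.exp (4 * δ) * ‖bs p h‖) :=
    prod_le_prod (fun _ _ => norm_nonneg _) fun p hp => vf_le (Sm_prime hp) hδ h
  rw [prod_mul_distrib, prod_const] at h1
  refine h1.trans (mul_le_mul_of_nonneg_right ?_ (prod_nonneg fun _ _ => norm_nonneg _))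
  rw [← Real.exp_nat_mul]
  apply Real.exp_le_exp.2
  nlinarith [card_Sm z]

/-- the modulus of zeta without the small primes -/
noncomputable def nz (z : ℕ) (δ y : ℝ) : ℝ := ‖Run7.h291.WN.zz z δ y‖

lemma nz_nn (z : ℕ) (δ y : ℝ) : 0 ≤ nz z δ y := norm_nonneg _

lemma Z_alt (δ y : ℝ) : Z δ y = ‖riemannZeta (1 + 2 * δ + y * I)‖ := by
  unfold Z
  congr 2
  push_cast
  ring

lemma nz_eq (z : ℕ) (δ y : ℝ) : nz z δ y = Z δ y * ∏ p ∈ Sm z, ‖vf p δ y‖ := by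
  unfold nz
  rw [Run7.h42.WN.zz_norm, Z_alt]

lemma Zbs_le (z : ℕ) {δ : ℝ} (hδ : 0 ≤ δ) (y : ℝ) : Z δ y * ∏ p ∈ Sm z, ‖bs p y‖ ≤ Real.exp (4 * δ * z) * nz z δ y := by
  rw [nz_eq]
  have h1 := mul_le_mul_of_nonneg_left (Run7.h42.WN.prod_bs z hδ y) (Z_nn δ y)
  calc _ ≤ _ := h1
    _ = _ := by ring

lemma Zbs_ge (z : ℕ) {δ : ℝ} (hδ : 0 ≤ δ) (y : ℝ) : Real.exp (-(4 * δ * z)) * nz z δ y ≤ Z δ y * ∏ p ∈ Sm z, ‖bs p y‖ := by
  rw [nz_eq]
  have h1 := mul_le_mul_of_nonneg_left (prod_vf z hδ y) (Z_nn δ y)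
  have h2 := mul_le_mul_of_nonneg_left h1 (Real.exp_pos (-(4 * δ * z))).le
  calc _ ≤ _ := h2
    _ = (Real.exp (-(4 * δ * z)) * Real.exp (4 * δ * z)) * (Z δ y * ∏ p ∈ Sm z, ‖bs p y‖) := by ring
    _ = _ := by rw [← Real.exp_add]; simp

/-- the product over the pairs of different points of zeta without the small primes -/
noncomputable def RR (z : ℕ) (δ c : ℝ) {n : ℕ} (h : Fin (n + 1) → ℝ) : ℝ :=
  ∏ q : Fin (n + 1) × Fin n, nz z δ (h q.1 - h (q.1.succAbove q.2)) ^ c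

lemma RR_nn (z : ℕ) (δ c : ℝ) {n : ℕ} (h : Fin (n + 1) → ℝ) : 0 ≤ RR z δ c h :=
  Finset.prod_nonneg fun _ _ => Real.rpow_nonneg (nz_nn _ _ _) _

lemma nz_split {z : ℕ} {δ c : ℝ} (n : ℕ) (h : Fin (n + 1) → ℝ) :
    ∏ j, ∏ l, nz z δ (h j - h l) ^ c = nz z δ 0 ^ (c * (n + 1)) * RR z δ c h := by
  unfold RR
  rw [Fintype.prod_prod_type]
  have h1 : ∀ j : Fin (n + 1), ∏ l, nz z δ (h j - h l) ^ c =
      nz z δ 0 ^ c * ∏ i : Fin n, nz z δ (h j - h (j.succAbove i)) ^ c := by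
    intro j
    rw [Fin.prod_univ_succAbove _ j, sub_self]
  simp_rw [h1]
  rw [Finset.prod_mul_distrib, Finset.prod_const, Finset.card_univ, Fintype.card_fin, Real.rpow_mul (nz_nn _ _ _),
    ← Real.rpow_natCast (nz z δ 0 ^ c) (n + 1)]
  push_cast
  rfl

lemma ga_prod (k : ℝ) (z : ℕ) {m : ℕ} (h : Fin m → ℝ) : ∏ p ∈ Sm z, ga k p h =
    (∏ j, ∏ l, (∏ p ∈ Sm z, ‖bs p (h j - h l)‖) ^ (k * k)) * PS0 k z h := by
  unfold ga PS0
  rw [Finset.prod_mul_distrib]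
  congr 1
  rw [Finset.prod_comm]
  refine Finset.prod_congr rfl fun j _ => ?_
  rw [Finset.prod_comm]
  refine Finset.prod_congr rfl fun l _ => ?_
  rw [Real.finsetProd_rpow _ _ fun _ _ => norm_nonneg _]

lemma PZ_ga (k : ℝ) (z : ℕ) (δ : ℝ) {m : ℕ} (h : Fin m → ℝ) : (∏ p ∈ Sm z, ga k p h) * PZ δ (k * k) h =
    (∏ j, ∏ l, (Z δ (h j - h l) * ∏ p ∈ Sm z, ‖bs p (h j - h l)‖) ^ (k * k)) * PS0 k z h := by
  rw [ga_prod]
  unfold PZ
  have h1 : ∏ j, ∏ l, (Z δ (h j - h l) * ∏ p ∈ Sm z, ‖bs p (h j - h l)‖) ^ (k * k) =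
      (∏ j, ∏ l, Z δ (h j - h l) ^ (k * k)) * ∏ j, ∏ l, (∏ p ∈ Sm z, ‖bs p (h j - h l)‖) ^ (k * k) := by
    simp_rw [← Finset.prod_mul_distrib]
    refine Finset.prod_congr rfl fun j _ => Finset.prod_congr rfl fun l _ => ?_
    rw [Real.mul_rpow (Z_nn _ _) (Finset.prod_nonneg fun _ _ => norm_nonneg _)]
  rw [h1]
  ring

lemma const_prod {m : ℕ} (a c : ℝ) (ha : 0 ≤ a) : ∏ _j : Fin m, ∏ _l : Fin m, a ^ c = a ^ (c * (m * m)) := by
  simp only [Finset.prod_const, Finset.card_univ, Fintype.card_fin]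
  rw [← Real.rpow_natCast, ← Real.rpow_natCast, ← Real.rpow_mul ha, ← Real.rpow_mul ha]
  congr 1
  ring

/-- the main term between two multiples of the product -/
lemma WW_two (n : ℕ) (k ε : ℝ) (hε : 0 < ε) : ∃ z0 : ℕ, ∀ z : ℕ, z0 ≤ z →
    (∀ δ : ℝ, 0 ≤ δ → ∀ h : Fin (n + 1) → ℝ,
      Real.exp (-(ε + 4 * δ * z * (k * k * ((n + 1) * (n + 1))))) *
        (nz z δ 0 ^ (k * k * (n + 1)) * RR z δ (k * k) h * PS0 k z h) ≤ WW k δ h ∧
      WW k δ h ≤ Real.exp (ε + 4 * δ * z * (k * k * ((n + 1) * (n + 1)))) *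
        (nz z δ 0 ^ (k * k * (n + 1)) * RR z δ (k * k) h * PS0 k z h)) ∧
    Real.exp (-ε) * ∏ p ∈ Sm z, gb k p ≤ (aC (k:ℂ)).re ∧ (aC (k:ℂ)).re ≤ Real.exp ε * ∏ p ∈ Sm z, gb k p := by
  obtain ⟨z0, hz0⟩ := Ar_tail (n + 1) k ε hε
  refine ⟨z0, fun z hz => ?_⟩
  obtain ⟨h1, h2⟩ := hz0 z hz
  refine ⟨fun δ hδ h => ?_, h2⟩
  obtain ⟨h3, h4⟩ := h1 h
  have hkk : 0 ≤ k * k := mul_self_nonneg k
  have hP := PZ_pos hδ (c := k * k) h
  have hPS := PS0_nn k z h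
  have hbn : ∀ y : ℝ, 0 ≤ ∏ p ∈ Sm z, ‖bs p y‖ := fun y => Finset.prod_nonneg fun _ _ => norm_nonneg _
  have hE : (0:ℝ) ≤ Real.exp (4 * δ * z) := (Real.exp_pos _).le
  have hE' : (0:ℝ) ≤ Real.exp (-(4 * δ * z)) := (Real.exp_pos _).le
  have up : ∏ j, ∏ l, (Z δ (h j - h l) * ∏ p ∈ Sm z, ‖bs p (h j - h l)‖) ^ (k * k) ≤
      Real.exp (4 * δ * z * (k * k * ((n + 1) * (n + 1)))) * (nz z δ 0 ^ (k * k * (n + 1)) * RR z δ (k * k) h) := by
    rw [← nz_split]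
    calc ∏ j, ∏ l, (Z δ (h j - h l) * ∏ p ∈ Sm z, ‖bs p (h j - h l)‖) ^ (k * k)
        ≤ ∏ j, ∏ l, (Real.exp (4 * δ * z) ^ (k * k) * nz z δ (h j - h l) ^ (k * k)) := by
          refine prod_le_prod (fun j _ => prod_nonneg fun l _ => Real.rpow_nonneg (mul_nonneg (Z_nn _ _) (hbn _)) _)
            fun j _ => prod_le_prod (fun l _ => Real.rpow_nonneg (mul_nonneg (Z_nn _ _) (hbn _)) _) fun l _ => ?_
          rw [← Real.mul_rpow hE (nz_nn _ _ _)]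
          exact Real.rpow_le_rpow (mul_nonneg (Z_nn _ _) (hbn _)) (Zbs_le z hδ _) hkk
      _ = _ := by
          simp_rw [Finset.prod_mul_distrib]
          congr 1
          rw [const_prod _ _ hE, ← Real.exp_mul]
          push_cast
          rfl
  have lo : Real.exp (-(4 * δ * z * (k * k * ((n + 1) * (n + 1))))) *
      (nz z δ 0 ^ (k * k * (n + 1)) * RR z δ (k * k) h) ≤
      ∏ j, ∏ l, (Z δ (h j - h l) * ∏ p ∈ Sm z, ‖bs p (h j - h l)‖) ^ (k * k) := by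
    rw [← nz_split]
    calc _ = ∏ j, ∏ l, (Real.exp (-(4 * δ * z)) ^ (k * k) * nz z δ (h j - h l) ^ (k * k)) := by
          simp_rw [Finset.prod_mul_distrib]
          congr 1
          rw [const_prod _ _ hE', ← Real.exp_mul]
          push_cast
          congr 1
          ring
      _ ≤ _ := by
          refine prod_le_prod (fun j _ => prod_nonneg fun l _ => mul_nonneg (Real.rpow_nonneg hE' _)
            (Real.rpow_nonneg (nz_nn _ _ _) _))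
            fun j _ => prod_le_prod (fun l _ => mul_nonneg (Real.rpow_nonneg hE' _)
            (Real.rpow_nonneg (nz_nn _ _ _) _)) fun l _ => ?_
          rw [← Real.mul_rpow hE' (nz_nn _ _ _)]
          exact Real.rpow_le_rpow (mul_nonneg hE' (nz_nn _ _ _)) (Zbs_ge z hδ _) hkk
  rw [WW_eq]
  constructor
  · have g1 := mul_le_mul_of_nonneg_right h3 hP.le
    refine le_trans ?_ g1
    rw [mul_assoc (Real.exp (-ε)), PZ_ga]
    calc Real.exp (-(ε + 4 * δ * z * (k * k * ((n + 1) * (n + 1))))) *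
          (nz z δ 0 ^ (k * k * (n + 1)) * RR z δ (k * k) h * PS0 k z h)
        = Real.exp (-ε) * ((Real.exp (-(4 * δ * z * (k * k * ((n + 1) * (n + 1))))) *
          (nz z δ 0 ^ (k * k * (n + 1)) * RR z δ (k * k) h)) * PS0 k z h) := by
          rw [neg_add, Real.exp_add]
          ring
      _ ≤ _ := mul_le_mul_of_nonneg_left (mul_le_mul_of_nonneg_right lo hPS) (Real.exp_pos _).le
  · have g1 := mul_le_mul_of_nonneg_right h4 hP.le
    refine g1.trans ?_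
    rw [mul_assoc (Real.exp ε), PZ_ga]
    calc _ ≤ Real.exp ε * ((Real.exp (4 * δ * z * (k * k * ((n + 1) * (n + 1)))) *
          (nz z δ 0 ^ (k * k * (n + 1)) * RR z δ (k * k) h)) * PS0 k z h) :=
          mul_le_mul_of_nonneg_left (mul_le_mul_of_nonneg_right up hPS) (Real.exp_pos _).le
      _ = _ := by
          rw [Real.exp_add]
          ring

end Run7.h772.MM
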