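import Pool.Agent.Run7.h772.MM.Zl

set_option autoImplicit false

/-!
# Moments of moments near the critical line: the mean of the main term far from the diagonals
-/

namespace Run7.h772.MM

open Finset Filter MeasureTheory Topology Complex
open Pool.Agent.N748.MG Pool.Agent.N748.MJ
open Run7.h42.WN (FR FR_one gb vf)
open Pool.Agent.N748.GC (Sm)

/-! ### elementary inequalities -/

lemma prod_low {ι : Type*} (s : Finset ι) (x : ι → ℝ) (hx : ∀ a, 0 ≤ x a) :
    0 ≤ ∏ a ∈ s, min (x a) 1 ∧ ∏ a ∈ s, min (x a) 1 ≤ 1 ∧ 1 - ∏ a ∈ s, min (x a) 1 ≤ ∑ a ∈ s, |x a - 1| := by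
  classical
  induction s using Finset.induction_on with
  | empty => simp
  | insert a s ha ih =>
    obtain ⟨h1, h2, h3⟩ := ih
    rw [prod_insert ha, sum_insert ha]
    have m0 : 0 ≤ min (x a) 1 := le_min (hx a) zero_le_one
    have m1 : min (x a) 1 ≤ 1 := min_le_right _ _
    have m2 : 1 - min (x a) 1 ≤ |x a - 1| := by
      rcases le_total (x a) 1 with h | h
      · rw [min_eq_left h, abs_sub_comm]
        exact le_abs_self _
      · rw [min_eq_right h, sub_self]
        exact abs_nonneg _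
    refine ⟨mul_nonneg m0 h1, ?_, ?_⟩
    · nlinarith
    · nlinarith

lemma prod_err {ι : Type*} [Fintype ι] (x : ι → ℝ) (hx : ∀ a, 0 ≤ x a) :
    |∏ a, x a - 1| ≤ ∑ a, (|x a ^ (Fintype.card ι) - 1| + |x a - 1|) := by
  classical
  rw [abs_le]
  constructor
  · obtain ⟨h1, h2, h3⟩ := prod_low Finset.univ x hx
    have h4 : ∏ a, min (x a) 1 ≤ ∏ a, x a :=
      prod_le_prod (fun a _ => le_min (hx a) zero_le_one) fun a _ => min_le_left _ _
    have h5 : ∑ a, |x a - 1| ≤ ∑ a, (|x a ^ (Fintype.card ι) - 1| + |x a - 1|) :=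
      sum_le_sum fun a _ => by linarith [abs_nonneg (x a ^ (Fintype.card ι) - 1)]
    linarith
  · rcases isEmpty_or_nonempty ι with he | hne
    · simp
    · obtain ⟨a0, -, ha0⟩ := Finset.exists_max_image Finset.univ x ⟨Classical.arbitrary ι, Finset.mem_univ _⟩
      have h1 : ∏ a, x a ≤ x a0 ^ (Fintype.card ι) := by
        calc ∏ a, x a ≤ ∏ _a : ι, x a0 := prod_le_prod (fun a _ => hx a) fun a _ => ha0 a (mem_univ _)
          _ = x a0 ^ (Fintype.card ι) := by rw [prod_const, card_univ]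
      have h2 : |x a0 ^ (Fintype.card ι) - 1| + |x a0 - 1| ≤ ∑ a, (|x a ^ (Fintype.card ι) - 1| + |x a - 1|) :=
        Finset.single_le_sum (f := fun a => |x a ^ (Fintype.card ι) - 1| + |x a - 1|) (fun a _ => by positivity)
          (Finset.mem_univ a0)
      linarith [le_abs_self (x a0 ^ (Fintype.card ι) - 1), abs_nonneg (x a0 - 1)]

/-- a function of one difference -/
lemma pair_bd {n : ℕ} (j : Fin (n + 1)) (i : Fin n) {g : ℝ → ℝ} (hm : Measurable g) (h0 : ∀ y, 0 ≤ g y) {B : ℝ}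
    (hB : ∀ y, g y ≤ B) {H : ℝ} (hH : 0 ≤ H) :
    ∫ h, g (h j - h (j.succAbove i)) ∂(pn (n + 1) H) ≤ (2 * H) ^ n * ∫ y in (-H)..H, g y := by
  classical
  have h1 := ton n j (fun i' y => if i' = i then g y else 1) (fun i' => by
      by_cases h : i' = i
      · simp only [h, if_true]
        exact hm
      · simp only [if_neg h]
        exact measurable_const) (fun i' y => by
      by_cases h : i' = i
      · simp only [h, if_true]
        exact h0 y
      · simp only [if_neg h]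
        exact zero_le_one) (max B 1) (fun i' y => by
      by_cases h : i' = i
      · simp only [h, if_true]
        exact (hB y).trans (le_max_left _ _)
      · simp only [if_neg h]
        exact le_max_right _ _) hH
  have h2 : ∀ h : Fin (n + 1) → ℝ, ∏ i' : Fin n, (if i' = i then g (h j - h (j.succAbove i')) else 1) =
      g (h j - h (j.succAbove i)) := by
    intro h
    rw [Finset.prod_ite_eq' Finset.univ i, if_pos (Finset.mem_univ i)]
  simp_rw [h2] at h1
  refine h1.trans ?_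
  have h3 : ∏ i' : Fin n, ∫ y in (-H)..H, (if i' = i then g y else 1) = (∫ y in (-H)..H, g y) * (2 * H) ^ (n - 1) := by
    rw [← Finset.mul_prod_erase Finset.univ _ (Finset.mem_univ i)]
    congr 1
    · simp only [if_true]
    · have : ∀ i' ∈ Finset.univ.erase i, ∫ y in (-H)..H, (if i' = i then g y else 1) = 2 * H := by
        intro i' hi'
        simp only [if_neg (Finset.ne_of_mem_erase hi')]
        rw [intervalIntegral.integral_const]
        simp
        ring
      rw [Finset.prod_congr rfl this, Finset.prod_const, Finset.card_erase_of_mem (Finset.mem_univ i),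
        Finset.card_univ, Fintype.card_fin]
  rw [h3]
  have hn : 0 < n := i.pos
  have hg : 0 ≤ ∫ y in (-H)..H, g y := intervalIntegral.integral_nonneg (by linarith) fun y _ => h0 y
  have h4 : (2 * H) ^ n = (2 * H) ^ (n - 1) * (2 * H) := by
    rw [← pow_succ]
    congr 1
    omega
  rw [h4]
  have h5 : 0 ≤ (2 * H) ^ (n - 1) * H * ∫ y in (-H)..H, g y := by positivity
  nlinarith

/-! ### the far points -/

open Classical in
/-- all the points are far from each other -/
noncomputable def NI {n : ℕ} (h : Fin (n + 1) → ℝ) : ℝ := if ∀ j, ∀ i : Fin n, 1 < |h j - h (j.succAbove i)| then 1 else 0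

lemma NI_nn {n : ℕ} (h : Fin (n + 1) → ℝ) : 0 ≤ NI h := by
  unfold NI
  split_ifs <;> norm_num

lemma NI_le {n : ℕ} (h : Fin (n + 1) → ℝ) : NI h ≤ 1 := by
  unfold NI
  split_ifs <;> norm_num

lemma NI_meas {n : ℕ} : Measurable fun h : Fin (n + 1) → ℝ => NI h := by
  classical
  have hs : MeasurableSet {h : Fin (n + 1) → ℝ | ∀ j, ∀ i : Fin n, 1 < |h j - h (j.succAbove i)|} := by
    have : {h : Fin (n + 1) → ℝ | ∀ j, ∀ i : Fin n, 1 < |h j - h (j.succAbove i)|} =
        ⋂ j, ⋂ i : Fin n, {h | 1 < |h j - h (j.succAbove i)|} := by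
      ext h
      simp
    rw [this]
    exact MeasurableSet.iInter fun j => MeasurableSet.iInter fun i => measurableSet_lt measurable_const (by fun_prop)
  unfold NI
  exact Measurable.ite hs measurable_const measurable_const

/-- the indicator of `[-1, 1]` -/
noncomputable def i1 (y : ℝ) : ℝ := if |y| ≤ 1 then 1 else 0

lemma i1_nn (y : ℝ) : 0 ≤ i1 y := by
  unfold i1
  split_ifs <;> norm_num

lemma i1_le (y : ℝ) : i1 y ≤ 1 := by
  unfold i1
  split_ifs <;> norm_num

lemma i1_meas : Measurable i1 := by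
  unfold i1
  exact Measurable.ite (measurableSet_le (by fun_prop) measurable_const) measurable_const measurable_const

lemma i1_int {H : ℝ} (hH : 0 ≤ H) : ∫ y in (-H)..H, i1 y ≤ 2 := by
  have h1 : ∀ a b : ℝ, IntervalIntegrable i1 volume a b := by
    intro a b
    rw [intervalIntegrable_iff]
    refine Measure.integrableOn_of_bounded (M := 1) (by simp [Set.uIoc]) i1_meas.aestronglyMeasurable
      (Eventually.of_forall fun y => ?_)
    rw [Real.norm_of_nonneg (i1_nn y)]
    exact i1_le y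
  rcases le_total H 1 with h | h
  · calc ∫ y in (-H)..H, i1 y ≤ ∫ _y in (-H)..H, (1:ℝ) :=
          intervalIntegral.integral_mono_on (by linarith) (h1 _ _) (by simp) fun y _ => i1_le y
      _ ≤ 2 := by
          rw [intervalIntegral.integral_const, smul_eq_mul]
          linarith
  · rw [← intervalIntegral.integral_add_adjacent_intervals (h1 (-H) (-1)) (h1 (-1) H),
      ← intervalIntegral.integral_add_adjacent_intervals (h1 (-1) 1) (h1 1 H)]
    have e1 : ∫ y in (-H)..(-1), i1 y = 0 := by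
      rw [intervalIntegral.integral_of_le (by linarith), integral_Ioc_eq_integral_Ioo]
      refine setIntegral_eq_zero_of_forall_eq_zero fun y hy => ?_
      unfold i1
      rw [if_neg]
      rw [not_le, abs_of_neg (by linarith [hy.2])]
      linarith [hy.2]
    have e2 : ∫ y in (1:ℝ)..H, i1 y = 0 := by
      rw [intervalIntegral.integral_of_le h]
      refine setIntegral_eq_zero_of_forall_eq_zero fun y hy => ?_
      unfold i1
      rw [if_neg]
      rw [not_le, abs_of_pos (by linarith [hy.1])]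
      exact hy.1
    have e3 : ∫ y in (-1:ℝ)..1, i1 y ≤ ∫ _y in (-1:ℝ)..1, (1:ℝ) :=
      intervalIntegral.integral_mono_on (by norm_num) (h1 _ _) (by simp) fun y _ => i1_le y
    rw [intervalIntegral.integral_const, smul_eq_mul] at e3
    linarith

/-- the near points have small measure -/
lemma NI_mean {n : ℕ} {H : ℝ} (hH : 0 < H) :
    ∫ h, (1 - NI h) ∂(pn (n + 1) H) ≤ (n + 1) * n * (2 ^ (n + 1) * H ^ n) := by
  classical
  have hint : ∀ (j : Fin (n + 1)) (i : Fin n), Integrable (fun h : Fin (n + 1) → ℝ => i1 (h j - h (j.succAbove i)))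
      (pn (n + 1) H) := fun j i =>
    int_bdd (i1_meas.comp ((measurable_pi_apply _).sub (measurable_pi_apply _))) 1 fun h => by
      rw [abs_of_nonneg (i1_nn _)]
      exact i1_le _
  have hpt : ∀ h : Fin (n + 1) → ℝ, 1 - NI h ≤ ∑ j, ∑ i : Fin n, i1 (h j - h (j.succAbove i)) := by
    intro h
    have hs : 0 ≤ ∑ j, ∑ i : Fin n, i1 (h j - h (j.succAbove i)) :=
      Finset.sum_nonneg fun j _ => Finset.sum_nonneg fun i _ => i1_nn _
    unfold NI
    split_ifs with hc
    · linarith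
    · push Not at hc
      obtain ⟨j, i, hji⟩ := hc
      have h1 : (1:ℝ) = i1 (h j - h (j.succAbove i)) := by
        unfold i1
        rw [if_pos hji]
      have h2 : i1 (h j - h (j.succAbove i)) ≤ ∑ i : Fin n, i1 (h j - h (j.succAbove i)) :=
        Finset.single_le_sum (f := fun i => i1 (h j - h (j.succAbove i))) (fun i _ => i1_nn _) (Finset.mem_univ i)
      have h3 : ∑ i : Fin n, i1 (h j - h (j.succAbove i)) ≤ ∑ j, ∑ i : Fin n, i1 (h j - h (j.succAbove i)) :=
        Finset.single_le_sum (f := fun j => ∑ i : Fin n, i1 (h j - h (j.succAbove i)))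
          (fun j _ => Finset.sum_nonneg fun i _ => i1_nn _) (Finset.mem_univ j)
      linarith
  calc ∫ h, (1 - NI h) ∂(pn (n + 1) H)
      ≤ ∫ h, ∑ j, ∑ i : Fin n, i1 (h j - h (j.succAbove i)) ∂(pn (n + 1) H) :=
        integral_mono_of_nonneg (Eventually.of_forall fun h => by
          show (0:ℝ) ≤ 1 - NI h
          linarith [NI_le h])
          (integrable_finsetSum _ fun j _ => integrable_finsetSum _ fun i _ => hint j i) (Eventually.of_forall hpt)
    _ = ∑ j, ∑ i : Fin n, ∫ h, i1 (h j - h (j.succAbove i)) ∂(pn (n + 1) H) := by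
        rw [integral_finsetSum _ fun j _ => integrable_finsetSum _ fun i _ => hint j i]
        refine Finset.sum_congr rfl fun j _ => ?_
        rw [integral_finsetSum _ fun i _ => hint j i]
    _ ≤ ∑ _j : Fin (n + 1), ∑ _i : Fin n, (2 ^ (n + 1) * H ^ n) := by
        refine Finset.sum_le_sum fun j _ => Finset.sum_le_sum fun i _ => ?_
        refine (pair_bd j i i1_meas i1_nn i1_le hH.le).trans ?_
        calc (2 * H) ^ n * ∫ y in (-H)..H, i1 y ≤ (2 * H) ^ n * 2 :=
              mul_le_mul_of_nonneg_left (i1_int hH.le) (by positivity)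
          _ = 2 ^ (n + 1) * H ^ n := by rw [mul_pow, pow_succ]; ring
    _ = (n + 1) * n * (2 ^ (n + 1) * H ^ n) := by
        simp
        ring

/-! ### zeta without the small primes -/

lemma nz_cont (z : ℕ) {δ : ℝ} (hδ : 0 < δ) : Continuous fun y => nz z δ y := (Run7.h772.WN.zz_cont z hδ).norm

lemma nz_le (z : ℕ) {δ : ℝ} (h0 : 0 < δ) (h1 : δ ≤ 1 / 16) (y : ℝ) : nz z δ y ≤ 1 / δ * (Real.exp (4 * δ * z) * 2 ^ z) := by
  rw [nz_eq]
  refine mul_le_mul (Z_le_inv h0 h1 y) ?_ (Finset.prod_nonneg fun _ _ => norm_nonneg _) (by positivity)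
  refine (prod_vf z h0.le y).trans (mul_le_mul_of_nonneg_left ?_ (Real.exp_pos _).le)
  calc ∏ p ∈ Sm z, ‖Pool.Agent.N748.MJ.POSV.bs p y‖ ≤ ∏ _p ∈ Sm z, (2:ℝ) := by
        refine prod_le_prod (fun _ _ => norm_nonneg _) fun p hp => ?_
        unfold Pool.Agent.N748.MJ.POSV.bs
        refine (norm_sub_le _ _).trans ?_
        rw [norm_one]
        linarith [Pool.Agent.N748.MJ.POSV.norm_pu (Sm_prime hp) y]
    _ = 2 ^ (Sm z).card := by rw [prod_const]
    _ ≤ 2 ^ z := by
        refine pow_le_pow_right₀ (by norm_num) ?_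
        exact_mod_cast card_Sm z

/-- the error at the points with `|y| > 1` -/
noncomputable def er (z : ℕ) (δ q y : ℝ) : ℝ := if 1 < |y| then |nz z δ y ^ q - 1| else 0

lemma er_nn (z : ℕ) (δ q y : ℝ) : 0 ≤ er z δ q y := by
  unfold er
  split_ifs
  · exact abs_nonneg _
  · exact le_rfl

lemma pw_cont (z : ℕ) {δ q : ℝ} (h0 : 0 < δ) (hq : 0 ≤ q) : Continuous fun y => nz z δ y ^ q :=
  (nz_cont z h0).rpow_const fun _ => Or.inr hq

lemma er_meas (z : ℕ) {δ q : ℝ} (h0 : 0 < δ) (hq : 0 ≤ q) : Measurable fun y => er z δ q y := by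
  unfold er
  refine Measurable.ite (measurableSet_lt measurable_const (by fun_prop)) ?_ measurable_const
  exact ((pw_cont z h0 hq).sub continuous_const).abs.measurable

lemma er_bd (z : ℕ) {δ q : ℝ} (h0 : 0 < δ) (h1 : δ ≤ 1 / 16) (hq : 0 ≤ q) :
    ∀ y, er z δ q y ≤ (1 / δ * (Real.exp (4 * δ * z) * 2 ^ z)) ^ q + 1 := by
  intro y
  have hB : 0 ≤ (1 / δ * (Real.exp (4 * δ * z) * 2 ^ z)) ^ q := by positivity
  unfold er
  split_ifs
  · have h2 := Real.rpow_le_rpow (nz_nn z δ y) (nz_le z h0 h1 y) hq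
    have h3 : 0 ≤ nz z δ y ^ q := Real.rpow_nonneg (nz_nn _ _ _) _
    rw [abs_le]
    constructor <;> linarith
  · linarith

lemma nz_even (z : ℕ) (δ y : ℝ) : nz z δ (-y) = nz z δ y := by
  rw [nz_eq, nz_eq, Z_even]
  congr 1
  refine Finset.prod_congr rfl fun p hp => ?_
  unfold Run7.h42.WN.vf
  have h1 : (1:ℂ) - (p:ℂ) ^ (-(1 + 2 * δ + ((-y : ℝ) : ℂ) * I)) =
      (starRingEnd ℂ) (1 - (p:ℂ) ^ (-(1 + 2 * δ + (y : ℂ) * I))) := by
    rw [map_sub, map_one]
    congr 1
    have h2 := Complex.cpow_conj (p : ℂ) (-(1 + 2 * δ + (y : ℂ) * I))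
      (by rw [Complex.natCast_arg]; exact Real.pi_ne_zero.symm)
    rw [Complex.conj_natCast] at h2
    rw [← h2]
    congr 1
    apply Complex.ext <;> simp
  rw [h1, Complex.norm_conj]

/-- the mean of the error -/
lemma er_int (Q : ℝ) (hQ : 0 ≤ Q) : ∃ C : ℝ, 0 < C ∧ ∀ z : ℕ, 2 ≤ z → ∃ H0 : ℝ, 1 ≤ H0 ∧ ∀ H ≥ H0, ∀ δ : ℝ, 0 < δ →
    δ ≤ 1 / 16 → ∀ q : ℝ, 0 ≤ q → q ≤ Q → ∫ y in (-H)..H, er z δ q y ≤ C * (z:ℝ) ^ (-(1 / 4 : ℝ)) * H := by
  obtain ⟨C, hC, h⟩ := zml2 Q hQ
  refine ⟨2 * C, by positivity, fun z hz => ?_⟩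
  obtain ⟨H0, hH0, h1⟩ := h z hz
  refine ⟨H0, hH0, fun H hH δ g0 g1 q hq hqQ => ?_⟩
  have h2 := h1 H hH δ g0 g1 q hq hqQ
  have hH1 : 1 ≤ H := hH0.trans hH
  have hint : ∀ a b : ℝ, IntervalIntegrable (fun y => er z δ q y) volume a b := by
    intro a b
    rw [intervalIntegrable_iff]
    refine Measure.integrableOn_of_bounded (M := (1 / δ * (Real.exp (4 * δ * z) * 2 ^ z)) ^ q + 1) (by simp [Set.uIoc])
      (er_meas z g0 hq).aestronglyMeasurable (Eventually.of_forall fun y => ?_)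
    rw [Real.norm_of_nonneg (er_nn z δ q y)]
    exact er_bd z g0 g1 hq y
  have e0 : ∫ y in (-1:ℝ)..1, er z δ q y = 0 := by
    rw [intervalIntegral.integral_of_le (by norm_num)]
    refine setIntegral_eq_zero_of_forall_eq_zero fun y hy => ?_
    unfold er
    rw [if_neg]
    rw [not_lt, abs_le]
    exact ⟨hy.1.le, hy.2⟩
  have e1 : ∫ y in (1:ℝ)..H, er z δ q y = ∫ y in (1:ℝ)..H, |nz z δ y ^ q - 1| := by
    rw [intervalIntegral.integral_of_le hH1, intervalIntegral.integral_of_le hH1]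
    refine setIntegral_congr_fun measurableSet_Ioc fun y hy => ?_
    show er z δ q y = _
    unfold er
    rw [if_pos]
    rw [abs_of_pos (by linarith [hy.1])]
    exact hy.1
  have e2 : ∫ y in (-H)..(-1), er z δ q y = ∫ y in (1:ℝ)..H, er z δ q y := by
    rw [← intervalIntegral.integral_comp_neg]
    refine intervalIntegral.integral_congr fun y _ => ?_
    show er z δ q (-y) = er z δ q y
    unfold er
    rw [abs_neg, nz_even]
  rw [← intervalIntegral.integral_add_adjacent_intervals (hint (-H) (-1)) (hint (-1) H),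
    ← intervalIntegral.integral_add_adjacent_intervals (hint (-1) 1) (hint 1 H), e0, e2, e1]
  have h3 : ∫ y in (1:ℝ)..H, |nz z δ y ^ q - 1| ≤ C * (z:ℝ) ^ (-(1 / 4 : ℝ)) * H := h2
  linarith

/-- the mean of the error of the product -/
lemma RR_mean (n : ℕ) (k : ℝ) : ∃ C : ℝ, 0 < C ∧ ∀ z : ℕ, 2 ≤ z → ∃ H0 : ℝ, 1 ≤ H0 ∧ ∀ H ≥ H0, ∀ δ : ℝ, 0 < δ →
    δ ≤ 1 / 16 → ∫ h, NI h * |RR z δ (k * k) h - 1| ∂(pn (n + 1) H) ≤ C * (z:ℝ) ^ (-(1 / 4 : ℝ)) * H ^ (n + 1) := by
  classical
  have hkk : 0 ≤ k * k := mul_self_nonneg k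
  set M : ℕ := Fintype.card (Fin (n + 1) × Fin n) with hM
  set Q : ℝ := k * k * (M + 1) with hQd
  have hQ : 0 ≤ Q := by positivity
  obtain ⟨C, hC, h⟩ := er_int Q hQ
  refine ⟨2 ^ n * 2 * (n + 1) * (n + 1) * C, by positivity, fun z hz => ?_⟩
  obtain ⟨H0, hH0, h1⟩ := h z hz
  refine ⟨H0, hH0, fun H hH δ g0 g1 => ?_⟩
  have hH1 : 1 ≤ H := hH0.trans hH
  set q1 : ℝ := k * k * M with hq1
  have hq1n : 0 ≤ q1 := by positivity
  have hM0 : (0:ℝ) ≤ M := Nat.cast_nonneg _
  have hq1Q : q1 ≤ Q := by rw [hq1, hQd]; nlinarith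
  have hq2Q : k * k ≤ Q := by rw [hQd]; nlinarith
  have hint : ∀ q : ℝ, 0 ≤ q → ∀ (j : Fin (n + 1)) (i : Fin n), Integrable
      (fun h : Fin (n + 1) → ℝ => er z δ q (h j - h (j.succAbove i))) (pn (n + 1) H) := fun q hq j i =>
    int_bdd ((er_meas z g0 hq).comp ((measurable_pi_apply _).sub (measurable_pi_apply _)))
      ((1 / δ * (Real.exp (4 * δ * z) * 2 ^ z)) ^ q + 1) fun h => by
      rw [abs_of_nonneg (er_nn _ _ _ _)]
      exact er_bd z g0 g1 hq _
  have hpt : ∀ h : Fin (n + 1) → ℝ, NI h * |RR z δ (k * k) h - 1| ≤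
      ∑ q : Fin (n + 1) × Fin n, (er z δ q1 (h q.1 - h (q.1.succAbove q.2)) + er z δ (k * k) (h q.1 - h (q.1.succAbove q.2))) := by
    intro h
    have hs : 0 ≤ ∑ q : Fin (n + 1) × Fin n, (er z δ q1 (h q.1 - h (q.1.succAbove q.2)) +
        er z δ (k * k) (h q.1 - h (q.1.succAbove q.2))) :=
      Finset.sum_nonneg fun q _ => add_nonneg (er_nn _ _ _ _) (er_nn _ _ _ _)
    unfold NI
    split_ifs with hc
    · rw [one_mul]
      unfold RR
      refine (prod_err (fun q : Fin (n + 1) × Fin n => nz z δ (h q.1 - h (q.1.succAbove q.2)) ^ (k * k))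
        fun q => Real.rpow_nonneg (nz_nn _ _ _) _).trans (le_of_eq ?_)
      refine Finset.sum_congr rfl fun q _ => ?_
      unfold er
      rw [if_pos (hc q.1 q.2), if_pos (hc q.1 q.2), ← hM, ← Real.rpow_natCast, ← Real.rpow_mul (nz_nn _ _ _)]
    · rw [zero_mul]
      exact hs
  have hone : ∀ q : ℝ, 0 ≤ q → q ≤ Q → ∀ (j : Fin (n + 1)) (i : Fin n),
      ∫ h, er z δ q (h j - h (j.succAbove i)) ∂(pn (n + 1) H) ≤ (2 * H) ^ n * (C * (z:ℝ) ^ (-(1 / 4 : ℝ)) * H) := by
    intro q hq hqQ j i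
    refine (pair_bd j i (er_meas z g0 hq) (er_nn z δ q) (er_bd z g0 g1 hq) (by linarith)).trans ?_
    exact mul_le_mul_of_nonneg_left (h1 H hH δ g0 g1 q hq hqQ) (by positivity)
  calc ∫ h, NI h * |RR z δ (k * k) h - 1| ∂(pn (n + 1) H)
      ≤ ∫ h, ∑ q : Fin (n + 1) × Fin n, (er z δ q1 (h q.1 - h (q.1.succAbove q.2)) +
          er z δ (k * k) (h q.1 - h (q.1.succAbove q.2))) ∂(pn (n + 1) H) :=
        integral_mono_of_nonneg (Eventually.of_forall fun h => mul_nonneg (NI_nn h) (abs_nonneg _))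
          (integrable_finsetSum _ fun q _ => (hint q1 hq1n q.1 q.2).add (hint (k * k) hkk q.1 q.2)) (Eventually.of_forall hpt)
    _ = ∑ q : Fin (n + 1) × Fin n, (∫ h, er z δ q1 (h q.1 - h (q.1.succAbove q.2)) ∂(pn (n + 1) H) +
          ∫ h, er z δ (k * k) (h q.1 - h (q.1.succAbove q.2)) ∂(pn (n + 1) H)) := by
        rw [integral_finsetSum _ fun q _ => (hint q1 hq1n q.1 q.2).add (hint (k * k) hkk q.1 q.2)]
        refine Finset.sum_congr rfl fun q _ => ?_
        exact integral_add (hint q1 hq1n q.1 q.2) (hint (k * k) hkk q.1 q.2)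
    _ ≤ ∑ _q : Fin (n + 1) × Fin n, ((2 * H) ^ n * (C * (z:ℝ) ^ (-(1 / 4 : ℝ)) * H) +
          (2 * H) ^ n * (C * (z:ℝ) ^ (-(1 / 4 : ℝ)) * H)) :=
        Finset.sum_le_sum fun q _ => add_le_add (hone q1 hq1n hq1Q q.1 q.2) (hone (k * k) hkk hq2Q q.1 q.2)
    _ ≤ 2 ^ n * 2 * (n + 1) * (n + 1) * C * (z:ℝ) ^ (-(1 / 4 : ℝ)) * H ^ (n + 1) := by
        rw [Finset.sum_const, Finset.card_univ, Fintype.card_prod, Fintype.card_fin, Fintype.card_fin, nsmul_eq_mul,
          mul_pow, pow_succ]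
        have hz0 : (0:ℝ) ≤ (z:ℝ) ^ (-(1 / 4 : ℝ)) := Real.rpow_nonneg (Nat.cast_nonneg z) _
        have h5 : 0 ≤ 2 ^ n * 2 * ((n:ℝ) + 1) * C * (z:ℝ) ^ (-(1 / 4 : ℝ)) * (H ^ n * H) := by positivity
        push_cast
        nlinarith

end Run7.h772.MM
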