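import Pool.Agent.Run7.h772.MM.Zm

set_option autoImplicit false

/-!
# Moments of moments near the critical line: the mean of the main term far from the diagonals, asymptotics
-/

namespace Run7.h772.MM

open Finset Filter MeasureTheory Topology Complex
open Pool.Agent.N748.MG Pool.Agent.N748.MJ
open Run7.h42.WN (FR FR_one gb vf)
open Pool.Agent.N748.GC (Sm)

lemma NIW_nn (hP : S_POSV) {k δ : ℝ} (h0 : 0 ≤ δ) {n : ℕ} (h : Fin (n + 1) → ℝ) : 0 ≤ NI h * WW k δ h :=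
  mul_nonneg (NI_nn h) (WW_pos hP h0 h).le

lemma NIW_int (hP : S_POSV) (hC : S_CONV) {k δ : ℝ} (h0 : 0 < δ) (n : ℕ) (H : ℝ) :
    Integrable (fun h : Fin (n + 1) → ℝ => NI h * WW k δ h) (pn (n + 1) H) := by
  refine (WW_int hC (k := k) h0 (n + 1) H).mono' (NI_meas.mul (WW_cont hC h0 _).measurable).aestronglyMeasurable
    (Eventually.of_forall fun h => ?_)
  rw [Real.norm_of_nonneg (NIW_nn hP h0.le h)]
  exact mul_le_of_le_one_left (WW_pos hP h0.le h).le (NI_le h)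

lemma RR_cont (z : ℕ) {δ c : ℝ} (h0 : 0 < δ) (hc : 0 ≤ c) (n : ℕ) : Continuous fun h : Fin (n + 1) → ℝ => RR z δ c h := by
  unfold RR
  refine continuous_finsetProd _ fun q _ => ?_
  exact (pw_cont z h0 hc).comp (by fun_prop)

/-- the value at the pole -/
lemma D_lim (z : ℕ) (c : ℝ) (hc : 0 ≤ c) : Tendsto (fun δ : ℝ => (2 * δ * nz z δ 0) ^ c) (𝓝[>] 0)
    (𝓝 ((∏ p ∈ Sm z, (1 - 1 / (p:ℝ))) ^ c)) := by
  have h1 := Z_scale 0
  have h2 : ((1:ℝ) + 0 ^ 2) ^ (-(1 / 2 : ℝ)) = 1 := by norm_num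
  rw [h2] at h1
  simp only [mul_zero] at h1
  have h3 : Tendsto (fun δ : ℝ => ∏ p ∈ Sm z, ‖vf p δ 0‖) (𝓝[>] 0) (𝓝 (∏ p ∈ Sm z, (1 - 1 / (p:ℝ)))) := by
    refine tendsto_finsetProd _ fun p hp => ?_
    have hp1 := Sm_prime hp
    have hp0 : (p : ℂ) ≠ 0 := by exact_mod_cast hp1.ne_zero
    have h4 : Continuous fun δ : ℝ => ‖vf p δ 0‖ := by
      unfold Run7.h42.WN.vf
      refine (continuous_const.sub (Continuous.const_cpow ?_ (Or.inl hp0))).norm
      fun_prop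
    have h5 : ‖vf p 0 0‖ = 1 - 1 / (p:ℝ) := by
      unfold Run7.h42.WN.vf
      have h6 : (-(1 + 2 * ((0:ℝ) : ℂ) + ((0:ℝ) : ℂ) * I)) = -1 := by simp
      have h7 : (1:ℂ) - ((p:ℂ))⁻¹ = ((1 - 1 / (p:ℝ) : ℝ) : ℂ) := by
        push_cast
        rw [one_div]
      rw [h6, Complex.cpow_neg_one, h7, Complex.norm_real, Real.norm_of_nonneg]
      have h8 := (Run7.h42.WN.pinv hp1).2
      linarith
    rw [← h5]
    exact (h4.tendsto 0).mono_left nhdsWithin_le_nhds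
  have h6 := (h1.mul h3).rpow_const (p := c) (Or.inr hc)
  rw [one_mul] at h6
  refine h6.congr fun δ => ?_
  rw [nz_eq]
  ring_nf

lemma D_prod (k : ℝ) (n z : ℕ) : (∏ p ∈ Sm z, (1 - 1 / (p:ℝ))) ^ (k * k * (n + 1)) * ∏ p ∈ Sm z, FR k p ^ (n + 1) =
    (∏ p ∈ Sm z, gb k p) ^ (n + 1) := by
  rw [← Finset.prod_pow, ← Real.finsetProd_rpow _ _ fun p hp => by
    have h8 := (Run7.h42.WN.pinv (Sm_prime hp)).2
    linarith, ← Finset.prod_mul_distrib]
  refine Finset.prod_congr rfl fun p hp => ?_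
  have h8 := (Run7.h42.WN.pinv (Sm_prime hp)).2
  unfold Run7.h42.WN.gb
  rw [mul_pow, ← Real.rpow_natCast (((1 - 1 / (p:ℝ)) ^ (k ^ 2))), ← Real.rpow_mul (by linarith)]
  congr 2
  push_cast
  ring

/-- the mean without the points near the diagonals -/
noncomputable def EN (k δ : ℝ) (n : ℕ) (H : ℝ) : ℝ :=
  (2 * δ) ^ (k * k * (n + 1)) * (1 / H) ^ (n + 1) * ∫ h : Fin (n + 1) → ℝ, NI h * WW k δ h ∂(pn (n + 1) H)

theorem GM (hP : S_POSV) (hC : S_CONV) (n : ℕ) (k : ℝ) (ε : ℝ) (hε : 0 < ε) : ∃ H0 δ0 : ℝ, 1 ≤ H0 ∧ 0 < δ0 ∧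
    δ0 ≤ 1 / 16 ∧ ∀ δ : ℝ, 0 < δ → δ ≤ δ0 → ∀ H ≥ H0, |EN k δ n H - (aC (k:ℂ)).re ^ (n + 1)| ≤ ε := by
  classical
  have hkk : 0 ≤ k * k := mul_self_nonneg k
  have hn0 : (0:ℝ) ≤ n := Nat.cast_nonneg n
  set c : ℝ := k * k * (n + 1) with hc
  have hc0 : 0 ≤ c := by positivity
  set a : ℝ := (aC (k:ℂ)).re with ha
  have ha0 : 0 < a := Run7.h42.WN.aC_pos k
  -- the small parameter
  obtain ⟨x, hx0, hx1, hU, hL⟩ : ∃ x : ℝ, 0 < x ∧ x ≤ 1 ∧
      Real.exp (2 * x) * (Real.exp (((n:ℝ) + 1) * x) * a ^ (n + 1) + 7 * x) ≤ a ^ (n + 1) + ε ∧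
      a ^ (n + 1) - ε ≤ Real.exp (-(2 * x)) * (Real.exp (-(((n:ℝ) + 1) * x)) * a ^ (n + 1) - 7 * x) := by
    have c1 : Continuous fun x : ℝ => Real.exp (2 * x) * (Real.exp (((n:ℝ) + 1) * x) * a ^ (n + 1) + 7 * x) := by fun_prop
    have c2 : Continuous fun x : ℝ => Real.exp (-(2 * x)) * (Real.exp (-(((n:ℝ) + 1) * x)) * a ^ (n + 1) - 7 * x) := by
      fun_prop
    have t1 := (c1.tendsto 0).mono_left (nhdsWithin_le_nhds (s := Set.Ioi (0:ℝ)))
    have t2 := (c2.tendsto 0).mono_left (nhdsWithin_le_nhds (s := Set.Ioi (0:ℝ)))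
    simp only [mul_zero, neg_zero, Real.exp_zero, one_mul, add_zero, sub_zero] at t1 t2
    have e1 := t1.eventually_le_const (by linarith : a ^ (n + 1) < a ^ (n + 1) + ε)
    have e2 := t2.eventually_const_le (by linarith : a ^ (n + 1) - ε < a ^ (n + 1))
    have e3 : ∀ᶠ x : ℝ in 𝓝[>] 0, x ≤ 1 := nhdsWithin_le_nhds (Iic_mem_nhds one_pos)
    obtain ⟨x, ⟨⟨h1, h2⟩, h3⟩, h4⟩ := (((e1.and e2).and e3).and self_mem_nhdsWithin).exists
    exact ⟨x, h4, h3, h1, h2⟩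
  -- the primes
  obtain ⟨z0, hz0⟩ := WW_two n k x hx0
  obtain ⟨C, hC0, hRR⟩ := RR_mean n k
  obtain ⟨A, B, hA, hB, hPS⟩ := PS0_bd (n + 1) k
  have hev : ∀ᶠ z : ℕ in atTop, A * Real.log z ^ B * (C * (z:ℝ) ^ (-(1 / 4 : ℝ))) < x :=
    (Run7.h42.WN.zlim A B C (1 / 4) (by norm_num)).eventually (gt_mem_nhds hx0)
  obtain ⟨z1, hz1⟩ := eventually_atTop.1 hev
  set z : ℕ := max (max z0 z1) 3 with hz
  have hz3 : 3 ≤ z := le_max_right _ _
  have hzz0 : z0 ≤ z := (le_max_left _ _).trans (le_max_left _ _)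
  have hzz1 : z1 ≤ z := (le_max_right _ _).trans (le_max_left _ _)
  have hsm := hz1 z hzz1
  obtain ⟨hW, hB1, hB2⟩ := hz0 z hzz0
  set S : ℝ := A * Real.log z ^ B with hS
  have hz3' : (3:ℝ) ≤ z := by exact_mod_cast hz3
  have hlz : 0 < Real.log z := Real.log_pos (by linarith)
  have hS0 : 0 < S := mul_pos hA (Real.rpow_pos_of_pos hlz _)
  have hPS1 : ∀ h : Fin (n + 1) → ℝ, PS0 k z h ≤ S := hPS z hz3
  obtain ⟨H1, hH1, hRR1⟩ := hRR z (by omega)
  set F : ℝ := ∏ p ∈ Sm z, FR k p ^ (n + 1) with hF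
  have hF0 : 0 ≤ F := Finset.prod_nonneg fun p hp => pow_nonneg (zero_le_one.trans (FR_one k (Sm_prime hp))) _
  set Bz : ℝ := ∏ p ∈ Sm z, gb k p with hBz
  have hBz0 : 0 < Bz := Finset.prod_pos fun p hp => Run7.h42.WN.gb_pos k (Sm_prime hp)
  set Di : ℝ := (∏ p ∈ Sm z, (1 - 1 / (p:ℝ))) ^ c with hDi
  have hDF : Di * F = Bz ^ (n + 1) := D_prod k n z
  have hp0 : ∀ p ∈ Sm z, (0:ℝ) ≤ 1 - 1 / (p:ℝ) ∧ 1 - 1 / (p:ℝ) ≤ 1 := fun p hp => by
    have h8 := Run7.h42.WN.pinv (Sm_prime hp)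
    constructor <;> linarith [h8.1, h8.2]
  have hDi1 : Di ≤ 1 := Real.rpow_le_one (Finset.prod_nonneg fun p hp => (hp0 p hp).1)
    (Finset.prod_le_one (fun p hp => (hp0 p hp).1) fun p hp => (hp0 p hp).2) hc0
  -- the mean of the small primes
  have hm := mean_PS0 k (n + 1) z
  rw [← hF] at hm
  obtain ⟨H2, hH2⟩ := eventually_atTop.1 ((Metric.tendsto_nhds.1 hm) x hx0)
  -- the distance to the line
  have hD := D_lim z c hc0
  rw [← hDi] at hD
  have hDe : ∀ᶠ δ : ℝ in 𝓝[>] 0, dist ((2 * δ * nz z δ 0) ^ c) Di < x / (F + 1) :=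
    (Metric.tendsto_nhds.1 hD) _ (by positivity)
  obtain ⟨δ1, hδ1, hDe1⟩ := mem_nhdsGT_iff_exists_Ioo_subset.1 hDe
  set κ : ℝ := k * k * ((n + 1) * (n + 1)) with hκ
  have hκ0 : 0 ≤ κ := by positivity
  set H3 : ℝ := S * ((n + 1) * n * 2 ^ (n + 1)) / x with hH3
  refine ⟨max (max 1 H1) (max H2 H3), min (min (1 / 16) (δ1 / 2)) (x / (4 * z * κ + 1)), (le_max_left _ _).trans (le_max_left _ _),
    lt_min (lt_min (by norm_num) (by have : 0 < δ1 := hδ1; linarith)) (by positivity), (min_le_left _ _).trans (min_le_left _ _),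
    fun δ g0 g1 H hH => ?_⟩
  have d1 : δ ≤ 1 / 16 := g1.trans ((min_le_left _ _).trans (min_le_left _ _))
  have d2 : δ ≤ δ1 / 2 := g1.trans ((min_le_left _ _).trans (min_le_right _ _))
  have d3 : 4 * δ * z * κ ≤ x := by
    have h1 : δ ≤ x / (4 * z * κ + 1) := g1.trans (min_le_right _ _)
    rw [le_div_iff₀ (by positivity)] at h1
    nlinarith
  have b1 : 1 ≤ H := ((le_max_left _ _).trans (le_max_left _ _)).trans hH
  have b2 : H1 ≤ H := ((le_max_right _ _).trans (le_max_left _ _)).trans hH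
  have b3 : H2 ≤ H := ((le_max_left _ _).trans (le_max_right _ _)).trans hH
  have b4 : H3 ≤ H := ((le_max_right _ _).trans (le_max_right _ _)).trans hH
  have hH0 : 0 < H := by linarith
  set D : ℝ := (2 * δ * nz z δ 0) ^ c with hDd
  have hDc : |D - Di| ≤ x / (F + 1) := by
    have h1 : δ ∈ Set.Ioo 0 δ1 := ⟨g0, by have : 0 < δ1 := hδ1; linarith⟩
    have h2 := hDe1 h1
    have h3 : dist ((2 * δ * nz z δ 0) ^ c) Di < x / (F + 1) := h2
    rw [Real.dist_eq] at h3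
    exact h3.le
  have hDn : 0 ≤ D := Real.rpow_nonneg (mul_nonneg (by linarith) (nz_nn _ _ _)) _
  have hD2 : D ≤ 2 := by
    have h1 : x / (F + 1) ≤ 1 := by
      rw [div_le_one (by positivity)]
      linarith
    have h2 := (abs_le.1 hDc).2
    linarith
  -- the mean of the product
  set Y : ℝ := (1 / H) ^ (n + 1) * ∫ h : Fin (n + 1) → ℝ, NI h * RR z δ (k * k) h * PS0 k z h ∂(pn (n + 1) H) with hY
  have hHn : 0 < (1 / H) ^ (n + 1) := by positivity
  have i0 : Integrable (fun h : Fin (n + 1) → ℝ => PS0 k z h) (pn (n + 1) H) := cont_int (PS0_cont k z) H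
  have i1 : Integrable (fun h : Fin (n + 1) → ℝ => RR z δ (k * k) h) (pn (n + 1) H) := cont_int (RR_cont z g0 hkk n) H
  have i2 : Integrable (fun h : Fin (n + 1) → ℝ => RR z δ (k * k) h * PS0 k z h) (pn (n + 1) H) :=
    cont_int ((RR_cont z g0 hkk n).mul (PS0_cont k z)) H
  have i3 : Integrable (fun h : Fin (n + 1) → ℝ => NI h * RR z δ (k * k) h * PS0 k z h) (pn (n + 1) H) := by
    refine i2.mono' ((NI_meas.mul (RR_cont z g0 hkk n).measurable).mul (PS0_cont k z).measurable).aestronglyMeasurable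
      (Eventually.of_forall fun h => ?_)
    have h1 := mul_nonneg (RR_nn z δ (k * k) h) (PS0_nn k z h)
    rw [Real.norm_of_nonneg (mul_nonneg (mul_nonneg (NI_nn h) (RR_nn _ _ _ _)) (PS0_nn _ _ _)), mul_assoc]
    exact mul_le_of_le_one_left h1 (NI_le h)
  have i4 : Integrable (fun h : Fin (n + 1) → ℝ => NI h * |RR z δ (k * k) h - 1|) (pn (n + 1) H) := by
    have h1 : Integrable (fun h : Fin (n + 1) → ℝ => |RR z δ (k * k) h - 1|) (pn (n + 1) H) :=
      cont_int ((RR_cont z g0 hkk n).sub continuous_const).abs H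
    refine h1.mono' (NI_meas.mul ((RR_cont z g0 hkk n).sub continuous_const).abs.measurable).aestronglyMeasurable
      (Eventually.of_forall fun h => ?_)
    rw [Real.norm_of_nonneg (mul_nonneg (NI_nn h) (abs_nonneg _))]
    exact mul_le_of_le_one_left (abs_nonneg _) (NI_le h)
  have i5 : Integrable (fun h : Fin (n + 1) → ℝ => 1 - NI h) (pn (n + 1) H) :=
    int_bdd (measurable_const.sub NI_meas) 1 fun h => by
      rw [abs_le]
      constructor <;> linarith [NI_nn h, NI_le h]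
  have hYF : |Y - F| ≤ 3 * x := by
    have e1 : |(1 / H) ^ (n + 1) * ∫ h : Fin (n + 1) → ℝ, PS0 k z h ∂(pn (n + 1) H) - F| ≤ x := by
      have := hH2 H b3
      rw [Real.dist_eq] at this
      exact this.le
    have e2 : |(∫ h : Fin (n + 1) → ℝ, NI h * RR z δ (k * k) h * PS0 k z h ∂(pn (n + 1) H)) -
        ∫ h : Fin (n + 1) → ℝ, PS0 k z h ∂(pn (n + 1) H)| ≤
        S * (∫ h : Fin (n + 1) → ℝ, NI h * |RR z δ (k * k) h - 1| ∂(pn (n + 1) H)) +
          S * ∫ h : Fin (n + 1) → ℝ, (1 - NI h) ∂(pn (n + 1) H) := by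
      rw [← integral_sub i3 i0, ← integral_const_mul, ← integral_const_mul, ← integral_add (i4.const_mul S) (i5.const_mul S)]
      refine abs_integral_le_integral_abs.trans (integral_mono (i3.sub i0).abs ((i4.const_mul S).add (i5.const_mul S)) fun h => ?_)
      show |NI h * RR z δ (k * k) h * PS0 k z h - PS0 k z h| ≤ S * (NI h * |RR z δ (k * k) h - 1|) + S * (1 - NI h)
      have h1 : NI h * RR z δ (k * k) h * PS0 k z h - PS0 k z h =
          PS0 k z h * (NI h * (RR z δ (k * k) h - 1) - (1 - NI h)) := by ring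
      rw [h1, abs_mul, abs_of_nonneg (PS0_nn k z h), ← mul_add]
      have h2 : |NI h * (RR z δ (k * k) h - 1) - (1 - NI h)| ≤ NI h * |RR z δ (k * k) h - 1| + (1 - NI h) := by
        refine (abs_sub _ _).trans ?_
        rw [abs_mul, abs_of_nonneg (NI_nn h), abs_of_nonneg (by linarith [NI_le h] : 0 ≤ 1 - NI h)]
      exact mul_le_mul (hPS1 h) h2 (abs_nonneg _) hS0.le
    have e3 := hRR1 H b2 δ g0 d1
    have e4 := NI_mean (n := n) hH0
    have e5 : (1 / H) ^ (n + 1) * (S * (∫ h : Fin (n + 1) → ℝ, NI h * |RR z δ (k * k) h - 1| ∂(pn (n + 1) H))) ≤ x := by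
      calc (1 / H) ^ (n + 1) * (S * (∫ h : Fin (n + 1) → ℝ, NI h * |RR z δ (k * k) h - 1| ∂(pn (n + 1) H)))
          ≤ (1 / H) ^ (n + 1) * (S * (C * (z:ℝ) ^ (-(1 / 4 : ℝ)) * H ^ (n + 1))) :=
            mul_le_mul_of_nonneg_left (mul_le_mul_of_nonneg_left e3 hS0.le) hHn.le
        _ = S * (C * (z:ℝ) ^ (-(1 / 4 : ℝ))) := by
            rw [one_div, inv_pow]
            field_simp
        _ ≤ x := hsm.le
    have e6 : (1 / H) ^ (n + 1) * (S * ∫ h : Fin (n + 1) → ℝ, (1 - NI h) ∂(pn (n + 1) H)) ≤ x := by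
      calc (1 / H) ^ (n + 1) * (S * ∫ h : Fin (n + 1) → ℝ, (1 - NI h) ∂(pn (n + 1) H))
          ≤ (1 / H) ^ (n + 1) * (S * ((n + 1) * n * (2 ^ (n + 1) * H ^ n))) :=
            mul_le_mul_of_nonneg_left (mul_le_mul_of_nonneg_left e4 hS0.le) hHn.le
        _ = S * ((n + 1) * n * 2 ^ (n + 1)) / H := by
            rw [one_div, inv_pow, pow_succ H]
            field_simp
        _ ≤ x := by
            rw [div_le_iff₀ hH0]
            rw [hH3, div_le_iff₀ hx0] at b4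
            linarith
    have e7 : Y - F = (1 / H) ^ (n + 1) * ((∫ h : Fin (n + 1) → ℝ, NI h * RR z δ (k * k) h * PS0 k z h ∂(pn (n + 1) H)) -
        ∫ h : Fin (n + 1) → ℝ, PS0 k z h ∂(pn (n + 1) H)) +
        ((1 / H) ^ (n + 1) * ∫ h : Fin (n + 1) → ℝ, PS0 k z h ∂(pn (n + 1) H) - F) := by
      rw [hY]
      ring
    rw [e7]
    refine (abs_add_le _ _).trans ?_
    rw [abs_mul, abs_of_pos hHn]
    have e8 := mul_le_mul_of_nonneg_left e2 hHn.le
    rw [mul_add] at e8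
    linarith
  set X : ℝ := D * Y with hX
  have hXB : |X - Bz ^ (n + 1)| ≤ 7 * x := by
    have h1 : X - Bz ^ (n + 1) = D * (Y - F) + (D - Di) * F := by
      rw [hX, ← hDF]
      ring
    rw [h1]
    refine (abs_add_le _ _).trans ?_
    rw [abs_mul, abs_mul, abs_of_nonneg hDn, abs_of_nonneg hF0]
    have h2 : D * |Y - F| ≤ 2 * (3 * x) := mul_le_mul hD2 hYF (abs_nonneg _) (by norm_num)
    have h3 : |D - Di| * F ≤ x := by
      calc |D - Di| * F ≤ x / (F + 1) * (F + 1) :=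
            mul_le_mul hDc (by linarith) hF0 (by positivity)
        _ = x := by field_simp
    linarith
  have h2δ : (0:ℝ) < 2 * δ := by linarith
  have hXi : ∀ E : ℝ, (2 * δ) ^ c * (1 / H) ^ (n + 1) * ∫ h : Fin (n + 1) → ℝ,
      E * (nz z δ 0 ^ c * (NI h * RR z δ (k * k) h * PS0 k z h)) ∂(pn (n + 1) H) = E * X := by
    intro E
    rw [integral_const_mul, integral_const_mul, hX, hDd, Real.mul_rpow h2δ.le (nz_nn _ _ _)]
    ring
  have hBa : Bz ^ (n + 1) ≤ Real.exp (((n:ℝ) + 1) * x) * a ^ (n + 1) := by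
    have h1 : Bz ≤ Real.exp x * a := by
      have h2 := mul_le_mul_of_nonneg_left hB1 (Real.exp_pos x).le
      rwa [← mul_assoc, ← Real.exp_add, add_neg_cancel, Real.exp_zero, one_mul] at h2
    have h2 := pow_le_pow_left₀ hBz0.le h1 (n + 1)
    rw [mul_pow, ← Real.exp_nat_mul] at h2
    push_cast at h2
    exact h2
  have haB : Real.exp (-(((n:ℝ) + 1) * x)) * a ^ (n + 1) ≤ Bz ^ (n + 1) := by
    have h1 : Real.exp (-x) * a ≤ Bz := by
      have h2 := mul_le_mul_of_nonneg_left hB2 (Real.exp_pos (-x)).le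
      rwa [← mul_assoc, ← Real.exp_add, neg_add_cancel, Real.exp_zero, one_mul] at h2
    have h2 := pow_le_pow_left₀ (mul_nonneg (Real.exp_pos _).le ha0.le) h1 (n + 1)
    rw [mul_pow, ← Real.exp_nat_mul] at h2
    push_cast at h2
    rwa [mul_neg] at h2
  have hpre : 0 ≤ (2 * δ) ^ c * (1 / H) ^ (n + 1) := by positivity
  have hxe : x + 4 * δ * z * κ ≤ 2 * x := by linarith
  have iN := NIW_int hP hC (k := k) g0 n H
  have hXn : 0 ≤ X := by
    rw [hX, hY]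
    refine mul_nonneg hDn (mul_nonneg hHn.le (integral_nonneg fun h => ?_))
    exact mul_nonneg (mul_nonneg (NI_nn h) (RR_nn _ _ _ _)) (PS0_nn _ _ _)
  rw [abs_le] at hXB
  have up : EN k δ n H ≤ Real.exp (2 * x) * X := by
    rw [← hXi]
    unfold EN
    rw [← hc]
    refine mul_le_mul_of_nonneg_left (integral_mono iN ((i3.const_mul _).const_mul _) fun h => ?_) hpre
    show NI h * WW k δ h ≤ Real.exp (2 * x) * (nz z δ 0 ^ c * (NI h * RR z δ (k * k) h * PS0 k z h))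
    have h1 := (hW δ g0.le h).2
    have h2 : 0 ≤ nz z δ 0 ^ c * RR z δ (k * k) h * PS0 k z h :=
      mul_nonneg (mul_nonneg (Real.rpow_nonneg (nz_nn _ _ _) _) (RR_nn _ _ _ _)) (PS0_nn _ _ _)
    have h3 : WW k δ h ≤ Real.exp (2 * x) * (nz z δ 0 ^ c * RR z δ (k * k) h * PS0 k z h) :=
      h1.trans (mul_le_mul_of_nonneg_right (Real.exp_le_exp.2 hxe) h2)
    calc NI h * WW k δ h ≤ NI h * (Real.exp (2 * x) * (nz z δ 0 ^ c * RR z δ (k * k) h * PS0 k z h)) :=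
          mul_le_mul_of_nonneg_left h3 (NI_nn h)
      _ = _ := by ring
  have lo : Real.exp (-(2 * x)) * X ≤ EN k δ n H := by
    rw [← hXi]
    unfold EN
    rw [← hc]
    refine mul_le_mul_of_nonneg_left (integral_mono ((i3.const_mul _).const_mul _) iN fun h => ?_) hpre
    show Real.exp (-(2 * x)) * (nz z δ 0 ^ c * (NI h * RR z δ (k * k) h * PS0 k z h)) ≤ NI h * WW k δ h
    have h1 := (hW δ g0.le h).1
    have h2 : 0 ≤ nz z δ 0 ^ c * RR z δ (k * k) h * PS0 k z h :=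
      mul_nonneg (mul_nonneg (Real.rpow_nonneg (nz_nn _ _ _) _) (RR_nn _ _ _ _)) (PS0_nn _ _ _)
    have h3 : Real.exp (-(2 * x)) * (nz z δ 0 ^ c * RR z δ (k * k) h * PS0 k z h) ≤ WW k δ h :=
      (mul_le_mul_of_nonneg_right (Real.exp_le_exp.2 (by linarith)) h2).trans h1
    calc _ = NI h * (Real.exp (-(2 * x)) * (nz z δ 0 ^ c * RR z δ (k * k) h * PS0 k z h)) := by ring
      _ ≤ NI h * WW k δ h := mul_le_mul_of_nonneg_left h3 (NI_nn h)
  rw [abs_le]
  constructor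
  · have h1 : Real.exp (-(2 * x)) * (Real.exp (-(((n:ℝ) + 1) * x)) * a ^ (n + 1) - 7 * x) ≤ Real.exp (-(2 * x)) * X :=
      mul_le_mul_of_nonneg_left (by linarith [hXB.1]) (Real.exp_pos _).le
    linarith
  · have h1 : Real.exp (2 * x) * X ≤ Real.exp (2 * x) * (Real.exp (((n:ℝ) + 1) * x) * a ^ (n + 1) + 7 * x) :=
      mul_le_mul_of_nonneg_left (by linarith [hXB.2]) (Real.exp_pos _).le
    linarith

end Run7.h772.MM
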