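import Pool.Agent.Run7.h772.MM.Zm

set_option autoImplicit false

/-!
# Moments of moments near the critical line: integrals over clusters
-/

namespace Run7.h772.MM

open Finset Filter MeasureTheory Topology Complex

/-- the product over the leaves -/
noncomputable def lf {m : ℕ} (c : Fin m → Fin m) (g : ℝ → ℝ) (h : Fin m → ℝ) : ℝ :=
  ∏ l, if c l = l then 1 else g (h (c l) - h l)

lemma lf_nn {m : ℕ} (c : Fin m → Fin m) {g : ℝ → ℝ} (h0 : ∀ y, 0 ≤ g y) (h : Fin m → ℝ) : 0 ≤ lf c g h := by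
  unfold lf
  refine Finset.prod_nonneg fun l _ => ?_
  split_ifs
  · exact zero_le_one
  · exact h0 _

lemma lf_meas {m : ℕ} (c : Fin m → Fin m) {g : ℝ → ℝ} (hm : Measurable g) : Measurable fun h : Fin m → ℝ => lf c g h := by
  unfold lf
  refine Finset.measurable_prod _ fun l _ => ?_
  split_ifs
  · exact measurable_const
  · exact hm.comp ((measurable_pi_apply _).sub (measurable_pi_apply _))

lemma lf_bd {m : ℕ} (c : Fin m → Fin m) {g : ℝ → ℝ} (h0 : ∀ y, 0 ≤ g y) {B : ℝ} (hB1 : 1 ≤ B) (hB : ∀ y, g y ≤ B)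
    (h : Fin m → ℝ) : lf c g h ≤ B ^ m := by
  unfold lf
  calc ∏ l, (if c l = l then 1 else g (h (c l) - h l)) ≤ ∏ _l : Fin m, B := by
        refine Finset.prod_le_prod (fun l _ => ?_) fun l _ => ?_
        · split_ifs
          · exact zero_le_one
          · exact h0 _
        · split_ifs
          · exact hB1
          · exact hB _
    _ = B ^ m := by simp

/-- the integral of a product over the leaves -/
lemma forest {m : ℕ} (c : Fin m → Fin m) (hc : ∀ l, c (c l) = c l) {g : ℝ → ℝ} (hm : Measurable g) (h0 : ∀ y, 0 ≤ g y)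
    {B : ℝ} (hB : ∀ y, g y ≤ B) {H : ℝ} (hH : 0 ≤ H) :
    ∫ h, lf c g h ∂(pn m H) ≤ H ^ (Fintype.card {l : Fin m // c l = l}) *
      (∫ y in (-H)..H, g y) ^ (Fintype.card {l : Fin m // ¬ c l = l}) := by
  classical
  have mp := measurePreserving_piEquivPiSubtypeProd (fun _ : Fin m => nu H) (fun l => c l = l)
  unfold pn
  rw [← mp.symm.integral_comp']
  have he : ∀ z : ({l : Fin m // c l = l} → ℝ) × ({l : Fin m // ¬ c l = l} → ℝ),
      lf c g ((MeasurableEquiv.piEquivPiSubtypeProd (fun _ : Fin m => ℝ) (fun l => c l = l)).symm z) =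
      ∏ l : {l : Fin m // ¬ c l = l}, g (z.1 ⟨c l, hc l⟩ - z.2 l) := by
    intro z
    unfold lf
    rw [← Fintype.prod_subtype_mul_prod_subtype (fun l => c l = l)]
    have h1 : ∏ l : {l : Fin m // c l = l}, (if c l = (l : Fin m) then (1:ℝ) else
        g ((MeasurableEquiv.piEquivPiSubtypeProd (fun _ : Fin m => ℝ) (fun l => c l = l)).symm z (c l) -
          (MeasurableEquiv.piEquivPiSubtypeProd (fun _ : Fin m => ℝ) (fun l => c l = l)).symm z l)) = 1 :=
      Finset.prod_eq_one fun l _ => if_pos l.2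
    rw [h1, one_mul]
    refine Finset.prod_congr rfl fun l _ => ?_
    rw [if_neg l.2]
    have h2 : (MeasurableEquiv.piEquivPiSubtypeProd (fun _ : Fin m => ℝ) (fun l => c l = l)).symm z (c l) =
        z.1 ⟨c l, hc l⟩ := by
      show (Equiv.piEquivPiSubtypeProd (fun l => c l = l) (fun _ : Fin m => ℝ)).symm z (c l) = _
      rw [Equiv.piEquivPiSubtypeProd_symm_apply, dif_pos (hc l)]
    have h3 : (MeasurableEquiv.piEquivPiSubtypeProd (fun _ : Fin m => ℝ) (fun l => c l = l)).symm z l = z.2 l := by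
      show (Equiv.piEquivPiSubtypeProd (fun l => c l = l) (fun _ : Fin m => ℝ)).symm z l = _
      rw [Equiv.piEquivPiSubtypeProd_symm_apply, dif_neg l.2]
    rw [h2, h3]
  simp_rw [he]
  set Cn := {l : Fin m // c l = l} with hCn
  set Lv := {l : Fin m // ¬ c l = l} with hLv
  have hmeas : Measurable fun z : (Cn → ℝ) × (Lv → ℝ) => ∏ l : Lv, g (z.1 ⟨c l, hc l⟩ - z.2 l) := by
    refine Finset.measurable_prod _ fun l _ => ?_
    exact hm.comp (((measurable_pi_apply _).comp measurable_fst).sub ((measurable_pi_apply _).comp measurable_snd))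
  have hint : Integrable (fun z : (Cn → ℝ) × (Lv → ℝ) => ∏ l : Lv, g (z.1 ⟨c l, hc l⟩ - z.2 l))
      ((Measure.pi fun _ : Cn => nu H).prod (Measure.pi fun _ : Lv => nu H)) := by
    refine Integrable.of_bound hmeas.aestronglyMeasurable (B ^ (Fintype.card Lv)) (Eventually.of_forall fun z => ?_)
    rw [Real.norm_of_nonneg (Finset.prod_nonneg fun i _ => h0 _)]
    calc ∏ l : Lv, g (z.1 ⟨c l, hc l⟩ - z.2 l) ≤ ∏ _l : Lv, B := Finset.prod_le_prod (fun i _ => h0 _) fun i _ => hB _
      _ = B ^ (Fintype.card Lv) := by rw [prod_const, card_univ]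
  rw [integral_prod _ hint]
  have hin : ∀ x : Cn → ℝ, ∫ y : Lv → ℝ, ∏ l : Lv, g (x ⟨c l, hc l⟩ - y l) ∂(Measure.pi fun _ : Lv => nu H) =
      ∏ l : Lv, ∫ t, g (x ⟨c l, hc l⟩ - t) ∂(nu H) := fun x =>
    integral_fintype_prod_eq_prod (μ := fun _ : Lv => nu H) (fun (l : Lv) (t : ℝ) => g (x ⟨c l, hc l⟩ - t))
  simp_rw [hin]
  set G : ℝ := ∫ y in (-H)..H, g y with hG
  have hone : ∀ x : ℝ, x ∈ Set.Icc 0 H → ∫ t, g (x - t) ∂(nu H) ≤ G := by
    intro x hx
    unfold nu
    rw [integral_Icc_eq_integral_Ioc, ← intervalIntegral.integral_of_le hH,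
      intervalIntegral.integral_comp_sub_left (fun y => g y) x, sub_zero]
    have hii : IntervalIntegrable g volume (-H) H := by
      rw [intervalIntegrable_iff_integrableOn_Ioc_of_le (by linarith)]
      refine Measure.integrableOn_of_bounded (M := B) (by simp) hm.aestronglyMeasurable (Eventually.of_forall fun y => ?_)
      rw [Real.norm_of_nonneg (h0 y)]
      exact hB y
    exact intervalIntegral.integral_mono_interval (by linarith [hx.1]) (by linarith) hx.2
      (Eventually.of_forall fun y => h0 y) hii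
  have hnn : ∀ x, 0 ≤ ∫ t, g (x - t) ∂(nu H) := fun x => integral_nonneg fun t => h0 _
  have hG0 : 0 ≤ G := intervalIntegral.integral_nonneg (by linarith) fun y _ => h0 y
  have hae : ∀ᵐ x ∂(Measure.pi fun _ : Cn => nu H), ∀ j, x j ∈ Set.Icc 0 H := by
    have h1 : (Measure.pi fun _ : Cn => nu H) = volume.restrict (Set.univ.pi fun _ : Cn => Set.Icc 0 H) := by
      unfold nu
      rw [volume_pi, Measure.restrict_pi_pi]
    rw [h1]
    filter_upwards [ae_restrict_mem (MeasurableSet.univ_pi fun _ : Cn => measurableSet_Icc)] with h hh j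
    exact hh j (Set.mem_univ _)
  calc ∫ x : Cn → ℝ, ∏ l : Lv, ∫ t, g (x ⟨c l, hc l⟩ - t) ∂(nu H) ∂(Measure.pi fun _ : Cn => nu H)
      ≤ ∫ _x : Cn → ℝ, G ^ (Fintype.card Lv) ∂(Measure.pi fun _ : Cn => nu H) := by
        refine integral_mono_of_nonneg (Eventually.of_forall fun x => Finset.prod_nonneg fun i _ => hnn _)
          (integrable_const _) ?_
        filter_upwards [hae] with x hx
        calc ∏ l : Lv, ∫ t, g (x ⟨c l, hc l⟩ - t) ∂(nu H) ≤ ∏ _l : Lv, G :=
              Finset.prod_le_prod (fun i _ => hnn _) fun i _ => hone _ (hx _)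
          _ = G ^ (Fintype.card Lv) := by rw [prod_const, card_univ]
    _ = H ^ (Fintype.card Cn) * G ^ (Fintype.card Lv) := by
        rw [integral_const, smul_eq_mul]
        congr 1
        rw [Measure.real, Measure.pi_univ, ENNReal.toReal_prod]
        have h1 : (nu H Set.univ).toReal = H := nu_univ hH
        simp_rw [h1]
        rw [prod_const, card_univ]

/-! ### the factors of the near and of the far pairs -/

/-- the factor of a near pair -/
noncomputable def ub (δ y : ℝ) : ℝ := if |y| ≤ 1 then max (Z δ y) 1 else 1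

/-- the factor of a far pair -/
noncomputable def vb (δ y : ℝ) : ℝ := if |y| ≤ 1 then 1 else Z δ y

lemma ub_one (δ y : ℝ) : 1 ≤ ub δ y := by
  unfold ub
  split_ifs
  · exact le_max_right _ _
  · exact le_rfl

lemma vb_nn (δ y : ℝ) : 0 ≤ vb δ y := by
  unfold vb
  split_ifs
  · exact zero_le_one
  · exact Z_nn _ _

lemma Z_le_uv (δ y : ℝ) : Z δ y ≤ ub δ y * vb δ y := by
  unfold ub vb
  split_ifs
  · rw [mul_one]
    exact le_max_left _ _
  · rw [one_mul]

lemma ub_meas {δ : ℝ} (h0 : 0 < δ) : Measurable fun y => ub δ y := by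
  unfold ub
  exact Measurable.ite (measurableSet_le (by fun_prop) measurable_const) ((Z_cont h0).measurable.max measurable_const)
    measurable_const

lemma vb_meas {δ : ℝ} (h0 : 0 < δ) : Measurable fun y => vb δ y := by
  unfold vb
  exact Measurable.ite (measurableSet_le (by fun_prop) measurable_const) measurable_const (Z_cont h0).measurable

lemma inv_one {δ : ℝ} (h0 : 0 < δ) (h1 : δ ≤ 1 / 16) : 1 ≤ 1 / δ := by
  rw [le_div_iff₀ h0]
  linarith

lemma ub_le {δ : ℝ} (h0 : 0 < δ) (h1 : δ ≤ 1 / 16) (y : ℝ) : ub δ y ≤ 1 / δ := by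
  unfold ub
  split_ifs
  · exact max_le (Z_le_inv h0 h1 y) (inv_one h0 h1)
  · exact inv_one h0 h1

lemma vb_le {δ : ℝ} (h0 : 0 < δ) (h1 : δ ≤ 1 / 16) (y : ℝ) : vb δ y ≤ 1 / δ := by
  unfold vb
  split_ifs
  · exact inv_one h0 h1
  · exact Z_le_inv h0 h1 y

/-- the powers of the far factors -/
lemma vb_int (s : ℝ) (hs : 0 ≤ s) : ∃ C : ℝ, 0 < C ∧ ∀ δ : ℝ, 0 < δ → δ ≤ 1 / 16 → ∀ H : ℝ, 1 ≤ H →
    ∫ y in (-H)..H, vb δ y ^ s ≤ C * H := by
  obtain ⟨C, hC, h⟩ := J1_bd s hs
  refine ⟨2 + 2 * C, by positivity, fun δ h0 h1 H hH => ?_⟩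
  have hint1 : ∀ a b : ℝ, IntervalIntegrable (fun y => g1 δ s y) volume a b := by
    intro a b
    rw [intervalIntegrable_iff]
    refine Measure.integrableOn_of_bounded (M := (1 / δ) ^ s) (by simp [Set.uIoc])
      (g1_meas h0).aestronglyMeasurable (Eventually.of_forall fun y => ?_)
    rw [Real.norm_of_nonneg (g1_nn δ s y)]
    exact (g1_le δ s y).trans (Zp_le h0 h1 hs y)
  have hint2 : ∀ a b : ℝ, IntervalIntegrable (fun y => vb δ y ^ s) volume a b := by
    intro a b
    rw [intervalIntegrable_iff]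
    refine Measure.integrableOn_of_bounded (M := (1 / δ) ^ s) (by simp [Set.uIoc])
      ((vb_meas h0).pow_const s).aestronglyMeasurable (Eventually.of_forall fun y => ?_)
    rw [Real.norm_of_nonneg (Real.rpow_nonneg (vb_nn δ y) _)]
    exact Real.rpow_le_rpow (vb_nn δ y) (vb_le h0 h1 y) hs
  have h2 : ∫ y in (-H)..H, vb δ y ^ s ≤ ∫ y in (-H)..H, (1 + g1 δ s y) := by
    refine intervalIntegral.integral_mono_on (by linarith) (hint2 _ _) ((by simp : IntervalIntegrable (fun _ : ℝ => (1:ℝ))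
      volume (-H) H).add (hint1 _ _)) fun y _ => ?_
    have h3 := g1_nn δ s y
    unfold vb
    split_ifs with hy
    · rw [Real.one_rpow]
      linarith
    · unfold g1
      rw [if_pos (by linarith [not_le.1 hy])]
      linarith
  refine h2.trans ?_
  rw [intervalIntegral.integral_add (by simp) (hint1 _ _), intervalIntegral.integral_const, smul_eq_mul]
  have h4 := h δ h0 h1 H (by linarith)
  nlinarith

/-- the near factors -/
noncomputable def gb1 (δ s y : ℝ) : ℝ := i1 y * ub δ y ^ s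

lemma gb1_nn (δ s y : ℝ) : 0 ≤ gb1 δ s y := mul_nonneg (i1_nn y) (Real.rpow_nonneg (zero_le_one.trans (ub_one δ y)) _)

lemma gb1_meas {δ s : ℝ} (h0 : 0 < δ) : Measurable fun y => gb1 δ s y := i1_meas.mul ((ub_meas h0).pow_const s)

lemma gb1_le {δ s : ℝ} (h0 : 0 < δ) (h1 : δ ≤ 1 / 16) (hs : 0 ≤ s) (y : ℝ) : gb1 δ s y ≤ (1 / δ) ^ s := by
  unfold gb1
  have h2 := Real.rpow_le_rpow (zero_le_one.trans (ub_one δ y)) (ub_le h0 h1 y) hs
  have h3 : 0 ≤ ub δ y ^ s := Real.rpow_nonneg (zero_le_one.trans (ub_one δ y)) _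
  exact (mul_le_of_le_one_left h3 (i1_le y)).trans h2

/-- the integral of the near factors, in terms of the integral of zeta -/
lemma gb1_int0 (s : ℝ) (hs : 0 ≤ s) : ∃ C : ℝ, 0 < C ∧ ∀ δ : ℝ, 0 < δ → δ ≤ 1 / 16 → ∀ H : ℝ, 0 ≤ H →
    ∫ y in (-H)..H, gb1 δ s y ≤ C * ∫ y in (0:ℝ)..1, Z δ y ^ s := by
  obtain ⟨c, hc, hl⟩ := Z_ge 1
  -- `max (Z, 1) ≤ Z / min (c, 1)`
  set c' : ℝ := min c 1 with hc'
  have hc'0 : 0 < c' := lt_min hc one_pos
  refine ⟨2 * (1 / c') ^ s, by positivity, fun δ h0 h1 H hH => ?_⟩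
  have hint : ∀ a b : ℝ, IntervalIntegrable (fun y => gb1 δ s y) volume a b := by
    intro a b
    rw [intervalIntegrable_iff]
    refine Measure.integrableOn_of_bounded (M := (1 / δ) ^ s) (by simp [Set.uIoc])
      (gb1_meas h0).aestronglyMeasurable (Eventually.of_forall fun y => ?_)
    rw [Real.norm_of_nonneg (gb1_nn δ s y)]
    exact gb1_le h0 h1 hs y
  have hZi : ∀ a b : ℝ, IntervalIntegrable (fun y => Z δ y ^ s) volume a b := fun a b =>
    (Zp_cont h0).intervalIntegrable _ _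
  set H' : ℝ := max H 1 with hH'
  have hH'1 : 1 ≤ H' := le_max_right _ _
  have hHH' : H ≤ H' := le_max_left _ _
  have e0 : ∫ y in (-H)..H, gb1 δ s y ≤ ∫ y in (-H')..H', gb1 δ s y :=
    intervalIntegral.integral_mono_interval (by linarith) (by linarith) hHH'
      (Eventually.of_forall fun y => gb1_nn δ s y) (hint _ _)
  have e1 : ∫ y in (-H')..(-1), gb1 δ s y = 0 := by
    rw [intervalIntegral.integral_of_le (by linarith), integral_Ioc_eq_integral_Ioo]
    refine setIntegral_eq_zero_of_forall_eq_zero fun y hy => ?_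
    unfold gb1 i1
    rw [if_neg, zero_mul]
    rw [not_le, abs_of_neg (by linarith [hy.2])]
    linarith [hy.2]
  have e2 : ∫ y in (1:ℝ)..H', gb1 δ s y = 0 := by
    rw [intervalIntegral.integral_of_le hH'1]
    refine setIntegral_eq_zero_of_forall_eq_zero fun y hy => ?_
    unfold gb1 i1
    rw [if_neg, zero_mul]
    rw [not_le, abs_of_pos (by linarith [hy.1])]
    exact hy.1
  have hpt : ∀ y : ℝ, |y| ≤ 1 → gb1 δ s y ≤ (1 / c') ^ s * Z δ y ^ s := by
    intro y hy
    unfold gb1 i1 ub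
    rw [if_pos hy, if_pos hy, one_mul, ← Real.mul_rpow (by positivity) (Z_nn _ _)]
    refine Real.rpow_le_rpow (zero_le_one.trans (le_max_right _ _)) ?_ hs
    have h2 := hl δ h0 h1 y hy
    rw [one_div, inv_mul_eq_div]
    refine max_le ?_ ?_
    · rw [le_div_iff₀ hc'0]
      nlinarith [min_le_right c 1, Z_nn δ y]
    · rw [le_div_iff₀ hc'0, one_mul]
      exact (min_le_left c 1).trans h2
  have e3 : ∫ y in (0:ℝ)..1, gb1 δ s y ≤ (1 / c') ^ s * ∫ y in (0:ℝ)..1, Z δ y ^ s := by
    rw [← intervalIntegral.integral_const_mul]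
    refine intervalIntegral.integral_mono_on zero_le_one (hint _ _) ((hZi _ _).const_mul _) fun y hy => ?_
    exact hpt y (by rw [abs_of_nonneg hy.1]; exact hy.2)
  have e4 : ∫ y in (-1:ℝ)..0, gb1 δ s y = ∫ y in (0:ℝ)..1, gb1 δ s y := by
    have h2 := intervalIntegral.integral_comp_neg (a := 0) (b := 1) (fun y => gb1 δ s y)
    rw [neg_zero] at h2
    rw [← h2]
    refine intervalIntegral.integral_congr fun y _ => ?_
    show gb1 δ s (-y) = gb1 δ s y
    unfold gb1 i1 ub
    rw [abs_neg, Z_even]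
  rw [← intervalIntegral.integral_add_adjacent_intervals (hint (-H') (-1)) (hint (-1) H'),
    ← intervalIntegral.integral_add_adjacent_intervals (hint (-1) 1) (hint 1 H'), e1, e2,
    ← intervalIntegral.integral_add_adjacent_intervals (hint (-1) 0) (hint 0 1), e4] at e0
  linarith

end Run7.h772.MM
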