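import Pool.Agent.Run7.h772.MM.Zo

set_option autoImplicit false

/-!
# Moments of moments near the critical line: clusters of points
-/

namespace Run7.h772.MM

open Finset Filter MeasureTheory Topology Complex

/-- the product of the near factors over the ordered pairs of different points -/
noncomputable def UU (δ s : ℝ) {n : ℕ} (h : Fin (n + 1) → ℝ) : ℝ :=
  ∏ q : Fin (n + 1) × Fin n, ub δ (h q.1 - h (q.1.succAbove q.2)) ^ s

/-- a scale without distances -/
lemma gap {m : ℕ} (h : Fin m → ℝ) : ∃ t : ℕ, t ≤ m * m ∧ ∀ j l : Fin m, ¬ ((1 / 2 : ℝ) ^ (t + 1) < |h j - h l| ∧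
    |h j - h l| ≤ (1 / 2 : ℝ) ^ t) := by
  by_contra hc
  push Not at hc
  have hc' : ∀ t : Fin (m * m + 1), ∃ q : Fin m × Fin m, (1 / 2 : ℝ) ^ ((t:ℕ) + 1) < |h q.1 - h q.2| ∧
      |h q.1 - h q.2| ≤ (1 / 2 : ℝ) ^ (t:ℕ) := by
    intro t
    obtain ⟨j, l, h1⟩ := hc t (by omega)
    exact ⟨(j, l), h1⟩
  choose f hf using hc'
  have hinj : Function.Injective f := by
    intro t t' htt
    by_contra hne
    have key : ∀ a b : Fin (m * m + 1), f a = f b → a < b → False := by
      intro a b hab hlt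
      obtain ⟨h1, -⟩ := hf a
      obtain ⟨-, h2⟩ := hf b
      rw [hab] at h1
      have h3 : (1 / 2 : ℝ) ^ (b:ℕ) ≤ (1 / 2 : ℝ) ^ ((a:ℕ) + 1) :=
        pow_le_pow_of_le_one (by norm_num) (by norm_num) (by
          have : (a:ℕ) < b := hlt
          omega)
      linarith
    rcases lt_or_gt_of_ne hne with h1 | h1
    · exact key t t' htt h1
    · exact key t' t htt.symm h1
  have h1 := Fintype.card_le_of_injective f hinj
  rw [Fintype.card_prod, Fintype.card_fin, Fintype.card_fin] at h1
  omega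

/-- bounds of the factors of the pairs which are not very near -/
lemma ub_far (r0 : ℝ) (hr0 : 0 < r0) : ∃ K : ℝ, 1 ≤ K ∧ ∀ δ : ℝ, 0 < δ → δ ≤ 1 / 16 → ∀ y : ℝ, r0 < |y| → ub δ y ≤ K := by
  obtain ⟨c, C, hc, hC, h⟩ := Z_near 1
  refine ⟨max (C / r0) 1, le_max_right _ _, fun δ h0 h1 y hy => ?_⟩
  unfold ub
  split_ifs with hy1
  · refine max_le_max ?_ le_rfl
    obtain ⟨-, h2⟩ := h δ h0.le h1 y hy1 (Or.inl h0)
    refine h2.trans ?_
    exact div_le_div_of_nonneg_left hC.le hr0 (hy.le.trans (nr_ge_right δ y))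
  · exact le_max_right _ _

lemma UU_double (δ s : ℝ) {n : ℕ} (h : Fin (n + 1) → ℝ) : UU δ s h =
    ∏ j, ∏ l, if l = j then 1 else ub δ (h j - h l) ^ s := by
  unfold UU
  rw [Fintype.prod_prod_type]
  refine Finset.prod_congr rfl fun j _ => ?_
  rw [Fin.prod_univ_succAbove _ j, if_pos rfl, one_mul]
  refine Finset.prod_congr rfl fun i _ => ?_
  rw [if_neg (Fin.succAbove_ne j i)]

/-- the pointwise bound by clusters -/
lemma cluster (n : ℕ) (s : ℝ) (hs : 0 ≤ s) : ∃ K : ℝ, 1 ≤ K ∧ ∀ δ : ℝ, 0 < δ → δ ≤ 1 / 16 → ∀ h : Fin (n + 1) → ℝ,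
    ∀ N : ℕ, (n + 1 ≤ N ∨ (n ≤ N ∧ ∃ l, 1 < |h l - h 0|)) →
    ∃ c : Fin (n + 1) → Fin (n + 1), (∀ l, c (c l) = c l) ∧ (∀ l, |h (c l) - h l| ≤ 1 / 2) ∧
      UU δ s h ≤ K * lf c (gb1 δ (s * N)) h := by
  classical
  set m : ℕ := n + 1 with hm
  set r0 : ℝ := (1 / 2 : ℝ) ^ (m * m + 1) with hr0
  have hr00 : 0 < r0 := by positivity
  obtain ⟨K, hK1, hK⟩ := ub_far (r0 / 2) (by positivity)
  have hKs : 1 ≤ K ^ s := Real.one_le_rpow hK1 hs
  refine ⟨((K ^ s) ^ m) ^ m, one_le_pow₀ (one_le_pow₀ hKs), fun δ h0 h1 h N hN => ?_⟩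
  obtain ⟨t, ht0, hgap⟩ := gap h
  have ht : t ≤ m * m := ht0
  set r : ℝ := (1 / 2 : ℝ) ^ (t + 1) with hr
  have hr2 : (1 / 2 : ℝ) ^ t = 2 * r := by
    rw [hr, pow_succ]
    ring
  rw [hr2] at hgap
  have hrr0 : r0 ≤ r := pow_le_pow_of_le_one (by norm_num) (by norm_num) (by omega)
  have hr1 : r ≤ 1 / 2 := by
    rw [hr, pow_succ]
    have : (1 / 2 : ℝ) ^ t ≤ 1 := pow_le_one₀ (by norm_num) (by norm_num)
    linarith
  have hr0' : 0 < r := lt_of_lt_of_le hr00 hrr0
  -- the equivalence relation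
  set E : Fin m → Fin m → Prop := fun j l => |h j - h l| ≤ r with hE
  have Erefl : ∀ j, E j j := fun j => by
    show |h j - h j| ≤ r
    rw [sub_self, abs_zero]
    exact hr0'.le
  have Esymm : ∀ j l, E j l → E l j := fun j l hjl => by
    show |h l - h j| ≤ r
    rw [abs_sub_comm]
    exact hjl
  have Etrans : ∀ i j l, E i j → E j l → E i l := by
    intro i j l hij hjl
    show |h i - h l| ≤ r
    by_contra hc
    push Not at hc
    refine hgap i l ⟨hc, ?_⟩
    calc |h i - h l| = |(h i - h j) + (h j - h l)| := by ring_nf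
      _ ≤ |h i - h j| + |h j - h l| := abs_add_le _ _
      _ ≤ 2 * r := by
          have e1 : |h i - h j| ≤ r := hij
          have e2 : |h j - h l| ≤ r := hjl
          linarith
  set cls : Fin m → Finset (Fin m) := fun j => univ.filter fun l => E j l with hcls
  have hcl : ∀ j l, l ∈ cls j ↔ E j l := fun j l => by simp [hcls]
  have hclE : ∀ j l, E j l → cls j = cls l := by
    intro j l hjl
    ext i
    rw [hcl, hcl]
    exact ⟨fun hi => Etrans _ _ _ (Esymm _ _ hjl) hi, fun hi => Etrans _ _ _ hjl hi⟩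
  -- the weights
  set x : Fin m → Fin m → ℝ := fun j l => ub δ (h j - h l) ^ s with hx
  have hx1 : ∀ j l, 1 ≤ x j l := fun j l => Real.one_le_rpow (ub_one _ _) hs
  set b : Fin m → ℝ := fun j => ∏ l, if E j l ∧ l ≠ j then x j l else 1 with hb
  have hb0 : ∀ j, 0 ≤ b j := fun j => Finset.prod_nonneg fun l _ => by
    split_ifs
    · linarith [hx1 j l]
    · exact zero_le_one
  -- the centers
  set pick : Finset (Fin m) → Fin m := fun S =>
    if hS : S.Nonempty then Classical.choose (Finset.exists_max_image S b hS) else 0 with hpick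
  set c : Fin m → Fin m := fun j => pick (cls j) with hc
  have hcs : ∀ j, E j (c j) ∧ ∀ l, E j l → b l ≤ b (c j) := by
    intro j
    have hne : (cls j).Nonempty := ⟨j, (hcl j j).2 (Erefl j)⟩
    have h2 : c j = Classical.choose (Finset.exists_max_image (cls j) b hne) := by
      simp only [hc, hpick]
      rw [dif_pos hne]
    have h3 := Classical.choose_spec (Finset.exists_max_image (cls j) b hne)
    rw [← h2] at h3
    exact ⟨(hcl j _).1 h3.1, fun l hl => h3.2 l ((hcl j l).2 hl)⟩
  have hcE : ∀ j l, E j l → c j = c l := fun j l hjl => by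
    simp only [hc]
    rw [hclE j l hjl]
  have hcc : ∀ l, c (c l) = c l := fun l => (hcE l (c l) (hcs l).1).symm
  refine ⟨c, hcc, fun l => ?_, ?_⟩
  · have h2 : |h l - h (c l)| ≤ r := (hcs l).1
    rw [abs_sub_comm]
    exact h2.trans hr1
  -- the size of the classes
  have hcard : ∀ l, (cls l).card ≤ N := by
    intro l
    rcases hN with hN | ⟨hN, i, hi⟩
    · exact ((Finset.card_le_univ _).trans (by rw [Fintype.card_fin])).trans hN
    · refine le_trans ?_ hN
      by_contra hlt
      push Not at hlt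
      have h3 : cls l = univ := by
        refine Finset.eq_univ_of_card _ ?_
        have h4 := Finset.card_le_univ (cls l)
        rw [Fintype.card_fin] at h4 ⊢
        omega
      have h5 : E l i := (hcl l i).1 (by rw [h3]; exact Finset.mem_univ _)
      have h6 : E l 0 := (hcl l 0).1 (by rw [h3]; exact Finset.mem_univ _)
      have h7 : |h i - h 0| ≤ |h i - h l| + |h l - h 0| := by
        have h8 : h i - h 0 = (h i - h l) + (h l - h 0) := by ring
        rw [h8]
        exact abs_add_le _ _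
      have h9 : |h i - h l| ≤ r := Esymm _ _ h5
      have h10 : |h l - h 0| ≤ r := h6
      linarith
  -- the product
  have e1 : UU δ s h ≤ ((K ^ s) ^ m) ^ m * ∏ j, b j := by
    rw [UU_double]
    have h2 : ∀ j l : Fin m, (if l = j then (1:ℝ) else x j l) ≤ K ^ s * (if E j l ∧ l ≠ j then x j l else 1) := by
      intro j l
      by_cases hlj : l = j
      · rw [if_pos hlj, if_neg (fun hh => hh.2 hlj), mul_one]
        exact hKs
      · rw [if_neg hlj]
        by_cases hE1 : E j l
        · rw [if_pos ⟨hE1, hlj⟩]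
          exact le_mul_of_one_le_left (zero_le_one.trans (hx1 j l)) hKs
        · rw [if_neg (fun hh => hE1 hh.1), mul_one]
          refine Real.rpow_le_rpow (zero_le_one.trans (ub_one _ _)) (hK δ h0 h1 _ ?_) hs
          have h3 : r < |h j - h l| := not_le.1 hE1
          linarith
    have h3 : ∏ j : Fin m, ∏ l : Fin m, K ^ s * (if E j l ∧ l ≠ j then x j l else 1) = ((K ^ s) ^ m) ^ m * ∏ j, b j := by
      simp only [Finset.prod_mul_distrib, Finset.prod_const, Finset.card_univ, Fintype.card_fin, hb]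
    rw [← h3]
    refine Finset.prod_le_prod (fun j _ => Finset.prod_nonneg fun l _ => ?_) fun j _ =>
      Finset.prod_le_prod (fun l _ => ?_) fun l _ => h2 j l
    · split_ifs
      · exact zero_le_one
      · exact zero_le_one.trans (hx1 j l)
    · split_ifs
      · exact zero_le_one
      · exact zero_le_one.trans (hx1 j l)
  refine e1.trans (mul_le_mul_of_nonneg_left ?_ (by positivity))
  have e2 : ∏ j, b j ≤ ∏ j, b (c j) := Finset.prod_le_prod (fun j _ => hb0 j) fun j _ => (hcs j).2 j (Erefl j)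
  refine e2.trans ?_
  have e3 : ∏ j, b (c j) = ∏ j, ∏ l, if E l j ∧ l ≠ c l then x (c l) l else 1 := by
    refine Finset.prod_congr rfl fun j _ => ?_
    simp only [hb]
    refine Finset.prod_congr rfl fun l _ => ?_
    by_cases h2 : E j l
    · have h3 : c j = c l := hcE j l h2
      have h4 : E (c j) l := Etrans _ _ _ (Esymm _ _ (hcs j).1) h2
      have h5 : E l j := Esymm _ _ h2
      by_cases h6 : l = c l
      · rw [if_neg (fun hh => hh.2 (by rw [h3]; exact h6)), if_neg (fun hh => hh.2 h6)]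
      · rw [if_pos ⟨h4, fun hh => h6 (by rw [← h3]; exact hh)⟩, if_pos ⟨h5, h6⟩, h3]
    · have h4 : ¬ E (c j) l := fun hh => h2 (Etrans _ _ _ (hcs j).1 hh)
      have h5 : ¬ E l j := fun hh => h2 (Esymm _ _ hh)
      rw [if_neg (fun hh => h4 hh.1), if_neg (fun hh => h5 hh.1)]
  rw [e3, Finset.prod_comm]
  unfold lf
  refine Finset.prod_le_prod (fun l _ => Finset.prod_nonneg fun j _ => ?_) fun l _ => ?_
  · split_ifs
    · exact zero_le_one.trans (hx1 _ _)
    · exact zero_le_one
  · by_cases h2 : c l = l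
    · rw [if_pos h2]
      refine le_of_eq (Finset.prod_eq_one fun j _ => ?_)
      rw [if_neg (fun hh => hh.2 h2.symm)]
    · rw [if_neg h2]
      have h3 : ∏ j, (if E l j ∧ l ≠ c l then x (c l) l else 1) = x (c l) l ^ (cls l).card := by
        have h4 : ∀ j, (if E l j ∧ l ≠ c l then x (c l) l else 1) = if E l j then x (c l) l else 1 := by
          intro j
          have : (E l j ∧ l ≠ c l) ↔ E l j := ⟨fun hh => hh.1, fun hh => ⟨hh, fun h5 => h2 h5.symm⟩⟩
          simp only [this]
        simp_rw [h4]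
        rw [Finset.prod_ite, Finset.prod_const, Finset.prod_const_one, mul_one]
      rw [h3]
      have h5 : |h (c l) - h l| ≤ 1 := by
        have h6 : |h l - h (c l)| ≤ r := (hcs l).1
        rw [abs_sub_comm]
        linarith
      unfold gb1 i1
      rw [if_pos h5, one_mul]
      calc x (c l) l ^ (cls l).card ≤ x (c l) l ^ N := pow_le_pow_right₀ (hx1 _ _) (hcard l)
        _ = ub δ (h (c l) - h l) ^ (s * N) := by
            simp only [hx]
            rw [← Real.rpow_natCast, ← Real.rpow_mul (zero_le_one.trans (ub_one _ _))]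

end Run7.h772.MM
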