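import Pool.Agent.Run7.h772.MM.Zp

set_option autoImplicit false

/-!
# Moments of moments near the critical line: integrals over the intermediate region
-/

namespace Run7.h772.MM

open Finset Filter MeasureTheory Topology Complex
open Pool.Agent.N748.MG Pool.Agent.N748.MJ

/-- the product of the far factors -/
noncomputable def VV (δ s : ℝ) {n : ℕ} (h : Fin (n + 1) → ℝ) : ℝ :=
  ∏ q : Fin (n + 1) × Fin n, vb δ (h q.1 - h (q.1.succAbove q.2)) ^ s

lemma UU_pos (δ s : ℝ) {n : ℕ} (h : Fin (n + 1) → ℝ) : 0 < UU δ s h :=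
  Finset.prod_pos fun _ _ => Real.rpow_pos_of_pos (lt_of_lt_of_le one_pos (ub_one _ _)) _

lemma VV_nn (δ s : ℝ) {n : ℕ} (h : Fin (n + 1) → ℝ) : 0 ≤ VV δ s h :=
  Finset.prod_nonneg fun _ _ => Real.rpow_nonneg (vb_nn _ _) _

lemma UU_meas {δ s : ℝ} (h0 : 0 < δ) (n : ℕ) : Measurable fun h : Fin (n + 1) → ℝ => UU δ s h := by
  unfold UU
  refine Finset.measurable_prod _ fun q _ => ?_
  exact ((ub_meas h0).pow_const s).comp ((measurable_pi_apply _).sub (measurable_pi_apply _))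

lemma VV_meas {δ s : ℝ} (h0 : 0 < δ) (n : ℕ) : Measurable fun h : Fin (n + 1) → ℝ => VV δ s h := by
  unfold VV
  refine Finset.measurable_prod _ fun q _ => ?_
  exact ((vb_meas h0).pow_const s).comp ((measurable_pi_apply _).sub (measurable_pi_apply _))

lemma UU_bd {δ s : ℝ} (h0 : 0 < δ) (h1 : δ ≤ 1 / 16) (hs : 0 ≤ s) {n : ℕ} (h : Fin (n + 1) → ℝ) :
    UU δ s h ≤ ((1 / δ) ^ s) ^ (Fintype.card (Fin (n + 1) × Fin n)) := by
  unfold UU
  calc ∏ q : Fin (n + 1) × Fin n, ub δ (h q.1 - h (q.1.succAbove q.2)) ^ s ≤ ∏ _q : Fin (n + 1) × Fin n, (1 / δ) ^ s :=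
        Finset.prod_le_prod (fun _ _ => Real.rpow_nonneg (zero_le_one.trans (ub_one _ _)) _) fun _ _ =>
          Real.rpow_le_rpow (zero_le_one.trans (ub_one _ _)) (ub_le h0 h1 _) hs
    _ = _ := by rw [prod_const, card_univ]

lemma VV_bd {δ s : ℝ} (h0 : 0 < δ) (h1 : δ ≤ 1 / 16) (hs : 0 ≤ s) {n : ℕ} (h : Fin (n + 1) → ℝ) :
    VV δ s h ≤ ((1 / δ) ^ s) ^ (Fintype.card (Fin (n + 1) × Fin n)) := by
  unfold VV
  calc ∏ q : Fin (n + 1) × Fin n, vb δ (h q.1 - h (q.1.succAbove q.2)) ^ s ≤ ∏ _q : Fin (n + 1) × Fin n, (1 / δ) ^ s :=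
        Finset.prod_le_prod (fun _ _ => Real.rpow_nonneg (vb_nn _ _) _) fun _ _ =>
          Real.rpow_le_rpow (vb_nn _ _) (vb_le h0 h1 _) hs
    _ = _ := by rw [prod_const, card_univ]

lemma UU_rpow (δ s p : ℝ) {n : ℕ} (h : Fin (n + 1) → ℝ) : UU δ s h ^ p = UU δ (s * p) h := by
  unfold UU
  rw [← Real.finsetProd_rpow _ _ fun _ _ => Real.rpow_nonneg (zero_le_one.trans (ub_one _ _)) _]
  refine Finset.prod_congr rfl fun q _ => ?_
  rw [← Real.rpow_mul (zero_le_one.trans (ub_one _ _))]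

lemma VV_rpow (δ s p : ℝ) {n : ℕ} (h : Fin (n + 1) → ℝ) : VV δ s h ^ p = VV δ (s * p) h := by
  unfold VV
  rw [← Real.finsetProd_rpow _ _ fun _ _ => Real.rpow_nonneg (vb_nn _ _) _]
  refine Finset.prod_congr rfl fun q _ => ?_
  rw [← Real.rpow_mul (vb_nn _ _)]

/-- the main product in terms of the near and the far factors -/
lemma PZ_UV {δ c : ℝ} (hc : 0 ≤ c) {n : ℕ} (h : Fin (n + 1) → ℝ) :
    PZ δ c h ≤ Z δ 0 ^ (c * (n + 1)) * (UU δ c h * VV δ c h) := by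
  rw [PZ_split]
  refine mul_le_mul_of_nonneg_left ?_ (Real.rpow_nonneg (Z_nn _ _) _)
  unfold UU VV
  rw [← Finset.prod_mul_distrib, Fintype.prod_prod_type]
  refine Finset.prod_le_prod (fun j _ => Finset.prod_nonneg fun i _ => Zp_nn _ _ _) fun j _ =>
    Finset.prod_le_prod (fun i _ => Zp_nn _ _ _) fun i _ => ?_
  rw [← Real.mul_rpow (zero_le_one.trans (ub_one _ _)) (vb_nn _ _)]
  exact Real.rpow_le_rpow (Z_nn _ _) (Z_le_uv _ _) hc

lemma pn_mass (n : ℕ) {H : ℝ} (hH : 0 ≤ H) : (pn n H).real Set.univ = H ^ n := by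
  unfold pn
  rw [Measure.real, Measure.pi_univ, ENNReal.toReal_prod]
  have h1 : (nu H Set.univ).toReal = H := nu_univ hH
  simp_rw [h1]
  simp

lemma prod_le_one_add {ι : Type*} [Fintype ι] (x : ι → ℝ) (hx : ∀ a, 0 ≤ x a) :
    ∏ a, x a ≤ 1 + ∑ a, x a ^ (Fintype.card ι) := by
  classical
  have hs : 0 ≤ ∑ a, x a ^ (Fintype.card ι) := Finset.sum_nonneg fun a _ => pow_nonneg (hx a) _
  rcases isEmpty_or_nonempty ι with he | hne
  · rw [Finset.univ_eq_empty, Finset.prod_empty]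
    simp
  · obtain ⟨a0, -, ha0⟩ := Finset.exists_max_image Finset.univ x ⟨Classical.arbitrary ι, Finset.mem_univ _⟩
    have h1 : ∏ a, x a ≤ x a0 ^ (Fintype.card ι) := by
      calc ∏ a, x a ≤ ∏ _a : ι, x a0 := prod_le_prod (fun a _ => hx a) fun a _ => ha0 a (mem_univ _)
        _ = x a0 ^ (Fintype.card ι) := by rw [prod_const, card_univ]
    have h2 : x a0 ^ (Fintype.card ι) ≤ ∑ a, x a ^ (Fintype.card ι) :=
      Finset.single_le_sum (f := fun a => x a ^ (Fintype.card ι)) (fun a _ => pow_nonneg (hx a) _) (Finset.mem_univ a0)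
    linarith

/-- the moments of the far factors -/
lemma VV_int (n : ℕ) (s : ℝ) (hs : 0 ≤ s) : ∃ C : ℝ, 0 < C ∧ ∀ δ : ℝ, 0 < δ → δ ≤ 1 / 16 → ∀ H : ℝ, 1 ≤ H →
    ∫ h : Fin (n + 1) → ℝ, VV δ s h ∂(pn (n + 1) H) ≤ C * H ^ (n + 1) := by
  classical
  set M : ℕ := Fintype.card (Fin (n + 1) × Fin n) with hM
  obtain ⟨C, hC, h⟩ := vb_int (s * M) (by positivity)
  refine ⟨1 + M * (2 ^ n * C), by positivity, fun δ h0 h1 H hH => ?_⟩
  have hm : Measurable fun y => vb δ y ^ (s * (M:ℝ)) := (vb_meas h0).pow_const _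
  have hn : ∀ y, 0 ≤ vb δ y ^ (s * (M:ℝ)) := fun y => Real.rpow_nonneg (vb_nn _ _) _
  have hb : ∀ y, vb δ y ^ (s * (M:ℝ)) ≤ (1 / δ) ^ (s * (M:ℝ)) := fun y =>
    Real.rpow_le_rpow (vb_nn _ _) (vb_le h0 h1 _) (by positivity)
  have hi : ∀ q : Fin (n + 1) × Fin n, Integrable (fun h : Fin (n + 1) → ℝ =>
      vb δ (h q.1 - h (q.1.succAbove q.2)) ^ (s * (M:ℝ))) (pn (n + 1) H) := fun q =>
    int_bdd (hm.comp ((measurable_pi_apply _).sub (measurable_pi_apply _))) ((1 / δ) ^ (s * (M:ℝ))) fun h => by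
      rw [abs_of_nonneg (hn _)]
      exact hb _
  calc ∫ h : Fin (n + 1) → ℝ, VV δ s h ∂(pn (n + 1) H)
      ≤ ∫ h : Fin (n + 1) → ℝ, (1 + ∑ q : Fin (n + 1) × Fin n, vb δ (h q.1 - h (q.1.succAbove q.2)) ^ (s * (M:ℝ)))
          ∂(pn (n + 1) H) := by
        refine integral_mono_of_nonneg (Eventually.of_forall fun h => VV_nn δ s h)
          ((integrable_const _).add (integrable_finsetSum _ fun q _ => hi q)) (Eventually.of_forall fun h => ?_)
        show VV δ s h ≤ _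
        unfold VV
        refine (prod_le_one_add _ fun q => Real.rpow_nonneg (vb_nn _ _) _).trans (le_of_eq ?_)
        congr 1
        refine Finset.sum_congr rfl fun q _ => ?_
        rw [← Real.rpow_natCast, ← Real.rpow_mul (vb_nn _ _), ← hM]
    _ = H ^ (n + 1) + ∑ q : Fin (n + 1) × Fin n, ∫ h : Fin (n + 1) → ℝ,
          vb δ (h q.1 - h (q.1.succAbove q.2)) ^ (s * (M:ℝ)) ∂(pn (n + 1) H) := by
        rw [integral_add (integrable_const _) (integrable_finsetSum _ fun q _ => hi q), integral_const,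
          pn_mass _ (by linarith), smul_eq_mul, mul_one, integral_finsetSum _ fun q _ => hi q]
    _ ≤ H ^ (n + 1) + ∑ _q : Fin (n + 1) × Fin n, (2 ^ n * C) * H ^ (n + 1) := by
        refine add_le_add le_rfl (Finset.sum_le_sum fun q _ => ?_)
        refine (pair_bd q.1 q.2 hm hn hb (by linarith)).trans ?_
        calc (2 * H) ^ n * ∫ y in (-H)..H, vb δ y ^ (s * (M:ℝ)) ≤ (2 * H) ^ n * (C * H) :=
              mul_le_mul_of_nonneg_left (h δ h0 h1 H hH) (by positivity)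
          _ = (2 ^ n * C) * H ^ (n + 1) := by rw [mul_pow, pow_succ]; ring
    _ = (1 + M * (2 ^ n * C)) * H ^ (n + 1) := by
        rw [sum_const, card_univ, ← hM, nsmul_eq_mul]
        ring

/-- a region without the points far from each other -/
def Reg {n : ℕ} (N : ℕ) (w : (Fin (n + 1) → ℝ) → ℝ) : Prop :=
  ∀ h, w h = 0 ∨ (w h = 1 ∧ NI h = 0 ∧ (n + 1 ≤ N ∨ (n ≤ N ∧ ∃ l, 1 < |h l - h 0|)))

lemma Reg.nn {n N : ℕ} {w : (Fin (n + 1) → ℝ) → ℝ} (hw : Reg N w) (h : Fin (n + 1) → ℝ) : 0 ≤ w h := by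
  rcases hw h with h1 | ⟨h1, -⟩ <;> rw [h1]
  exact zero_le_one

lemma Reg.le {n N : ℕ} {w : (Fin (n + 1) → ℝ) → ℝ} (hw : Reg N w) (h : Fin (n + 1) → ℝ) : w h ≤ 1 := by
  rcases hw h with h1 | ⟨h1, -⟩ <;> rw [h1]
  exact zero_le_one

lemma Reg.pow {n N : ℕ} {w : (Fin (n + 1) → ℝ) → ℝ} (hw : Reg N w) (h : Fin (n + 1) → ℝ) {p : ℝ} (hp : 0 < p) :
    w h ^ p = w h := by
  rcases hw h with h1 | ⟨h1, -⟩ <;> rw [h1]
  · exact Real.zero_rpow hp.ne'
  · exact Real.one_rpow _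

/-- the integral of the near factors over the region -/
lemma U_gen (n N : ℕ) (s : ℝ) (hs : 0 ≤ s) : ∃ K : ℝ, 0 < K ∧ ∀ δ : ℝ, 0 < δ → δ ≤ 1 / 16 → ∀ H : ℝ, 0 < H →
    ∀ w : (Fin (n + 1) → ℝ) → ℝ, Measurable w → Reg N w → ∀ e X : ℝ, 0 ≤ e → e ≤ 1 → 0 ≤ X →
    ∫ y in (-H)..H, gb1 δ (s * N) y ≤ e * X * H →
    ∫ h, w h * UU δ s h ∂(pn (n + 1) H) ≤ K * H ^ (n + 1) * (e * (1 + X ^ n) + 1 / H) := by
  classical
  obtain ⟨K, hK1, hK⟩ := cluster n s hs
  set CC : Finset (Fin (n + 1) → Fin (n + 1)) := univ.filter fun c => (∀ l, c (c l) = c l) ∧ ∃ l, c l ≠ l with hCC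
  have hsN : 0 ≤ s * (N:ℝ) := by positivity
  refine ⟨K * (CC.card + 1 + (n + 1) * n * 2 ^ (n + 1)), by positivity, fun δ h0 h1 H hH w hwm hw e X he0 he1 hX hG => ?_⟩
  set g : ℝ → ℝ := gb1 δ (s * N) with hg
  have hgm : Measurable g := gb1_meas h0
  have hg0 : ∀ y, 0 ≤ g y := gb1_nn δ (s * N)
  have hgb : ∀ y, g y ≤ (1 / δ) ^ (s * (N:ℝ)) := gb1_le h0 h1 hsN
  have hB1 : 1 ≤ (1 / δ) ^ (s * (N:ℝ)) := Real.one_le_rpow (inv_one h0 h1) hsN
  have hil : ∀ c : Fin (n + 1) → Fin (n + 1), Integrable (fun h : Fin (n + 1) → ℝ => lf c g h) (pn (n + 1) H) := fun c =>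
    int_bdd (lf_meas c hgm) (((1 / δ) ^ (s * (N:ℝ))) ^ (n + 1)) fun h => by
      rw [abs_of_nonneg (lf_nn c hg0 h)]
      exact lf_bd c hg0 hB1 hgb h
  have hii : ∀ (j : Fin (n + 1)) (i : Fin n), Integrable (fun h : Fin (n + 1) → ℝ => i1 (h j - h (j.succAbove i)))
      (pn (n + 1) H) := fun j i =>
    int_bdd (i1_meas.comp ((measurable_pi_apply _).sub (measurable_pi_apply _))) 1 fun h => by
      rw [abs_of_nonneg (i1_nn _)]
      exact i1_le _
  have hpt : ∀ h : Fin (n + 1) → ℝ, w h * UU δ s h ≤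
      K * (∑ c ∈ CC, lf c g h + ∑ j, ∑ i : Fin n, i1 (h j - h (j.succAbove i))) := by
    intro h
    have s1 : 0 ≤ ∑ c ∈ CC, lf c g h := Finset.sum_nonneg fun c _ => lf_nn c hg0 h
    have s2 : 0 ≤ ∑ j, ∑ i : Fin n, i1 (h j - h (j.succAbove i)) :=
      Finset.sum_nonneg fun j _ => Finset.sum_nonneg fun i _ => i1_nn _
    rcases hw h with hw0 | ⟨hw1, hNI, hN⟩
    · rw [hw0, zero_mul]
      exact mul_nonneg (by linarith) (add_nonneg s1 s2)
    · rw [hw1, one_mul]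
      obtain ⟨c, hc1, hc2, hc3⟩ := hK δ h0 h1 h N hN
      refine hc3.trans (mul_le_mul_of_nonneg_left ?_ (by linarith))
      by_cases hid : ∀ l, c l = l
      · have h2 : lf c (gb1 δ (s * N)) h = 1 := by
          unfold lf
          exact Finset.prod_eq_one fun l _ => if_pos (hid l)
        rw [h2]
        have h3 : ¬ ∀ j, ∀ i : Fin n, 1 < |h j - h (j.succAbove i)| := by
          intro hc
          unfold NI at hNI
          rw [if_pos hc] at hNI
          exact one_ne_zero hNI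
        push Not at h3
        obtain ⟨j, i, hji⟩ := h3
        have h4 : (1:ℝ) = i1 (h j - h (j.succAbove i)) := by
          unfold i1
          rw [if_pos hji]
        have h5 : i1 (h j - h (j.succAbove i)) ≤ ∑ i : Fin n, i1 (h j - h (j.succAbove i)) :=
          Finset.single_le_sum (f := fun i => i1 (h j - h (j.succAbove i))) (fun i _ => i1_nn _) (Finset.mem_univ i)
        have h6 : ∑ i : Fin n, i1 (h j - h (j.succAbove i)) ≤ ∑ j, ∑ i : Fin n, i1 (h j - h (j.succAbove i)) :=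
          Finset.single_le_sum (f := fun j => ∑ i : Fin n, i1 (h j - h (j.succAbove i)))
            (fun j _ => Finset.sum_nonneg fun i _ => i1_nn _) (Finset.mem_univ j)
        linarith
      · push Not at hid
        have hmem : c ∈ CC := by
          rw [hCC, Finset.mem_filter]
          exact ⟨Finset.mem_univ _, hc1, hid⟩
        have h3 : lf c g h ≤ ∑ c ∈ CC, lf c g h :=
          Finset.single_le_sum (f := fun c => lf c g h) (fun c _ => lf_nn c hg0 h) hmem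
        linarith
  have hX1 : 0 ≤ e * (1 + X ^ n) := mul_nonneg he0 (by positivity)
  have hHn : 0 < H ^ (n + 1) := by positivity
  have hc : ∀ c ∈ CC, ∫ h, lf c g h ∂(pn (n + 1) H) ≤ H ^ (n + 1) * (e * (1 + X ^ n)) := by
    intro c hcm
    rw [hCC, Finset.mem_filter] at hcm
    obtain ⟨-, hc1, l0, hl0⟩ := hcm
    refine (forest c hc1 hgm hg0 hgb hH.le).trans ?_
    set a : ℕ := Fintype.card {l : Fin (n + 1) // c l = l} with ha
    set b : ℕ := Fintype.card {l : Fin (n + 1) // ¬ c l = l} with hb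
    have hab : a + b = n + 1 := by
      have h2 := Fintype.card_subtype_compl (fun l : Fin (n + 1) => c l = l)
      have h3 := Fintype.card_subtype_le (fun l : Fin (n + 1) => c l = l)
      rw [Fintype.card_fin] at h2 h3
      omega
    have ha1 : 1 ≤ a := Fintype.card_pos_iff.2 ⟨⟨c 0, hc1 0⟩⟩
    have hb1 : 1 ≤ b := Fintype.card_pos_iff.2 ⟨⟨l0, hl0⟩⟩
    have hG0 : 0 ≤ ∫ y in (-H)..H, g y := intervalIntegral.integral_nonneg (by linarith) fun y _ => hg0 y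
    calc H ^ a * (∫ y in (-H)..H, g y) ^ b ≤ H ^ a * (e * X * H) ^ b :=
          mul_le_mul_of_nonneg_left (pow_le_pow_left₀ hG0 hG b) (by positivity)
      _ = H ^ (n + 1) * (e ^ b * X ^ b) := by
          rw [← hab, pow_add, mul_pow, mul_pow]
          ring
      _ ≤ H ^ (n + 1) * (e * (1 + X ^ n)) := by
          refine mul_le_mul_of_nonneg_left ?_ hHn.le
          have h4 : e ^ b ≤ e := by
            calc e ^ b ≤ e ^ 1 := pow_le_pow_of_le_one he0 he1 hb1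
              _ = e := pow_one e
          have h5 : X ^ b ≤ 1 + X ^ n := by
            rcases le_or_gt X 1 with h6 | h6
            · have := pow_le_one₀ (n := b) hX h6
              have := pow_nonneg hX n
              linarith
            · have := pow_le_pow_right₀ h6.le (by omega : b ≤ n)
              linarith
          exact mul_le_mul h4 h5 (pow_nonneg hX _) he0
  have hpair : ∀ (j : Fin (n + 1)) (i : Fin n), ∫ h, i1 (h j - h (j.succAbove i)) ∂(pn (n + 1) H) ≤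
      2 ^ (n + 1) * H ^ n := by
    intro j i
    refine (pair_bd j i i1_meas i1_nn i1_le hH.le).trans ?_
    calc (2 * H) ^ n * ∫ y in (-H)..H, i1 y ≤ (2 * H) ^ n * 2 :=
          mul_le_mul_of_nonneg_left (i1_int hH.le) (by positivity)
      _ = 2 ^ (n + 1) * H ^ n := by rw [mul_pow, pow_succ]; ring
  have hs1 := integrable_finsetSum CC fun c _ => hil c
  have hs2 : Integrable (fun h : Fin (n + 1) → ℝ => ∑ j, ∑ i : Fin n, i1 (h j - h (j.succAbove i))) (pn (n + 1) H) :=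
    integrable_finsetSum _ fun j _ => integrable_finsetSum _ fun i _ => hii j i
  calc ∫ h, w h * UU δ s h ∂(pn (n + 1) H)
      ≤ ∫ h, K * (∑ c ∈ CC, lf c g h + ∑ j, ∑ i : Fin n, i1 (h j - h (j.succAbove i))) ∂(pn (n + 1) H) :=
        integral_mono_of_nonneg (Eventually.of_forall fun h => mul_nonneg (hw.nn h) (UU_pos _ _ _).le)
          ((hs1.add hs2).const_mul K) (Eventually.of_forall hpt)
    _ = K * (∑ c ∈ CC, ∫ h, lf c g h ∂(pn (n + 1) H) +
          ∑ j, ∑ i : Fin n, ∫ h, i1 (h j - h (j.succAbove i)) ∂(pn (n + 1) H)) := by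
        rw [integral_const_mul, integral_add hs1 hs2, integral_finsetSum CC fun c _ => hil c,
          integral_finsetSum _ fun j _ => integrable_finsetSum _ fun i _ => hii j i]
        congr 2
        refine Finset.sum_congr rfl fun j _ => ?_
        rw [integral_finsetSum _ fun i _ => hii j i]
    _ ≤ K * (∑ _c ∈ CC, H ^ (n + 1) * (e * (1 + X ^ n)) + ∑ _j : Fin (n + 1), ∑ _i : Fin n, (2 ^ (n + 1) * H ^ n)) := by
        refine mul_le_mul_of_nonneg_left (add_le_add (Finset.sum_le_sum hc) ?_) (by linarith)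
        exact Finset.sum_le_sum fun j _ => Finset.sum_le_sum fun i _ => hpair j i
    _ = K * (CC.card * (H ^ (n + 1) * (e * (1 + X ^ n))) + (n + 1) * n * 2 ^ (n + 1) * (H ^ (n + 1) * (1 / H))) := by
        rw [sum_const, nsmul_eq_mul]
        congr 2
        simp only [Finset.sum_const, Finset.card_univ, Fintype.card_fin, nsmul_eq_mul]
        rw [pow_succ H]
        push_cast
        field_simp
    _ ≤ K * (CC.card + 1 + (n + 1) * n * 2 ^ (n + 1)) * H ^ (n + 1) * (e * (1 + X ^ n) + 1 / H) := by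
        have hi : 0 < 1 / H := by positivity
        have a1 : 0 ≤ K * (CC.card * (H ^ (n + 1) * (1 / H))) := by positivity
        have a2 : 0 ≤ K * ((n + 1) * n * 2 ^ (n + 1) * (H ^ (n + 1) * (e * (1 + X ^ n)))) := by positivity
        have a3 : 0 ≤ K * (H ^ (n + 1) * (e * (1 + X ^ n) + 1 / H)) := by positivity
        nlinarith

/-- the integral of the main term over the region -/
lemma I_gen (hP : S_POSV) (hC : S_CONV) (n N : ℕ) (k p : ℝ) (hp : 1 < p) : ∃ C : ℝ, 0 < C ∧ ∀ δ : ℝ, 0 < δ →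
    δ ≤ 1 / 16 → ∀ H : ℝ, 1 ≤ H → ∀ w : (Fin (n + 1) → ℝ) → ℝ, Measurable w → Reg N w → ∀ e X : ℝ, 0 ≤ e → e ≤ 1 → 0 ≤ X →
    ∫ y in (-H)..H, gb1 δ (k * k * p * N) y ≤ e * X * H →
    (2 * δ) ^ (k * k * (n + 1)) * (1 / H) ^ (n + 1) * ∫ h, w h * WW k δ h ∂(pn (n + 1) H) ≤
      C * (e * (1 + X ^ n) + 1 / H) ^ (1 / p) := by
  classical
  have hkk : 0 ≤ k * k := mul_self_nonneg k
  have hp0 : 0 < p := by linarith
  set q : ℝ := p / (p - 1) with hq
  have hpq : p.HolderConjugate q := Real.HolderConjugate.conjExponent hp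
  have hq0 : 0 < q := hpq.symm.pos
  obtain ⟨c2, C2, hc2, hC2, h2⟩ := aV_bd hP (n + 1) k
  obtain ⟨K1, hK1, hU⟩ := U_gen n N (k * k * p) (by positivity)
  obtain ⟨K2, hK2, hV⟩ := VV_int n (k * k * q) (by positivity)
  refine ⟨(2 ^ (k * k * (n + 1)) * C2) * (K1 ^ (1 / p) * K2 ^ (1 / q)), by positivity,
    fun δ h0 h1 H hH w hwm hw e X he0 he1 hX hG => ?_⟩
  have hH0 : 0 < H := by linarith
  have hU1 := hU δ h0 h1 H hH0 w hwm hw e X he0 he1 hX hG
  have hV1 := hV δ h0 h1 H hH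
  -- pointwise
  have hz : 0 ≤ Z δ 0 ^ (k * k * (n + 1)) := Zp_nn _ _ _
  have hbU := fun h : Fin (n + 1) → ℝ => UU_bd h0 h1 hkk h
  have hbV := fun h : Fin (n + 1) → ℝ => VV_bd h0 h1 hkk h
  set BB : ℝ := ((1 / δ) ^ (k * k)) ^ (Fintype.card (Fin (n + 1) × Fin n)) with hBB
  have hB0 : 0 ≤ BB := by positivity
  have hwU : ∀ h : Fin (n + 1) → ℝ, 0 ≤ w h * UU δ (k * k) h ∧ w h * UU δ (k * k) h ≤ BB := fun h =>
    ⟨mul_nonneg (hw.nn h) (UU_pos _ _ _).le, (mul_le_of_le_one_left (UU_pos _ _ _).le (hw.le h)).trans (hbU h)⟩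
  have mU : Measurable fun h : Fin (n + 1) → ℝ => w h * UU δ (k * k) h := hwm.mul (UU_meas h0 n)
  have mV : Measurable fun h : Fin (n + 1) → ℝ => VV δ (k * k) h := VV_meas h0 n
  have iUV : Integrable (fun h : Fin (n + 1) → ℝ => (w h * UU δ (k * k) h) * VV δ (k * k) h) (pn (n + 1) H) :=
    int_bdd (mU.mul mV) (BB * BB) fun h => by
      rw [abs_of_nonneg (mul_nonneg (hwU h).1 (VV_nn _ _ _))]
      exact mul_le_mul (hwU h).2 (hbV h) (VV_nn _ _ _) hB0
  have e1 : ∫ h, w h * WW k δ h ∂(pn (n + 1) H) ≤ C2 * Z δ 0 ^ (k * k * (n + 1)) *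
      ∫ h, (w h * UU δ (k * k) h) * VV δ (k * k) h ∂(pn (n + 1) H) := by
    rw [← integral_const_mul]
    refine integral_mono_of_nonneg (Eventually.of_forall fun h => mul_nonneg (hw.nn h) (WW_pos hP h0.le h).le)
      (iUV.const_mul _) (Eventually.of_forall fun h => ?_)
    show w h * WW k δ h ≤ C2 * Z δ 0 ^ (k * k * (n + 1)) * ((w h * UU δ (k * k) h) * VV δ (k * k) h)
    rw [WW_eq]
    have g1 := PZ_UV (δ := δ) hkk h
    have g2 := PZ_pos h0.le (c := k * k) h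
    calc w h * (Ar k h * PZ δ (k * k) h) ≤ w h * (C2 * (Z δ 0 ^ (k * k * (n + 1)) * (UU δ (k * k) h * VV δ (k * k) h))) := by
          refine mul_le_mul_of_nonneg_left ?_ (hw.nn h)
          exact mul_le_mul (h2 h).2 g1 g2.le hC2.le
      _ = _ := by ring
  have mem1 : MemLp (fun h : Fin (n + 1) → ℝ => w h * UU δ (k * k) h) (ENNReal.ofReal p) (pn (n + 1) H) :=
    MemLp.of_bound mU.aestronglyMeasurable BB (Eventually.of_forall fun h => by
      rw [Real.norm_of_nonneg (hwU h).1]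
      exact (hwU h).2)
  have mem2 : MemLp (fun h : Fin (n + 1) → ℝ => VV δ (k * k) h) (ENNReal.ofReal q) (pn (n + 1) H) :=
    MemLp.of_bound mV.aestronglyMeasurable BB (Eventually.of_forall fun h => by
      rw [Real.norm_of_nonneg (VV_nn _ _ _)]
      exact hbV h)
  have e2 := integral_mul_le_Lp_mul_Lq_of_nonneg hpq (Eventually.of_forall fun h => (hwU h).1)
    (Eventually.of_forall fun h => VV_nn δ (k * k) h) mem1 mem2
  have e3 : ∫ h, (w h * UU δ (k * k) h) ^ p ∂(pn (n + 1) H) = ∫ h, w h * UU δ (k * k * p) h ∂(pn (n + 1) H) := by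
    refine integral_congr_ae (Eventually.of_forall fun h => ?_)
    show (w h * UU δ (k * k) h) ^ p = w h * UU δ (k * k * p) h
    rw [Real.mul_rpow (hw.nn h) (UU_pos _ _ _).le, hw.pow h hp0, UU_rpow]
  have e4 : ∫ h : Fin (n + 1) → ℝ, VV δ (k * k) h ^ q ∂(pn (n + 1) H) = ∫ h : Fin (n + 1) → ℝ, VV δ (k * k * q) h ∂(pn (n + 1) H) := by
    refine integral_congr_ae (Eventually.of_forall fun h => ?_)
    exact VV_rpow δ (k * k) q h
  rw [e3, e4] at e2
  set A : ℝ := e * (1 + X ^ n) + 1 / H with hA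
  have hA0 : 0 < A := by
    have : 0 ≤ e * (1 + X ^ n) := mul_nonneg he0 (by positivity)
    have : 0 < 1 / H := by positivity
    linarith
  have hHn : 0 < H ^ (n + 1) := by positivity
  have n1 : 0 ≤ ∫ h, w h * UU δ (k * k * p) h ∂(pn (n + 1) H) :=
    integral_nonneg fun h => mul_nonneg (hw.nn h) (UU_pos _ _ _).le
  have n2 : 0 ≤ ∫ h : Fin (n + 1) → ℝ, VV δ (k * k * q) h ∂(pn (n + 1) H) := integral_nonneg fun h => VV_nn _ _ _
  have hp1 : 0 ≤ 1 / p := by positivity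
  have hq1 : 0 ≤ 1 / q := by positivity
  have e5 : (∫ h, w h * UU δ (k * k * p) h ∂(pn (n + 1) H)) ^ (1 / p) *
      (∫ h : Fin (n + 1) → ℝ, VV δ (k * k * q) h ∂(pn (n + 1) H)) ^ (1 / q) ≤
      (K1 * H ^ (n + 1) * A) ^ (1 / p) * (K2 * H ^ (n + 1)) ^ (1 / q) :=
    mul_le_mul (Real.rpow_le_rpow n1 hU1 hp1) (Real.rpow_le_rpow n2 hV1 hq1) (Real.rpow_nonneg n2 _) (by positivity)
  have e6 : (K1 * H ^ (n + 1) * A) ^ (1 / p) * (K2 * H ^ (n + 1)) ^ (1 / q) =
      H ^ (n + 1) * ((K1 ^ (1 / p) * K2 ^ (1 / q)) * A ^ (1 / p)) := by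
    rw [Real.mul_rpow (by positivity) hA0.le, Real.mul_rpow hK1.le hHn.le, Real.mul_rpow hK2.le hHn.le]
    have g1 : (H ^ (n + 1)) ^ (1 / p) * (H ^ (n + 1)) ^ (1 / q) = H ^ (n + 1) := by
      rw [← Real.rpow_add hHn]
      have g2 := hpq.inv_add_inv_eq_one
      rw [one_div, one_div, g2, Real.rpow_one]
    calc _ = ((H ^ (n + 1)) ^ (1 / p) * (H ^ (n + 1)) ^ (1 / q)) * ((K1 ^ (1 / p) * K2 ^ (1 / q)) * A ^ (1 / p)) := by ring
      _ = _ := by rw [g1]
  have e7 : (2 * δ) ^ (k * k * (n + 1)) * Z δ 0 ^ (k * k * (n + 1)) ≤ 2 ^ (k * k * (n + 1)) := by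
    rw [← Real.mul_rpow (by linarith) (Z_nn _ _)]
    refine Real.rpow_le_rpow (mul_nonneg (by linarith) (Z_nn _ _)) ?_ (by positivity)
    have g1 := Z_le_inv h0 h1 0
    calc 2 * δ * Z δ 0 ≤ 2 * δ * (1 / δ) := mul_le_mul_of_nonneg_left g1 (by linarith)
      _ = 2 := by field_simp
  have hd : 0 ≤ (2 * δ) ^ (k * k * (n + 1)) * (1 / H) ^ (n + 1) := by positivity
  have hfin : 0 ≤ (K1 ^ (1 / p) * K2 ^ (1 / q)) * A ^ (1 / p) := by positivity
  calc (2 * δ) ^ (k * k * (n + 1)) * (1 / H) ^ (n + 1) * ∫ h, w h * WW k δ h ∂(pn (n + 1) H)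
      ≤ (2 * δ) ^ (k * k * (n + 1)) * (1 / H) ^ (n + 1) * (C2 * Z δ 0 ^ (k * k * (n + 1)) *
          (H ^ (n + 1) * ((K1 ^ (1 / p) * K2 ^ (1 / q)) * A ^ (1 / p)))) := by
        refine mul_le_mul_of_nonneg_left (e1.trans ?_) hd
        refine mul_le_mul_of_nonneg_left ?_ (mul_nonneg hC2.le hz)
        exact e2.trans (e5.trans (le_of_eq e6))
    _ = ((2 * δ) ^ (k * k * (n + 1)) * Z δ 0 ^ (k * k * (n + 1))) * C2 * ((K1 ^ (1 / p) * K2 ^ (1 / q)) * A ^ (1 / p)) := by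
        rw [one_div, inv_pow]
        field_simp
    _ ≤ 2 ^ (k * k * (n + 1)) * C2 * ((K1 ^ (1 / p) * K2 ^ (1 / q)) * A ^ (1 / p)) := by
        refine mul_le_mul_of_nonneg_right (mul_le_mul_of_nonneg_right e7 hC2.le) hfin
    _ = _ := by ring

end Run7.h772.MM
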