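import Pool.Agent.Run7.h772.MM.Zq
import Pool.Agent.Run7.h772.MM.Zn

set_option autoImplicit false

/-!
# Moments of moments near the critical line: the supercritical case, all windows
-/

namespace Run7.h772.MM

open Finset Filter MeasureTheory Topology Complex
open Pool.Agent.N748.MG Pool.Agent.N748.MJ

lemma tz {x : ℝ} (hx : 0 < x) : Tendsto (fun δ : ℝ => δ ^ x) (𝓝[>] 0) (𝓝 0) := by
  have h1 : Tendsto (fun δ : ℝ => δ) (𝓝[>] 0) (𝓝 0) := nhdsWithin_le_nhds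
  have h2 := h1.rpow_const (p := x) (Or.inr hx.le)
  rwa [Real.zero_rpow hx.ne'] at h2

/-- the ratio of the two regimes -/
noncomputable def XX (κ δ H : ℝ) : ℝ := (2 * δ) ^ (1 - κ) / H

lemma XX_pos {κ δ H : ℝ} (h0 : 0 < δ) (hH : 0 < H) : 0 < XX κ δ H := by
  unfold XX
  exact div_pos (Real.rpow_pos_of_pos (by linarith) _) hH

/-- change of normalization -/
lemma norm_change {k δ H : ℝ} (h0 : 0 < δ) (hH : 0 < H) (n : ℕ) (I : ℝ) :
    (2 * δ) ^ (k * k * (n + 1)) * (1 / H) ^ (n + 1) * I =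
      XX (k * k * (n + 1)) δ H ^ n * ((2 * δ) ^ (((n + 1) * k) ^ 2 - n) * (1 / H) * I) := by
  have h2 : (0:ℝ) < 2 * δ := by linarith
  unfold XX
  rw [div_pow ((2 * δ) ^ (1 - k * k * ((n:ℝ) + 1))) H n, ← Real.rpow_natCast ((2 * δ) ^ (1 - k * k * ((n:ℝ) + 1))),
    ← Real.rpow_mul h2.le, one_div]
  have h3 : (2 * δ) ^ (k * k * ((n:ℝ) + 1)) = (2 * δ) ^ ((1 - k * k * ((n:ℝ) + 1)) * n) * (2 * δ) ^ (((n + 1) * k) ^ 2 - (n:ℝ)) := by
    rw [← Real.rpow_add h2]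
    congr 1
    ring
  rw [h3, inv_pow, pow_succ H]
  field_simp

/-- the intermediate region -/
noncomputable def wF {n : ℕ} (h : Fin (n + 1) → ℝ) : ℝ := Fr h * (1 - NI h)

lemma wF_meas {n : ℕ} : Measurable fun h : Fin (n + 1) → ℝ => wF h := Fr_meas.mul (measurable_const.sub NI_meas)

lemma wF_reg (n : ℕ) : Reg n (wF (n := n)) := by
  classical
  intro h
  by_cases h1 : ∃ l, 1 < |h l - h 0|
  · have hF : Fr h = 1 := by
      unfold Fr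
      rw [if_pos h1]
    by_cases h2 : ∀ j, ∀ i : Fin n, 1 < |h j - h (j.succAbove i)|
    · left
      unfold wF NI
      rw [if_pos h2, sub_self, mul_zero]
    · right
      have h3 : NI h = 0 := by
        unfold NI
        rw [if_neg h2]
      refine ⟨?_, h3, Or.inr ⟨le_rfl, h1⟩⟩
      unfold wF
      rw [hF, h3, sub_zero, mul_one]
  · left
    unfold wF Fr
    rw [if_neg h1, zero_mul]

lemma Fr_NI {n : ℕ} (hn : 1 ≤ n) (h : Fin (n + 1) → ℝ) : Fr h = NI h + wF h := by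
  classical
  unfold wF
  by_cases h2 : ∀ j, ∀ i : Fin n, 1 < |h j - h (j.succAbove i)|
  · have h1 : Fr h = 1 := by
      unfold Fr
      rw [if_pos]
      set i0 : Fin n := ⟨0, by omega⟩
      refine ⟨(0 : Fin (n + 1)).succAbove i0, ?_⟩
      rw [abs_sub_comm]
      exact h2 0 i0
    have h3 : NI h = 1 := by
      unfold NI
      rw [if_pos h2]
    rw [h1, h3]
    norm_num
  · have h3 : NI h = 0 := by
      unfold NI
      rw [if_neg h2]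
    rw [h3]
    ring

/-- long windows -/
lemma far_long (hP : S_POSV) (hC : S_CONV) (n : ℕ) (hn : 1 ≤ n) (k : ℝ) (hκ : 1 < k * k * (n + 1)) (θ : ℝ) (hθ : 0 < θ)
    (ε : ℝ) (hε : 0 < ε) : ∃ δ0 : ℝ, 0 < δ0 ∧ δ0 ≤ 1 / 16 ∧ ∀ δ : ℝ, 0 < δ → δ ≤ δ0 → ∀ H : ℝ, δ ^ (-θ) ≤ H →
    |(2 * δ) ^ (k * k * (n + 1)) * (1 / H) ^ (n + 1) * (∫ h : Fin (n + 1) → ℝ, Fr h * WW k δ h ∂(pn (n + 1) H)) -
      (aC (k:ℂ)).re ^ (n + 1)| ≤ ε * (1 + XX (k * k * (n + 1)) δ H ^ n) := by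
  have hkk : 0 ≤ k * k := mul_self_nonneg k
  have hn1 : (1:ℝ) ≤ n := by exact_mod_cast hn
  set κ : ℝ := k * k * (n + 1) with hκd
  set p : ℝ := 1 + 1 / (2 * n) with hp
  have hp1 : 1 < p := by
    rw [hp]
    have : (0:ℝ) < 1 / (2 * n) := by positivity
    linarith
  have hsN : k * k * p * n = k * k * (n + 1 / 2) := by
    rw [hp]
    field_simp
  set sN : ℝ := k * k * p * n with hsNd
  have hkk0 : 0 < k * k := by
    by_contra hc
    have : k * k = 0 := le_antisymm (not_lt.1 hc) hkk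
    rw [hκd, this] at hκ
    linarith
  have hsκ : sN < κ := by
    rw [hsN, hκd]
    nlinarith
  have hsN0 : 0 ≤ sN := by rw [hsN]; positivity
  set s' : ℝ := (max 1 sN + κ) / 2 with hs'
  have hm1 : max 1 sN < κ := max_lt hκ hsκ
  have hs'1 : 1 < s' := by
    have := le_max_left 1 sN
    rw [hs']
    linarith
  have hs'2 : sN ≤ s' := by
    have := le_max_right 1 sN
    rw [hs']
    linarith
  have hs'3 : s' < κ := by
    rw [hs']
    linarith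
  set γ : ℝ := κ - s' with hγ
  have hγ0 : 0 < γ := by linarith
  obtain ⟨C1, hC1, h1⟩ := gb1_int0 sN hsN0
  obtain ⟨C2, hC2, h2⟩ := near_k sN s' hs'1 hs'2
  obtain ⟨C3, hC3, h3⟩ := I_gen hP hC n n k p hp1
  obtain ⟨H0, δ1, hH0, hδ1, hδ1', hGM⟩ := GM hP hC n k (ε / 2) (by positivity)
  set A : ℝ := C1 * C2 * 2 ^ (κ - 1) with hA
  have hA0 : 0 < A := by positivity
  -- the limits in `δ`
  have l1 : Tendsto (fun δ : ℝ => A * δ ^ γ) (𝓝[>] 0) (𝓝 0) := by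
    have h4 := (tz hγ0).const_mul A
    rwa [mul_zero] at h4
  have l2 : Tendsto (fun δ : ℝ => C3 * (A * δ ^ γ + δ ^ θ) ^ (1 / p)) (𝓝[>] 0) (𝓝 0) := by
    have h4 := l1.add (tz hθ)
    rw [add_zero] at h4
    have hp2 : 0 < 1 / p := by positivity
    have h5 := (h4.rpow_const (p := 1 / p) (Or.inr hp2.le)).const_mul C3
    rwa [Real.zero_rpow hp2.ne', mul_zero] at h5
  have l3 : Tendsto (fun δ : ℝ => δ ^ (-θ)) (𝓝[>] 0) atTop := tendsto_rpow_neg_nhdsGT_zero (by linarith)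
  have ev := ((l1.eventually_le_const one_pos).and (l2.eventually_le_const (by positivity : 0 < ε / 2))).and
    (l3.eventually_ge_atTop H0)
  obtain ⟨δ2, hδ2, hev⟩ := mem_nhdsGT_iff_exists_Ioc_subset.1 ev
  have hδ2' : 0 < δ2 := hδ2
  refine ⟨min δ1 δ2, lt_min hδ1 hδ2', (min_le_left _ _).trans hδ1', fun δ g0 g1 H hH => ?_⟩
  have g2 : δ ≤ δ1 := g1.trans (min_le_left _ _)
  have g3 : δ ∈ Set.Ioc 0 δ2 := ⟨g0, g1.trans (min_le_right _ _)⟩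
  have g4 : δ ≤ 1 / 16 := g2.trans hδ1'
  obtain ⟨⟨k1, k2⟩, k3⟩ := hev g3
  have k1' : A * δ ^ γ ≤ 1 := k1
  have k2' : C3 * (A * δ ^ γ + δ ^ θ) ^ (1 / p) ≤ ε / 2 := k2
  have k3' : H0 ≤ δ ^ (-θ) := k3
  have hHH : H0 ≤ H := k3'.trans hH
  have hH1 : 1 ≤ H := hH0.trans hHH
  have hHp : 0 < H := by linarith
  set X : ℝ := XX κ δ H with hX
  have hX0 : 0 < X := XX_pos g0 hHp
  have hXH : X * H = (2 * δ) ^ (1 - κ) := by
    rw [hX]
    unfold XX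
    field_simp
  -- the intermediate region
  have hG : ∫ y in (-H)..H, gb1 δ sN y ≤ (A * δ ^ γ) * X * H := by
    refine (h1 δ g0 g4 H hHp.le).trans ?_
    have h5 := mul_le_mul_of_nonneg_left (h2 δ g0 g4) hC1.le
    refine h5.trans (le_of_eq ?_)
    rw [mul_assoc (A * δ ^ γ), hXH, Real.mul_rpow (by norm_num) g0.le, hA]
    have e1 : δ ^ (1 - s') = δ ^ γ * δ ^ (1 - κ) := by
      rw [← Real.rpow_add g0]
      congr 1
      rw [hγ]
      ring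
    have e2 : (2:ℝ) ^ (κ - 1) * (2:ℝ) ^ (1 - κ) = 1 := by
      rw [← Real.rpow_add (by norm_num)]
      simp
    rw [e1]
    calc C1 * (C2 * (δ ^ γ * δ ^ (1 - κ))) = C1 * (C2 * (δ ^ γ * δ ^ (1 - κ))) * 1 := by ring
      _ = C1 * (C2 * (δ ^ γ * δ ^ (1 - κ))) * ((2:ℝ) ^ (κ - 1) * (2:ℝ) ^ (1 - κ)) := by rw [e2]
      _ = _ := by ring
  have h5 := h3 δ g0 g4 H hH1 wF wF_meas (wF_reg n) (A * δ ^ γ) X (by positivity) k1' hX0.le hG
  rw [← hκd] at h5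
  have hXn : 0 ≤ X ^ n := by positivity
  have h6 : C3 * (A * δ ^ γ * (1 + X ^ n) + 1 / H) ^ (1 / p) ≤ ε / 2 * (1 + X ^ n) := by
    have b1 : 1 / H ≤ δ ^ θ := by
      rw [one_div, inv_le_comm₀ hHp (Real.rpow_pos_of_pos g0 _), ← Real.rpow_neg g0.le]
      exact hH
    have hδθ : 0 < δ ^ θ := Real.rpow_pos_of_pos g0 _
    have b2 : A * δ ^ γ * (1 + X ^ n) + 1 / H ≤ (A * δ ^ γ + δ ^ θ) * (1 + X ^ n) := by nlinarith
    have hp2 : 0 ≤ 1 / p := by positivity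
    have hp3 : 1 / p ≤ 1 := by
      rw [div_le_one (by linarith)]
      linarith
    have b0 : 0 ≤ A * δ ^ γ * (1 + X ^ n) + 1 / H := by positivity
    calc C3 * (A * δ ^ γ * (1 + X ^ n) + 1 / H) ^ (1 / p)
        ≤ C3 * ((A * δ ^ γ + δ ^ θ) * (1 + X ^ n)) ^ (1 / p) :=
          mul_le_mul_of_nonneg_left (Real.rpow_le_rpow b0 b2 hp2) hC3.le
      _ = C3 * (A * δ ^ γ + δ ^ θ) ^ (1 / p) * (1 + X ^ n) ^ (1 / p) := by
          rw [Real.mul_rpow (by positivity) (by positivity)]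
          ring
      _ ≤ ε / 2 * (1 + X ^ n) := by
          refine mul_le_mul k2' ?_ (by positivity) (by positivity)
          calc (1 + X ^ n) ^ (1 / p) ≤ (1 + X ^ n) ^ (1:ℝ) :=
                Real.rpow_le_rpow_of_exponent_le (by linarith) hp3
            _ = 1 + X ^ n := Real.rpow_one _
  have h7 := h5.trans h6
  have h8 := hGM δ g0 g2 H hHH
  -- the splitting
  have iN := NIW_int hP hC (k := k) g0 n H
  have iF := FrWW_int hP hC (k := k) g0 g4 n H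
  have iw : Integrable (fun h : Fin (n + 1) → ℝ => wF h * WW k δ h) (pn (n + 1) H) := by
    refine (iF.sub iN).congr (Eventually.of_forall fun h => ?_)
    show Fr h * WW k δ h - NI h * WW k δ h = wF h * WW k δ h
    rw [Fr_NI hn h]
    ring
  have hsp : ∫ h : Fin (n + 1) → ℝ, Fr h * WW k δ h ∂(pn (n + 1) H) =
      (∫ h : Fin (n + 1) → ℝ, NI h * WW k δ h ∂(pn (n + 1) H)) + ∫ h : Fin (n + 1) → ℝ, wF h * WW k δ h ∂(pn (n + 1) H) := by
    rw [← integral_add iN iw]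
    refine integral_congr_ae (Eventually.of_forall fun h => ?_)
    show Fr h * WW k δ h = NI h * WW k δ h + wF h * WW k δ h
    rw [Fr_NI hn h]
    ring
  have hw0 : 0 ≤ (2 * δ) ^ κ * (1 / H) ^ (n + 1) * ∫ h : Fin (n + 1) → ℝ, wF h * WW k δ h ∂(pn (n + 1) H) := by
    refine mul_nonneg (by positivity) (integral_nonneg fun h => ?_)
    exact mul_nonneg ((wF_reg n).nn h) (WW_pos hP g0.le h).le
  rw [hsp, mul_add]
  unfold EN at h8
  rw [← hκd] at h8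
  rw [abs_le] at h8 ⊢
  constructor
  · nlinarith [h8.1]
  · nlinarith [h8.2]

/-- short windows -/
lemma far_short (hP : S_POSV) (hC : S_CONV) (n : ℕ) (hn : 1 ≤ n) (k : ℝ) (θ : ℝ) (hθ0 : 0 ≤ θ)
    (hθ : θ < k * k * (n + 1) - 1) (ε : ℝ) (hε : 0 < ε) : ∃ δ0 : ℝ, 0 < δ0 ∧ δ0 ≤ 1 / 16 ∧ ∀ δ : ℝ, 0 < δ → δ ≤ δ0 →
    ∀ H : ℝ, 0 < H → H ≤ δ ^ (-θ) →
    |(2 * δ) ^ (k * k * (n + 1)) * (1 / H) ^ (n + 1) * (∫ h : Fin (n + 1) → ℝ, Fr h * WW k δ h ∂(pn (n + 1) H)) -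
      (aC (k:ℂ)).re ^ (n + 1)| ≤ ε * (1 + XX (k * k * (n + 1)) δ H ^ n) := by
  obtain ⟨C, hC0, hfar⟩ := far_bd hP hC n k θ hθ0 hθ
  set κ : ℝ := k * k * (n + 1) with hκd
  have ha0 : 0 < (aC (k:ℂ)).re := Run7.h42.WN.aC_pos k
  set a : ℝ := (aC (k:ℂ)).re with ha
  have l1 : Tendsto (fun δ : ℝ => C * δ ^ (κ - 1 - θ)) (𝓝[>] 0) (𝓝 0) := by
    have h4 := (tz (by linarith : 0 < κ - 1 - θ)).const_mul C
    rwa [mul_zero] at h4
  have l2 : Tendsto (fun δ : ℝ => ε * (2 ^ (1 - κ) * δ ^ (-(κ - 1 - θ)))) (𝓝[>] 0) atTop := by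
    have h4 : Tendsto (fun δ : ℝ => δ ^ (-(κ - 1 - θ))) (𝓝[>] 0) atTop := tendsto_rpow_neg_nhdsGT_zero (by linarith)
    exact (h4.const_mul_atTop (by positivity)).const_mul_atTop hε
  have l3 : Tendsto (fun δ : ℝ => 2 ^ (1 - κ) * δ ^ (-(κ - 1 - θ))) (𝓝[>] 0) atTop := by
    have h4 : Tendsto (fun δ : ℝ => δ ^ (-(κ - 1 - θ))) (𝓝[>] 0) atTop := tendsto_rpow_neg_nhdsGT_zero (by linarith)
    exact h4.const_mul_atTop (by positivity)
  have ev := ((l1.eventually_le_const hε).and (l2.eventually_ge_atTop (a ^ (n + 1)))).and (l3.eventually_ge_atTop 1)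
  obtain ⟨δ2, hδ2, hev⟩ := mem_nhdsGT_iff_exists_Ioc_subset.1 ev
  have hδ2' : 0 < δ2 := hδ2
  refine ⟨min (1 / 16) δ2, lt_min (by norm_num) hδ2', min_le_left _ _, fun δ g0 g1 H hH hHθ => ?_⟩
  have g4 : δ ≤ 1 / 16 := g1.trans (min_le_left _ _)
  obtain ⟨⟨k1, k2⟩, k3⟩ := hev ⟨g0, g1.trans (min_le_right _ _)⟩
  have k1' : C * δ ^ (κ - 1 - θ) ≤ ε := k1
  have k2' : a ^ (n + 1) ≤ ε * (2 ^ (1 - κ) * δ ^ (-(κ - 1 - θ))) := k2
  have k3' : 1 ≤ 2 ^ (1 - κ) * δ ^ (-(κ - 1 - θ)) := k3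
  set X : ℝ := XX κ δ H with hX
  have hX0 : 0 < X := XX_pos g0 hH
  have hXl : 2 ^ (1 - κ) * δ ^ (-(κ - 1 - θ)) ≤ X := by
    rw [hX]
    unfold XX
    rw [le_div_iff₀ hH, Real.mul_rpow (by norm_num) g0.le, mul_assoc]
    refine mul_le_mul_of_nonneg_left ?_ (by positivity)
    calc δ ^ (-(κ - 1 - θ)) * H ≤ δ ^ (-(κ - 1 - θ)) * δ ^ (-θ) :=
          mul_le_mul_of_nonneg_left hHθ (Real.rpow_nonneg g0.le _)
      _ = δ ^ (1 - κ) := by
          rw [← Real.rpow_add g0]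
          congr 1
          ring
  have hX1 : 1 ≤ X := k3'.trans hXl
  have hXX : X ≤ X ^ n := by
    calc X = X ^ 1 := (pow_one X).symm
      _ ≤ X ^ n := pow_le_pow_right₀ hX1 hn
  rw [norm_change g0 hH, ← hκd, ← hX]
  have h5 := hfar δ g0 g4 H hH hHθ
  have hpos : 0 ≤ (2 * δ) ^ (((n + 1) * k) ^ 2 - n) * (1 / H) * ∫ h : Fin (n + 1) → ℝ, Fr h * WW k δ h ∂(pn (n + 1) H) := by
    refine mul_nonneg (by positivity) (integral_nonneg fun h => Fr_WW_nn hP g0.le h)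
  have hXn : 0 < X ^ n := by positivity
  have h6 : X ^ n * ((2 * δ) ^ (((n + 1) * k) ^ 2 - n) * (1 / H) * ∫ h : Fin (n + 1) → ℝ, Fr h * WW k δ h ∂(pn (n + 1) H)) ≤
      ε * X ^ n := by
    rw [mul_comm ε]
    exact mul_le_mul_of_nonneg_left (h5.trans k1') hXn.le
  have h7 : a ^ (n + 1) ≤ ε * X ^ n := by
    refine k2'.trans (mul_le_mul_of_nonneg_left (hXl.trans hXX) hε.le)
  have h8 : 0 ≤ X ^ n * ((2 * δ) ^ (((n + 1) * k) ^ 2 - n) * (1 / H) * ∫ h : Fin (n + 1) → ℝ, Fr h * WW k δ h ∂(pn (n + 1) H)) :=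
    mul_nonneg hXn.le hpos
  have h9 : 0 < a ^ (n + 1) := by positivity
  rw [abs_le]
  constructor <;> nlinarith

/-- all windows -/
lemma far_all (hP : S_POSV) (hC : S_CONV) (n : ℕ) (hn : 1 ≤ n) (k : ℝ) (hκ : 1 < k * k * (n + 1))
    (ε : ℝ) (hε : 0 < ε) : ∃ δ0 : ℝ, 0 < δ0 ∧ δ0 ≤ 1 / 16 ∧ ∀ δ : ℝ, 0 < δ → δ ≤ δ0 → ∀ H : ℝ, 0 < H →
    |(2 * δ) ^ (k * k * (n + 1)) * (1 / H) ^ (n + 1) * (∫ h : Fin (n + 1) → ℝ, Fr h * WW k δ h ∂(pn (n + 1) H)) -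
      (aC (k:ℂ)).re ^ (n + 1)| ≤ ε * (1 + XX (k * k * (n + 1)) δ H ^ n) := by
  set θ : ℝ := (k * k * (n + 1) - 1) / 2 with hθ
  have hθ0 : 0 < θ := by
    rw [hθ]
    linarith
  obtain ⟨δ1, h1, h1', h2⟩ := far_long hP hC n hn k hκ θ hθ0 ε hε
  obtain ⟨δ2, h3, h3', h4⟩ := far_short hP hC n hn k θ hθ0.le (by rw [hθ]; linarith) ε hε
  refine ⟨min δ1 δ2, lt_min h1 h3, (min_le_left _ _).trans h1', fun δ g0 g1 H hH => ?_⟩
  rcases le_total H (δ ^ (-θ)) with h5 | h5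
  · exact h4 δ g0 (g1.trans (min_le_right _ _)) H hH h5
  · exact h2 δ g0 (g1.trans (min_le_left _ _)) H h5

end Run7.h772.MM
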