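import Pool.Agent.Run7.h772.MM.Zr

set_option autoImplicit false

/-!
# Moments of moments near the critical line: the supercritical case and long windows
-/

namespace Run7.h772.MM

open Finset Filter MeasureTheory Topology Complex
open Pool.Agent.N748.MG Pool.Agent.N748.MJ

lemma DD_int_pos {c : ℝ} {n : ℕ} (hc : 1 < c * (n + 1)) : 0 < ∫ x : Fin n → ℝ, DD c x := by
  rw [integral_pos_iff_support_of_nonneg (fun x => (DD_pos c x).le) (DD_int hc)]
  have h1 : Function.support (fun x : Fin n → ℝ => DD c x) = Set.univ := by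
    ext x
    simp [(DD_pos c x).ne']
  rw [h1]
  exact Measure.measure_univ_pos.2 (NeZero.ne _)

/-- from the integrals of the main terms to the moments of moments -/
lemma transfer (hS : S_SM) (hP : S_POSV) (hC : S_CONV) {d H : ℝ → ℝ} (hd : Ad d) (hHp : ∀ᶠ T : ℝ in atTop, 0 < H T)
    (hH1 : ∀ᶠ T : ℝ in atTop, H T ≤ T ^ ((1:ℝ) / 2)) (n : ℕ) (k V : ℝ) (hk : 0 < k) (hV : (n + 1) * k < V)
    {b : ℝ → ℝ} (hb : ∀ᶠ T : ℝ in atTop, 0 ≤ b T) {L : ℝ}
    (hL : Tendsto (fun T : ℝ => b T * ((1 / H T) ^ (n + 1) * JJ k (d T) (n + 1) (H T))) atTop (𝓝 L)) :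
    Tendsto (fun T : ℝ => b T * MoM k V (n + 1) (d T) (H T) T) atTop (𝓝 L) := by
  have h2 := close (a := fun T => b T * (1 / H T) ^ (n + 1)) (J := fun T => JJ k (d T) (n + 1) (H T))
    (X := fun T => H T ^ (n + 1) * MoM k V (n + 1) (d T) (H T) T) (by
      filter_upwards [hb, hHp] with T g1 g2
      exact mul_nonneg g1 (by positivity)) (hL.congr fun T => by ring)
    (fun ε hε => master hS hP hC hd (n + 1) k V hk (by push_cast; exact hV) hHp hH1 ε hε)
  refine h2.congr' ?_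
  filter_upwards [hHp] with T g2
  have h4 : (1 / H T) ^ (n + 1) * H T ^ (n + 1) = 1 := by
    rw [← mul_pow, one_div_mul_cancel g2.ne', one_pow]
  calc b T * (1 / H T) ^ (n + 1) * (H T ^ (n + 1) * MoM k V (n + 1) (d T) (H T) T)
      = b T * ((1 / H T) ^ (n + 1) * H T ^ (n + 1)) * MoM k V (n + 1) (d T) (H T) T := by ring
    _ = _ := by rw [h4, mul_one]

/-- the supercritical case, all windows -/
theorem superall (hS : S_SM) (hP : S_POSV) (hC : S_CONV) (hA : S_AV0) {d H : ℝ → ℝ} (hd : Ad d)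
    (hHd : Tendsto (fun T => H T / d T) atTop atTop) (hH1 : ∀ᶠ T : ℝ in atTop, H T ≤ T ^ ((1:ℝ) / 2)) (n : ℕ) (hn : 1 ≤ n)
    (k V : ℝ) (hk : 0 < k) (hV : (n + 1) * k < V) (hκ : 1 < k * k * (n + 1)) :
    Tendsto (fun T : ℝ => (2 * d T) ^ (k * k * (n + 1)) * MoM k V (n + 1) (d T) (H T) T /
      ((aC (k:ℂ)).re ^ (n + 1) + ((aC (((n + 1 : ℕ) * k : ℝ) : ℂ)).re * ∫ x : Fin n → ℝ, DD (k * k) x) *
        XX (k * k * (n + 1)) (d T) (H T) ^ n)) atTop (𝓝 1) := by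
  have hdp := hd.pos
  have hd0 := hd.t0
  have hHp : ∀ᶠ T : ℝ in atTop, 0 < H T := by
    filter_upwards [hHd.eventually_gt_atTop 0, hdp] with T g1 g2
    have := mul_pos g1 g2
    rwa [div_mul_cancel₀ _ g2.ne'] at this
  set κ : ℝ := k * k * (n + 1) with hκd
  set a : ℝ := (aC (k:ℂ)).re with ha
  have ha0 : 0 < a := Run7.h42.WN.aC_pos k
  set B : ℝ := (aC (((n + 1 : ℕ) * k : ℝ) : ℂ)).re * ∫ x : Fin n → ℝ, DD (k * k) x with hB
  have hB0 : 0 < B := mul_pos (Run7.h42.WN.aC_pos _) (DD_int_pos hκ)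
  set c0 : ℝ := min (a ^ (n + 1)) B with hc0
  have hc00 : 0 < c0 := lt_min (by positivity) hB0
  set D : ℝ → ℝ := fun T => a ^ (n + 1) + B * XX κ (d T) (H T) ^ n with hD
  have hDl : ∀ᶠ T : ℝ in atTop, c0 * (1 + XX κ (d T) (H T) ^ n) ≤ D T := by
    filter_upwards [hdp, hHp] with T g1 g2
    have hX : 0 < XX κ (d T) (H T) ^ n := pow_pos (XX_pos g1 g2) n
    have e1 : c0 ≤ a ^ (n + 1) := min_le_left _ _
    have e2 : c0 ≤ B := min_le_right _ _
    show c0 * (1 + XX κ (d T) (H T) ^ n) ≤ a ^ (n + 1) + B * XX κ (d T) (H T) ^ n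
    nlinarith
  have hDp : ∀ᶠ T : ℝ in atTop, 0 < D T := by
    filter_upwards [hDl, hdp, hHp] with T g0 g1 g2
    have hX : 0 < XX κ (d T) (H T) ^ n := pow_pos (XX_pos g1 g2) n
    exact lt_of_lt_of_le (by positivity) g0
  have hnear := near_lim hP hC hA hdp hd0 hHp hHd n k (by rw [← hκd]; exact hκ)
  have hd1 : ∀ᶠ T : ℝ in atTop, d T ≤ 1 / 16 := hd0.eventually_le_const (by norm_num)
  have hJ : Tendsto (fun T : ℝ => ((2 * d T) ^ κ / D T) * ((1 / H T) ^ (n + 1) * JJ k (d T) (n + 1) (H T))) atTop (𝓝 1) := by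
    rw [Metric.tendsto_nhds]
    intro ε hε
    set η : ℝ := ε * c0 / 3 with hη
    have hη0 : 0 < η := by positivity
    obtain ⟨δ0, hδ0, hδ0', hfar⟩ := far_all hP hC n hn k hκ η hη0
    have hnear' := (Metric.tendsto_nhds.1 hnear) η hη0
    filter_upwards [hDl, hDp, hdp, hHp, hd1, hd0.eventually_le_const hδ0, hnear'] with T g1 g2 g3 g4 g5 g6 g7
    rw [Real.dist_eq] at g7 ⊢
    have g8 := hfar (d T) g3 g6 (H T) g4
    rw [← hκd] at g8
    set X : ℝ := XX κ (d T) (H T) with hX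
    have hX0 : 0 < X ^ n := pow_pos (XX_pos g3 g4) n
    have g9 : |(2 * d T) ^ κ * (1 / H T) ^ (n + 1) * JJ k (d T) (n + 1) (H T) - D T| ≤ η * X ^ n + η * (1 + X ^ n) := by
      rw [JJ_split hP hC g3 g5 n (H T), mul_add, norm_change g3 g4 n (∫ h, FN k (d T) h ∂(pn (n + 1) (H T))), ← hκd, ← hX]
      have e1 : X ^ n * ((2 * d T) ^ (((n + 1) * k) ^ 2 - n) * (1 / H T) * ∫ h, FN k (d T) h ∂(pn (n + 1) (H T))) +
          (2 * d T) ^ κ * (1 / H T) ^ (n + 1) * (∫ h : Fin (n + 1) → ℝ, Fr h * WW k (d T) h ∂(pn (n + 1) (H T))) - D T =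
          X ^ n * ((2 * d T) ^ (((n + 1) * k) ^ 2 - n) * (1 / H T) * (∫ h, FN k (d T) h ∂(pn (n + 1) (H T))) - B) +
          ((2 * d T) ^ κ * (1 / H T) ^ (n + 1) * (∫ h : Fin (n + 1) → ℝ, Fr h * WW k (d T) h ∂(pn (n + 1) (H T))) -
            a ^ (n + 1)) := by
        simp only [hD]
        ring
      rw [e1]
      refine (abs_add_le _ _).trans (add_le_add ?_ g8)
      rw [abs_mul, abs_of_pos hX0, mul_comm]
      exact mul_le_mul_of_nonneg_right g7.le hX0.le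
    have e2 : ((2 * d T) ^ κ / D T) * ((1 / H T) ^ (n + 1) * JJ k (d T) (n + 1) (H T)) - 1 =
        ((2 * d T) ^ κ * (1 / H T) ^ (n + 1) * JJ k (d T) (n + 1) (H T) - D T) / D T := by
      field_simp
    rw [e2, abs_div, abs_of_pos g2, div_lt_iff₀ g2]
    have e3 : η * X ^ n + η * (1 + X ^ n) ≤ 2 * η * (1 + X ^ n) := by nlinarith
    have e4 : 2 * η * (1 + X ^ n) < ε * (c0 * (1 + X ^ n)) := by
      rw [hη]
      have : 0 < ε * (c0 * (1 + X ^ n)) := by positivity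
      nlinarith
    have e5 : ε * (c0 * (1 + X ^ n)) ≤ ε * D T := mul_le_mul_of_nonneg_left g1 hε.le
    linarith
  have h2 := transfer hS hP hC hd hHp hH1 n k V hk hV (b := fun T => (2 * d T) ^ κ / D T) (by
    filter_upwards [hDp, hdp] with T g1 g2
    exact div_nonneg (Real.rpow_nonneg (by linarith) _) g1.le) hJ
  refine h2.congr fun T => ?_
  ring

/-! ### long windows -/

/-- the integral of a small power near the pole -/
lemma near_sub (s : ℝ) (hs0 : 0 ≤ s) (hs : s < 1) : ∃ C : ℝ, 0 < C ∧ ∀ δ : ℝ, 0 < δ → δ ≤ 1 / 16 →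
    ∫ y in (0:ℝ)..1, Z δ y ^ s ≤ C := by
  obtain ⟨c, C, hc, hC, h⟩ := Z_near 1
  have h1s : 0 < 1 - s := by linarith
  refine ⟨C ^ s * (1 / (1 - s)), by positivity, fun δ h0 h1 => ?_⟩
  have hi : IntervalIntegrable (fun y : ℝ => y ^ (-s)) volume 0 1 := intervalIntegral.intervalIntegrable_rpow' (by linarith)
  have h2 : ∫ y in (0:ℝ)..1, Z δ y ^ s ≤ ∫ y in (0:ℝ)..1, C ^ s * y ^ (-s) := by
    refine intervalIntegral.integral_mono_on_of_le_Ioo zero_le_one ((Zp_cont h0).intervalIntegrable _ _) (hi.const_mul _)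
      fun y hy => ?_
    have h3 := (h δ h0.le h1 y (by rw [abs_of_pos hy.1]; exact hy.2.le) (Or.inl h0)).2
    have h4 : Z δ y ≤ C / y := by
      refine h3.trans (div_le_div_of_nonneg_left hC.le hy.1 ?_)
      have := nr_ge_right δ y
      rwa [abs_of_pos hy.1] at this
    calc Z δ y ^ s ≤ (C / y) ^ s := Real.rpow_le_rpow (Z_nn _ _) h4 hs0
      _ = C ^ s * y ^ (-s) := by
          rw [Real.div_rpow hC.le hy.1.le, Real.rpow_neg hy.1.le, div_eq_mul_inv]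
  refine h2.trans (le_of_eq ?_)
  rw [intervalIntegral.integral_const_mul, integral_rpow (Or.inl (by linarith))]
  rw [Real.one_rpow, Real.zero_rpow (by linarith)]
  congr 1
  rw [sub_zero]
  congr 1
  ring

/-- the points which are not far from each other -/
noncomputable def wN {n : ℕ} (h : Fin (n + 1) → ℝ) : ℝ := 1 - NI h

lemma wN_reg (n : ℕ) : Reg (n + 1) (wN (n := n)) := by
  classical
  intro h
  by_cases h2 : ∀ j, ∀ i : Fin n, 1 < |h j - h (j.succAbove i)|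
  · left
    unfold wN NI
    rw [if_pos h2, sub_self]
  · right
    have h3 : NI h = 0 := by
      unfold NI
      rw [if_neg h2]
    refine ⟨?_, h3, Or.inl le_rfl⟩
    unfold wN
    rw [h3, sub_zero]

lemma wN_meas {n : ℕ} : Measurable fun h : Fin (n + 1) → ℝ => wN h := measurable_const.sub NI_meas

/-- the total mean, if the clusters are negligible -/
lemma total (hP : S_POSV) (hC : S_CONV) (n : ℕ) (k p : ℝ) (hp : 1 < p) (ε : ℝ) (hε : 0 < ε) : ∃ H0 δ0 η : ℝ, 1 ≤ H0 ∧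
    0 < δ0 ∧ δ0 ≤ 1 / 16 ∧ 0 < η ∧ ∀ δ : ℝ, 0 < δ → δ ≤ δ0 → ∀ H ≥ H0, ∀ e : ℝ, 0 ≤ e → e ≤ η →
      ∫ y in (-H)..H, gb1 δ (k * k * p * (n + 1 : ℕ)) y ≤ e * H →
      |(2 * δ) ^ (k * k * (n + 1)) * ((1 / H) ^ (n + 1) * JJ k δ (n + 1) H) - (aC (k:ℂ)).re ^ (n + 1)| ≤ ε := by
  obtain ⟨C3, hC3, h3⟩ := I_gen hP hC n (n + 1) k p hp
  obtain ⟨H1, δ1, hH1, hδ1, hδ1', hGM⟩ := GM hP hC n k (ε / 2) (by positivity)
  have hp2 : 0 < 1 / p := by positivity
  have l1 : Tendsto (fun x : ℝ => C3 * (3 * x) ^ (1 / p)) (𝓝[>] 0) (𝓝 0) := by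
    have h0 : Tendsto (fun δ : ℝ => δ) (𝓝[>] 0) (𝓝 0) := nhdsWithin_le_nhds
    have h4 := ((h0.const_mul 3).rpow_const (p := 1 / p) (Or.inr hp2.le)).const_mul C3
    rwa [mul_zero, Real.zero_rpow hp2.ne', mul_zero] at h4
  have ev := (l1.eventually_le_const (by positivity : 0 < ε / 2)).and
    (nhdsWithin_le_nhds (Iic_mem_nhds one_pos) : ∀ᶠ x : ℝ in 𝓝[>] 0, x ≤ 1)
  obtain ⟨η, ⟨hη1, hη2⟩, hη0⟩ := (ev.and self_mem_nhdsWithin).exists
  have hη0' : 0 < η := hη0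
  have hη1' : C3 * (3 * η) ^ (1 / p) ≤ ε / 2 := hη1
  refine ⟨max H1 (1 / η), δ1, η, hH1.trans (le_max_left _ _), hδ1, hδ1', hη0', fun δ g0 g1 H hH e he0 he1 hG => ?_⟩
  have hHH : H1 ≤ H := (le_max_left _ _).trans hH
  have hH1' : 1 ≤ H := hH1.trans hHH
  have hHp : 0 < H := by linarith
  have hHη : 1 / H ≤ η := by
    rw [one_div, inv_le_comm₀ hHp hη0', ← one_div]
    exact (le_max_right _ _).trans hH
  have h5 := h3 δ g0 (g1.trans hδ1') H hH1' wN wN_meas (wN_reg n) e 1 he0 (he1.trans hη2) zero_le_one (by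
    rw [mul_one]
    exact hG)
  have h6 : C3 * (e * (1 + 1 ^ n) + 1 / H) ^ (1 / p) ≤ ε / 2 := by
    refine le_trans (mul_le_mul_of_nonneg_left (Real.rpow_le_rpow (by positivity) ?_ hp2.le) hC3.le) hη1'
    rw [one_pow]
    linarith
  have h7 := h5.trans h6
  have h8 := hGM δ g0 g1 H hHH
  have iN := NIW_int hP hC (k := k) g0 n H
  have iW := WW_int hC (k := k) g0 (n + 1) H
  have iw : Integrable (fun h : Fin (n + 1) → ℝ => wN h * WW k δ h) (pn (n + 1) H) := by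
    refine (iW.sub iN).congr (Eventually.of_forall fun h => ?_)
    show WW k δ h - NI h * WW k δ h = wN h * WW k δ h
    unfold wN
    ring
  have hsp : JJ k δ (n + 1) H =
      (∫ h : Fin (n + 1) → ℝ, NI h * WW k δ h ∂(pn (n + 1) H)) + ∫ h : Fin (n + 1) → ℝ, wN h * WW k δ h ∂(pn (n + 1) H) := by
    unfold JJ
    rw [← integral_add iN iw]
    refine integral_congr_ae (Eventually.of_forall fun h => ?_)
    show WW k δ h = NI h * WW k δ h + wN h * WW k δ h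
    unfold wN
    ring
  have hw0 : 0 ≤ (2 * δ) ^ (k * k * (n + 1)) * (1 / H) ^ (n + 1) * ∫ h : Fin (n + 1) → ℝ, wN h * WW k δ h ∂(pn (n + 1) H) := by
    refine mul_nonneg (by positivity) (integral_nonneg fun h => ?_)
    exact mul_nonneg ((wN_reg n).nn h) (WW_pos hP g0.le h).le
  rw [hsp, ← mul_assoc, mul_add]
  unfold EN at h8
  rw [abs_le] at h8 ⊢
  constructor
  · linarith [h8.1]
  · linarith [h8.2]

/-- the subcritical case, windows tending to infinity -/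
lemma JJ_sub_long (hP : S_POSV) (hC : S_CONV) {d H : ℝ → ℝ} (hdp : ∀ᶠ T : ℝ in atTop, 0 < d T) (hd0 : Tendsto d atTop (𝓝 0))
    (hH : Tendsto H atTop atTop) (n : ℕ) (k : ℝ) (hk : 0 < k) (hκ : k * k * (n + 1) < 1) :
    Tendsto (fun T : ℝ => (2 * d T) ^ (k * k * (n + 1)) * ((1 / H T) ^ (n + 1) * JJ k (d T) (n + 1) (H T))) atTop
      (𝓝 ((aC (k:ℂ)).re ^ (n + 1))) := by
  set κ : ℝ := k * k * (n + 1) with hκd
  have hκ0 : 0 < κ := by positivity
  set p : ℝ := (1 + κ) / (2 * κ) with hp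
  have hp1 : 1 < p := by
    rw [hp, lt_div_iff₀ (by positivity)]
    linarith
  have hs : k * k * p * ((n + 1 : ℕ) : ℝ) = (1 + κ) / 2 := by
    have h1 : k * k * p * ((n + 1 : ℕ) : ℝ) = κ * p := by
      rw [hκd]
      push_cast
      ring
    rw [h1, hp]
    field_simp
  obtain ⟨C1, hC1, h1⟩ := gb1_int0 ((1 + κ) / 2) (by positivity)
  obtain ⟨C2, hC2, h2⟩ := near_sub ((1 + κ) / 2) (by positivity) (by linarith)
  rw [Metric.tendsto_nhds]
  intro ε hε
  obtain ⟨H0, δ0, η, hH0, hδ0, hδ0', hη, ht⟩ := total hP hC n k p hp1 (ε / 2) (by positivity)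
  filter_upwards [hdp, hd0.eventually_le_const hδ0, hH.eventually_ge_atTop (max H0 (C1 * C2 / η))] with T g1 g2 g3
  have g4 : H0 ≤ H T := (le_max_left _ _).trans g3
  have g5 : C1 * C2 / η ≤ H T := (le_max_right _ _).trans g3
  have g6 : 0 < H T := by linarith
  have g7 := ht (d T) g1 g2 (H T) g4 (C1 * C2 / H T) (by positivity) (by
    rw [div_le_iff₀ g6]
    rw [div_le_iff₀ hη] at g5
    linarith) (by
    rw [hs, div_mul_cancel₀ _ g6.ne']
    exact (h1 (d T) g1 (g2.trans hδ0') (H T) g6.le).trans (mul_le_mul_of_nonneg_left (h2 (d T) g1 (g2.trans hδ0')) hC1.le))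
  rw [Real.dist_eq]
  rw [← hκd] at g7
  linarith

/-- windows longer than a power of the distance to the line -/
lemma JJ_long (hP : S_POSV) (hC : S_CONV) {d H : ℝ → ℝ} (hdp : ∀ᶠ T : ℝ in atTop, 0 < d T) (hd0 : Tendsto d atTop (𝓝 0))
    (n : ℕ) (k θ : ℝ) (hk : 0 < k) (hθ0 : 0 < θ) (hθ : k * k * (n + 1) - 1 < θ)
    (hH : ∀ᶠ T : ℝ in atTop, d T ^ (-θ) ≤ H T) :
    Tendsto (fun T : ℝ => (2 * d T) ^ (k * k * (n + 1)) * ((1 / H T) ^ (n + 1) * JJ k (d T) (n + 1) (H T))) atTop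
      (𝓝 ((aC (k:ℂ)).re ^ (n + 1))) := by
  set κ : ℝ := k * k * (n + 1) with hκd
  have hκ0 : 0 < κ := by positivity
  set M : ℝ := max 1 κ with hM
  have hM1 : 1 ≤ M := le_max_left _ _
  have hMθ : M < 1 + θ := max_lt (by linarith) (by linarith)
  set s' : ℝ := (M + (1 + θ)) / 2 with hs'
  have hs1 : 1 < s' := by rw [hs']; linarith
  have hsθ : s' < 1 + θ := by rw [hs']; linarith
  have hsM : M < s' := by rw [hs']; linarith
  set p : ℝ := s' / M with hp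
  have hM0 : 0 < M := by linarith
  have hp1 : 1 < p := by
    rw [hp, lt_div_iff₀ hM0]
    linarith
  have hs : k * k * p * ((n + 1 : ℕ) : ℝ) ≤ s' := by
    have h1 : k * k * p * ((n + 1 : ℕ) : ℝ) = κ * p := by
      rw [hκd]
      push_cast
      ring
    rw [h1, hp]
    have h2 : κ ≤ M := le_max_right _ _
    calc κ * (s' / M) ≤ M * (s' / M) := mul_le_mul_of_nonneg_right h2 (by positivity)
      _ = s' := by field_simp
  set sN : ℝ := k * k * p * ((n + 1 : ℕ) : ℝ) with hsN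
  have hsN0 : 0 ≤ sN := by positivity
  obtain ⟨C1, hC1, h1⟩ := gb1_int0 sN hsN0
  obtain ⟨C2, hC2, h2⟩ := near_k sN s' hs1 hs
  rw [Metric.tendsto_nhds]
  intro ε hε
  obtain ⟨H0, δ0, η, hH0, hδ0, hδ0', hη, ht⟩ := total hP hC n k p hp1 (ε / 2) (by positivity)
  have hd0' : Tendsto d atTop (𝓝[>] 0) := tendsto_nhdsWithin_iff.2 ⟨hd0, hdp⟩
  have l1 : Tendsto (fun δ : ℝ => C1 * C2 * δ ^ (1 + θ - s')) (𝓝[>] 0) (𝓝 0) := by
    have h4 := (tz (by linarith : 0 < 1 + θ - s')).const_mul (C1 * C2)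
    rwa [mul_zero] at h4
  have l3 : Tendsto (fun δ : ℝ => δ ^ (-θ)) (𝓝[>] 0) atTop := tendsto_rpow_neg_nhdsGT_zero (by linarith)
  filter_upwards [hdp, hd0.eventually_le_const hδ0, hH, hd0'.eventually (l1.eventually_le_const hη),
    hd0'.eventually (l3.eventually_ge_atTop H0)] with T g1 g2 g3 g4 g5
  have g6 : H0 ≤ H T := g5.trans g3
  have g7 : 0 < H T := by linarith
  have hdt : 0 < d T ^ (-θ) := Real.rpow_pos_of_pos g1 _
  have g8 := ht (d T) g1 g2 (H T) g6 (C1 * C2 * d T ^ (1 + θ - s')) (by positivity) g4 (by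
    refine (h1 (d T) g1 (g2.trans hδ0') (H T) g7.le).trans ?_
    refine (mul_le_mul_of_nonneg_left (h2 (d T) g1 (g2.trans hδ0')) hC1.le).trans ?_
    have e1 : d T ^ (1 - s') = d T ^ (1 + θ - s') * d T ^ (-θ) := by
      rw [← Real.rpow_add g1]
      congr 1
      ring
    rw [e1]
    calc C1 * (C2 * (d T ^ (1 + θ - s') * d T ^ (-θ))) = C1 * C2 * d T ^ (1 + θ - s') * d T ^ (-θ) := by ring
      _ ≤ C1 * C2 * d T ^ (1 + θ - s') * H T := mul_le_mul_of_nonneg_left g3 (by positivity))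
  rw [Real.dist_eq]
  rw [← hκd] at g8
  linarith

end Run7.h772.MM
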