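import Pool.Agent.Run7.h772.MM.Zs

set_option autoImplicit false

/-!
# Moments of moments near the critical line: bounded windows
-/

namespace Run7.h772.MM

open Finset Filter MeasureTheory Topology Complex
open Pool.Agent.N748.MG Pool.Agent.N748.MJ

/-- scaling of the cube -/
lemma scale_cube (m : ℕ) (F : (Fin m → ℝ) → ℝ) {H : ℝ} (hH : 0 < H) :
    (1 / H) ^ m * ∫ h, F h ∂(pn m H) = ∫ u, F (fun j => H * u j) ∂(pn m 1) := by
  have hbox : ∀ R : ℝ, MeasurableSet (Set.univ.pi fun _ : Fin m => Set.Icc (0:ℝ) R) := fun R =>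
    MeasurableSet.univ_pi fun _ => measurableSet_Icc
  rw [pn_eq, pn_eq, ← integral_indicator (hbox H), ← integral_indicator (hbox 1)]
  have h2 := Measure.integral_comp_smul (volume : Measure (Fin m → ℝ))
    ((Set.univ.pi fun _ : Fin m => Set.Icc (0:ℝ) H).indicator F) H
  rw [Module.finrank_fin_fun, abs_of_pos (by positivity), smul_eq_mul] at h2
  rw [one_div, inv_pow, ← h2]
  refine integral_congr_ae (Eventually.of_forall fun u => ?_)
  show (Set.univ.pi fun _ : Fin m => Set.Icc (0:ℝ) H).indicator F (H • u) =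
    (Set.univ.pi fun _ : Fin m => Set.Icc (0:ℝ) 1).indicator (fun u => F (fun j => H * u j)) u
  by_cases hu : u ∈ Set.univ.pi fun _ : Fin m => Set.Icc (0:ℝ) 1
  · have hu2 : H • u ∈ Set.univ.pi fun _ : Fin m => Set.Icc (0:ℝ) H := by
      intro j hj
      have h3 := hu j hj
      show H * u j ∈ Set.Icc 0 H
      exact ⟨mul_nonneg hH.le h3.1, by nlinarith [h3.2]⟩
    rw [Set.indicator_of_mem hu, Set.indicator_of_mem hu2]
    rfl
  · have hu2 : H • u ∉ Set.univ.pi fun _ : Fin m => Set.Icc (0:ℝ) H := by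
      intro hc
      apply hu
      intro j hj
      have h3 : H * u j ∈ Set.Icc 0 H := hc j hj
      constructor
      · by_contra h4
        push Not at h4
        nlinarith [h3.1]
      · by_contra h4
        push Not at h4
        nlinarith [h3.2]
    rw [Set.indicator_of_notMem hu, Set.indicator_of_notMem hu2]

/-! ### microscopic windows -/

lemma Z_micro {d H : ℝ → ℝ} (hdp : ∀ᶠ T : ℝ in atTop, 0 < d T) (hd0 : Tendsto d atTop (𝓝 0)) {x : ℝ}
    (hx : Tendsto (fun T => H T / (2 * d T)) atTop (𝓝 x)) (y : ℝ) :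
    Tendsto (fun T => 2 * d T * Z (d T) (H T * y)) atTop (𝓝 ((1 + (x * y) ^ 2) ^ (-(1 / 2 : ℝ)))) := by
  have hH0 : Tendsto H atTop (𝓝 0) := by
    have h1 := hx.mul (hd0.const_mul 2)
    rw [mul_zero, mul_zero] at h1
    refine h1.congr' ?_
    filter_upwards [hdp] with T g1
    field_simp
  have h1 : Tendsto (fun T => ‖Z1 (((1 + 2 * d T : ℝ) : ℂ) + ((H T * y : ℝ) : ℂ) * I)‖) atTop (𝓝 1) := by
    have hc : Continuous fun q : ℝ × ℝ => ‖Z1 (((1 + 2 * q.1 : ℝ) : ℂ) + ((q.2 * y : ℝ) : ℂ) * I)‖ := by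
      refine (Z1_cont.comp ?_).norm
      fun_prop
    have h2 := (hc.tendsto (0, 0)).comp (hd0.prodMk_nhds hH0)
    have h3 : ‖Z1 (((1 + 2 * (0, (0:ℝ)).1 : ℝ) : ℂ) + (((0, (0:ℝ)).2 * y : ℝ) : ℂ) * I)‖ = 1 := by
      simp [Z1_one]
    have h4 := h2
    rw [h3] at h4
    exact h4
  have h2 : Tendsto (fun T => (1 + (H T / (2 * d T) * y) ^ 2) ^ (-(1 / 2 : ℝ))) atTop (𝓝 ((1 + (x * y) ^ 2) ^ (-(1 / 2 : ℝ)))) :=
    (((hx.mul_const y).pow 2).const_add 1).rpow_const (Or.inl (one_sq_pos _).ne')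
  have h3 := h1.mul h2
  rw [one_mul] at h3
  refine h3.congr' ?_
  filter_upwards [hdp] with T g1
  rw [Z_eq (Or.inl g1)]
  have h4 : nr (d T) (H T * y) = 2 * d T * Real.sqrt (1 + (H T / (2 * d T) * y) ^ 2) := by
    rw [← nr_scale g1]
    congr 1
    field_simp
  have h5 : 0 < Real.sqrt (1 + (H T / (2 * d T) * y) ^ 2) := Real.sqrt_pos.2 (one_sq_pos _)
  have h6 : (1 + (H T / (2 * d T) * y) ^ 2) ^ (-(1 / 2 : ℝ)) = (Real.sqrt (1 + (H T / (2 * d T) * y) ^ 2))⁻¹ := by
    rw [Real.rpow_neg (one_sq_pos _).le, Real.sqrt_eq_rpow]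
  rw [h4, h6]
  field_simp

lemma PZ_mul {δ k : ℝ} (h0 : 0 < δ) {n : ℕ} (h : Fin (n + 1) → ℝ) :
    (2 * δ) ^ (((n + 1) * k) ^ 2) * PZ δ (k * k) h = ∏ j, ∏ l, (2 * δ * Z δ (h j - h l)) ^ (k * k) := by
  have h2 : (0:ℝ) < 2 * δ := by linarith
  unfold PZ
  have h3 : (2 * δ) ^ (((n + 1) * k) ^ 2) = ∏ _j : Fin (n + 1), ∏ _l : Fin (n + 1), (2 * δ) ^ (k * k) := by
    simp only [Finset.prod_const, Finset.card_univ, Fintype.card_fin]
    have e : (((2 * δ) ^ (k * k)) ^ (n + 1)) ^ (n + 1) = (2 * δ) ^ ((k * k) * (((n + 1) * (n + 1) : ℕ) : ℝ)) := by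
      rw [← pow_mul, ← Real.rpow_natCast ((2 * δ) ^ (k * k)), ← Real.rpow_mul h2.le]
    rw [e]
    congr 1
    push_cast
    ring
  rw [h3, ← Finset.prod_mul_distrib]
  refine Finset.prod_congr rfl fun j _ => ?_
  rw [← Finset.prod_mul_distrib]
  refine Finset.prod_congr rfl fun l _ => ?_
  rw [Real.mul_rpow h2.le (Z_nn _ _)]

/-- the density for the microscopic windows -/
noncomputable def DX (c x : ℝ) {m : ℕ} (u : Fin m → ℝ) : ℝ := ∏ j, ∏ l, (1 + (x * (u j - u l)) ^ 2) ^ (-(c / 2))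

/-- microscopic windows -/
lemma JJ_micro (hP : S_POSV) (hC : S_CONV) (hA : S_AV0) {d H : ℝ → ℝ} (hdp : ∀ᶠ T : ℝ in atTop, 0 < d T)
    (hd0 : Tendsto d atTop (𝓝 0)) (hHp : ∀ᶠ T : ℝ in atTop, 0 < H T) {x : ℝ}
    (hx : Tendsto (fun T => H T / (2 * d T)) atTop (𝓝 x)) (n : ℕ) (k : ℝ) :
    Tendsto (fun T : ℝ => (2 * d T) ^ (((n + 1) * k) ^ 2) * ((1 / H T) ^ (n + 1) * JJ k (d T) (n + 1) (H T))) atTop
      (𝓝 ((aC (((n + 1 : ℕ) * k : ℝ) : ℂ)).re * ∫ u : Fin (n + 1) → ℝ, DX (k * k) x u ∂(pn (n + 1) 1))) := by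
  have hd1 : ∀ᶠ T : ℝ in atTop, d T ≤ 1 / 16 := hd0.eventually_le_const (by norm_num)
  have hkk : 0 ≤ k * k := mul_self_nonneg k
  have hH0 : Tendsto H atTop (𝓝 0) := by
    have h1 := hx.mul (hd0.const_mul 2)
    rw [mul_zero, mul_zero] at h1
    refine h1.congr' ?_
    filter_upwards [hdp] with T g1
    field_simp
  obtain ⟨c2, C2, hc2, hC2, h2⟩ := aV_bd hP (n + 1) k
  set M : ℝ := C2 * ((2:ℝ) ^ (k * k)) ^ ((n + 1) * (n + 1)) with hM
  rw [← integral_const_mul]
  have heq : (fun T : ℝ => ∫ u : Fin (n + 1) → ℝ, (2 * d T) ^ (((n + 1) * k) ^ 2) * WW k (d T) (fun j => H T * u j)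
      ∂(pn (n + 1) 1)) =ᶠ[atTop]
      fun T : ℝ => (2 * d T) ^ (((n + 1) * k) ^ 2) * ((1 / H T) ^ (n + 1) * JJ k (d T) (n + 1) (H T)) := by
    filter_upwards [hHp] with T g1
    unfold JJ
    rw [scale_cube (n + 1) (fun h => WW k (d T) h) g1, integral_const_mul]
  refine Tendsto.congr' heq ?_
  refine tendsto_integral_filter_of_dominated_convergence (fun _ => M) ?_ ?_ (integrable_const M)
    (Eventually.of_forall fun u => ?_)
  · filter_upwards [hdp] with T g1
    refine Continuous.aestronglyMeasurable (continuous_const.mul ((WW_cont hC g1 (n + 1)).comp ?_))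
    fun_prop
  · filter_upwards [hdp, hd1] with T g1 g2
    refine Eventually.of_forall fun u => ?_
    have h3 := WW_pos hP (k := k) g1.le (fun j => H T * u j)
    rw [Real.norm_of_nonneg (mul_nonneg (Real.rpow_nonneg (by linarith) _) h3.le), WW_eq]
    have h4 : (2 * d T) ^ (((n + 1) * k) ^ 2) * PZ (d T) (k * k) (fun j => H T * u j) ≤
        ((2:ℝ) ^ (k * k)) ^ ((n + 1) * (n + 1)) := by
      rw [PZ_mul g1]
      calc ∏ j : Fin (n + 1), ∏ l : Fin (n + 1), (2 * d T * Z (d T) (H T * u j - H T * u l)) ^ (k * k)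
          ≤ ∏ _j : Fin (n + 1), ∏ _l : Fin (n + 1), (2:ℝ) ^ (k * k) := by
            refine Finset.prod_le_prod (fun j _ => Finset.prod_nonneg fun l _ =>
              Real.rpow_nonneg (mul_nonneg (by linarith) (Z_nn _ _)) _) fun j _ =>
              Finset.prod_le_prod (fun l _ => Real.rpow_nonneg (mul_nonneg (by linarith) (Z_nn _ _)) _) fun l _ => ?_
            refine Real.rpow_le_rpow (mul_nonneg (by linarith) (Z_nn _ _)) ?_ hkk
            have h5 := Z_le_inv g1 g2 (H T * u j - H T * u l)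
            calc 2 * d T * Z (d T) (H T * u j - H T * u l) ≤ 2 * d T * (1 / d T) :=
                  mul_le_mul_of_nonneg_left h5 (by linarith)
              _ = 2 := by field_simp
        _ = ((2:ℝ) ^ (k * k)) ^ ((n + 1) * (n + 1)) := by
            simp only [Finset.prod_const, Finset.card_univ, Fintype.card_fin]
            rw [← pow_mul]
    have h5 : 0 ≤ (2 * d T) ^ (((n + 1) * k) ^ 2) * PZ (d T) (k * k) (fun j => H T * u j) :=
      mul_nonneg (Real.rpow_nonneg (by linarith) _) (PZ_pos g1.le _).le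
    calc (2 * d T) ^ (((n + 1) * k) ^ 2) * (Ar k (fun j => H T * u j) * PZ (d T) (k * k) (fun j => H T * u j))
        = Ar k (fun j => H T * u j) * ((2 * d T) ^ (((n + 1) * k) ^ 2) * PZ (d T) (k * k) (fun j => H T * u j)) := by ring
      _ ≤ C2 * ((2:ℝ) ^ (k * k)) ^ ((n + 1) * (n + 1)) := mul_le_mul (h2 _).2 h4 h5 hC2.le
  · have l2 : Tendsto (fun T => Ar k (fun j => H T * u j)) atTop (𝓝 (aC (((n + 1 : ℕ) * k : ℝ) : ℂ)).re) := by
      have c1 : Continuous fun r : ℝ => Ar k (fun j => r * u j) := (Ar_cont hC k (n + 1)).comp (by fun_prop)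
      have c2 := (c1.tendsto 0).comp hH0
      have c3 : Ar k (fun j : Fin (n + 1) => (0:ℝ) * u j) = (aC (((n + 1 : ℕ) * k : ℝ) : ℂ)).re := by
        simp only [zero_mul]
        exact Ar_zero hA k (n + 1)
      rw [c3] at c2
      exact c2
    have l3 : Tendsto (fun T => ∏ j : Fin (n + 1), ∏ l : Fin (n + 1), (2 * d T * Z (d T) (H T * (u j - u l))) ^ (k * k))
        atTop (𝓝 (DX (k * k) x u)) := by
      unfold DX
      refine tendsto_finsetProd _ fun j _ => tendsto_finsetProd _ fun l _ => ?_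
      have l4 := (Z_micro hdp hd0 hx (u j - u l)).rpow_const (p := k * k)
        (Or.inl (Real.rpow_pos_of_pos (one_sq_pos _) _).ne')
      rw [half_pow] at l4
      exact l4
    refine (l2.mul l3).congr' ?_
    filter_upwards [hdp] with T g1
    rw [WW_eq]
    have h4 := PZ_mul (k := k) g1 (fun j => H T * u j)
    have h5 : ∏ j : Fin (n + 1), ∏ l : Fin (n + 1), (2 * d T * Z (d T) (H T * (u j - u l))) ^ (k * k) =
        ∏ j : Fin (n + 1), ∏ l : Fin (n + 1), (2 * d T * Z (d T) (H T * u j - H T * u l)) ^ (k * k) :=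
      Finset.prod_congr rfl fun j _ => Finset.prod_congr rfl fun l _ => by rw [mul_sub]
    rw [h5, ← h4]
    ring

/-! ### bounded windows in the subcritical case -/

lemma abs_rpow_ii {κ : ℝ} (hκ : κ < 1) (a b : ℝ) : IntervalIntegrable (fun y : ℝ => |y| ^ (-κ)) volume a b := by
  have h1 : ∀ c : ℝ, 0 ≤ c → IntervalIntegrable (fun y : ℝ => |y| ^ (-κ)) volume 0 c := by
    intro c hc
    refine (intervalIntegral.intervalIntegrable_rpow' (by linarith : -1 < -κ)).congr fun y hy => ?_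
    rw [Set.uIoc_of_le hc] at hy
    show y ^ (-κ) = |y| ^ (-κ)
    rw [abs_of_pos hy.1]
  have h2 : ∀ c : ℝ, IntervalIntegrable (fun y : ℝ => |y| ^ (-κ)) volume 0 c := by
    intro c
    rcases le_total 0 c with hc | hc
    · exact h1 c hc
    · have h3 := h1 (-c) (by linarith)
      rw [IntervalIntegrable.iff_comp_neg] at h3
      rw [neg_zero, neg_neg] at h3
      refine h3.congr fun y _ => ?_
      show |(-y)| ^ (-κ) = |y| ^ (-κ)
      rw [abs_neg]
  exact (h2 a).symm.trans (h2 b)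

/-- integrability of the products of negative powers -/
lemma ker_int {κ : ℝ} (hκ : κ < 1) (n : ℕ) (j : Fin (n + 1)) :
    Integrable (fun u : Fin (n + 1) → ℝ => ∏ i : Fin n, |u j - u (j.succAbove i)| ^ (-κ)) (pn (n + 1) 1) := by
  have mp := (measurePreserving_piFinSuccAbove (fun _ : Fin (n + 1) => nu 1) j).symm
  unfold pn
  rw [← mp.integrable_comp_emb (MeasurableEquiv.measurableEmbedding _)]
  have he : ((fun u : Fin (n + 1) → ℝ => ∏ i : Fin n, |u j - u (j.succAbove i)| ^ (-κ)) ∘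
      (MeasurableEquiv.piFinSuccAbove (fun _ : Fin (n + 1) => ℝ) j).symm) =
      fun z : ℝ × (Fin n → ℝ) => ∏ i : Fin n, |z.1 - z.2 i| ^ (-κ) := by
    funext z
    simp only [Function.comp_apply]
    refine Finset.prod_congr rfl fun i _ => ?_
    simp [MeasurableEquiv.piFinSuccAbove_symm_apply, Fin.insertNthEquiv]
  rw [he]
  have hmeas : Measurable fun z : ℝ × (Fin n → ℝ) => ∏ i : Fin n, |z.1 - z.2 i| ^ (-κ) := by
    fun_prop
  set G : ℝ := ∫ y in (-1:ℝ)..1, |y| ^ (-κ) with hG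
  have hnn : ∀ y : ℝ, 0 ≤ |y| ^ (-κ) := fun y => Real.rpow_nonneg (abs_nonneg _) _
  have hone : ∀ x : ℝ, Integrable (fun t : ℝ => |x - t| ^ (-κ)) (nu 1) := by
    intro x
    unfold nu
    have h1 := (abs_rpow_ii hκ (x - 1) x).comp_sub_left x
    rw [sub_self, sub_sub_cancel] at h1
    refine (integrableOn_Icc_iff_integrableOn_Ioc (by simp)).2 ?_
    exact (intervalIntegrable_iff_integrableOn_Ioc_of_le zero_le_one).1 h1.symm
  have hval : ∀ x : ℝ, x ∈ Set.Icc (0:ℝ) 1 → ∫ t, |x - t| ^ (-κ) ∂(nu 1) ≤ G := by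
    intro x hx
    unfold nu
    rw [integral_Icc_eq_integral_Ioc, ← intervalIntegral.integral_of_le zero_le_one,
      intervalIntegral.integral_comp_sub_left (fun y => |y| ^ (-κ)) x, sub_zero]
    exact intervalIntegral.integral_mono_interval (by linarith [hx.1]) (by linarith) hx.2
      (Eventually.of_forall fun y => hnn y) (abs_rpow_ii hκ _ _)
  rw [integrable_prod_iff hmeas.aestronglyMeasurable]
  refine ⟨Eventually.of_forall fun x => ?_, ?_⟩
  · exact Integrable.fintype_prod (f := fun (_ : Fin n) (t : ℝ) => (|x - t| ^ (-κ) : ℝ)) fun _ => hone x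
  · have hm2 := (hmeas.aestronglyMeasurable (μ := (nu 1).prod (Measure.pi fun _ : Fin n => nu 1))).norm.integral_prod_right'
    refine Integrable.of_bound hm2 (G ^ n) ?_
    have hae : ∀ᵐ x ∂(nu 1), x ∈ Set.Icc (0:ℝ) 1 := by
      unfold nu
      exact ae_restrict_mem measurableSet_Icc
    filter_upwards [hae] with x hx
    rw [Real.norm_of_nonneg (integral_nonneg fun y => norm_nonneg _)]
    have h2 : ∀ y : Fin n → ℝ, ‖∏ i : Fin n, |x - y i| ^ (-κ)‖ = ∏ i : Fin n, |x - y i| ^ (-κ) := fun y =>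
      Real.norm_of_nonneg (Finset.prod_nonneg fun i _ => hnn _)
    simp_rw [h2]
    rw [integral_fintype_prod_eq_prod (μ := fun _ : Fin n => nu 1) (fun (_ : Fin n) (t : ℝ) => |x - t| ^ (-κ)),
      Finset.prod_const, Finset.card_univ, Fintype.card_fin]
    exact pow_le_pow_left₀ (integral_nonneg fun t => hnn _) (hval x hx) n

/-- almost all points of the cube have different coordinates -/
lemma ae_ne (n : ℕ) : ∀ᵐ u ∂(pn (n + 1) 1), ∀ (j : Fin (n + 1)) (i : Fin n), u j ≠ u (j.succAbove i) := by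
  rw [pn_eq]
  refine ae_restrict_of_ae ?_
  rw [ae_all_iff]
  intro j
  rw [ae_all_iff]
  intro i
  set s : Submodule ℝ (Fin (n + 1) → ℝ) :=
    LinearMap.ker ((LinearMap.proj j : (Fin (n + 1) → ℝ) →ₗ[ℝ] ℝ) - LinearMap.proj (j.succAbove i)) with hs
  have h1 : s ≠ ⊤ := by
    intro hc
    have h2 : (Pi.single j 1 : Fin (n + 1) → ℝ) ∈ s := by rw [hc]; exact Submodule.mem_top
    rw [hs, LinearMap.mem_ker] at h2
    simp [Fin.succAbove_ne j i] at h2
  have h3 := Measure.addHaar_submodule (volume : Measure (Fin (n + 1) → ℝ)) s h1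
  rw [ae_iff]
  refine measure_mono_null (fun u hu => ?_) h3
  simp only [Set.mem_ofPred_eq, not_not] at hu
  show u ∈ s
  rw [hs, LinearMap.mem_ker]
  simp [hu]

end Run7.h772.MM
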