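import Pool.Agent.Run7.h772.MM.Zt

set_option autoImplicit false

/-!
# Moments of moments near the critical line: bounded windows in the subcritical case
-/

namespace Run7.h772.MM

open Finset Filter MeasureTheory Topology Complex
open Pool.Agent.N748.MG Pool.Agent.N748.MJ

/-- constants out of the product over the pairs -/
lemma pair_const {n : ℕ} {c H : ℝ} (hH : 0 ≤ H) (f : Fin (n + 1) → Fin n → ℝ) (hf : ∀ j i, 0 ≤ f j i) :
    ∏ j, ∏ i : Fin n, (H * f j i) ^ c = H ^ (c * (n * (n + 1))) * ∏ j, ∏ i : Fin n, f j i ^ c := by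
  have h1 : H ^ (c * (n * (n + 1))) = ∏ _j : Fin (n + 1), ∏ _i : Fin n, H ^ c := by
    simp only [Finset.prod_const, Finset.card_univ, Fintype.card_fin]
    rw [← pow_mul, ← Real.rpow_natCast (H ^ c), ← Real.rpow_mul hH]
    push_cast
    rfl
  rw [h1, ← Finset.prod_mul_distrib]
  refine Finset.prod_congr rfl fun j _ => ?_
  rw [← Finset.prod_mul_distrib]
  refine Finset.prod_congr rfl fun i _ => ?_
  rw [Real.mul_rpow hH (hf j i)]

/-- bounded windows in the subcritical case: a general form -/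
lemma JJ_sub_short (hP : S_POSV) (hC : S_CONV) {d H : ℝ → ℝ} (hdp : ∀ᶠ T : ℝ in atTop, 0 < d T)
    (hd0 : Tendsto d atTop (𝓝 0)) (hHp : ∀ᶠ T : ℝ in atTop, 0 < H T) (L : ℝ) (hHL : ∀ᶠ T : ℝ in atTop, H T ≤ L)
    (n : ℕ) (k : ℝ) (hκ : k * k * (n + 1) < 1) (G : ℝ → ℝ) (A : (Fin (n + 1) → ℝ) → ℝ)
    (hG0 : ∀ y, y ≠ 0 → 0 < G y) (hG : ∀ y, y ≠ 0 → Tendsto (fun T => H T * Z (d T) (H T * y)) atTop (𝓝 (G y)))
    (hA : ∀ u, Tendsto (fun T => Ar k (fun j => H T * u j)) atTop (𝓝 (A u))) :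
    Tendsto (fun T : ℝ => (2 * d T) ^ (k * k * (n + 1)) * H T ^ (k * k * (n * (n + 1))) *
      ((1 / H T) ^ (n + 1) * JJ k (d T) (n + 1) (H T))) atTop
      (𝓝 (∫ u : Fin (n + 1) → ℝ, A u * ∏ j, ∏ i : Fin n, G (u j - u (j.succAbove i)) ^ (k * k) ∂(pn (n + 1) 1))) := by
  have hd1 : ∀ᶠ T : ℝ in atTop, d T ≤ 1 / 16 := hd0.eventually_le_const (by norm_num)
  have hkk : 0 ≤ k * k := mul_self_nonneg k
  set κ : ℝ := k * k * (n + 1) with hκd
  have hκ0 : 0 ≤ κ := by positivity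
  obtain ⟨c2, C2, hc2, hC2, h2⟩ := aV_bd hP (n + 1) k
  obtain ⟨c3, C3, hc3, hC3, h3⟩ := Z_near L
  set F : (Fin (n + 1) → ℝ) → ℝ := fun u => ∑ j, ∏ i : Fin n, |u j - u (j.succAbove i)| ^ (-κ) with hF
  have hFint : Integrable F (pn (n + 1) 1) := integrable_finsetSum _ fun j _ => ker_int hκ n j
  set M : ℝ := C2 * 2 ^ κ * C3 ^ (k * k * (n * (n + 1))) with hM
  have heq : (fun T : ℝ => ∫ u : Fin (n + 1) → ℝ, ((2 * d T) ^ κ * H T ^ (k * k * (n * (n + 1)))) *
      WW k (d T) (fun j => H T * u j) ∂(pn (n + 1) 1)) =ᶠ[atTop]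
      fun T : ℝ => (2 * d T) ^ κ * H T ^ (k * k * (n * (n + 1))) * ((1 / H T) ^ (n + 1) * JJ k (d T) (n + 1) (H T)) := by
    filter_upwards [hHp] with T g1
    unfold JJ
    rw [scale_cube (n + 1) (fun h => WW k (d T) h) g1, integral_const_mul]
  -- the factored integrand
  have hfac : ∀ T : ℝ, 0 < d T → 0 < H T → ∀ u : Fin (n + 1) → ℝ,
      ((2 * d T) ^ κ * H T ^ (k * k * (n * (n + 1)))) * WW k (d T) (fun j => H T * u j) =
      Ar k (fun j => H T * u j) * (2 * d T * Z (d T) 0) ^ κ *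
        ∏ j, ∏ i : Fin n, (H T * Z (d T) (H T * (u j - u (j.succAbove i)))) ^ (k * k) := by
    intro T g1 g2 u
    rw [WW_eq, PZ_split, pair_const g2.le _ (fun j i => Z_nn _ _), Real.mul_rpow (by linarith) (Z_nn _ _)]
    have h5 : ∏ j : Fin (n + 1), ∏ i : Fin n, Z (d T) (H T * (u j - u (j.succAbove i))) ^ (k * k) =
        ∏ j : Fin (n + 1), ∏ i : Fin n, Z (d T) (H T * u j - H T * u (j.succAbove i)) ^ (k * k) :=
      Finset.prod_congr rfl fun j _ => Finset.prod_congr rfl fun l _ => by rw [mul_sub]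
    rw [h5]
    ring
  refine Tendsto.congr' heq ?_
  refine tendsto_integral_filter_of_dominated_convergence (fun u => M * F u) ?_ ?_ (hFint.const_mul M) ?_
  · filter_upwards [hdp] with T g1
    refine Continuous.aestronglyMeasurable (continuous_const.mul ((WW_cont hC g1 (n + 1)).comp ?_))
    fun_prop
  · filter_upwards [hdp, hd1, hHp, hHL] with T g1 g2 g3 g4
    filter_upwards [ae_ne n, pn_ae (n + 1) 1] with u hu1 hu2
    rw [hfac T g1 g3 u]
    have e0 : ∀ j (i : Fin n), 0 < |u j - u (j.succAbove i)| := fun j i => abs_pos.2 (sub_ne_zero.2 (hu1 j i))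
    have e1 : ∀ j (i : Fin n), (H T * Z (d T) (H T * (u j - u (j.succAbove i)))) ^ (k * k) ≤
        (C3 * |u j - u (j.succAbove i)|⁻¹) ^ (k * k) := by
      intro j i
      refine Real.rpow_le_rpow (mul_nonneg g3.le (Z_nn _ _)) ?_ hkk
      have f1 : |u j - u (j.succAbove i)| ≤ 1 := by
        rw [abs_le]
        constructor <;> linarith [(hu2 j).1, (hu2 j).2, (hu2 (j.succAbove i)).1, (hu2 (j.succAbove i)).2]
      have f2 : |H T * (u j - u (j.succAbove i))| ≤ L := by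
        rw [abs_mul, abs_of_pos g3]
        nlinarith [e0 j i]
      have f3 := (h3 (d T) g1.le g2 _ f2 (Or.inl g1)).2
      have f4 : 0 < |H T * (u j - u (j.succAbove i))| := by
        rw [abs_mul, abs_of_pos g3]
        exact mul_pos g3 (e0 j i)
      calc H T * Z (d T) (H T * (u j - u (j.succAbove i)))
          ≤ H T * (C3 / nr (d T) (H T * (u j - u (j.succAbove i)))) := mul_le_mul_of_nonneg_left f3 g3.le
        _ ≤ H T * (C3 / |H T * (u j - u (j.succAbove i))|) :=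
            mul_le_mul_of_nonneg_left (div_le_div_of_nonneg_left hC3.le f4 (nr_ge_right _ _)) g3.le
        _ = C3 * |u j - u (j.succAbove i)|⁻¹ := by
            rw [abs_mul, abs_of_pos g3]
            have := (e0 j i).ne'
            field_simp
    have e2 : ∏ j, ∏ i : Fin n, (H T * Z (d T) (H T * (u j - u (j.succAbove i)))) ^ (k * k) ≤
        C3 ^ (k * k * (n * (n + 1))) * F u := by
      refine (Finset.prod_le_prod (fun j _ => Finset.prod_nonneg fun i _ =>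
        Real.rpow_nonneg (mul_nonneg g3.le (Z_nn _ _)) _) fun j _ => Finset.prod_le_prod
          (fun i _ => Real.rpow_nonneg (mul_nonneg g3.le (Z_nn _ _)) _) fun i _ => e1 j i).trans ?_
      rw [pair_const hC3.le _ (fun j i => (inv_pos.2 (e0 j i)).le)]
      refine mul_le_mul_of_nonneg_left ?_ (by positivity)
      refine (prod_le_sum_pow _ fun j => Finset.prod_nonneg fun i _ => Real.rpow_nonneg (inv_pos.2 (e0 j i)).le _).trans
        (le_of_eq ?_)
      rw [hF]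
      refine Finset.sum_congr rfl fun j _ => ?_
      rw [← Finset.prod_pow]
      refine Finset.prod_congr rfl fun i _ => ?_
      rw [← Real.rpow_natCast, ← Real.rpow_mul (inv_pos.2 (e0 j i)).le, Real.inv_rpow (e0 j i).le, ← Real.rpow_neg (e0 j i).le]
      congr 1
      rw [hκd]
      push_cast
      ring
    have e3 : (2 * d T * Z (d T) 0) ^ κ ≤ 2 ^ κ := by
      refine Real.rpow_le_rpow (mul_nonneg (by linarith) (Z_nn _ _)) ?_ hκ0
      have h5 := Z_le_inv g1 g2 0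
      calc 2 * d T * Z (d T) 0 ≤ 2 * d T * (1 / d T) := mul_le_mul_of_nonneg_left h5 (by linarith)
        _ = 2 := by field_simp
    have e4 : 0 < Ar k (fun j => H T * u j) := lt_of_lt_of_le hc2 (h2 _).1
    have e5 : 0 ≤ (2 * d T * Z (d T) 0) ^ κ := Real.rpow_nonneg (mul_nonneg (by linarith) (Z_nn _ _)) _
    have e6 : 0 ≤ ∏ j, ∏ i : Fin n, (H T * Z (d T) (H T * (u j - u (j.succAbove i)))) ^ (k * k) :=
      Finset.prod_nonneg fun j _ => Finset.prod_nonneg fun i _ => Real.rpow_nonneg (mul_nonneg g3.le (Z_nn _ _)) _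
    rw [Real.norm_of_nonneg (mul_nonneg (mul_nonneg e4.le e5) e6)]
    calc _ ≤ (C2 * 2 ^ κ) * (C3 ^ (k * k * (n * (n + 1))) * F u) :=
          mul_le_mul (mul_le_mul (h2 _).2 e3 e5 hC2.le) e2 e6 (by positivity)
      _ = M * F u := by rw [hM]; ring
  · filter_upwards [ae_ne n] with u hu1
    have l1 : Tendsto (fun T => (2 * d T * Z (d T) 0) ^ κ) atTop (𝓝 1) := by
      have f1 := (Z_scale 0).comp (tendsto_nhdsWithin_iff.2 ⟨hd0, hdp⟩)
      have f2 : Tendsto (fun T => 2 * d T * Z (d T) 0) atTop (𝓝 1) := by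
        refine (f1.congr fun T => ?_).trans (le_of_eq ?_)
        · simp [Function.comp]
        · norm_num
      have f3 := f2.rpow_const (p := κ) (Or.inl one_ne_zero)
      rwa [Real.one_rpow] at f3
    have l2 : Tendsto (fun T => ∏ j, ∏ i : Fin n, (H T * Z (d T) (H T * (u j - u (j.succAbove i)))) ^ (k * k)) atTop
        (𝓝 (∏ j, ∏ i : Fin n, G (u j - u (j.succAbove i)) ^ (k * k))) := by
      refine tendsto_finsetProd _ fun j _ => tendsto_finsetProd _ fun i _ => ?_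
      have f1 := sub_ne_zero.2 (hu1 j i)
      exact (hG _ f1).rpow_const (Or.inl (hG0 _ f1).ne')
    have l3 := ((hA u).mul l1).mul l2
    rw [mul_one] at l3
    refine l3.congr' ?_
    filter_upwards [hdp, hHp] with T g1 g3
    rw [hfac T g1 g3 u]

/-- windows of a fixed length in the subcritical case -/
lemma JJ_sub_fixed (hP : S_POSV) (hC : S_CONV) {d H : ℝ → ℝ} (hdp : ∀ᶠ T : ℝ in atTop, 0 < d T)
    (hd0 : Tendsto d atTop (𝓝 0)) {r : ℝ} (hr : 0 < r) (hH : Tendsto H atTop (𝓝 r)) (n : ℕ) (k : ℝ)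
    (hκ : k * k * (n + 1) < 1) :
    Tendsto (fun T : ℝ => (2 * d T) ^ (k * k * (n + 1)) * ((1 / H T) ^ (n + 1) * JJ k (d T) (n + 1) (H T))) atTop
      (𝓝 (∫ u : Fin (n + 1) → ℝ, Ar k (fun j => r * u j) *
        ∏ j, ∏ i : Fin n, Z 0 (r * (u j - u (j.succAbove i))) ^ (k * k) ∂(pn (n + 1) 1))) := by
  have hHp : ∀ᶠ T : ℝ in atTop, 0 < H T := hH.eventually (lt_mem_nhds hr)
  have hHL : ∀ᶠ T : ℝ in atTop, H T ≤ r + 1 := hH.eventually_le_const (by linarith)
  have hG : ∀ y, y ≠ 0 → Tendsto (fun T => H T * Z (d T) (H T * y)) atTop (𝓝 (r * Z 0 (r * y))) := by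
    intro y hy
    refine hH.mul ?_
    have hry : r * y ≠ 0 := mul_ne_zero hr.ne' hy
    have h1 : ContinuousAt riemannZeta (((1 + 2 * (0:ℝ) : ℝ) : ℂ) + ((r * y : ℝ) : ℂ) * I) :=
      (differentiableAt_riemannZeta (Z_ne_one (Or.inr hry))).continuousAt
    have h2 : Tendsto (fun T => ((1 + 2 * d T : ℝ) : ℂ) + ((H T * y : ℝ) : ℂ) * I) atTop
        (𝓝 (((1 + 2 * (0:ℝ) : ℝ) : ℂ) + ((r * y : ℝ) : ℂ) * I)) := by
      have c1 : Continuous fun q : ℝ × ℝ => ((1 + 2 * q.1 : ℝ) : ℂ) + ((q.2 * y : ℝ) : ℂ) * I := by fun_prop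
      exact (c1.tendsto (0, r)).comp (hd0.prodMk_nhds hH)
    exact (h1.tendsto.comp h2).norm
  have hA : ∀ u : Fin (n + 1) → ℝ, Tendsto (fun T => Ar k (fun j => H T * u j)) atTop (𝓝 (Ar k (fun j => r * u j))) := by
    intro u
    have c1 : Continuous fun r : ℝ => Ar k (fun j => r * u j) := (Ar_cont hC k (n + 1)).comp (by fun_prop)
    exact (c1.tendsto r).comp hH
  have h1 := JJ_sub_short hP hC hdp hd0 hHp (r + 1) hHL n k hκ (fun y => r * Z 0 (r * y)) (fun u => Ar k (fun j => r * u j))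
    (fun y _ => mul_pos hr (Z_pos le_rfl _)) hG hA
  have h2 : Tendsto (fun T => H T ^ (k * k * (n * (n + 1)))) atTop (𝓝 (r ^ (k * k * (n * (n + 1))))) :=
    hH.rpow_const (Or.inl hr.ne')
  have hr1 : r ^ (k * k * (n * (n + 1))) ≠ 0 := (Real.rpow_pos_of_pos hr _).ne'
  have h3 := h1.div h2 hr1
  refine (h3.congr' ?_).trans (le_of_eq ?_)
  · filter_upwards [hHp] with T g1
    have g2 := (Real.rpow_pos_of_pos g1 (k * k * (n * (n + 1)))).ne'
    show (2 * d T) ^ (k * k * (n + 1)) * H T ^ (k * k * (n * (n + 1))) * ((1 / H T) ^ (n + 1) * JJ k (d T) (n + 1) (H T)) /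
      H T ^ (k * k * (n * (n + 1))) = _
    rw [div_eq_iff g2]
    ring
  · congr 1
    rw [div_eq_iff hr1, ← integral_mul_const]
    refine integral_congr_ae (Eventually.of_forall fun u => ?_)
    show Ar k (fun j => r * u j) * ∏ j, ∏ i : Fin n, (r * Z 0 (r * (u j - u (j.succAbove i)))) ^ (k * k) = _
    rw [pair_const hr.le _ (fun j i => Z_nn _ _)]
    ring

/-- short windows in the subcritical case -/
lemma JJ_sub_meso (hP : S_POSV) (hC : S_CONV) (hA : S_AV0) {d H : ℝ → ℝ} (hdp : ∀ᶠ T : ℝ in atTop, 0 < d T)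
    (hd0 : Tendsto d atTop (𝓝 0)) (hH : Tendsto H atTop (𝓝 0)) (hHd : Tendsto (fun T => H T / d T) atTop atTop)
    (n : ℕ) (k : ℝ) (hκ : k * k * (n + 1) < 1) :
    Tendsto (fun T : ℝ => (2 * d T) ^ (k * k * (n + 1)) * H T ^ (k * k * (n * (n + 1))) *
      ((1 / H T) ^ (n + 1) * JJ k (d T) (n + 1) (H T))) atTop
      (𝓝 ((aC (((n + 1 : ℕ) * k : ℝ) : ℂ)).re *
        ∫ u : Fin (n + 1) → ℝ, ∏ j, ∏ i : Fin n, |u j - u (j.succAbove i)| ^ (-(k * k)) ∂(pn (n + 1) 1))) := by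
  have hHp : ∀ᶠ T : ℝ in atTop, 0 < H T := by
    filter_upwards [hHd.eventually_gt_atTop 0, hdp] with T g1 g2
    have := mul_pos g1 g2
    rwa [div_mul_cancel₀ _ g2.ne'] at this
  have hHL : ∀ᶠ T : ℝ in atTop, H T ≤ 1 := hH.eventually_le_const (by linarith)
  have hG : ∀ y, y ≠ 0 → Tendsto (fun T => H T * Z (d T) (H T * y)) atTop (𝓝 |y|⁻¹) := by
    intro y hy
    have h1 : Tendsto (fun T => ‖Z1 (((1 + 2 * d T : ℝ) : ℂ) + ((H T * y : ℝ) : ℂ) * I)‖) atTop (𝓝 1) := by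
      have hc : Continuous fun q : ℝ × ℝ => ‖Z1 (((1 + 2 * q.1 : ℝ) : ℂ) + ((q.2 * y : ℝ) : ℂ) * I)‖ := by
        refine (Z1_cont.comp ?_).norm
        fun_prop
      have h2 := (hc.tendsto (0, 0)).comp (hd0.prodMk_nhds hH)
      have h3 : ‖Z1 (((1 + 2 * (0, (0:ℝ)).1 : ℝ) : ℂ) + (((0, (0:ℝ)).2 * y : ℝ) : ℂ) * I)‖ = 1 := by
        simp [Z1_one]
      have h4 := h2
      rw [h3] at h4
      exact h4
    have h2 : Tendsto (fun T => Real.sqrt ((2 * (H T / d T)⁻¹) ^ 2 + y ^ 2)) atTop (𝓝 |y|) := by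
      have h5 := (((hHd.inv_tendsto_atTop.const_mul 2).pow 2).add_const (y ^ 2)).sqrt
      rw [mul_zero, zero_pow two_ne_zero, zero_add, Real.sqrt_sq_eq_abs] at h5
      exact h5
    have h3 := h1.div h2 (abs_pos.2 hy).ne'
    rw [one_div] at h3
    refine h3.congr' ?_
    filter_upwards [hdp, hHp] with T g1 g2
    show ‖Z1 (((1 + 2 * d T : ℝ) : ℂ) + ((H T * y : ℝ) : ℂ) * I)‖ / Real.sqrt ((2 * (H T / d T)⁻¹) ^ 2 + y ^ 2) = _
    rw [Z_eq (Or.inl g1)]
    have h4 : nr (d T) (H T * y) = H T * Real.sqrt ((2 * (H T / d T)⁻¹) ^ 2 + y ^ 2) := by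
      unfold nr
      have h5 : (2 * d T) ^ 2 + (H T * y) ^ 2 = H T ^ 2 * ((2 * (H T / d T)⁻¹) ^ 2 + y ^ 2) := by
        rw [inv_div]
        field_simp
      rw [h5, Real.sqrt_mul (sq_nonneg _), Real.sqrt_sq g2.le]
    have h6 : 0 < Real.sqrt ((2 * (H T / d T)⁻¹) ^ 2 + y ^ 2) := by
      refine Real.sqrt_pos.2 ?_
      have : 0 < y ^ 2 := by positivity
      positivity
    rw [h4]
    field_simp
  have hA' : ∀ u : Fin (n + 1) → ℝ, Tendsto (fun T => Ar k (fun j => H T * u j)) atTop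
      (𝓝 (aC (((n + 1 : ℕ) * k : ℝ) : ℂ)).re) := by
    intro u
    have c1 : Continuous fun r : ℝ => Ar k (fun j => r * u j) := (Ar_cont hC k (n + 1)).comp (by fun_prop)
    have c2 := (c1.tendsto 0).comp hH
    have c3 : Ar k (fun j : Fin (n + 1) => (0:ℝ) * u j) = (aC (((n + 1 : ℕ) * k : ℝ) : ℂ)).re := by
      simp only [zero_mul]
      exact Ar_zero hA k (n + 1)
    rw [c3] at c2
    exact c2
  have h1 := JJ_sub_short hP hC hdp hd0 hHp 1 hHL n k hκ (fun y => |y|⁻¹) (fun _ => (aC (((n + 1 : ℕ) * k : ℝ) : ℂ)).re)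
    (fun y hy => inv_pos.2 (abs_pos.2 hy)) hG hA'
  rw [integral_const_mul] at h1
  refine h1.trans (le_of_eq ?_)
  congr 2
  refine integral_congr_ae (Eventually.of_forall fun u => ?_)
  refine Finset.prod_congr rfl fun j _ => Finset.prod_congr rfl fun i _ => ?_
  rw [Real.inv_rpow (abs_nonneg _), ← Real.rpow_neg (abs_nonneg _)]

end Run7.h772.MM
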