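import Pool.Agent.Run7.h772.MM.Zu

set_option autoImplicit false

/-!
# Moments of moments near the critical line: the constants in terms of Mathlib
-/

namespace Run7.h772.MM

open Finset Filter MeasureTheory Topology Complex
open Pool.Agent.N748.MG Pool.Agent.N748.MJ
open Pool.Agent.N748.MJ.POSV (bs pu)

/-- the arithmetic factor of the shifted moments as a real product -/
lemma Ar_eq (hP : S_POSV) (k : ℝ) {m : ℕ} (h : Fin m → ℝ) : Ar k h = ∏' p : Nat.Primes, ga k p h := by
  obtain ⟨C1, hC1, h1⟩ := Pool.Agent.N748.MJ.GVB.main Pool.Agent.N748.MJ.BND.main m |k| (abs_nonneg _)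
  have hn : ∀ _j : Fin m, ‖((k : ℝ) : ℂ)‖ ≤ |k| := fun _ => by
    rw [Complex.norm_real]
    exact le_rfl
  set f : Nat.Primes → ℂ := fun p => gV (fun _ : Fin m => (k:ℂ)) (fun _ : Fin m => (k:ℂ)) h 0 p with hf
  have hs : Summable fun p : Nat.Primes => ‖f p - 1‖ := by
    have h2 : Summable fun p : Nat.Primes => C1 / ((p:ℕ):ℝ) ^ 2 := by
      have h3 : Summable fun n : ℕ => C1 / (n:ℝ) ^ 2 := by
        have h4 := (Real.summable_one_div_nat_pow.2 (by norm_num : 1 < 2)).mul_left C1
        refine h4.congr fun n => ?_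
        ring
      exact h3.comp_injective Nat.Primes.coe_nat_injective
    refine Summable.of_nonneg_of_le (fun p => norm_nonneg _) (fun p => ?_) h2
    exact (h1 (fun _ => (k:ℂ)) (fun _ => (k:ℂ)) h hn hn p p.2 0 le_rfl zero_le_one).1
  have hm : Multipliable f := by
    have h3 := multipliable_one_add_of_summable hs
    refine h3.congr fun p => ?_
    ring
  have h4 := hm.norm_tprod
  obtain ⟨c2, C2, hc2, hC2, h5⟩ := hP m |k| (abs_nonneg _)
  obtain ⟨x, hx, h6⟩ := (h5 h).2 (fun _ => k) fun _ => le_rfl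
  have h7 : Ar k h = x := by
    unfold Ar
    rw [h6]
    exact Complex.ofReal_re x
  have h8 : ‖∏' p, f p‖ = x := by
    have h9 : ∏' p, f p = (x : ℂ) := h6
    rw [h9, Complex.norm_real, Real.norm_of_nonneg (hc2.le.trans hx)]
  rw [h7, ← h8, h4]
  refine tprod_congr fun p => ?_
  rw [hf]
  show ‖gV (fun _ : Fin m => (k:ℂ)) (fun _ : Fin m => (k:ℂ)) h 0 p‖ = _
  rw [gV_ga k p.2, Complex.norm_real, Real.norm_of_nonneg (ga_pos k p.2 h).le]

/-- the product over the other indices -/
lemma prod_erase {n : ℕ} (j : Fin (n + 1)) (f : Fin (n + 1) → ℝ) : ∏ i : Fin n, f (j.succAbove i) = ∏ l ∈ univ.erase j, f l := by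
  have h1 : ∏ i : Fin n, f (j.succAbove i) = ∏ l : Fin (n + 1), if l = j then 1 else f l := by
    rw [Fin.prod_univ_succAbove _ j, if_pos rfl, one_mul]
    refine Finset.prod_congr rfl fun i _ => ?_
    rw [if_neg (Fin.succAbove_ne j i)]
  rw [h1, ← Finset.mul_prod_erase univ _ (Finset.mem_univ j), if_pos rfl, one_mul]
  refine Finset.prod_congr rfl fun l hl => ?_
  rw [if_neg (Finset.ne_of_mem_erase hl)]

lemma pn_icc (m : ℕ) : pn m 1 = volume.restrict (Set.Icc (0 : Fin m → ℝ) 1) := by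
  rw [pn_eq]
  congr 1
  exact Set.pi_univ_Icc (0 : Fin m → ℝ) 1

end Run7.h772.MM
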