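import Pool.Agent.Run7.h772.MM.Zv

set_option autoImplicit false

/-!
# Moments of moments near the critical line: the kernel of the critical case
-/

namespace Run7.h772.MM

open Finset Filter MeasureTheory Topology Complex
open Pool.Agent.N748.MG Pool.Agent.N748.MJ

/-- the kernel, over the ordered pairs of different points -/
noncomputable def KR (c e : ℝ) {n : ℕ} (y : Fin n → ℝ) : ℝ :=
  ∏ j : Fin (n + 1), ∏ i : Fin n, (e ^ 2 + (hat y j - hat y (j.succAbove i)) ^ 2) ^ (-(c / 2))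

lemma KR_nn (c e : ℝ) {n : ℕ} (y : Fin n → ℝ) : 0 ≤ KR c e y :=
  Finset.prod_nonneg fun _ _ => Finset.prod_nonneg fun _ _ => Real.rpow_nonneg (by positivity) _

lemma KR_meas (c e : ℝ) (n : ℕ) : Measurable fun y : Fin n → ℝ => KR c e y := by
  unfold KR
  refine Finset.measurable_prod _ fun j _ => Finset.measurable_prod _ fun i _ => ?_
  have h1 : ∀ l : Fin (n + 1), Measurable fun y : Fin n → ℝ => hat y l := fun l =>
    ((continuous_apply l).comp hat_cont).measurable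
  exact (measurable_const.add (((h1 j).sub (h1 _)).pow_const 2)).pow_const _

/-- different points -/
def Dst {n : ℕ} (y : Fin n → ℝ) : Prop := ∀ (j : Fin (n + 1)) (i : Fin n), hat y j ≠ hat y (j.succAbove i)

lemma KR_le {c : ℝ} (hc : 0 ≤ c) (e : ℝ) {n : ℕ} {y : Fin n → ℝ} (hy : Dst y) : KR c e y ≤ KR c 0 y := by
  unfold KR
  refine Finset.prod_le_prod (fun _ _ => Finset.prod_nonneg fun _ _ => Real.rpow_nonneg (by positivity) _) fun j _ =>
    Finset.prod_le_prod (fun _ _ => Real.rpow_nonneg (by positivity) _) fun i _ => ?_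
  have h1 : 0 < (hat y j - hat y (j.succAbove i)) ^ 2 := by
    have := sub_ne_zero.2 (hy j i)
    positivity
  refine Real.rpow_le_rpow_of_nonpos (by linarith) ?_ (by linarith)
  nlinarith [sq_nonneg e]

lemma KR_pos (c e : ℝ) {n : ℕ} {y : Fin n → ℝ} (hy : Dst y) : 0 < KR c e y := by
  unfold KR
  refine Finset.prod_pos fun j _ => Finset.prod_pos fun i _ => Real.rpow_pos_of_pos ?_ _
  have := sub_ne_zero.2 (hy j i)
  positivity

lemma KR_lim (c : ℝ) {n : ℕ} {y : Fin n → ℝ} (hy : Dst y) : Tendsto (fun e : ℝ => KR c e y) (𝓝 0) (𝓝 (KR c 0 y)) := by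
  unfold KR
  refine tendsto_finsetProd _ fun j _ => tendsto_finsetProd _ fun i _ => ?_
  have h1 : Tendsto (fun e : ℝ => e ^ 2 + (hat y j - hat y (j.succAbove i)) ^ 2) (𝓝 0)
      (𝓝 (0 ^ 2 + (hat y j - hat y (j.succAbove i)) ^ 2)) := (continuous_pow 2).continuousAt.add_const _ |>.tendsto
  refine h1.rpow_const (Or.inl ?_)
  have := sub_ne_zero.2 (hy j i)
  positivity

/-- the points as a linear function -/
noncomputable def hatL (n : ℕ) : (Fin n → ℝ) →ₗ[ℝ] (Fin (n + 1) → ℝ) where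
  toFun := hat
  map_add' x y := by
    funext j
    unfold hat
    refine Fin.cases ?_ (fun i => ?_) j <;> simp
  map_smul' r x := by
    funext j
    unfold hat
    refine Fin.cases ?_ (fun i => ?_) j <;> simp

lemma hat_smul {n : ℕ} (r : ℝ) (x : Fin n → ℝ) (j : Fin (n + 1)) : hat (r • x) j = r * hat x j := by
  have h1 := (hatL n).map_smul r x
  have h2 := congrFun h1 j
  exact h2

lemma ae_dst (n : ℕ) : ∀ᵐ y : Fin n → ℝ, Dst y := by
  unfold Dst
  rw [ae_all_iff]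
  intro j
  rw [ae_all_iff]
  intro i
  set s : Submodule ℝ (Fin n → ℝ) :=
    LinearMap.ker (((LinearMap.proj j : (Fin (n + 1) → ℝ) →ₗ[ℝ] ℝ) - LinearMap.proj (j.succAbove i)).comp (hatL n)) with hs
  have h1 : s ≠ ⊤ := by
    intro hc
    have h2 : (fun i : Fin n => ((i : ℕ) : ℝ) + 1) ∈ s := by rw [hc]; exact Submodule.mem_top
    rw [hs, LinearMap.mem_ker] at h2
    have h3 : hat (fun i : Fin n => ((i : ℕ) : ℝ) + 1) = fun m : Fin (n + 1) => ((m : ℕ) : ℝ) := by
      funext m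
      unfold hat
      refine Fin.cases ?_ (fun i => ?_) m <;> simp
    have h4 : hat (fun i : Fin n => ((i : ℕ) : ℝ) + 1) j - hat (fun i : Fin n => ((i : ℕ) : ℝ) + 1) (j.succAbove i) = 0 := h2
    rw [h3] at h4
    have h5 : ((j : ℕ) : ℝ) = ((j.succAbove i : Fin (n + 1)) : ℕ) := by linarith
    have h6 : (j : ℕ) = ((j.succAbove i : Fin (n + 1)) : ℕ) := by exact_mod_cast h5
    exact Fin.succAbove_ne j i (Fin.ext h6.symm)
  have h3 := Measure.addHaar_submodule (volume : Measure (Fin n → ℝ)) s h1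
  rw [ae_iff]
  refine measure_mono_null (fun u hu => ?_) h3
  simp only [Set.mem_ofPred_eq, not_not] at hu
  show u ∈ s
  rw [hs, LinearMap.mem_ker]
  show hat u j - hat u (j.succAbove i) = 0
  rw [hu, sub_self]

/-- the density without the diagonal -/
lemma DD_off (c : ℝ) {n : ℕ} (x : Fin n → ℝ) : DD c x = KR c 1 x := by
  unfold DD KR
  refine Finset.prod_congr rfl fun j _ => ?_
  rw [Fin.prod_univ_succAbove _ j]
  have h1 : (1 + ((Fin.cons 0 x : Fin (n + 1) → ℝ) j - (Fin.cons 0 x : Fin (n + 1) → ℝ) j) ^ 2) ^ (-(c / 2)) = 1 := by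
    rw [sub_self]
    norm_num
  rw [h1, one_mul]
  refine Finset.prod_congr rfl fun i _ => ?_
  rw [one_pow]
  rfl

/-- scaling of the density -/
lemma DD_scale {c : ℝ} {n : ℕ} (hc : c * (n + 1) = 1) {R : ℝ} (hR : 0 < R) (y : Fin n → ℝ) :
    R ^ n * DD c (R • y) = KR c (1 / R) y := by
  rw [DD_off]
  unfold KR
  have h1 : ∀ (j : Fin (n + 1)) (i : Fin n), (1 ^ 2 + (hat (R • y) j - hat (R • y) (j.succAbove i)) ^ 2) ^ (-(c / 2)) =
      R⁻¹ ^ c * ((1 / R) ^ 2 + (hat y j - hat y (j.succAbove i)) ^ 2) ^ (-(c / 2)) := by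
    intro j i
    rw [hat_smul, hat_smul]
    have h2 : (1:ℝ) ^ 2 + (R * hat y j - R * hat y (j.succAbove i)) ^ 2 =
        R ^ 2 * ((1 / R) ^ 2 + (hat y j - hat y (j.succAbove i)) ^ 2) := by
      field_simp
    rw [h2, Real.mul_rpow (by positivity) (by positivity)]
    congr 1
    rw [← Real.rpow_natCast R 2, ← Real.rpow_mul hR.le, Real.inv_rpow hR.le, ← Real.rpow_neg hR.le]
    congr 1
    push_cast
    ring
  simp_rw [h1]
  have h3 : ∏ j : Fin (n + 1), ∏ i : Fin n, (R⁻¹ ^ c * ((1 / R) ^ 2 + (hat y j - hat y (j.succAbove i)) ^ 2) ^ (-(c / 2))) =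
      (∏ _j : Fin (n + 1), ∏ _i : Fin n, R⁻¹ ^ c) *
        ∏ j : Fin (n + 1), ∏ i : Fin n, ((1 / R) ^ 2 + (hat y j - hat y (j.succAbove i)) ^ 2) ^ (-(c / 2)) := by
    rw [← Finset.prod_mul_distrib]
    refine Finset.prod_congr rfl fun j _ => ?_
    rw [← Finset.prod_mul_distrib]
  rw [h3]
  have h4 : ∏ _j : Fin (n + 1), ∏ _i : Fin n, R⁻¹ ^ c = (R ^ n)⁻¹ := by
    simp only [Finset.prod_const, Finset.card_univ, Fintype.card_fin]
    rw [← pow_mul, ← Real.rpow_natCast (R⁻¹ ^ c), ← Real.rpow_mul (by positivity)]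
    have h5 : c * ((n * (n + 1) : ℕ) : ℝ) = n := by
      push_cast
      calc c * ((n:ℝ) * (n + 1)) = (c * (n + 1)) * n := by ring
        _ = n := by rw [hc, one_mul]
    rw [h5, Real.rpow_natCast, inv_pow]
  rw [h4, ← mul_assoc, mul_inv_cancel₀ (by positivity), one_mul]

/-! ### integrability -/

lemma UUF_bd (n : ℕ) (hn : 1 ≤ n) (s : ℝ) (hs : 0 ≤ s) (hs1 : s * n < 1) : ∃ C : ℝ, 0 < C ∧ ∀ δ : ℝ, 0 < δ → δ ≤ 1 / 16 →
    ∫ h : Fin (n + 1) → ℝ, Fr h * UU δ s h ∂(pn (n + 1) 7) ≤ C := by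
  obtain ⟨K, hK, hU⟩ := U_gen n n s hs
  obtain ⟨C1, hC1, h1⟩ := gb1_int0 (s * n) (by positivity)
  obtain ⟨C2, hC2, h2⟩ := near_sub (s * n) (by positivity) hs1
  refine ⟨K * 7 ^ (n + 1) * (1 * (1 + (C1 * C2 / 7) ^ n) + 1 / 7) + 7 ^ (n + 1), by positivity, fun δ g0 g1 => ?_⟩
  have h3 := hU δ g0 g1 7 (by norm_num) wF wF_meas (wF_reg n) 1 (C1 * C2 / 7) zero_le_one le_rfl (by positivity) (by
    refine (h1 δ g0 g1 7 (by norm_num)).trans ?_
    calc C1 * ∫ y in (0:ℝ)..1, Z δ y ^ (s * n) ≤ C1 * C2 := mul_le_mul_of_nonneg_left (h2 δ g0 g1) hC1.le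
      _ = 1 * (C1 * C2 / 7) * 7 := by ring)
  have hpt : ∀ h : Fin (n + 1) → ℝ, Fr h * UU δ s h ≤ wF h * UU δ s h + 1 := by
    intro h
    rw [Fr_NI hn h]
    have h4 : NI h * UU δ s h ≤ 1 := by
      unfold NI
      split_ifs with h5
      · rw [one_mul]
        unfold UU
        refine le_of_eq (Finset.prod_eq_one fun q _ => ?_)
        unfold ub
        rw [if_neg (not_le.2 (h5 q.1 q.2)), Real.one_rpow]
      · rw [zero_mul]
        exact zero_le_one
    nlinarith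
  have hUb := fun h : Fin (n + 1) → ℝ => UU_bd g0 g1 hs h
  set BB : ℝ := ((1 / δ) ^ s) ^ (Fintype.card (Fin (n + 1) × Fin n)) with hBB
  have i1 : Integrable (fun h : Fin (n + 1) → ℝ => wF h * UU δ s h) (pn (n + 1) 7) :=
    int_bdd (wF_meas.mul (UU_meas g0 n)) BB fun h => by
      rw [abs_of_nonneg (mul_nonneg ((wF_reg n).nn h) (UU_pos _ _ _).le)]
      exact (mul_le_of_le_one_left (UU_pos _ _ _).le ((wF_reg n).le h)).trans (hUb h)
  have i2 : Integrable (fun h : Fin (n + 1) → ℝ => wF h * UU δ s h + 1) (pn (n + 1) 7) := i1.add (integrable_const 1)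
  calc ∫ h : Fin (n + 1) → ℝ, Fr h * UU δ s h ∂(pn (n + 1) 7)
      ≤ ∫ h : Fin (n + 1) → ℝ, (wF h * UU δ s h + 1) ∂(pn (n + 1) 7) :=
        integral_mono_of_nonneg (Eventually.of_forall fun h => mul_nonneg (Fr_nn h) (UU_pos _ _ _).le) i2
          (Eventually.of_forall hpt)
    _ = (∫ h : Fin (n + 1) → ℝ, wF h * UU δ s h ∂(pn (n + 1) 7)) + 7 ^ (n + 1) := by
        rw [integral_add i1 (integrable_const 1), integral_const, pn_mass (n + 1) (by norm_num), smul_eq_mul, mul_one]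
    _ ≤ _ := by linarith

lemma UU_shift (δ s : ℝ) {n : ℕ} (h : Fin (n + 1) → ℝ) (a : ℝ) : UU δ s (fun j => h j + a) = UU δ s h := by
  unfold UU
  refine Finset.prod_congr rfl fun q _ => ?_
  rw [add_sub_add_right_eq_sub]

/-- the shell -/
def Shl (n : ℕ) (r : ℝ) : Set (Fin n → ℝ) := {x | 1 < ‖x‖ ∧ ‖x‖ ≤ r}

lemma Shl_meas (n : ℕ) (r : ℝ) : MeasurableSet (Shl n r) :=
  (measurableSet_lt measurable_const measurable_norm).inter (measurableSet_le measurable_norm measurable_const)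

lemma shell_le (n : ℕ) (s : ℝ) (hs : 0 ≤ s) {δ : ℝ} (h0 : 0 < δ) (h1 : δ ≤ 1 / 16) :
    ∫⁻ x in Shl n 3, ENNReal.ofReal (UU δ s (hat x)) ≤
      ENNReal.ofReal (∫ h : Fin (n + 1) → ℝ, Fr h * UU δ s h ∂(pn (n + 1) 7)) := by
  classical
  have hUb := fun h : Fin (n + 1) → ℝ => UU_bd h0 h1 hs h
  set BB : ℝ := ((1 / δ) ^ s) ^ (Fintype.card (Fin (n + 1) × Fin n)) with hBB
  have hfm : Measurable fun h : Fin (n + 1) → ℝ => Fr h * UU δ s h := Fr_meas.mul (UU_meas h0 n)
  have i1 : Integrable (fun h : Fin (n + 1) → ℝ => Fr h * UU δ s h) (pn (n + 1) 7) :=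
    int_bdd hfm BB fun h => by
      rw [abs_of_nonneg (mul_nonneg (Fr_nn h) (UU_pos _ _ _).le)]
      exact (mul_le_of_le_one_left (UU_pos _ _ _).le (Fr_le h)).trans (hUb h)
  rw [ofReal_integral_eq_lintegral_ofReal i1 (Eventually.of_forall fun h => mul_nonneg (Fr_nn h) (UU_pos _ _ _).le)]
  set f : (Fin (n + 1) → ℝ) → ENNReal := fun h => ENNReal.ofReal (Fr h * UU δ s h) with hf
  have hfm' : Measurable f := hfm.ennreal_ofReal
  have mp := measurePreserving_piFinSuccAbove (fun _ : Fin (n + 1) => nu 7) 0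
  unfold pn
  rw [← mp.symm.lintegral_comp hfm']
  have he : ∀ z : ℝ × (Fin n → ℝ), f ((MeasurableEquiv.piFinSuccAbove (fun _ : Fin (n + 1) => ℝ) 0).symm z) =
      f (Fin.cons z.1 z.2) := by
    intro z
    congr 1
    funext j
    refine Fin.cases ?_ (fun i => ?_) j
    · simp [MeasurableEquiv.piFinSuccAbove_symm_apply, Fin.insertNthEquiv]
    · simp [MeasurableEquiv.piFinSuccAbove_symm_apply, Fin.insertNthEquiv]
  simp_rw [he]
  have hmc : Measurable fun z : ℝ × (Fin n → ℝ) => (Fin.cons z.1 z.2 : Fin (n + 1) → ℝ) := by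
    rw [measurable_pi_iff]
    intro j
    refine Fin.cases ?_ (fun i => ?_) j
    · simpa using measurable_fst
    · simp only [Fin.cons_succ]
      exact (measurable_pi_apply i).comp measurable_snd
  rw [lintegral_prod (fun z : ℝ × (Fin n → ℝ) => f (Fin.cons z.1 z.2)) (hfm'.comp hmc).aemeasurable]
  set c0 : ENNReal := ∫⁻ x in Shl n 3, ENNReal.ofReal (UU δ s (hat x)) with hc0
  have hin : ∀ a ∈ Set.Icc (3:ℝ) 4, c0 ≤ ∫⁻ y : Fin n → ℝ, f (Fin.cons a y) ∂(Measure.pi fun _ : Fin n => nu 7) := by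
    intro a ha
    have hbox : MeasurableSet (Set.univ.pi fun _ : Fin n => Set.Icc (0:ℝ) 7) :=
      MeasurableSet.univ_pi fun _ => measurableSet_Icc
    have h2 := pn_eq n 7
    unfold pn at h2
    rw [h2, ← lintegral_indicator hbox, hc0, ← lintegral_indicator (Shl_meas n 3)]
    rw [← lintegral_add_left_eq_self ((Set.univ.pi fun _ : Fin n => Set.Icc (0:ℝ) 7).indicator
      (fun y => f (Fin.cons a y))) (fun _ : Fin n => a)]
    refine lintegral_mono fun x => ?_
    by_cases hx : x ∈ Shl n 3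
    · have h3 : (fun _ : Fin n => a) + x ∈ Set.univ.pi fun _ : Fin n => Set.Icc (0:ℝ) 7 := by
        intro j _
        have h4 := (norm_le_pi_norm x j).trans hx.2
        rw [Real.norm_eq_abs, abs_le] at h4
        show a + x j ∈ Set.Icc (0:ℝ) 7
        exact ⟨by linarith [ha.1, h4.1], by linarith [ha.2, h4.2]⟩
      rw [Set.indicator_of_mem hx, Set.indicator_of_mem h3, hf]
      have h5 : (Fin.cons a ((fun _ : Fin n => a) + x) : Fin (n + 1) → ℝ) = fun j => hat x j + a := by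
        funext j
        unfold hat
        refine Fin.cases ?_ (fun i => ?_) j
        · simp
        · simp only [Fin.cons_succ, Pi.add_apply]
          ring
      show ENNReal.ofReal (UU δ s (hat x)) ≤ ENNReal.ofReal (Fr (Fin.cons a ((fun _ : Fin n => a) + x)) *
        UU δ s (Fin.cons a ((fun _ : Fin n => a) + x)))
      rw [h5, UU_shift]
      have h6 : Fr (fun j => hat x j + a) = 1 := by
        unfold Fr
        rw [if_pos]
        have h7 : ¬ ‖x‖ ≤ 1 := not_le.2 hx.1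
        rw [pi_norm_le_iff_of_nonneg zero_le_one] at h7
        push Not at h7
        obtain ⟨i, hi⟩ := h7
        refine ⟨i.succ, ?_⟩
        rw [Real.norm_eq_abs] at hi
        unfold hat
        simpa using hi
      rw [h6, one_mul]
    · rw [Set.indicator_of_notMem hx]
      exact zero_le
  calc c0 = ∫⁻ _a in Set.Icc (3:ℝ) 4, c0 := by
        rw [setLIntegral_const, Real.volume_Icc]
        norm_num
    _ ≤ ∫⁻ a in Set.Icc (3:ℝ) 4, ∫⁻ y : Fin n → ℝ, f (Fin.cons a y) ∂(Measure.pi fun _ : Fin n => nu 7) :=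
        setLIntegral_mono' measurableSet_Icc hin
    _ ≤ ∫⁻ a in Set.Icc (0:ℝ) 7, ∫⁻ y : Fin n → ℝ, f (Fin.cons a y) ∂(Measure.pi fun _ : Fin n => nu 7) :=
        lintegral_mono_set (Set.Icc_subset_Icc (by norm_num) (by norm_num))

lemma KR_UU (n : ℕ) {c : ℝ} (hc : 0 ≤ c) : ∃ M : ℝ, 0 < M ∧ ∀ δ : ℝ, 0 < δ → δ ≤ 1 / 16 → ∀ y : Fin n → ℝ,
    KR c (2 * δ) y ≤ M * UU δ c (hat y) := by
  obtain ⟨c1, C1, hc1, hC1, h1⟩ := Z_near 1
  set c' : ℝ := min c1 1 with hc'
  have hc'0 : 0 < c' := lt_min hc1 one_pos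
  refine ⟨∏ _q : Fin (n + 1) × Fin n, (1 / c') ^ c, Finset.prod_pos fun _ _ => by positivity, fun δ g0 g1 y => ?_⟩
  unfold KR UU
  rw [← Finset.prod_mul_distrib, Fintype.prod_prod_type]
  refine Finset.prod_le_prod (fun _ _ => Finset.prod_nonneg fun _ _ => Real.rpow_nonneg (by positivity) _) fun j _ =>
    Finset.prod_le_prod (fun _ _ => Real.rpow_nonneg (by positivity) _) fun i _ => ?_
  set a : ℝ := hat y j - hat y (j.succAbove i) with ha
  have hn : 0 < nr δ a := nr_pos (Or.inl g0)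
  have e1 : ((2 * δ) ^ 2 + a ^ 2) ^ (-(c / 2)) = (1 / nr δ a) ^ c := by
    unfold nr
    rw [one_div, Real.inv_rpow (Real.sqrt_nonneg _), ← Real.rpow_neg (Real.sqrt_nonneg _), Real.sqrt_eq_rpow,
      ← Real.rpow_mul (by positivity)]
    congr 1
    ring
  rw [e1, ← Real.mul_rpow (by positivity) (zero_le_one.trans (ub_one _ _))]
  refine Real.rpow_le_rpow (by positivity) ?_ hc
  by_cases h2 : |a| ≤ 1
  · have h3 := (h1 δ g0.le g1 a h2 (Or.inl g0)).1
    have h4 : Z δ a ≤ ub δ a := by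
      unfold ub
      rw [if_pos h2]
      exact le_max_left _ _
    have h5 : c' / nr δ a ≤ ub δ a := (div_le_div_of_nonneg_right (min_le_left _ _) hn.le).trans (h3.trans h4)
    rw [div_le_iff₀ hn] at h5
    rw [div_le_iff₀ hn]
    have h6 : 1 / c' * ub δ a * nr δ a = (ub δ a * nr δ a) / c' := by ring
    rw [h6, le_div_iff₀ hc'0, one_mul]
    exact h5
  · push Not at h2
    have h3 : 1 ≤ nr δ a := h2.le.trans (nr_ge_right _ _)
    have h4 := ub_one δ a
    have h5 : 1 ≤ 1 / c' := by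
      rw [le_div_iff₀ hc'0, one_mul]
      exact min_le_right _ _
    calc 1 / nr δ a ≤ 1 := by
          rw [div_le_one hn]
          exact h3
      _ ≤ 1 / c' * ub δ a := by nlinarith

/-- the kernel is integrable over the shell -/
lemma KR_int (n : ℕ) (hn : 1 ≤ n) {c : ℝ} (hc : 0 ≤ c) (hc1 : c * n < 1) :
    IntegrableOn (fun y : Fin n → ℝ => KR c 0 y) (Shl n 3) := by
  obtain ⟨C, hC, h1⟩ := UUF_bd n hn c hc hc1
  obtain ⟨M, hM, h2⟩ := KR_UU n hc
  refine ⟨(KR_meas c 0 n).aestronglyMeasurable, ?_⟩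
  have h3 : ∀ δ : ℝ, 0 < δ → δ ≤ 1 / 16 → ∫⁻ y in Shl n 3, ENNReal.ofReal (KR c (2 * δ) y) ≤
      ENNReal.ofReal M * ENNReal.ofReal C := by
    intro δ g0 g1
    calc ∫⁻ y in Shl n 3, ENNReal.ofReal (KR c (2 * δ) y)
        ≤ ∫⁻ y in Shl n 3, ENNReal.ofReal M * ENNReal.ofReal (UU δ c (hat y)) := by
          refine lintegral_mono fun y => ?_
          rw [← ENNReal.ofReal_mul hM.le]
          exact ENNReal.ofReal_le_ofReal (h2 δ g0 g1 y)
      _ = ENNReal.ofReal M * ∫⁻ y in Shl n 3, ENNReal.ofReal (UU δ c (hat y)) :=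
          lintegral_const_mul' _ _ ENNReal.ofReal_ne_top
      _ ≤ ENNReal.ofReal M * ENNReal.ofReal C := by
          gcongr
          exact (shell_le n c hc g0 g1).trans (ENNReal.ofReal_le_ofReal (h1 δ g0 g1))
  set e : ℕ → ℝ := fun m => 1 / (16 * ((m:ℝ) + 1)) with he
  have he0 : ∀ m, 0 < e m := fun m => by
    rw [he]
    positivity
  have he1 : ∀ m, e m ≤ 1 / 16 := fun m => by
    rw [he]
    refine one_div_le_one_div_of_le (by norm_num) ?_
    have : (0:ℝ) ≤ m := Nat.cast_nonneg m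
    linarith
  have hel : Tendsto (fun m => 2 * e m) atTop (𝓝 0) := by
    have h4 := (tendsto_one_div_add_atTop_nhds_zero_nat (𝕜 := ℝ)).const_mul (1 / 8)
    rw [mul_zero] at h4
    refine h4.congr fun m => ?_
    rw [he]
    field_simp
    norm_num
  have h4 : ∫⁻ y in Shl n 3, liminf (fun m => ENNReal.ofReal (KR c (2 * e m) y)) atTop ≤
      ENNReal.ofReal M * ENNReal.ofReal C := by
    refine (lintegral_liminf_le fun m => (KR_meas c (2 * e m) n).ennreal_ofReal).trans ?_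
    refine (liminf_le_limsup).trans (limsup_le_of_le ?_ ?_)
    · isBoundedDefault
    · exact Eventually.of_forall fun m => h3 (e m) (he0 m) (he1 m)
  have h5 : ∫⁻ y in Shl n 3, ENNReal.ofReal (KR c 0 y) =
      ∫⁻ y in Shl n 3, liminf (fun m => ENNReal.ofReal (KR c (2 * e m) y)) atTop := by
    refine lintegral_congr_ae ?_
    filter_upwards [ae_restrict_of_ae (ae_dst n)] with y hy
    have h6 := ((ENNReal.continuous_ofReal.tendsto _).comp ((KR_lim c hy).comp hel)).liminf_eq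
    exact h6.symm
  show HasFiniteIntegral (fun y : Fin n → ℝ => KR c 0 y) (volume.restrict (Shl n 3))
  rw [hasFiniteIntegral_iff_ofReal (Eventually.of_forall fun y => KR_nn c 0 y), h5]
  exact lt_of_le_of_lt h4 (ENNReal.mul_lt_top ENNReal.ofReal_lt_top ENNReal.ofReal_lt_top)

end Run7.h772.MM
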