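import Pool.Agent.Run7.h772.MM.Zw

set_option autoImplicit false

/-!
# Moments of moments near the critical line: the logarithm of the critical case
-/

namespace Run7.h772.MM

open Finset Filter MeasureTheory Topology Complex
open Pool.Agent.N748.MG Pool.Agent.N748.MJ

/-- the ball -/
def Bl (n : ℕ) (R : ℝ) : Set (Fin n → ℝ) := {x | ‖x‖ ≤ R}

lemma Bl_meas (n : ℕ) (R : ℝ) : MeasurableSet (Bl n R) := measurableSet_le measurable_norm measurable_const

/-- the integral of the density over a ball -/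
noncomputable def II (c : ℝ) (n : ℕ) (R : ℝ) : ℝ := ∫ x in Bl n R, DD c x

/-- the constant of the critical case -/
noncomputable def Cn (c : ℝ) (n : ℕ) : ℝ := ∫ y in Shl n (Real.exp 1), KR c 0 y

lemma DD_ball (c : ℝ) (n : ℕ) (R : ℝ) : IntegrableOn (fun x : Fin n → ℝ => DD c x) (Bl n R) := by
  have h1 : Bl n R = Metric.closedBall 0 R := by
    ext x
    unfold Bl
    simp
  rw [h1]
  exact (DD_cont c n).continuousOn.integrableOn_compact (isCompact_closedBall 0 R)

lemma II_mono (c : ℝ) (n : ℕ) {R R' : ℝ} (h : R ≤ R') : II c n R ≤ II c n R' := by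
  unfold II
  refine setIntegral_mono_set (DD_ball c n R') (Eventually.of_forall fun x => (DD_pos c x).le) ?_
  exact HasSubset.Subset.eventuallyLE fun x hx => le_trans hx h

lemma II_nn (c : ℝ) (n : ℕ) (R : ℝ) : 0 ≤ II c n R := setIntegral_nonneg (Bl_meas n R) fun x _ => (DD_pos c x).le

lemma II_inc {c : ℝ} {n : ℕ} (hc : c * (n + 1) = 1) {R r : ℝ} (hR : 0 < R) (hr : 1 ≤ r) :
    II c n (r * R) - II c n R = ∫ y in Shl n r, KR c (1 / R) y := by
  have hsub : Bl n R ⊆ Bl n (r * R) := fun x hx => le_trans (show ‖x‖ ≤ R from hx) (by nlinarith)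
  unfold II
  rw [← integral_diff (Bl_meas n R) (DD_ball c n (r * R)) hsub]
  set S : Set (Fin n → ℝ) := Bl n (r * R) \ Bl n R with hS
  have hSm : MeasurableSet S := (Bl_meas n _).diff (Bl_meas n _)
  rw [← integral_indicator hSm, ← integral_indicator (Shl_meas n r)]
  have h2 := Measure.integral_comp_smul (volume : Measure (Fin n → ℝ)) (S.indicator fun x => DD c x) R
  rw [Module.finrank_fin_fun, abs_of_pos (by positivity), smul_eq_mul] at h2
  have h3 : ∫ x : Fin n → ℝ, S.indicator (fun x => DD c x) x = R ^ n * ∫ x : Fin n → ℝ, S.indicator (fun x => DD c x) (R • x) := by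
    rw [h2, ← mul_assoc, mul_inv_cancel₀ (by positivity), one_mul]
  rw [h3, ← integral_const_mul]
  refine integral_congr_ae (Eventually.of_forall fun y => ?_)
  show R ^ n * S.indicator (fun x => DD c x) (R • y) = (Shl n r).indicator (fun y => KR c (1 / R) y) y
  have h4 : R • y ∈ S ↔ y ∈ Shl n r := by
    rw [hS]
    unfold Shl Bl
    simp only [Set.mem_diff, Set.mem_ofPred_eq, norm_smul, Real.norm_of_nonneg hR.le, not_le]
    constructor
    · rintro ⟨a1, a2⟩
      exact ⟨by nlinarith, by nlinarith⟩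
    · rintro ⟨a1, a2⟩
      exact ⟨by nlinarith, by nlinarith⟩
  by_cases h5 : y ∈ Shl n r
  · rw [Set.indicator_of_mem (h4.2 h5), Set.indicator_of_mem h5]
    exact DD_scale hc hR y
  · rw [Set.indicator_of_notMem (fun h => h5 (h4.1 h)), Set.indicator_of_notMem h5, mul_zero]

lemma e3 : Real.exp 1 ≤ 3 := by
  have := Real.exp_one_lt_d9
  linarith

lemma KR_int_e (n : ℕ) (hn : 1 ≤ n) {c : ℝ} (hc : 0 ≤ c) (hc1 : c * n < 1) :
    IntegrableOn (fun y : Fin n → ℝ => KR c 0 y) (Shl n (Real.exp 1)) :=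
  (KR_int n hn hc hc1).mono_set fun _ hy => ⟨hy.1, hy.2.trans e3⟩

lemma inc_lim (n : ℕ) (hn : 1 ≤ n) {c : ℝ} (hc : 0 ≤ c) (hc1 : c * n < 1) :
    Tendsto (fun R : ℝ => ∫ y in Shl n (Real.exp 1), KR c (1 / R) y) atTop (𝓝 (Cn c n)) := by
  unfold Cn
  refine tendsto_integral_filter_of_dominated_convergence (fun y => KR c 0 y) ?_ ?_ (KR_int_e n hn hc hc1) ?_
  · exact Eventually.of_forall fun R => (KR_meas c (1 / R) n).aestronglyMeasurable
  · refine Eventually.of_forall fun R => ?_
    filter_upwards [ae_restrict_of_ae (ae_dst n)] with y hy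
    rw [Real.norm_of_nonneg (KR_nn _ _ _)]
    exact KR_le hc _ hy
  · filter_upwards [ae_restrict_of_ae (ae_dst n)] with y hy
    refine (KR_lim c hy).comp ?_
    exact tendsto_const_nhds.div_atTop tendsto_id

lemma Cn_pos (n : ℕ) (hn : 1 ≤ n) {c : ℝ} (hc : 0 ≤ c) (hc1 : c * n < 1) : 0 < Cn c n := by
  unfold Cn
  rw [setIntegral_pos_iff_support_of_nonneg_ae (Eventually.of_forall fun y => KR_nn c 0 y) (KR_int_e n hn hc hc1)]
  set U : Set (Fin n → ℝ) := {x | 1 < ‖x‖ ∧ ‖x‖ < Real.exp 1} with hU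
  have hUo : IsOpen U := (isOpen_lt continuous_const continuous_norm).inter (isOpen_lt continuous_norm continuous_const)
  have h2 : (2:ℝ) < Real.exp 1 := by
    have := Real.exp_one_gt_d9
    linarith
  have hUn : U.Nonempty := by
    haveI : Nonempty (Fin n) := ⟨⟨0, by omega⟩⟩
    refine ⟨fun _ => 2, ?_⟩
    have h3 : ‖(fun _ : Fin n => (2:ℝ))‖ = 2 := by
      rw [pi_norm_const]
      norm_num
    constructor
    · rw [h3]
      norm_num
    · rw [h3]
      exact h2
  have h4 : 0 < volume U := hUo.measure_pos volume hUn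
  have h5 : volume (U \ {y | Dst y}) = 0 := by
    have h6 := ae_dst n
    rw [ae_iff] at h6
    exact measure_mono_null (fun y hy => hy.2) h6
  have h7 : 0 < volume (U ∩ {y | Dst y}) := by
    by_contra hc0
    push Not at hc0
    have h8 : volume (U ∩ {y | Dst y}) = 0 := le_antisymm hc0 bot_le
    have h9 : volume U ≤ volume (U ∩ {y | Dst y}) + volume (U \ {y | Dst y}) := by
      refine (measure_mono ?_).trans (measure_union_le _ _)
      rw [Set.inter_union_diff]
    rw [h8, h5, add_zero] at h9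
    exact absurd h4 (not_lt.2 h9)
  refine lt_of_lt_of_le h7 (measure_mono fun y hy => ⟨?_, hy.1.1, hy.1.2.le⟩)
  rw [Function.mem_support]
  exact (KR_pos c 0 hy.2).ne'

/-- the integral of the density over large balls -/
lemma II_log (n : ℕ) (hn : 1 ≤ n) {c : ℝ} (hc : c * (n + 1) = 1) :
    Tendsto (fun R : ℝ => II c n R / Real.log R) atTop (𝓝 (Cn c n)) := by
  have hn0 : (0:ℝ) < n := by exact_mod_cast hn
  have hc0 : 0 ≤ c := by
    by_contra h
    push Not at h
    nlinarith
  have hcp : 0 < c := by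
    rcases hc0.lt_or_eq with h | h
    · exact h
    · rw [← h] at hc
      linarith [hc]
  have hc1 : c * n < 1 := by linarith
  set g : ℝ → ℝ := fun t => II c n (Real.exp t) with hg
  have hinc : Tendsto (fun t : ℝ => g (t + 1) - g t) atTop (𝓝 (Cn c n)) := by
    refine ((inc_lim n hn hc0 hc1).comp Real.tendsto_exp_atTop).congr fun t => ?_
    show ∫ y in Shl n (Real.exp 1), KR c (1 / Real.exp t) y = g (t + 1) - g t
    rw [hg]
    simp only
    rw [add_comm t 1, Real.exp_add, II_inc hc (Real.exp_pos t) (Real.one_le_exp zero_le_one)]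
  have hces := (hinc.comp tendsto_natCast_atTop_atTop).cesaro
  have h1 : Tendsto (fun N : ℕ => g N / N) atTop (𝓝 (Cn c n)) := by
    have h2 : Tendsto (fun N : ℕ => g 0 / (N:ℝ)) atTop (𝓝 0) := tendsto_const_div_atTop_nhds_zero_nat _
    have h3 := hces.add h2
    rw [add_zero] at h3
    refine h3.congr fun N => ?_
    have h4 : ∑ i ∈ range N, ((fun t : ℝ => g (t + 1) - g t) ∘ (Nat.cast : ℕ → ℝ)) i = g N - g 0 := by
      have h5 := Finset.sum_range_sub (fun i : ℕ => g (i:ℝ)) N
      rw [Nat.cast_zero] at h5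
      rw [← h5]
      refine Finset.sum_congr rfl fun i _ => ?_
      simp
    rw [h4]
    ring
  have h2 : Tendsto (fun t : ℝ => g (⌊t⌋₊ : ℝ) / t) atTop (𝓝 (Cn c n)) := by
    have h3 := (h1.comp tendsto_nat_floor_atTop).mul (tendsto_nat_floor_div_atTop (R := ℝ))
    rw [mul_one] at h3
    refine h3.congr' ?_
    filter_upwards [eventually_ge_atTop 1] with t ht
    have h4 : (0:ℝ) < (⌊t⌋₊ : ℝ) := by exact_mod_cast Nat.floor_pos.2 ht
    show g (⌊t⌋₊ : ℝ) / (⌊t⌋₊ : ℝ) * ((⌊t⌋₊ : ℝ) / t) = _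
    field_simp
  have h3 : Tendsto (fun t : ℝ => g ((⌊t⌋₊ : ℝ) + 1) / t) atTop (𝓝 (Cn c n)) := by
    have h4 : Tendsto (fun t : ℝ => g (((⌊t⌋₊ + 1 : ℕ) : ℝ)) / ((⌊t⌋₊ + 1 : ℕ) : ℝ)) atTop (𝓝 (Cn c n)) :=
      h1.comp ((tendsto_add_atTop_nat 1).comp tendsto_nat_floor_atTop)
    have h5 : Tendsto (fun t : ℝ => (⌊t⌋₊ : ℝ) / t + 1 / t) atTop (𝓝 1) := by
      have h6 : Tendsto (fun t : ℝ => 1 / t) atTop (𝓝 0) := tendsto_const_nhds.div_atTop tendsto_id
      have h7 := (tendsto_nat_floor_div_atTop (R := ℝ)).add h6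
      rwa [add_zero] at h7
    have h6 := h4.mul h5
    rw [mul_one] at h6
    refine h6.congr' ?_
    filter_upwards [eventually_ge_atTop 1] with t ht
    have h7 : (0:ℝ) < (⌊t⌋₊ : ℝ) + 1 := by positivity
    push_cast
    field_simp
  have h4 : Tendsto (fun t : ℝ => g t / t) atTop (𝓝 (Cn c n)) := by
    refine tendsto_of_tendsto_of_tendsto_of_le_of_le' h2 h3 ?_ ?_
    · filter_upwards [eventually_gt_atTop 0] with t ht
      refine div_le_div_of_nonneg_right ?_ ht.le
      exact II_mono c n (Real.exp_le_exp.2 (Nat.floor_le ht.le))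
    · filter_upwards [eventually_gt_atTop 0] with t ht
      refine div_le_div_of_nonneg_right ?_ ht.le
      exact II_mono c n (Real.exp_le_exp.2 (Nat.lt_floor_add_one t).le)
  refine (h4.comp Real.tendsto_log_atTop).congr' ?_
  filter_upwards [eventually_gt_atTop 0] with R hR
  show II c n (Real.exp (Real.log R)) / Real.log R = _
  rw [Real.exp_log hR]

end Run7.h772.MM
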