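import Pool.Agent.Run7.h772.MM.Zx

set_option autoImplicit false

/-!
# Moments of moments near the critical line: the near part in the critical case
-/

namespace Run7.h772.MM

open Finset Filter MeasureTheory Topology Complex
open Pool.Agent.N748.MG Pool.Agent.N748.MJ

/-- the exact form of the scaled product -/
lemma PZ_exact {δ k : ℝ} (h0 : 0 < δ) {n : ℕ} (x : Fin n → ℝ) :
    (2 * δ) ^ (((n + 1) * k) ^ 2) * PZ δ (k * k) (fun j => 2 * δ * hat x j) =
      (∏ j, ∏ l, ‖Z1 (((1 + 2 * δ : ℝ) : ℂ) + ((2 * δ * hat x j - 2 * δ * hat x l : ℝ) : ℂ) * I)‖ ^ (k * k)) *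
        DD (k * k) x := by
  rw [PZ_scaled h0]
  unfold DD
  rw [← Finset.prod_mul_distrib]
  refine Finset.prod_congr rfl fun j _ => ?_
  rw [← Finset.prod_mul_distrib]
  refine Finset.prod_congr rfl fun l _ => ?_
  have hu : ∀ u : ℝ, 2 * δ * Z δ (2 * δ * u) = ‖Z1 (((1 + 2 * δ : ℝ) : ℂ) + ((2 * δ * u : ℝ) : ℂ) * I)‖ *
      (1 + u ^ 2) ^ (-(1 / 2 : ℝ)) := by
    intro u
    rw [Z_eq (Or.inl h0), nr_scale h0]
    have h4 : (1 + u ^ 2) ^ (-(1 / 2 : ℝ)) = (Real.sqrt (1 + u ^ 2))⁻¹ := by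
      rw [Real.rpow_neg (by positivity), Real.sqrt_eq_rpow]
    have h5 : 0 < Real.sqrt (1 + u ^ 2) := Real.sqrt_pos.2 (by positivity)
    rw [h4]
    field_simp
  rw [hu, Real.mul_rpow (norm_nonneg _) (Real.rpow_nonneg (one_sq_pos _).le _), half_pow, mul_sub]
  rfl

/-- the ratio of the integrand and the limiting density -/
noncomputable def Psi (k : ℝ) {n : ℕ} (δ : ℝ) (v : Fin n → ℝ) : ℝ :=
  Ar k (hat v) * ∏ j, ∏ l, ‖Z1 (((1 + 2 * δ : ℝ) : ℂ) + ((hat v j - hat v l : ℝ) : ℂ) * I)‖ ^ (k * k)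

lemma Psi_cont (hC : S_CONV) (k : ℝ) (n : ℕ) : Continuous fun q : ℝ × (Fin n → ℝ) => Psi k q.1 q.2 := by
  unfold Psi
  have h1 : Continuous fun q : ℝ × (Fin n → ℝ) => hat q.2 := hat_cont.comp continuous_snd
  have h2 : ∀ j : Fin (n + 1), Continuous fun q : ℝ × (Fin n → ℝ) => hat q.2 j := fun j => (continuous_apply j).comp h1
  refine ((Ar_cont hC k (n + 1)).comp h1).mul ?_
  refine continuous_finsetProd _ fun j _ => continuous_finsetProd _ fun l _ => ?_
  refine Continuous.rpow_const ?_ fun q => Or.inr (mul_self_nonneg k)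
  refine (Z1_cont.comp ?_).norm
  have h3 : Continuous fun q : ℝ × (Fin n → ℝ) => hat q.2 j - hat q.2 l := (h2 j).sub (h2 l)
  exact (Complex.continuous_ofReal.comp (by fun_prop)).add ((Complex.continuous_ofReal.comp h3).mul continuous_const)

lemma Psi_zero (hA : S_AV0) (k : ℝ) (n : ℕ) : Psi k 0 (0 : Fin n → ℝ) = (aC (((n + 1 : ℕ) * k : ℝ) : ℂ)).re := by
  unfold Psi
  have h1 : hat (0 : Fin n → ℝ) = fun _ => (0:ℝ) := by
    funext j
    unfold hat
    refine Fin.cases ?_ (fun i => ?_) j <;> simp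
  rw [h1, Ar_zero hA]
  have h2 : ∏ _j : Fin (n + 1), ∏ _l : Fin (n + 1),
      ‖Z1 (((1 + 2 * 0 : ℝ) : ℂ) + (((0:ℝ) - 0 : ℝ) : ℂ) * I)‖ ^ (k * k) = 1 := by
    refine Finset.prod_eq_one fun j _ => Finset.prod_eq_one fun l _ => ?_
    simp [Z1_one]
  rw [h2, mul_one]

/-- the scaled integrand in terms of the density -/
lemma PS_exact {k δ H s : ℝ} (h0 : 0 < δ) {n : ℕ} {x : Fin n → ℝ} (hpos : ∀ j, H * s + 2 * δ * x j ∈ Set.Icc 0 H)
    (hsm : ∀ l, |2 * δ * hat x l| ≤ 1) : PS k δ H s x = Psi k δ ((2 * δ) • x) * DD (k * k) x := by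
  unfold PS
  rw [Set.indicator_of_mem (show (fun j => H * s + 2 * δ * x j) ∈ Set.univ.pi fun _ : Fin n => Set.Icc 0 H from
    fun j _ => hpos j)]
  show (2 * δ) ^ (((n + 1) * k) ^ 2) * FN k δ (Fin.cons (H * s) fun j => H * s + 2 * δ * x j) = _
  rw [cons_shift]
  unfold FN
  rw [Fr_zero (fun l => by rw [hat_diff]; exact hsm l), sub_zero, one_mul,
    WW_shift k δ (fun j => 2 * δ * hat x j) (H * s), WW_eq]
  have h1 : (fun j => 2 * δ * hat x j) = hat ((2 * δ) • x) := by
    funext j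
    rw [hat_smul]
  have h2 := PZ_exact (k := k) h0 x
  unfold Psi
  rw [← h1]
  calc (2 * δ) ^ (((n + 1) * k) ^ 2) * (Ar k (fun j => 2 * δ * hat x j) * PZ δ (k * k) (fun j => 2 * δ * hat x j))
      = Ar k (fun j => 2 * δ * hat x j) *
        ((2 * δ) ^ (((n + 1) * k) ^ 2) * PZ δ (k * k) (fun j => 2 * δ * hat x j)) := by ring
    _ = _ := by
        rw [h2]
        ring

/-- the support of the scaled integrand -/
lemma PS_zero {k δ H s : ℝ} (h0 : 0 < δ) (hH : 0 < H) (hs : s ∈ Set.Icc (0:ℝ) 1) {n : ℕ} {x : Fin n → ℝ}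
    (hx : x ∉ Bl n (min H 1 / (2 * δ))) : PS k δ H s x = 0 := by
  classical
  have h2 : (0:ℝ) < 2 * δ := by linarith
  unfold PS
  rw [Set.indicator_apply]
  split_ifs with hb
  · have h3 : ¬ ‖x‖ ≤ min H 1 / (2 * δ) := hx
    rw [pi_norm_le_iff_of_nonneg (by positivity)] at h3
    push Not at h3
    obtain ⟨i, hi⟩ := h3
    rw [Real.norm_eq_abs, div_lt_iff₀ h2] at hi
    have h4 : H * s + 2 * δ * x i ∈ Set.Icc 0 H := hb i (Set.mem_univ _)
    have h5 : |2 * δ * x i| = |x i| * (2 * δ) := by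
      rw [abs_mul, abs_of_pos h2, mul_comm]
    have h6 : |2 * δ * x i| ≤ H := by
      rw [abs_le]
      constructor <;> nlinarith [h4.1, h4.2, hs.1, hs.2]
    have h7 : 1 < |2 * δ * x i| := by
      rw [h5]
      rw [h5] at h6
      rcases min_lt_iff.1 hi with h8 | h8
      · linarith
      · exact h8
    rw [cons_shift]
    unfold FN
    have h8 : Fr (fun j => 2 * δ * hat x j + H * s) = 1 := by
      unfold Fr
      rw [if_pos]
      refine ⟨i.succ, ?_⟩
      rw [hat_diff]
      unfold hat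
      rw [Fin.cons_succ]
      exact h7
    rw [h8, sub_self, zero_mul, mul_zero]
  · rw [mul_zero]

/-- bounds of the near part -/
lemma near_bds (hP : S_POSV) (hC : S_CONV) (hA : S_AV0) (n : ℕ) (k : ℝ) (A : ℝ)
    (hAd : A = (aC (((n + 1 : ℕ) * k : ℝ) : ℂ)).re) (ε : ℝ) (hε : 0 < ε) (hεA : ε ≤ A) (hε1 : ε ≤ 1 / 4) :
    ∃ e0 C δ0 : ℝ, 0 < e0 ∧ e0 ≤ ε ∧ 0 < C ∧ 0 < δ0 ∧ δ0 ≤ 1 / 16 ∧ ∀ δ : ℝ, 0 < δ → δ ≤ δ0 → ∀ H : ℝ, 0 < H →
      (2 * δ) ^ (((n + 1) * k) ^ 2 - n) * (1 / H) * (∫ h, FN k δ h ∂(pn (n + 1) H)) ≤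
        (A + ε) * II (k * k) n (e0 * (min H 1 / (2 * δ))) +
          C * (II (k * k) n (min H 1 / (2 * δ)) - II (k * k) n (e0 * (min H 1 / (2 * δ)))) ∧
      (1 - 2 * ε) * ((A - ε) * II (k * k) n (e0 * (min H 1 / (2 * δ)))) ≤
        (2 * δ) ^ (((n + 1) * k) ^ 2 - n) * (1 / H) * (∫ h, FN k δ h ∂(pn (n + 1) H)) := by
  obtain ⟨C, hC0, hdom⟩ := PS_dom hP n k
  have h1 := Metric.continuousAt_iff.1 ((Psi_cont hC k n).continuousAt (x := ((0:ℝ), (0 : Fin n → ℝ)))) ε hε
  obtain ⟨r, hr, hr1⟩ := h1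
  set e0 : ℝ := min ε (r / 2) with he0
  have he00 : 0 < e0 := lt_min hε (by linarith)
  have he0ε : e0 ≤ ε := min_le_left _ _
  have he0r : e0 < r := by
    have := min_le_right ε (r / 2)
    linarith
  have he01 : e0 ≤ 1 := by linarith
  refine ⟨e0, C, min (1 / 16) (r / 2), he00, he0ε, hC0, lt_min (by norm_num) (by linarith), min_le_left _ _,
    fun δ g0 g1 H hH => ?_⟩
  have g2 : δ ≤ 1 / 16 := g1.trans (min_le_left _ _)
  have g3 : δ < r := by
    have := g1.trans (min_le_right _ _)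
    linarith
  have h2δ : (0:ℝ) < 2 * δ := by linarith
  set R : ℝ := min H 1 / (2 * δ) with hR
  have hR0 : 0 < R := by
    have : 0 < min H 1 := lt_min hH one_pos
    positivity
  have hRe : 2 * δ * R = min H 1 := by
    rw [hR]
    field_simp
  have hsub : Bl n (e0 * R) ⊆ Bl n R := fun x hx => le_trans (show ‖x‖ ≤ e0 * R from hx) (by nlinarith)
  -- the ratio
  have hΨ : ∀ x : Fin n → ℝ, x ∈ Bl n (e0 * R) → |Psi k δ ((2 * δ) • x) - A| ≤ ε := by
    intro x hx
    have h3 := @hr1 (δ, (2 * δ) • x) (by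
      rw [Prod.dist_eq]
      refine max_lt ?_ ?_
      · show dist δ 0 < r
        rw [Real.dist_eq, sub_zero, abs_of_pos g0]
        exact g3
      · show dist ((2 * δ) • x) 0 < r
        rw [dist_zero_right, norm_smul, Real.norm_of_nonneg h2δ.le]
        have h4 : ‖x‖ ≤ e0 * R := hx
        calc 2 * δ * ‖x‖ ≤ 2 * δ * (e0 * R) := mul_le_mul_of_nonneg_left h4 h2δ.le
          _ = e0 * min H 1 := by rw [← hRe]; ring
          _ ≤ e0 * 1 := mul_le_mul_of_nonneg_left (min_le_right _ _) he00.le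
          _ < r := by linarith)
    rw [Real.dist_eq, Psi_zero hA, ← hAd] at h3
    exact h3.le
  have hx1 : ∀ x : Fin n → ℝ, x ∈ Bl n (e0 * R) → ∀ i, |2 * δ * x i| ≤ e0 * min H 1 := by
    intro x hx i
    have h4 : ‖x‖ ≤ e0 * R := hx
    have h5 := (norm_le_pi_norm x i).trans h4
    rw [Real.norm_eq_abs] at h5
    rw [abs_mul, abs_of_pos h2δ]
    calc 2 * δ * |x i| ≤ 2 * δ * (e0 * R) := mul_le_mul_of_nonneg_left h5 h2δ.le
      _ = e0 * min H 1 := by rw [← hRe]; ring
  have hx2 : ∀ x : Fin n → ℝ, x ∈ Bl n (e0 * R) → ∀ l, |2 * δ * hat x l| ≤ 1 := by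
    intro x hx l
    unfold hat
    refine Fin.cases ?_ (fun i => ?_) l
    · simp
    · rw [Fin.cons_succ]
      refine (hx1 x hx i).trans ?_
      have := min_le_right H 1
      nlinarith
  have hDR := DD_ball (k * k) n R
  have hDr := DD_ball (k * k) n (e0 * R)
  have iR : Integrable ((Bl n R).indicator fun x : Fin n → ℝ => DD (k * k) x) := hDR.integrable_indicator (Bl_meas n R)
  have ir : Integrable ((Bl n (e0 * R)).indicator fun x : Fin n → ℝ => DD (k * k) x) :=
    hDr.integrable_indicator (Bl_meas n _)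
  -- upper bound
  have hup : ∀ s ∈ Set.Icc (0:ℝ) 1, ∫ x : Fin n → ℝ, PS k δ H s x ≤
      (A + ε) * II (k * k) n (e0 * R) + C * (II (k * k) n R - II (k * k) n (e0 * R)) := by
    intro s hs
    have h3 : ∫ x : Fin n → ℝ, ((A + ε) * (Bl n (e0 * R)).indicator (fun x : Fin n → ℝ => DD (k * k) x) x +
        C * ((Bl n R).indicator (fun x : Fin n → ℝ => DD (k * k) x) x -
          (Bl n (e0 * R)).indicator (fun x : Fin n → ℝ => DD (k * k) x) x)) =
        (A + ε) * II (k * k) n (e0 * R) + C * (II (k * k) n R - II (k * k) n (e0 * R)) := by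
      have iD : Integrable fun x : Fin n → ℝ => (Bl n R).indicator (fun x : Fin n → ℝ => DD (k * k) x) x -
          (Bl n (e0 * R)).indicator (fun x : Fin n → ℝ => DD (k * k) x) x := iR.sub ir
      rw [integral_add (ir.const_mul _) (iD.const_mul C), integral_const_mul, integral_const_mul,
        integral_sub iR ir, integral_indicator (Bl_meas n _), integral_indicator (Bl_meas n _)]
      rfl
    rw [← h3]
    refine integral_mono_of_nonneg (Eventually.of_forall fun x => (hdom δ g0 g2 H s x).1)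
      ((ir.const_mul _).add ((iR.sub ir).const_mul C)) (Eventually.of_forall fun x => ?_)
    show PS k δ H s x ≤ (A + ε) * (Bl n (e0 * R)).indicator (fun x : Fin n → ℝ => DD (k * k) x) x +
        C * ((Bl n R).indicator (fun x : Fin n → ℝ => DD (k * k) x) x -
          (Bl n (e0 * R)).indicator (fun x : Fin n → ℝ => DD (k * k) x) x)
    have hD := DD_pos (k * k) x
    by_cases h4 : x ∈ Bl n (e0 * R)
    · rw [Set.indicator_of_mem h4, Set.indicator_of_mem (hsub h4), sub_self, mul_zero, add_zero]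
      by_cases h5 : ∀ j, H * s + 2 * δ * x j ∈ Set.Icc 0 H
      · rw [PS_exact g0 h5 (hx2 x h4)]
        refine mul_le_mul_of_nonneg_right ?_ hD.le
        have := (abs_le.1 (hΨ x h4)).2
        linarith
      · have h6 : PS k δ H s x = 0 := by
          unfold PS
          rw [Set.indicator_of_notMem, mul_zero]
          intro h7
          exact h5 fun j => h7 j (Set.mem_univ _)
        rw [h6]
        have : 0 < A + ε := by linarith
        positivity
    · rw [Set.indicator_of_notMem h4, mul_zero, zero_add, sub_zero]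
      by_cases h5 : x ∈ Bl n R
      · rw [Set.indicator_of_mem h5]
        exact (hdom δ g0 g2 H s x).2
      · rw [Set.indicator_of_notMem h5, mul_zero, PS_zero g0 hH hs h5]
  have hmeas : AEStronglyMeasurable (fun s : ℝ => ∫ x : Fin n → ℝ, PS k δ H s x) volume :=
    ((PS_meas hC (k := k) g0 H n).stronglyMeasurable.integral_prod_right'
      (ν := (volume : Measure (Fin n → ℝ)))).aestronglyMeasurable
  have hnn : ∀ s : ℝ, 0 ≤ ∫ x : Fin n → ℝ, PS k δ H s x := fun s => integral_nonneg fun x => (hdom δ g0 g2 H s x).1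
  rw [near_eq hP hC g0 g2 n hH]
  set W : ℝ := (A + ε) * II (k * k) n (e0 * R) + C * (II (k * k) n R - II (k * k) n (e0 * R)) with hW
  constructor
  · have h3 := intervalIntegral.norm_integral_le_of_norm_le_const (a := (0:ℝ)) (b := 1) (C := W)
      (f := fun s : ℝ => ∫ x : Fin n → ℝ, PS k δ H s x) fun s hs => by
        rw [Set.uIoc_of_le zero_le_one] at hs
        rw [Real.norm_of_nonneg (hnn s)]
        exact hup s ⟨hs.1.le, hs.2⟩
    rw [sub_zero, abs_one, mul_one] at h3
    exact (le_abs_self _).trans h3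
  · have hlow : ∀ s ∈ Set.Icc e0 (1 - e0), (A - ε) * II (k * k) n (e0 * R) ≤ ∫ x : Fin n → ℝ, PS k δ H s x := by
      intro s hs
      have hs01 : s ∈ Set.Icc (0:ℝ) 1 := ⟨by linarith [hs.1], by linarith [hs.2]⟩
      have h3 : ∫ x : Fin n → ℝ, (A - ε) * (Bl n (e0 * R)).indicator (fun x : Fin n → ℝ => DD (k * k) x) x =
          (A - ε) * II (k * k) n (e0 * R) := by
        rw [integral_const_mul, integral_indicator (Bl_meas n _)]
        rfl
      rw [← h3]
      have iP : Integrable fun x : Fin n → ℝ => PS k δ H s x := by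
        refine (iR.const_mul C).mono' ((PS_meas hC g0 H n).comp
          (measurable_const.prodMk measurable_id)).aestronglyMeasurable (Eventually.of_forall fun x => ?_)
        rw [Real.norm_of_nonneg (hdom δ g0 g2 H s x).1]
        by_cases h5 : x ∈ Bl n R
        · rw [Set.indicator_of_mem h5]
          exact (hdom δ g0 g2 H s x).2
        · rw [Set.indicator_of_notMem h5, mul_zero, PS_zero g0 hH hs01 h5]
      refine integral_mono (ir.const_mul _) iP fun x => ?_
      show (A - ε) * (Bl n (e0 * R)).indicator (fun x : Fin n → ℝ => DD (k * k) x) x ≤ PS k δ H s x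
      by_cases h4 : x ∈ Bl n (e0 * R)
      · rw [Set.indicator_of_mem h4]
        have h5 : ∀ j, H * s + 2 * δ * x j ∈ Set.Icc 0 H := by
          intro j
          have h6 := abs_le.1 (hx1 x h4 j)
          have h7 : e0 * min H 1 ≤ e0 * H := mul_le_mul_of_nonneg_left (min_le_left _ _) he00.le
          constructor
          · nlinarith [h6.1, hs.1]
          · nlinarith [h6.2, hs.2]
        rw [PS_exact g0 h5 (hx2 x h4)]
        refine mul_le_mul_of_nonneg_right ?_ (DD_pos _ x).le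
        have := (abs_le.1 (hΨ x h4)).1
        linarith
      · rw [Set.indicator_of_notMem h4, mul_zero]
        exact (hdom δ g0 g2 H s x).1
    have hii : IntervalIntegrable (fun s : ℝ => ∫ x : Fin n → ℝ, PS k δ H s x) volume 0 1 := by
      rw [intervalIntegrable_iff]
      refine Measure.integrableOn_of_bounded (M := W) (by simp [Set.uIoc]) hmeas ?_
      filter_upwards [ae_restrict_mem measurableSet_uIoc] with s hs
      rw [Set.uIoc_of_le zero_le_one] at hs
      rw [Real.norm_of_nonneg (hnn s)]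
      exact hup s ⟨hs.1.le, hs.2⟩
    have hee : e0 ≤ 1 - e0 := by linarith
    have h4 : ∫ s in e0..(1 - e0), ∫ x : Fin n → ℝ, PS k δ H s x ≤ ∫ s in (0:ℝ)..1, ∫ x : Fin n → ℝ, PS k δ H s x :=
      intervalIntegral.integral_mono_interval he00.le hee (by linarith) (Eventually.of_forall hnn) hii
    refine le_trans ?_ h4
    have h5 : ∫ _s in e0..(1 - e0), (A - ε) * II (k * k) n (e0 * R) ≤
        ∫ s in e0..(1 - e0), ∫ x : Fin n → ℝ, PS k δ H s x := by
      refine intervalIntegral.integral_mono_on hee intervalIntegrable_const (hii.mono_set ?_) hlow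
      rw [Set.uIcc_of_le hee, Set.uIcc_of_le zero_le_one]
      exact Set.Icc_subset_Icc he00.le (by linarith)
    refine le_trans ?_ h5
    rw [intervalIntegral.integral_const, smul_eq_mul]
    refine mul_le_mul_of_nonneg_right (by linarith) (mul_nonneg (by linarith) (II_nn _ _ _))

/-- the near part in the critical case -/
lemma near_crit (hP : S_POSV) (hC : S_CONV) (hA : S_AV0) {d H : ℝ → ℝ} (hdp : ∀ᶠ T : ℝ in atTop, 0 < d T)
    (hd0 : Tendsto d atTop (𝓝 0)) (hHp : ∀ᶠ T : ℝ in atTop, 0 < H T)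
    (hΛ : Tendsto (fun T => Real.log (min (H T) 1 / d T)) atTop atTop) (n : ℕ) (hn : 1 ≤ n) (k : ℝ)
    (hk : k * k * (n + 1) = 1) :
    Tendsto (fun T : ℝ => ((2 * d T) ^ (((n + 1) * k) ^ 2 - n) * (1 / H T) * ∫ h, FN k (d T) h ∂(pn (n + 1) (H T))) /
      Real.log (min (H T) 1 / d T)) atTop (𝓝 ((aC (((n + 1 : ℕ) * k : ℝ) : ℂ)).re * Cn (k * k) n)) := by
  set A : ℝ := (aC (((n + 1 : ℕ) * k : ℝ) : ℂ)).re with hAd
  have hA0 : 0 < A := Run7.h42.WN.aC_pos _
  have hkk : 0 ≤ k * k := mul_self_nonneg k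
  have hn0 : (0:ℝ) < n := by exact_mod_cast hn
  have hkk1 : k * k * n < 1 := by
    have : 0 < k * k := by
      rcases hkk.lt_or_eq with h | h
      · exact h
      · rw [← h] at hk
        linarith [hk]
    linarith
  set c : ℝ := Cn (k * k) n with hc
  have hc0 : 0 < c := Cn_pos n hn hkk hkk1
  -- the integrals over the balls
  have hII : ∀ e : ℝ, 0 < e → Tendsto (fun T => II (k * k) n (e * (min (H T) 1 / (2 * d T))) /
      Real.log (min (H T) 1 / d T)) atTop (𝓝 c) := by
    intro e he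
    have hm : ∀ᶠ T : ℝ in atTop, 0 < min (H T) 1 / d T := by
      filter_upwards [hdp, hHp] with T g1 g2
      have : 0 < min (H T) 1 := lt_min g2 one_pos
      positivity
    have h1 : ∀ᶠ T : ℝ in atTop, Real.log (e * (min (H T) 1 / (2 * d T))) =
        Real.log (min (H T) 1 / d T) + Real.log (e / 2) := by
      filter_upwards [hdp, hm] with T g1 g2
      rw [← Real.log_mul g2.ne' (by positivity)]
      congr 1
      ring
    have h2 : Tendsto (fun T => Real.log (e * (min (H T) 1 / (2 * d T)))) atTop atTop :=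
      (tendsto_atTop_add_const_right _ (Real.log (e / 2)) hΛ).congr' (h1.mono fun T h => h.symm)
    have h3 : Tendsto (fun T => e * (min (H T) 1 / (2 * d T))) atTop atTop := by
      have h4 := Real.tendsto_exp_atTop.comp h2
      refine h4.congr' ?_
      filter_upwards [hdp, hHp] with T g1 g2
      have : 0 < min (H T) 1 := lt_min g2 one_pos
      exact Real.exp_log (by positivity)
    have h5 := (II_log n hn hk).comp h3
    have h6 : Tendsto (fun T => Real.log (e * (min (H T) 1 / (2 * d T))) / Real.log (min (H T) 1 / d T)) atTop (𝓝 1) := by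
      have h7 : Tendsto (fun T => 1 + Real.log (e / 2) / Real.log (min (H T) 1 / d T)) atTop (𝓝 1) := by
        have h8 : Tendsto (fun T => Real.log (e / 2) / Real.log (min (H T) 1 / d T)) atTop (𝓝 0) :=
          tendsto_const_nhds.div_atTop hΛ
        have h9 := h8.const_add 1
        rwa [add_zero] at h9
      refine h7.congr' ?_
      filter_upwards [h1, hΛ.eventually_gt_atTop 0] with T g1 g2
      rw [g1]
      field_simp
    have h7 := h5.mul h6
    rw [mul_one] at h7
    refine h7.congr' ?_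
    filter_upwards [h2.eventually_gt_atTop 0, hΛ.eventually_gt_atTop 0] with T g1 g2
    show II (k * k) n (e * (min (H T) 1 / (2 * d T))) / Real.log (e * (min (H T) 1 / (2 * d T))) *
      (Real.log (e * (min (H T) 1 / (2 * d T))) / Real.log (min (H T) 1 / d T)) = _
    exact div_mul_div_cancel₀ g1.ne'
  rw [Metric.tendsto_nhds]
  intro η hη
  set ε : ℝ := min (min (A / 2) (1 / 4)) (η / (2 * (1 + 2 * A) * (c + 1))) with hε
  have hε0 : 0 < ε := by
    rw [hε]
    refine lt_min (lt_min (by linarith) (by norm_num)) (by positivity)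
  have hεA : ε ≤ A := (min_le_left _ _).trans ((min_le_left _ _).trans (by linarith))
  have hε4 : ε ≤ 1 / 4 := (min_le_left _ _).trans (min_le_right _ _)
  have hεη : ε * (1 + 2 * A) * c < η := by
    have h1 : ε ≤ η / (2 * (1 + 2 * A) * (c + 1)) := min_le_right _ _
    rw [le_div_iff₀ (by positivity)] at h1
    have h2 : 0 < ε * (1 + 2 * A) := by positivity
    nlinarith
  obtain ⟨e0, C, δ0, he0, he0ε, hC0, hδ0, hδ0', hb⟩ := near_bds hP hC hA n k A hAd ε hε0 hεA hε4
  have l1 : Tendsto (fun T => ((A + ε) * II (k * k) n (e0 * (min (H T) 1 / (2 * d T))) +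
      C * (II (k * k) n (1 * (min (H T) 1 / (2 * d T))) - II (k * k) n (e0 * (min (H T) 1 / (2 * d T))))) /
      Real.log (min (H T) 1 / d T)) atTop (𝓝 ((A + ε) * c)) := by
    have h1 := (hII e0 he0).const_mul (A + ε)
    have h2 := ((hII 1 one_pos).sub (hII e0 he0)).const_mul C
    rw [sub_self, mul_zero] at h2
    have h3 := h1.add h2
    rw [add_zero] at h3
    refine h3.congr fun T => ?_
    ring
  have l2 : Tendsto (fun T => ((1 - 2 * ε) * ((A - ε) * II (k * k) n (e0 * (min (H T) 1 / (2 * d T))))) /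
      Real.log (min (H T) 1 / d T)) atTop (𝓝 ((1 - 2 * ε) * (A - ε) * c)) := by
    have h1 := (hII e0 he0).const_mul ((1 - 2 * ε) * (A - ε))
    refine h1.congr fun T => ?_
    ring
  have b1 : (A + ε) * c < A * c + η := by nlinarith
  have b2 : A * c - η < (1 - 2 * ε) * (A - ε) * c := by
    have h1 : (1 - 2 * ε) * (A - ε) * c = A * c - ε * (1 + 2 * A) * c + 2 * ε ^ 2 * c := by ring
    have h2 : 0 < 2 * ε ^ 2 * c := by positivity
    rw [h1]
    linarith
  filter_upwards [hdp, hHp, hd0.eventually_le_const hδ0, hΛ.eventually_gt_atTop 0, l1.eventually_lt_const b1,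
    l2.eventually_const_lt b2] with T g1 g2 g3 g4 g5 g6
  obtain ⟨k1, k2⟩ := hb (d T) g1 g3 (H T) g2
  rw [one_mul] at g5
  have k3 := div_le_div_of_nonneg_right k1 g4.le
  have k4 := div_le_div_of_nonneg_right k2 g4.le
  rw [Real.dist_eq, abs_lt]
  constructor
  · linarith
  · linarith

end Run7.h772.MM
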