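import Pool.Agent.Run7.h772.MM.Zy

set_option autoImplicit false

/-!
# Moments of moments near the critical line: the critical case
-/

namespace Run7.h772.MM

open Finset Filter MeasureTheory Topology Complex
open Pool.Agent.N748.MG Pool.Agent.N748.MJ

/-- the points at mutual distances larger than 1: a bound for all windows of length at least 1 -/
lemma NI_bd (hP : S_POSV) (n : ℕ) (k : ℝ) : ∃ C : ℝ, 0 < C ∧ ∀ δ : ℝ, 0 < δ → δ ≤ 1 / 16 → ∀ H : ℝ, 1 ≤ H →
    (2 * δ) ^ (k * k * (n + 1)) * (1 / H) ^ (n + 1) * (∫ h : Fin (n + 1) → ℝ, NI h * WW k δ h ∂(pn (n + 1) H)) ≤ C := by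
  have hkk : 0 ≤ k * k := mul_self_nonneg k
  obtain ⟨c2, C2, hc2, hC2, h2⟩ := aV_bd hP (n + 1) k
  obtain ⟨C3, hC3, h3⟩ := VV_int n (k * k) hkk
  refine ⟨2 ^ (k * k * (n + 1)) * (C2 * C3), by positivity, fun δ g0 g1 H hH => ?_⟩
  have hH0 : 0 < H := by linarith
  have hz : 0 ≤ Z δ 0 ^ (k * k * (n + 1)) := Zp_nn _ _ _
  have hbV := fun h : Fin (n + 1) → ℝ => VV_bd g0 g1 hkk h
  set BB : ℝ := ((1 / δ) ^ (k * k)) ^ (Fintype.card (Fin (n + 1) × Fin n)) with hBB
  have iV : Integrable (fun h : Fin (n + 1) → ℝ => VV δ (k * k) h) (pn (n + 1) H) :=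
    int_bdd (VV_meas g0 n) BB fun h => by
      rw [abs_of_nonneg (VV_nn _ _ _)]
      exact hbV h
  have e1 : ∫ h : Fin (n + 1) → ℝ, NI h * WW k δ h ∂(pn (n + 1) H) ≤
      C2 * Z δ 0 ^ (k * k * (n + 1)) * ∫ h : Fin (n + 1) → ℝ, VV δ (k * k) h ∂(pn (n + 1) H) := by
    rw [← integral_const_mul]
    refine integral_mono_of_nonneg (Eventually.of_forall fun h => NIW_nn hP g0.le h) (iV.const_mul _)
      (Eventually.of_forall fun h => ?_)
    show NI h * WW k δ h ≤ C2 * Z δ 0 ^ (k * k * (n + 1)) * VV δ (k * k) h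
    have hV := VV_nn δ (k * k) h
    unfold NI
    split_ifs with h5
    · rw [one_mul, WW_eq]
      have h6 : UU δ (k * k) h = 1 := by
        unfold UU
        refine Finset.prod_eq_one fun q _ => ?_
        unfold ub
        rw [if_neg (not_le.2 (h5 q.1 q.2)), Real.one_rpow]
      have h7 := PZ_UV (δ := δ) hkk h
      rw [h6, one_mul] at h7
      calc Ar k h * PZ δ (k * k) h ≤ C2 * (Z δ 0 ^ (k * k * (n + 1)) * VV δ (k * k) h) :=
            mul_le_mul (h2 h).2 h7 (PZ_pos g0.le h).le hC2.le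
        _ = _ := by ring
    · rw [zero_mul]
      exact mul_nonneg (mul_nonneg hC2.le hz) hV
  have e7 : (2 * δ) ^ (k * k * (n + 1)) * Z δ 0 ^ (k * k * (n + 1)) ≤ 2 ^ (k * k * (n + 1)) := by
    rw [← Real.mul_rpow (by linarith) (Z_nn _ _)]
    refine Real.rpow_le_rpow (mul_nonneg (by linarith) (Z_nn _ _)) ?_ (by positivity)
    have g2 := Z_le_inv g0 g1 0
    calc 2 * δ * Z δ 0 ≤ 2 * δ * (1 / δ) := mul_le_mul_of_nonneg_left g2 (by linarith)
      _ = 2 := by field_simp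
  have hpre : 0 ≤ (2 * δ) ^ (k * k * (n + 1)) * (1 / H) ^ (n + 1) := by positivity
  calc (2 * δ) ^ (k * k * (n + 1)) * (1 / H) ^ (n + 1) * (∫ h : Fin (n + 1) → ℝ, NI h * WW k δ h ∂(pn (n + 1) H))
      ≤ (2 * δ) ^ (k * k * (n + 1)) * (1 / H) ^ (n + 1) * (C2 * Z δ 0 ^ (k * k * (n + 1)) * (C3 * H ^ (n + 1))) := by
        refine mul_le_mul_of_nonneg_left (e1.trans ?_) hpre
        exact mul_le_mul_of_nonneg_left (h3 δ g0 g1 H hH) (mul_nonneg hC2.le hz)
    _ = ((2 * δ) ^ (k * k * (n + 1)) * Z δ 0 ^ (k * k * (n + 1))) * (C2 * C3) := by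
        rw [one_div, inv_pow]
        field_simp
    _ ≤ 2 ^ (k * k * (n + 1)) * (C2 * C3) := mul_le_mul_of_nonneg_right e7 (by positivity)

/-- the far part in the critical case -/
lemma far_crit (hP : S_POSV) (hC : S_CONV) (n : ℕ) (hn : 1 ≤ n) (k : ℝ) (hκ : k * k * (n + 1) = 1)
    (ε : ℝ) (hε : 0 < ε) : ∃ δ0 Λ0 : ℝ, 0 < δ0 ∧ δ0 ≤ 1 / 16 ∧ 0 < Λ0 ∧ ∀ δ : ℝ, 0 < δ → δ ≤ δ0 → ∀ H : ℝ, 0 < H →
    ∀ Λ : ℝ, Λ0 ≤ Λ →
    |(2 * δ) ^ (k * k * (n + 1)) * (1 / H) ^ (n + 1) * (∫ h : Fin (n + 1) → ℝ, Fr h * WW k δ h ∂(pn (n + 1) H)) -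
      (aC (k:ℂ)).re ^ (n + 1)| ≤ ε * (1 + Λ * (1 / H) ^ n) := by
  have hkk : 0 ≤ k * k := mul_self_nonneg k
  have hn1 : (1:ℝ) ≤ n := by exact_mod_cast hn
  have ha0 : 0 < (aC (k:ℂ)).re := Run7.h42.WN.aC_pos k
  set a : ℝ := (aC (k:ℂ)).re with ha
  set p : ℝ := 1 + 1 / (2 * n) with hp
  have hp1 : 1 < p := by
    rw [hp]
    have : (0:ℝ) < 1 / (2 * n) := by positivity
    linarith
  have hsN : k * k * p * n = k * k * (n + 1 / 2) := by
    rw [hp]
    field_simp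
  set sN : ℝ := k * k * p * n with hsNd
  have hkk0 : 0 < k * k := by
    by_contra hc
    have h0 : k * k = 0 := le_antisymm (not_lt.1 hc) hkk
    rw [h0] at hκ
    linarith
  have hsN1 : sN < 1 := by
    rw [hsN]
    nlinarith
  have hsN0 : 0 ≤ sN := by rw [hsN]; positivity
  obtain ⟨C1, hC1, h1⟩ := gb1_int0 sN hsN0
  obtain ⟨C2, hC2, h2⟩ := near_sub sN hsN0 hsN1
  obtain ⟨C3, hC3, h3⟩ := I_gen hP hC n n k p hp1
  obtain ⟨C4, hC4, h4⟩ := NI_bd hP n k
  obtain ⟨H0, δ1, hH0, hδ1, hδ1', hGM⟩ := GM hP hC n k (ε / 2) (by positivity)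
  set B : ℝ := C1 * C2 with hB
  have hB0 : 0 < B := by positivity
  have hG : ∀ δ : ℝ, 0 < δ → δ ≤ 1 / 16 → ∀ H : ℝ, 0 < H → ∫ y in (-H)..H, gb1 δ sN y ≤ B := fun δ g0 g1 H hH =>
    (h1 δ g0 g1 H hH.le).trans (mul_le_mul_of_nonneg_left (h2 δ g0 g1) hC1.le)
  have hp2 : 0 < 1 / p := by positivity
  -- the limit in `H`
  have l2 : Tendsto (fun H : ℝ => C3 * ((2 * B + 1) / H) ^ (1 / p)) atTop (𝓝 0) := by
    have h5 : Tendsto (fun H : ℝ => (2 * B + 1) / H) atTop (𝓝 0) := tendsto_const_nhds.div_atTop tendsto_id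
    have h6 := (h5.rpow_const (p := 1 / p) (Or.inr hp2.le)).const_mul C3
    rwa [Real.zero_rpow hp2.ne', mul_zero] at h6
  obtain ⟨H1, hH1⟩ := Filter.eventually_atTop.1 (l2.eventually_le_const (by positivity : 0 < ε / 2))
  set HH : ℝ := max (max H0 B) (max H1 1) with hHH
  have q1 : H0 ≤ HH := (le_max_left _ _).trans (le_max_left _ _)
  have q2 : B ≤ HH := (le_max_right _ _).trans (le_max_left _ _)
  have q3 : H1 ≤ HH := (le_max_left _ _).trans (le_max_right _ _)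
  have q4 : 1 ≤ HH := (le_max_right _ _).trans (le_max_right _ _)
  set C7 : ℝ := C4 + C3 * (1 * (1 + B ^ n) + 1) ^ (1 / p) with hC7
  have hC70 : 0 < C7 := by positivity
  refine ⟨δ1, (C7 + a ^ (n + 1)) * HH ^ n / ε, hδ1, hδ1', by positivity, fun δ g0 g1 H hH Λ hΛ => ?_⟩
  have g4 : δ ≤ 1 / 16 := g1.trans hδ1'
  have hΛ0 : 0 < Λ := lt_of_lt_of_le (by positivity) hΛ
  rw [div_le_iff₀ hε] at hΛ
  -- the splitting
  have iN := NIW_int hP hC (k := k) g0 n H
  have iF := FrWW_int hP hC (k := k) g0 g4 n H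
  have iw : Integrable (fun h : Fin (n + 1) → ℝ => wF h * WW k δ h) (pn (n + 1) H) := by
    refine (iF.sub iN).congr (Eventually.of_forall fun h => ?_)
    show Fr h * WW k δ h - NI h * WW k δ h = wF h * WW k δ h
    rw [Fr_NI hn h]
    ring
  have hsp : ∫ h : Fin (n + 1) → ℝ, Fr h * WW k δ h ∂(pn (n + 1) H) =
      (∫ h : Fin (n + 1) → ℝ, NI h * WW k δ h ∂(pn (n + 1) H)) + ∫ h : Fin (n + 1) → ℝ, wF h * WW k δ h ∂(pn (n + 1) H) := by
    rw [← integral_add iN iw]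
    refine integral_congr_ae (Eventually.of_forall fun h => ?_)
    show Fr h * WW k δ h = NI h * WW k δ h + wF h * WW k δ h
    rw [Fr_NI hn h]
    ring
  set κ : ℝ := k * k * (n + 1) with hκd
  have hw0 : 0 ≤ (2 * δ) ^ κ * (1 / H) ^ (n + 1) * ∫ h : Fin (n + 1) → ℝ, wF h * WW k δ h ∂(pn (n + 1) H) := by
    refine mul_nonneg (by positivity) (integral_nonneg fun h => ?_)
    exact mul_nonneg ((wF_reg n).nn h) (WW_pos hP g0.le h).le
  have hYn : 0 < Λ * (1 / H) ^ n := by positivity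
  have hap : 0 < a ^ (n + 1) := by positivity
  rcases lt_or_ge H 1 with hc1 | hc1
  · -- short windows: nothing is far
    have h5 : ∫ h : Fin (n + 1) → ℝ, Fr h * WW k δ h ∂(pn (n + 1) H) = 0 := by
      refine integral_eq_zero_of_ae ?_
      filter_upwards [pn_ae (n + 1) H] with h hh
      have h6 : Fr h = 0 := Fr_zero fun l => by
        rw [abs_le]
        constructor <;> linarith [(hh l).1, (hh l).2, (hh 0).1, (hh 0).2]
      rw [h6, zero_mul]
      rfl
    rw [h5, mul_zero, zero_sub, abs_neg, abs_of_pos hap]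
    have h6 : 1 ≤ (1 / H) ^ n := one_le_pow₀ (by rw [le_div_iff₀ hH]; linarith)
    have h7 : 1 ≤ HH ^ n := one_le_pow₀ q4
    have h8 : a ^ (n + 1) ≤ Λ * ε := by
      refine le_trans ?_ hΛ
      nlinarith
    have h9 : Λ * ε ≤ Λ * ε * (1 / H) ^ n := by
      have : 0 < Λ * ε := by positivity
      nlinarith
    nlinarith
  · have hNI := h4 δ g0 g4 H hc1
    have hNI0 : 0 ≤ (2 * δ) ^ κ * (1 / H) ^ (n + 1) * ∫ h : Fin (n + 1) → ℝ, NI h * WW k δ h ∂(pn (n + 1) H) := by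
      refine mul_nonneg (by positivity) (integral_nonneg fun h => NIW_nn hP g0.le h)
    rcases le_total H HH with hc2 | hc2
    · -- bounded windows
      have hwF := h3 δ g0 g4 H hc1 wF wF_meas (wF_reg n) 1 B zero_le_one le_rfl hB0.le (by
        refine (hG δ g0 g4 H hH).trans ?_
        nlinarith)
      have h5 : C3 * (1 * (1 + B ^ n) + 1 / H) ^ (1 / p) ≤ C3 * (1 * (1 + B ^ n) + 1) ^ (1 / p) := by
        refine mul_le_mul_of_nonneg_left (Real.rpow_le_rpow (by positivity) ?_ hp2.le) hC3.le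
        have : 1 / H ≤ 1 := by
          rw [div_le_one hH]
          exact hc1
        linarith
      have h6 : (2 * δ) ^ κ * (1 / H) ^ (n + 1) * (∫ h : Fin (n + 1) → ℝ, Fr h * WW k δ h ∂(pn (n + 1) H)) ≤ C7 := by
        rw [hsp, mul_add]
        linarith
      have h7 : 0 ≤ (2 * δ) ^ κ * (1 / H) ^ (n + 1) * (∫ h : Fin (n + 1) → ℝ, Fr h * WW k δ h ∂(pn (n + 1) H)) := by
        rw [hsp, mul_add]
        linarith
      have h8 : C7 + a ^ (n + 1) ≤ ε * (Λ * (1 / H) ^ n) := by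
        have h9 : H ^ n ≤ HH ^ n := pow_le_pow_left₀ hH.le hc2 n
        have h10 : (C7 + a ^ (n + 1)) * H ^ n ≤ Λ * ε :=
          (mul_le_mul_of_nonneg_left h9 (by positivity)).trans hΛ
        have h11 : (C7 + a ^ (n + 1)) = (C7 + a ^ (n + 1)) * H ^ n * (1 / H) ^ n := by
          rw [mul_assoc, ← mul_pow, mul_one_div_cancel hH.ne', one_pow, mul_one]
        rw [h11]
        calc (C7 + a ^ (n + 1)) * H ^ n * (1 / H) ^ n ≤ Λ * ε * (1 / H) ^ n :=
              mul_le_mul_of_nonneg_right h10 (by positivity)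
          _ = ε * (Λ * (1 / H) ^ n) := by ring
      rw [abs_le]
      constructor <;> linarith
    · -- long windows
      have hwF := h3 δ g0 g4 H hc1 wF wF_meas (wF_reg n) (B / H) 1 (by positivity) (by
        rw [div_le_one hH]
        exact q2.trans hc2) zero_le_one (by
        refine (hG δ g0 g4 H hH).trans (le_of_eq ?_)
        field_simp)
      have h5 : B / H * (1 + 1 ^ n) + 1 / H = (2 * B + 1) / H := by
        rw [one_pow]
        ring
      rw [h5] at hwF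
      have h6 := hwF.trans (hH1 H (q3.trans hc2))
      have h7 := hGM δ g0 g1 H (q1.trans hc2)
      unfold EN at h7
      rw [← hκd] at h7
      rw [abs_le] at h7
      rw [hsp, mul_add, abs_le]
      have h8 : 0 < ε * (Λ * (1 / H) ^ n) := by positivity
      constructor
      · linarith [h7.1]
      · linarith [h7.2]

/-- the critical case, all windows -/
theorem critall (hS : S_SM) (hP : S_POSV) (hC : S_CONV) (hA : S_AV0) {d H : ℝ → ℝ} (hd : Ad d)
    (hHd : Tendsto (fun T => H T / d T) atTop atTop) (hH1 : ∀ᶠ T : ℝ in atTop, H T ≤ T ^ ((1:ℝ) / 2)) (n : ℕ) (hn : 1 ≤ n)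
    (k V : ℝ) (hk : 0 < k) (hV : (n + 1) * k < V) (hκ : k * k * (n + 1) = 1) :
    Tendsto (fun T : ℝ => (2 * d T) ^ (k * k * (n + 1)) * MoM k V (n + 1) (d T) (H T) T /
      ((aC (k:ℂ)).re ^ (n + 1) + ((aC (((n + 1 : ℕ) * k : ℝ) : ℂ)).re * Cn (k * k) n) *
        (Real.log (min (H T) 1 / d T) * (1 / H T) ^ n))) atTop (𝓝 1) := by
  have hdp := hd.pos
  have hd0 := hd.t0
  have hHp : ∀ᶠ T : ℝ in atTop, 0 < H T := by
    filter_upwards [hHd.eventually_gt_atTop 0, hdp] with T g1 g2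
    have := mul_pos g1 g2
    rwa [div_mul_cancel₀ _ g2.ne'] at this
  have hd0' : Tendsto d atTop (𝓝[>] 0) := tendsto_nhdsWithin_iff.2 ⟨hd0, hdp⟩
  have hΛ : Tendsto (fun T => Real.log (min (H T) 1 / d T)) atTop atTop := by
    refine Real.tendsto_log_atTop.comp ?_
    have h1 : Tendsto (fun T => (d T)⁻¹) atTop atTop := tendsto_inv_nhdsGT_zero.comp hd0'
    rw [tendsto_atTop] at h1 hHd ⊢
    intro b
    filter_upwards [h1 b, hHd b, hdp] with T g1 g2 g3
    rcases le_total (H T) 1 with h2 | h2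
    · rw [min_eq_left h2]
      exact g2
    · rw [min_eq_right h2, one_div]
      exact g1
  have hkk : 0 ≤ k * k := mul_self_nonneg k
  have hn0 : (0:ℝ) < n := by exact_mod_cast hn
  have hkk1 : k * k * n < 1 := by
    have : 0 < k * k := by positivity
    linarith
  set κ : ℝ := k * k * (n + 1) with hκd
  set a : ℝ := (aC (k:ℂ)).re with ha
  have ha0 : 0 < a := Run7.h42.WN.aC_pos k
  set B : ℝ := (aC (((n + 1 : ℕ) * k : ℝ) : ℂ)).re * Cn (k * k) n with hB
  have hB0 : 0 < B := mul_pos (Run7.h42.WN.aC_pos _) (Cn_pos n hn hkk hkk1)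
  set Y : ℝ → ℝ := fun T => Real.log (min (H T) 1 / d T) * (1 / H T) ^ n with hY
  set c0 : ℝ := min (a ^ (n + 1)) B with hc0
  have hc00 : 0 < c0 := lt_min (by positivity) hB0
  set D : ℝ → ℝ := fun T => a ^ (n + 1) + B * Y T with hD
  have hYp : ∀ᶠ T : ℝ in atTop, 0 < Y T := by
    filter_upwards [hHp, hΛ.eventually_gt_atTop 0] with T g1 g2
    rw [hY]
    positivity
  have hDl : ∀ᶠ T : ℝ in atTop, c0 * (1 + Y T) ≤ D T := by
    filter_upwards [hYp] with T g1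
    have e1 : c0 ≤ a ^ (n + 1) := min_le_left _ _
    have e2 : c0 ≤ B := min_le_right _ _
    show c0 * (1 + Y T) ≤ a ^ (n + 1) + B * Y T
    nlinarith
  have hDp : ∀ᶠ T : ℝ in atTop, 0 < D T := by
    filter_upwards [hDl, hYp] with T g0 g1
    exact lt_of_lt_of_le (by positivity) g0
  have hnear := near_crit hP hC hA hdp hd0 hHp hΛ n hn k (by rw [← hκd]; exact hκ)
  have hd1 : ∀ᶠ T : ℝ in atTop, d T ≤ 1 / 16 := hd0.eventually_le_const (by norm_num)
  have hJ : Tendsto (fun T : ℝ => ((2 * d T) ^ κ / D T) * ((1 / H T) ^ (n + 1) * JJ k (d T) (n + 1) (H T))) atTop (𝓝 1) := by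
    rw [Metric.tendsto_nhds]
    intro ε hε
    set η : ℝ := ε * c0 / 3 with hη
    have hη0 : 0 < η := by positivity
    obtain ⟨δ0, Λ0, hδ0, hδ0', hΛ0, hfar⟩ := far_crit hP hC n hn k hκ η hη0
    have hnear' := (Metric.tendsto_nhds.1 hnear) η hη0
    filter_upwards [hDl, hDp, hdp, hHp, hd1, hd0.eventually_le_const hδ0, hnear', hΛ.eventually_ge_atTop Λ0, hYp,
      hΛ.eventually_gt_atTop 0] with T g1 g2 g3 g4 g5 g6 g7 g8 g9 g10
    rw [Real.dist_eq] at g7 ⊢
    have g11 := hfar (d T) g3 g6 (H T) g4 _ g8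
    rw [← hκd] at g11
    have hXe : XX κ (d T) (H T) = 1 / H T := by
      unfold XX
      rw [hκ, sub_self, Real.rpow_zero]
    set N : ℝ := (2 * d T) ^ (((n + 1) * k) ^ 2 - n) * (1 / H T) * ∫ h, FN k (d T) h ∂(pn (n + 1) (H T)) with hN
    have g12 : |(2 * d T) ^ κ * (1 / H T) ^ (n + 1) * JJ k (d T) (n + 1) (H T) - D T| ≤ η * Y T + η * (1 + Y T) := by
      rw [JJ_split hP hC g3 g5 n (H T), mul_add, norm_change g3 g4 n (∫ h, FN k (d T) h ∂(pn (n + 1) (H T))), ← hκd, hXe, ← hN]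
      have e1 : (1 / H T) ^ n * N +
          (2 * d T) ^ κ * (1 / H T) ^ (n + 1) * (∫ h : Fin (n + 1) → ℝ, Fr h * WW k (d T) h ∂(pn (n + 1) (H T))) - D T =
          Y T * (N / Real.log (min (H T) 1 / d T) - B) +
          ((2 * d T) ^ κ * (1 / H T) ^ (n + 1) * (∫ h : Fin (n + 1) → ℝ, Fr h * WW k (d T) h ∂(pn (n + 1) (H T))) -
            a ^ (n + 1)) := by
        have e2 : Y T * (N / Real.log (min (H T) 1 / d T)) = (1 / H T) ^ n * N := by
          simp only [hY]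
          field_simp
        rw [mul_sub, e2]
        simp only [hD]
        ring
      rw [e1]
      refine (abs_add_le _ _).trans (add_le_add ?_ g11)
      rw [abs_mul, abs_of_pos g9, mul_comm]
      exact mul_le_mul_of_nonneg_right g7.le g9.le
    have e2 : ((2 * d T) ^ κ / D T) * ((1 / H T) ^ (n + 1) * JJ k (d T) (n + 1) (H T)) - 1 =
        ((2 * d T) ^ κ * (1 / H T) ^ (n + 1) * JJ k (d T) (n + 1) (H T) - D T) / D T := by
      field_simp
    rw [e2, abs_div, abs_of_pos g2, div_lt_iff₀ g2]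
    have e3 : η * Y T + η * (1 + Y T) ≤ 2 * η * (1 + Y T) := by nlinarith
    have e4 : 2 * η * (1 + Y T) < ε * (c0 * (1 + Y T)) := by
      rw [hη]
      have : 0 < ε * (c0 * (1 + Y T)) := by positivity
      nlinarith
    have e5 : ε * (c0 * (1 + Y T)) ≤ ε * D T := mul_le_mul_of_nonneg_left g1 hε.le
    linarith
  have h2 := transfer hS hP hC hd hHp hH1 n k V hk hV (b := fun T => (2 * d T) ^ κ / D T) (by
    filter_upwards [hDp, hdp] with T g1 g2
    exact div_nonneg (Real.rpow_nonneg (by linarith) _) g1.le) hJ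
  refine h2.congr fun T => ?_
  ring

end Run7.h772.MM
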